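import Pool.Agent.Lib.MP_640417_ag.Frob.Car

/-!
# Derivations of the exterior algebra and the action of matrices
-/

namespace Pool.Agent.Lib.MP_640417_ag.Frob

open Module

variable {I : Type} [Fintype I] [DecidableEq I] {F : Type} [Field F] {n : ℕ}

private lemma CarB_DD_apply (A : Matrix I I F) (x : Lam I F n) :
    DD n A x = ∑ u, ∑ v, A u v • EE F n u v x := by
  simp only [DD, LinearMap.sum_apply, LinearMap.smul_apply]

private lemma CarB_Tn_apply (A : Matrix I I F) (f : Fin n × I → F) (p : Fin n × I) :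
    Tn n A f p = ∑ v, A p.2 v * f (p.1, v) := by
  simp only [Tn, LinearMap.pi_apply, LinearMap.sum_apply, LinearMap.smul_apply,
    LinearMap.proj_apply, smul_eq_mul]

private lemma CarB_Tn_single (A : Matrix I I F) (a : Fin n) (v : I) :
    Tn n A (Pi.single (a, v) (1 : F)) = ∑ u, A u v • Pi.single (a, u) (1 : F) := by
  funext p
  rw [CarB_Tn_apply, Finset.sum_apply]
  simp only [Pi.smul_apply, smul_eq_mul, Pi.single_apply]
  obtain ⟨b, w⟩ := p
  by_cases hb : b = a
  · subst hb
    simp
  · simp [hb]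

private lemma CarB_DD_cr (A : Matrix I I F) (a : Fin n) (w : I) (x : Lam I F n) :
    DD n A (cr F (a, w) x) =
      (∑ u, A u w • cr F (a, u) x) + cr F (a, w) (DD n A x) := by
  rw [CarB_DD_apply, CarB_DD_apply, map_sum, ← Finset.sum_add_distrib]
  refine Finset.sum_congr rfl fun u _ => ?_
  rw [map_sum]
  simp only [EE_cr, smul_add, Finset.sum_add_distrib, map_smul]
  rw [add_comm]
  congr 1
  rw [Finset.sum_eq_single w]
  · rw [if_pos rfl]
  · intro v _ hv
    rw [if_neg hv, smul_zero]
  · intro h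
    exact absurd (Finset.mem_univ w) h

/-- `DD n A` is a derivation extending `Tn n A`. -/
lemma DD_ι_mul (A : Matrix I I F) (f : Fin n × I → F) (x : Lam I F n) :
    DD n A (ExteriorAlgebra.ι F f * x)
      = ExteriorAlgebra.ι F (Tn n A f) * x + ExteriorAlgebra.ι F f * DD n A x := by
  have key : (DD n A) ∘ₗ (LinearMap.mulRight F x) ∘ₗ (ExteriorAlgebra.ι F (M := Fin n × I → F)) =
      (LinearMap.mulRight F x) ∘ₗ (ExteriorAlgebra.ι F (M := Fin n × I → F)) ∘ₗ (Tn n A) +
      (LinearMap.mulRight F (DD n A x)) ∘ₗ (ExteriorAlgebra.ι F (M := Fin n × I → F)) := by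
    refine LinearMap.pi_ext' fun p => LinearMap.ext_ring ?_
    obtain ⟨a, w⟩ := p
    have h := CarB_DD_cr A a w x
    simp only [cr_apply, ev] at h
    simp only [LinearMap.comp_apply, LinearMap.add_apply, LinearMap.mulRight_apply,
      LinearMap.single_apply, CarB_Tn_single, map_sum, map_smul, Finset.sum_mul,
      smul_mul_assoc]
    exact h
  have h := LinearMap.congr_fun key f
  simpa only [LinearMap.comp_apply, LinearMap.add_apply, LinearMap.mulRight_apply] using h

/-- The commutator of two derivations. -/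
lemma DD_comm (A B : Matrix I I F) (x : Lam I F n) :
    DD n A (DD n B x) - DD n B (DD n A x) = DD n (A * B - B * A) x := by
  have h1 : DD n A (DD n B x) = ∑ s, ∑ t, ∑ u, ∑ v, (A s t * B u v) •
      EE F n s t (EE F n u v x) := by
    rw [CarB_DD_apply A]
    refine Finset.sum_congr rfl fun s _ => Finset.sum_congr rfl fun t _ => ?_
    rw [CarB_DD_apply B, map_sum, Finset.smul_sum]
    refine Finset.sum_congr rfl fun u _ => ?_
    rw [map_sum, Finset.smul_sum]
    refine Finset.sum_congr rfl fun v _ => ?_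
    rw [map_smul, smul_smul]
  have h2 : DD n B (DD n A x) = ∑ s, ∑ t, ∑ u, ∑ v, (A s t * B u v) •
      EE F n u v (EE F n s t x) := by
    rw [CarB_DD_apply A, map_sum]
    refine Finset.sum_congr rfl fun s _ => ?_
    rw [map_sum]
    refine Finset.sum_congr rfl fun t _ => ?_
    rw [CarB_DD_apply B]
    refine Finset.sum_congr rfl fun u _ => ?_
    refine Finset.sum_congr rfl fun v _ => ?_
    rw [map_smul, smul_smul, mul_comm]
  rw [h1, h2]
  simp only [← Finset.sum_sub_distrib, ← smul_sub, EE_EE]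
  rw [CarB_DD_apply]
  simp only [Matrix.sub_apply, Matrix.mul_apply, sub_smul, Finset.sum_sub_distrib, smul_sub,
    smul_ite, smul_zero, Finset.sum_smul]
  congr 1
  · refine Finset.sum_congr rfl fun s _ => ?_
    rw [Finset.sum_comm (s := Finset.univ) (t := Finset.univ)
      (f := fun v t => (A s t * B t v) • EE F n s v x)]
    refine Finset.sum_congr rfl fun t _ => ?_
    rw [Finset.sum_eq_single t]
    · simp only [if_true]
    · intro u _ hu
      exact Finset.sum_eq_zero fun v _ => if_neg fun h => hu h.symm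
    · intro h
      exact absurd (Finset.mem_univ t) h
  · simp only [Finset.sum_ite_eq, Finset.mem_univ, if_true]
    rw [Finset.sum_comm]
    rw [Finset.sum_congr rfl fun t _ => Finset.sum_comm]
    rw [Finset.sum_comm]
    refine Finset.sum_congr rfl fun u _ => Finset.sum_congr rfl fun t _ =>
      Finset.sum_congr rfl fun s _ => ?_
    rw [mul_comm]

lemma Tn_mul (A B : Matrix I I F) : Tn n (A * B) = Tn n A ∘ₗ Tn n B := by
  refine LinearMap.ext fun f => funext fun p => ?_
  rw [LinearMap.comp_apply, CarB_Tn_apply, CarB_Tn_apply]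
  simp only [CarB_Tn_apply, Matrix.mul_apply, Finset.sum_mul, Finset.mul_sum]
  rw [Finset.sum_comm]
  simp only [mul_assoc]

lemma Tn_one : Tn n (1 : Matrix I I F) = LinearMap.id := by
  refine LinearMap.ext fun f => funext fun p => ?_
  rw [CarB_Tn_apply, LinearMap.id_apply]
  simp [Matrix.one_apply]

lemma Tn_single (A : Matrix I I F) (a : Fin n) (v : I) :
    Tn n A (Pi.single (a, v) (1 : F)) = ∑ u, A u v • Pi.single (a, u) (1 : F) :=
  CarB_Tn_single A a v

/-- Conjugation of derivations by the action of a matrix. -/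
lemma map_DD {g A B : Matrix I I F} (h : g * A = B * g) (x : Lam I F n) :
    ExteriorAlgebra.map (Tn n g) (DD n A x) = DD n B (ExteriorAlgebra.map (Tn n g) x) := by
  have hT : ∀ f, Tn n g (Tn n A f) = Tn n B (Tn n g f) := by
    intro f
    rw [← LinearMap.comp_apply, ← LinearMap.comp_apply, ← Tn_mul, ← Tn_mul, h]
  induction x using CliffordAlgebra.left_induction with
  | algebraMap r =>
    rw [AlgHom.commutes]
    erw [DD_algebraMap, DD_algebraMap]
    exact map_zero _
  | add x y hx hy => rw [map_add, map_add, hx, hy, map_add, map_add]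
  | ι_mul x m hx =>
    have h1 := DD_ι_mul A m x
    have h2 := DD_ι_mul B (Tn n g m) (ExteriorAlgebra.map (Tn n g) x)
    change ExteriorAlgebra.map (Tn n g) (DD n A (ExteriorAlgebra.ι F m * x)) =
      DD n B (ExteriorAlgebra.map (Tn n g) (ExteriorAlgebra.ι F m * x))
    rw [h1, map_add, map_mul, map_mul, map_mul, ExteriorAlgebra.map_apply_ι,
      ExteriorAlgebra.map_apply_ι, h2, hx, hT]

omit [Fintype I] in
private lemma CarB_an_ι_mul (p : Fin n × I) (f : Fin n × I → F) (x : Lam I F n) :
    an F p (ExteriorAlgebra.ι F f * x) = f p • x - ExteriorAlgebra.ι F f * an F p x := by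
  exact CliffordAlgebra.contractLeft_ι_mul _ _ _

omit [Fintype I] in
private lemma CarB_EE_ι_mul (u v : I) (f : Fin n × I → F) (x : Lam I F n) :
    EE F n u v (ExteriorAlgebra.ι F f * x) =
      ExteriorAlgebra.ι F (∑ a : Fin n, f (a, v) • Pi.single (a, u) (1 : F)) * x +
      ExteriorAlgebra.ι F f * EE F n u v x := by
  rw [EE_apply, EE_apply, map_sum, Finset.sum_mul, Finset.mul_sum, ← Finset.sum_add_distrib]
  refine Finset.sum_congr rfl fun a _ => ?_
  rw [CarB_an_ι_mul, map_sub, map_smul, map_smul, cr_apply, cr_apply, cr_apply, ev,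
    smul_mul_assoc, ← mul_assoc, ← mul_assoc]
  have h : ExteriorAlgebra.ι F (Pi.single (a, u) (1 : F)) * ExteriorAlgebra.ι F f =
      - (ExteriorAlgebra.ι F f * ExteriorAlgebra.ι F (Pi.single (a, u) (1 : F))) :=
    eq_neg_of_add_eq_zero_left (ExteriorAlgebra.ι_add_mul_swap _ _)
  rw [h, neg_mul, sub_neg_eq_add]

lemma DD_mem (A : Matrix I I F) (m : ℕ) {x : Lam I F n} (hx : x ∈ ⋀[F]^m (Fin n × I → F)) :
    DD n A x ∈ ⋀[F]^m (Fin n × I → F) := by
  induction hx using Submodule.pow_induction_on_left' with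
  | algebraMap r =>
    rw [DD_algebraMap]
    exact Submodule.zero_mem _
  | add x y i hx hy h1 h2 =>
    rw [map_add]
    exact Submodule.add_mem _ h1 h2
  | mem_mul m hm i x hx h1 =>
    obtain ⟨f, rfl⟩ := hm
    rw [DD_ι_mul]
    refine Submodule.add_mem _ ?_ ?_
    · change _ ∈ (LinearMap.range (ExteriorAlgebra.ι F (M := Fin n × I → F))) ^ (i + 1)
      rw [pow_succ']
      exact Submodule.mul_mem_mul ⟨_, rfl⟩ hx
    · change _ ∈ (LinearMap.range (ExteriorAlgebra.ι F (M := Fin n × I → F))) ^ (i + 1)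
      rw [pow_succ']
      exact Submodule.mul_mem_mul ⟨_, rfl⟩ h1

omit [Fintype I] in
lemma EE_mem (u v : I) (m : ℕ) {x : Lam I F n} (hx : x ∈ ⋀[F]^m (Fin n × I → F)) :
    EE F n u v x ∈ ⋀[F]^m (Fin n × I → F) := by
  induction hx using Submodule.pow_induction_on_left' with
  | algebraMap r =>
    rw [EE_algebraMap]
    exact Submodule.zero_mem _
  | add x y i hx hy h1 h2 =>
    rw [map_add]
    exact Submodule.add_mem _ h1 h2
  | mem_mul m hm i x hx h1 =>
    obtain ⟨f, rfl⟩ := hm
    rw [CarB_EE_ι_mul]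
    refine Submodule.add_mem _ ?_ ?_
    · change _ ∈ (LinearMap.range (ExteriorAlgebra.ι F (M := Fin n × I → F))) ^ (i + 1)
      rw [pow_succ']
      exact Submodule.mul_mem_mul ⟨_, rfl⟩ hx
    · change _ ∈ (LinearMap.range (ExteriorAlgebra.ι F (M := Fin n × I → F))) ^ (i + 1)
      rw [pow_succ']
      exact Submodule.mul_mem_mul ⟨_, rfl⟩ h1

omit [Fintype I] in
lemma an_mem_zero (p : Fin n × I) {x : Lam I F n} (hx : x ∈ ⋀[F]^0 (Fin n × I → F)) :
    an F p x = 0 := by
  change x ∈ (LinearMap.range (ExteriorAlgebra.ι F (M := Fin n × I → F))) ^ 0 at hx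
  rw [pow_zero, Submodule.mem_one] at hx
  obtain ⟨r, rfl⟩ := hx
  exact an_algebraMap p r

omit [Fintype I] in
lemma an_mem (p : Fin n × I) (m : ℕ) {x : Lam I F n} (hx : x ∈ ⋀[F]^(m + 1) (Fin n × I → F)) :
    an F p x ∈ ⋀[F]^m (Fin n × I → F) := by
  change x ∈ (LinearMap.range (ExteriorAlgebra.ι F (M := Fin n × I → F))) ^ (m + 1) at hx
  induction m generalizing x with
  | zero =>
    rw [pow_succ'] at hx
    refine Submodule.mul_induction_on hx ?_ ?_
    · rintro _ ⟨f, rfl⟩ y hy
      rw [CarB_an_ι_mul, an_mem_zero p hy, mul_zero, sub_zero]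
      exact Submodule.smul_mem _ _ hy
    · intro y z hy hz
      rw [map_add]
      exact Submodule.add_mem _ hy hz
  | succ m ih =>
    rw [pow_succ'] at hx
    refine Submodule.mul_induction_on hx ?_ ?_
    · rintro _ ⟨f, rfl⟩ y hy
      rw [CarB_an_ι_mul]
      refine Submodule.sub_mem _ (Submodule.smul_mem _ _ hy) ?_
      change _ ∈ (LinearMap.range (ExteriorAlgebra.ι F (M := Fin n × I → F))) ^ (m + 1)
      rw [pow_succ']
      exact Submodule.mul_mem_mul ⟨f, rfl⟩ (ih hy)
    · intro y z hy hz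
      rw [map_add]
      exact Submodule.add_mem _ hy hz

end Pool.Agent.Lib.MP_640417_ag.Frob
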