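import Pool.Agent.Lib.MP_640417_ag.Frob.Defs

/-!
# Root elements of the symplectic Lie algebra
-/

namespace Pool.Agent.Lib.MP_640417_ag.Frob

open Module

variable {I : Type} [Fintype I] [DecidableEq I] {F : Type} [Field F]

private lemma LieB_single_mul (i j k l : I) :
    (Matrix.single i j (1 : F)) * Matrix.single k l (1 : F)
      = if j = k then Matrix.single i l (1 : F) else 0 := by
  split_ifs with h
  · subst h
    rw [Matrix.single_mul_single_same, one_mul]
  · rw [Matrix.single_mul_single_of_ne _ _ _ _ h]

/-- The commutator of two root elements. -/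
lemma XX_comm (c : I → I) (hc : ∀ v, c (c v) = v) (w : I → F) (hwc : ∀ v, w (c v) = - w v)
    (u v s : I) (huv : u ≠ v) (hvs : v ≠ s) (hus : u ≠ s) :
    XX c w s v * XX c w v u - XX c w v u * XX c w s v
      = ((if v = c u then 2 else 1) + (if v = c s then 1 else 0) : F) • (w v • XX c w s u) := by
  have hinj : ∀ a b, c a = c b → a = b := fun a b h => by rw [← hc a, h, hc]
  have e1 : ¬ (c s = c u) := fun h => hus (hinj _ _ h).symm
  have e2 : ¬ (u = s) := hus
  unfold XX
  simp only [sub_mul, mul_sub, smul_mul_assoc, mul_smul_comm, LieB_single_mul, if_true, if_neg e1,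
    if_neg e2, smul_zero]
  by_cases h1 : v = c u
  · have h1' : u = c v := by rw [h1, hc]
    have h2 : ¬ (v = c s) := fun h => e1 (h.symm.trans h1)
    have h2' : ¬ (c s = v) := fun h => h2 h.symm
    have h2'' : ¬ (c v = s) := fun h => h2 (by rw [← h, hc])
    have hw1 : w v = - w u := by rw [h1, hwc]
    simp only [if_pos h1, if_pos h1', if_neg h2, if_neg h2', if_neg h2'']
    rw [← h1', ← h1, hw1]
    ext i j
    simp only [Matrix.sub_apply, Matrix.smul_apply, smul_eq_mul, Matrix.zero_apply]
    ring
  · have h1' : ¬ (u = c v) := fun h => h1 (by rw [h, hc])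
    by_cases h2 : v = c s
    · have h2' : c s = v := h2.symm
      have h2'' : c v = s := by rw [h2, hc]
      have hw1 : w v = - w s := by rw [h2, hwc]
      simp only [if_neg h1, if_neg h1', if_pos h2, if_pos h2', if_pos h2'']
      rw [h2'', h2', hw1]
      ext i j
      simp only [Matrix.sub_apply, Matrix.smul_apply, smul_eq_mul, Matrix.zero_apply]
      ring
    · have h2' : ¬ (c s = v) := fun h => h2 h.symm
      have h2'' : ¬ (c v = s) := fun h => h2 (by rw [← h, hc])
      simp only [if_neg h1, if_neg h1', if_neg h2, if_neg h2', if_neg h2'']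
      ext i j
      simp only [Matrix.sub_apply, Matrix.smul_apply, smul_eq_mul, Matrix.zero_apply]
      ring

/-- The odd function attached to an element. -/
private def LieB_odd (F : Type) [Field F] (c : I → I) (x : I) : I → F :=
  fun y => (if y = x then 1 else 0) - (if y = c x then 1 else 0)

private lemma LieB_odd_odd (c : I → I) (hc : ∀ v, c (c v) = v) (x v : I) :
    LieB_odd F c x (c v) = - LieB_odd F c x v := by
  have h1 : (c v = x) ↔ (v = c x) := ⟨fun h => by rw [← h, hc], fun h => by rw [h, hc]⟩
  have h2 : (c v = c x) ↔ (v = x) := ⟨fun h => by rw [← hc v, h, hc], fun h => by rw [h]⟩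
  unfold LieB_odd
  simp only [h1, h2]
  ring

/-- An odd function separating a pair from the two given ones. -/
private lemma LieB_sep [CharZero F] (c : I → I) (hc : ∀ v, c (c v) = v) (hcne : ∀ v, c v ≠ v)
    (u v a b : I) (huv : u ≠ v) (h1 : (a, b) ≠ (v, u)) (h2 : (a, b) ≠ (c u, c v)) :
    ∃ t : I → F, (∀ x, t (c x) = - t x) ∧ t a - t b ≠ t v - t u := by
  by_contra hcon
  push Not at hcon
  have hv := hcon (LieB_odd F c v) (LieB_odd_odd c hc v)
  have hu := hcon (LieB_odd F c u) (LieB_odd_odd c hc u)
  have n1 : ¬ (v = c v) := fun h => hcne v h.symm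
  have n2 : ¬ (u = c u) := fun h => hcne u h.symm
  have n3 : ¬ (v = u) := fun h => huv h.symm
  unfold LieB_odd at hv hu
  simp only [if_true, if_neg n1, if_neg n2, if_neg n3, if_neg huv] at hv hu
  by_cases k : u = c v
  · have k' : v = c u := by rw [k, hc]
    rw [if_pos k] at hv
    by_cases a1 : a = v
    · by_cases b1 : b = c v
      · exact h1 (by rw [a1, b1, ← k])
      · rw [if_pos a1, if_neg b1] at hv
        rw [a1, if_neg n1] at hv
        by_cases b2 : b = v
        · rw [if_pos b2] at hv; norm_num at hv
        · rw [if_neg b2] at hv; norm_num at hv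
    · rw [if_neg a1] at hv
      by_cases a2 : a = c v <;> by_cases b1 : b = c v <;> by_cases b2 : b = v
      all_goals
        first
        | rw [if_pos a2] at hv
        | rw [if_neg a2] at hv
      all_goals
        first
        | rw [if_pos b1] at hv
        | rw [if_neg b1] at hv
      all_goals
        first
        | rw [if_pos b2] at hv
        | rw [if_neg b2] at hv
      all_goals norm_num at hv
  · have k' : ¬ (v = c u) := fun h => k (by rw [h, hc])
    rw [if_neg k] at hv
    rw [if_neg k'] at hu
    by_cases a1 : a = v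
    · have a3 : ¬ (a = u) := fun h => huv (h.symm.trans a1)
      have a4 : ¬ (a = c u) := fun h => k' (a1.symm.trans h)
      rw [if_neg a3, if_neg a4] at hu
      by_cases b1 : b = u
      · exact h1 (by rw [a1, b1])
      · rw [if_neg b1] at hu
        by_cases b2 : b = c u
        · rw [if_pos b2] at hu; norm_num at hu
        · rw [if_neg b2] at hu; norm_num at hu
    · rw [if_neg a1] at hv
      by_cases b1 : b = c v
      · have b2 : ¬ (b = u) := fun h => k (h.symm.trans b1)
        have b3 : ¬ (b = c u) := fun h => by
          have := b1.symm.trans h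
          exact huv (by rw [← hc u, ← this, hc])
        rw [if_neg b2, if_neg b3] at hu
        by_cases a2 : a = c u
        · exact h2 (by rw [a2, b1])
        · rw [if_neg a2] at hu
          by_cases a3 : a = u
          · rw [if_pos a3] at hu; norm_num at hu
          · rw [if_neg a3] at hu; norm_num at hu
      · rw [if_neg b1] at hv
        by_cases a2 : a = c v <;> by_cases b2 : b = v
        all_goals
          first
          | rw [if_pos a2] at hv
          | rw [if_neg a2] at hv
        all_goals
          first
          | rw [if_pos b2] at hv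
          | rw [if_neg b2] at hv
        all_goals norm_num at hv

/-- Killing the entries in a finite set of pairs. -/
private lemma LieB_kill [CharZero F] (c : I → I) (hc : ∀ v, c (c v) = v) (hcne : ∀ v, c v ≠ v)
    (L : Submodule F (Matrix I I F))
    (had : ∀ M ∈ L, ∀ t : I → F, (∀ v, t (c v) = - t v) →
      Matrix.diagonal t * M - M * Matrix.diagonal t ∈ L)
    (M : Matrix I I F) (hM : M ∈ L) (u v : I) (huv : u ≠ v) (B : Finset (I × I))
    (hB : ∀ p ∈ B, p ≠ (v, u) ∧ p ≠ (c u, c v)) :
    ∃ N ∈ L, N v u = M v u ∧ ∀ p ∈ B, N p.1 p.2 = 0 := by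
  induction B using Finset.induction_on with
  | empty => exact ⟨M, hM, rfl, fun p hp => absurd hp (Finset.notMem_empty p)⟩
  | insert q B _ ih =>
    obtain ⟨N, hN, h1, h2⟩ := ih fun p hp => hB p (Finset.mem_insert_of_mem hp)
    obtain ⟨hq1, hq2⟩ := hB q (Finset.mem_insert_self q B)
    obtain ⟨t, ht, hne⟩ := LieB_sep (F := F) c hc hcne u v q.1 q.2 huv hq1 hq2
    have hne' : (t v - t u) - (t q.1 - t q.2) ≠ 0 := fun h => hne (sub_eq_zero.mp h).symm
    have key : ∀ x y, (((t v - t u) - (t q.1 - t q.2))⁻¹ •
        ((Matrix.diagonal t * N - N * Matrix.diagonal t) - (t q.1 - t q.2) • N)) x y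
        = ((t v - t u) - (t q.1 - t q.2))⁻¹ * (((t x - t y) - (t q.1 - t q.2)) * N x y) := by
      intro x y
      simp only [Matrix.smul_apply, Matrix.sub_apply, Matrix.diagonal_mul, Matrix.mul_diagonal,
        smul_eq_mul]
      ring
    refine ⟨((t v - t u) - (t q.1 - t q.2))⁻¹ •
        ((Matrix.diagonal t * N - N * Matrix.diagonal t) - (t q.1 - t q.2) • N), ?_, ?_, ?_⟩
    · exact L.smul_mem _ (L.sub_mem (had N hN t ht) (L.smul_mem _ hN))
    · rw [key, ← mul_assoc, inv_mul_cancel₀ hne', one_mul, h1]
    · intro p hp
      rw [key]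
      rcases Finset.mem_insert.mp hp with h | h
      · rw [h, sub_self, zero_mul, mul_zero]
      · rw [h2 p h, mul_zero, mul_zero]

/-- If a linear subspace of the symplectic Lie algebra, given by a predicate, is stable under the
commutators with the odd diagonal matrices, it contains the root elements of the nonzero
off-diagonal entries of its members. -/
lemma projection [CharZero F] (c : I → I) (hc : ∀ v, c (c v) = v) (hcne : ∀ v, c v ≠ v)
    (w : I → F) (hw : ∀ v, w v ≠ 0) (hwc : ∀ v, w (c v) = - w v)
    (L : Submodule F (Matrix I I F))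
    (hL : ∀ M ∈ L, M.transpose * Om c w + Om c w * M = 0)
    (had : ∀ M ∈ L, ∀ t : I → F, (∀ v, t (c v) = - t v) →
      Matrix.diagonal t * M - M * Matrix.diagonal t ∈ L)
    (M : Matrix I I F) (hM : M ∈ L) (u v : I) (huv : u ≠ v) (hne : M v u ≠ 0) :
    XX c w v u ∈ L := by
  obtain ⟨N, hN, h1, h2⟩ := LieB_kill c hc hcne L had M hM u v huv
    (Finset.univ.filter fun p => p ≠ (v, u) ∧ p ≠ (c u, c v))
    (fun p hp => (Finset.mem_filter.mp hp).2)
  have h0 : ∀ a b, (a, b) ≠ (v, u) → (a, b) ≠ (c u, c v) → N a b = 0 := fun a b ha hb =>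
    h2 (a, b) (Finset.mem_filter.mpr ⟨Finset.mem_univ _, ha, hb⟩)
  have hNne : N v u ≠ 0 := by rw [h1]; exact hne
  -- the relation between the two entries
  have hrel : w u * N (c u) (c v) = - (w v * N v u) := by
    have h := congrFun (congrFun (hL N hN) (c v)) u
    rw [Matrix.add_apply, Matrix.mul_apply, Matrix.mul_apply, Matrix.zero_apply] at h
    have e1 : ∑ k, N.transpose (c v) k * Om c w k u = N (c u) (c v) * w (c u) := by
      rw [Finset.sum_eq_single (c u)]
      · simp only [Matrix.transpose_apply, Om, Matrix.of_apply, hc, if_true]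
      · intro k _ hk
        have : ¬ (u = c k) := fun h => hk (by rw [h, hc])
        simp only [Om, Matrix.of_apply, if_neg this, mul_zero]
      · intro h
        exact absurd (Finset.mem_univ _) h
    have e2 : ∑ k, Om c w (c v) k * N k u = w (c v) * N v u := by
      rw [Finset.sum_eq_single v]
      · simp only [Om, Matrix.of_apply, hc, if_true]
      · intro k _ hk
        have : ¬ (k = c (c v)) := fun h => hk (by rw [h, hc])
        simp only [Om, Matrix.of_apply, if_neg this, zero_mul]
      · intro h
        exact absurd (Finset.mem_univ _) h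
    rw [e1, e2, hwc, hwc] at h
    linear_combination -h
  by_cases k : v = c u
  · have hcv : c v = u := by rw [k, hc]
    have hwv : w v = - w u := by rw [k, hwc]
    have hX : XX c w v u = ((2 * w u) * (N v u)⁻¹) • N := by
      ext a b
      unfold XX
      rw [← k, hcv, hwv]
      simp only [Matrix.sub_apply, Matrix.smul_apply, Matrix.single_apply, smul_eq_mul]
      by_cases hab : v = a ∧ u = b
      · rw [if_pos hab, ← hab.1, ← hab.2]
        field_simp
        ring
      · rw [if_neg hab, h0 a b]
        · ring
        · intro h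
          exact hab ⟨(Prod.mk.inj h).1.symm, (Prod.mk.inj h).2.symm⟩
        · rw [← k, hcv]
          intro h
          exact hab ⟨(Prod.mk.inj h).1.symm, (Prod.mk.inj h).2.symm⟩
    rw [hX]
    exact L.smul_mem _ hN
  · have hX : XX c w v u = (w u * (N v u)⁻¹) • N := by
      ext a b
      unfold XX
      simp only [Matrix.sub_apply, Matrix.smul_apply, Matrix.single_apply, smul_eq_mul]
      by_cases hab : v = a ∧ u = b
      · have hn : ¬ (c u = a ∧ c v = b) := fun h => k (hab.1.trans h.1.symm)
        rw [if_pos hab, if_neg hn, ← hab.1, ← hab.2]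
        field_simp
        ring
      · rw [if_neg hab]
        by_cases hcd : c u = a ∧ c v = b
        · rw [if_pos hcd, ← hcd.1, ← hcd.2]
          field_simp
          linear_combination -hrel
        · rw [if_neg hcd, h0 a b]
          · ring
          · intro h
            exact hab ⟨(Prod.mk.inj h).1.symm, (Prod.mk.inj h).2.symm⟩
          · intro h
            exact hcd ⟨(Prod.mk.inj h).1.symm, (Prod.mk.inj h).2.symm⟩
    rw [hX]
    exact L.smul_mem _ hN

end Pool.Agent.Lib.MP_640417_ag.Frob
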