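import Pool.Agent.Lib.MP_640417_ag.Frob.SemiA

/-!
# An open subgroup preserves the blocks
-/

namespace Pool.Agent.Lib.MP_640417_ag.Frob

open Module

variable {I : Type} [Fintype I] [DecidableEq I] {F : Type} [Field F] {n : ℕ}
  {Γ : Type} [Group Γ] [TopologicalSpace Γ]

/-- The relation defined by the matrix units in `R0`. -/
def rel (A : Γ →* Matrix I I F) (u v : I) : Prop := Matrix.single u v (1 : F) ∈ R0 A

open Classical in
/-- The diagonal projector to the block of `v`. -/
private noncomputable def OpenA_pr (F : Type) [Field F] (r : I → I → Prop) (v : I) :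
    Matrix I I F :=
  Matrix.diagonal fun u => if r v u then 1 else 0

omit [TopologicalSpace Γ] in
private lemma OpenA_inv (A : Γ →* Matrix I I F) (γ : Γ) : A γ * A γ⁻¹ = 1 := by
  rw [← map_mul, mul_inv_cancel, map_one]

omit [TopologicalSpace Γ] in
private lemma OpenA_inv' (A : Γ →* Matrix I I F) (γ : Γ) : A γ⁻¹ * A γ = 1 := by
  rw [← map_mul, inv_mul_cancel, map_one]

private lemma OpenA_comm (r : I → I → Prop) (hr : Equivalence r) (v : I)
    (M : Matrix I I F) (hM : ∀ a b, M a b ≠ 0 → r a b) :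
    M * OpenA_pr F r v = OpenA_pr F r v * M := by
  classical
  ext a b
  rw [OpenA_pr, Matrix.mul_diagonal, Matrix.diagonal_mul]
  by_cases h : M a b = 0
  · rw [h]; ring
  · have h1 := hM a b h
    by_cases h2 : r v a
    · rw [if_pos h2, if_pos (hr.trans h2 h1)]; ring
    · rw [if_neg h2, if_neg (fun h3 => h2 (hr.trans h3 (hr.symm h1)))]; ring

private lemma OpenA_comm' (A : Γ →* Matrix I I F) (r : I → I → Prop) (hr : Equivalence r)
    (hrel : ∀ a b, rel A a b → r a b) (v : I)
    (M : Matrix I I F) (hM : M ∈ R0 A) : M * OpenA_pr F r v = OpenA_pr F r v * M :=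
  OpenA_comm r hr v M fun a b h => hrel a b (single_mem_R0 A M hM a b h)

private lemma OpenA_conj_comm (A : Γ →* Matrix I I F) (r : I → I → Prop) (hr : Equivalence r)
    (hrel : ∀ a b, rel A a b → r a b) (v : I) (γ : Γ) (M : Matrix I I F) (hM : M ∈ R0 A) :
    (A γ * OpenA_pr F r v * A γ⁻¹) * M = M * (A γ * OpenA_pr F r v * A γ⁻¹) := by
  have h1 : A γ⁻¹ * M * A γ ∈ R0 A := by
    have := R0_conj A γ⁻¹ M hM
    rwa [inv_inv] at this
  have h2 := OpenA_comm' A r hr hrel v _ h1
  calc (A γ * OpenA_pr F r v * A γ⁻¹) * M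
      = A γ * OpenA_pr F r v * A γ⁻¹ * M * (A γ * A γ⁻¹) := by rw [OpenA_inv, mul_one]
    _ = A γ * (OpenA_pr F r v * (A γ⁻¹ * M * A γ)) * A γ⁻¹ := by simp only [mul_assoc]
    _ = A γ * ((A γ⁻¹ * M * A γ) * OpenA_pr F r v) * A γ⁻¹ := by rw [h2]
    _ = (A γ * A γ⁻¹) * M * (A γ * OpenA_pr F r v * A γ⁻¹) := by simp only [mul_assoc]
    _ = M * (A γ * OpenA_pr F r v * A γ⁻¹) := by rw [OpenA_inv, one_mul]

private lemma OpenA_idem (P Q R : Matrix I I F) (h : R * P = 1) (hQ : Q * Q = Q) :
    (P * Q * R) * (P * Q * R) = P * Q * R := by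
  calc (P * Q * R) * (P * Q * R) = P * Q * (R * P) * Q * R := by simp only [mul_assoc]
    _ = P * (Q * Q) * R := by rw [h, mul_one]; simp only [mul_assoc]
    _ = P * Q * R := by rw [hQ]

private lemma OpenA_pr_idem (r : I → I → Prop) (v : I) :
    OpenA_pr F r v * OpenA_pr F r v = OpenA_pr F r v := by
  classical
  rw [OpenA_pr, Matrix.diagonal_mul_diagonal]
  congr 1
  funext u
  by_cases h : r v u <;> simp [h]

/-- The conjugates of the projectors are diagonal with entries `0` and `1`. -/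
private lemma OpenA_conj_diag (A : Γ →* Matrix I I F) (r : I → I → Prop) (hr : Equivalence r)
    (hrel : ∀ a b, rel A a b → r a b) (v : I) (γ : Γ) :
    (∀ a b, a ≠ b → (A γ * OpenA_pr F r v * A γ⁻¹) a b = 0) ∧
      ∀ a, (A γ * OpenA_pr F r v * A γ⁻¹) a a = 0 ∨
        (A γ * OpenA_pr F r v * A γ⁻¹) a a = 1 := by
  obtain ⟨N, hN⟩ : ∃ N, N = A γ * OpenA_pr F r v * A γ⁻¹ := ⟨_, rfl⟩
  rw [← hN]
  have hoff : ∀ a b, a ≠ b → N a b = 0 := by
    intro a b hab
    have h1 := OpenA_conj_comm A r hr hrel v γ (Matrix.diagonal (Pi.single b 1))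
      (diagonal_mem_R0 A _)
    rw [← hN] at h1
    have h2 := congrFun (congrFun h1 a) b
    rw [Matrix.mul_diagonal, Matrix.diagonal_mul, Pi.single_eq_same, Pi.single_eq_of_ne hab] at h2
    simpa using h2
  refine ⟨hoff, fun a => ?_⟩
  have h1 : N * N = N := by
    rw [hN]
    exact OpenA_idem _ _ _ (OpenA_inv' A γ) (OpenA_pr_idem r v)
  have h2 := congrFun (congrFun h1 a) a
  rw [Matrix.mul_apply, Finset.sum_eq_single a] at h2
  · rcases eq_or_ne (N a a) 0 with h3 | h3
    · exact Or.inl h3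
    · exact Or.inr (mul_left_cancel₀ h3 (by rw [h2, mul_one]))
  · intro b _ hb
    rw [hoff a b hb.symm, zero_mul]
  · intro h; exact absurd (Finset.mem_univ a) h

/-- Some open subgroup preserves the blocks. -/
theorem exists_open_block [IsTopologicalGroup Γ] (A : Γ →* Matrix I I F)
    (hclosed : ∀ u v : I, IsClosed {γ : Γ | A γ u v = 0})
    (r : I → I → Prop) (hr : Equivalence r) (hrel : ∀ a b, rel A a b → r a b) :
    ∃ U : OpenSubgroup Γ, ∀ γ ∈ U, ∀ u v, ¬ r u v → A γ u v = 0 := by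
  classical
  -- the subgroup
  let U0 : Subgroup Γ :=
    { carrier := {γ | ∀ v, A γ * OpenA_pr F r v = OpenA_pr F r v * A γ}
      mul_mem' := by
        intro γ δ hγ hδ v
        have h1 : A γ * OpenA_pr F r v = OpenA_pr F r v * A γ := hγ v
        have h2 : A δ * OpenA_pr F r v = OpenA_pr F r v * A δ := hδ v
        rw [map_mul, mul_assoc, h2, ← mul_assoc, h1, mul_assoc]
      one_mem' := by
        intro v
        rw [map_one, one_mul, mul_one]
      inv_mem' := by
        intro γ hγ v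
        have h1 : A γ * OpenA_pr F r v = OpenA_pr F r v * A γ := hγ v
        calc A γ⁻¹ * OpenA_pr F r v = A γ⁻¹ * OpenA_pr F r v * (A γ * A γ⁻¹) := by
              rw [OpenA_inv, mul_one]
          _ = A γ⁻¹ * (OpenA_pr F r v * A γ) * A γ⁻¹ := by simp only [mul_assoc]
          _ = A γ⁻¹ * (A γ * OpenA_pr F r v) * A γ⁻¹ := by rw [h1]
          _ = (A γ⁻¹ * A γ) * OpenA_pr F r v * A γ⁻¹ := by simp only [mul_assoc]
          _ = OpenA_pr F r v * A γ⁻¹ := by rw [OpenA_inv', one_mul] }
  have hmem : ∀ γ, γ ∈ U0 ↔ ∀ v, A γ * OpenA_pr F r v = OpenA_pr F r v * A γ := fun γ => Iff.rfl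
  have hmem' : ∀ γ, γ ∈ U0 ↔ ∀ u v, ¬ r u v → A γ u v = 0 := by
    intro γ
    rw [hmem]
    constructor
    · intro h u v huv
      have h1 := congrFun (congrFun (h v) u) v
      rw [OpenA_pr, Matrix.mul_diagonal, Matrix.diagonal_mul, if_pos (hr.refl v),
        if_neg (fun h2 => huv (hr.symm h2)), zero_mul, mul_one] at h1
      exact h1
    · intro h v
      exact OpenA_comm r hr v _ fun a b hab => by
        by_contra h1
        exact hab (h a b h1)
  -- closed
  have hclosed' : IsClosed (U0 : Set Γ) := by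
    have h1 : (U0 : Set Γ) = ⋂ u, ⋂ v, ⋂ (_ : ¬ r u v), {γ : Γ | A γ u v = 0} := by
      ext γ
      simp only [SetLike.mem_coe, Set.mem_iInter]
      exact hmem' γ
    rw [h1]
    exact isClosed_iInter fun u => isClosed_iInter fun v => isClosed_iInter fun _ => hclosed u v
  -- finite index
  have hfin : U0.FiniteIndex := by
    let f : Γ → I → I → Prop := fun γ v a => (A γ * OpenA_pr F r v * A γ⁻¹) a a = 1
    have hf : ∀ γ δ, f γ = f δ → δ⁻¹ * γ ∈ U0 := by
      intro γ δ h v
      have h1 : A γ * OpenA_pr F r v * A γ⁻¹ = A δ * OpenA_pr F r v * A δ⁻¹ := by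
        have hγ := OpenA_conj_diag A r hr hrel v γ
        have hδ := OpenA_conj_diag A r hr hrel v δ
        ext a b
        by_cases hab : a = b
        · subst hab
          have h2 : ((A γ * OpenA_pr F r v * A γ⁻¹) a a = 1) =
              ((A δ * OpenA_pr F r v * A δ⁻¹) a a = 1) := congrFun (congrFun h v) a
          rcases hγ.2 a with h3 | h3
          · rcases hδ.2 a with h4 | h4
            · rw [h3, h4]
            · rw [h4] at h2
              have := h2.mpr rfl
              rw [this, h4]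
          · rw [h3] at h2
            have := h2.mp rfl
            rw [h3, this]
        · rw [hγ.1 a b hab, hδ.1 a b hab]
      change A (δ⁻¹ * γ) * OpenA_pr F r v = OpenA_pr F r v * A (δ⁻¹ * γ)
      rw [map_mul]
      calc A δ⁻¹ * A γ * OpenA_pr F r v
          = A δ⁻¹ * A γ * OpenA_pr F r v * (A γ⁻¹ * A γ) := by rw [OpenA_inv', mul_one]
        _ = A δ⁻¹ * (A γ * OpenA_pr F r v * A γ⁻¹) * A γ := by simp only [mul_assoc]
        _ = A δ⁻¹ * (A δ * OpenA_pr F r v * A δ⁻¹) * A γ := by rw [h1]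
        _ = (A δ⁻¹ * A δ) * OpenA_pr F r v * (A δ⁻¹ * A γ) := by simp only [mul_assoc]
        _ = OpenA_pr F r v * A (δ⁻¹) * A γ := by rw [OpenA_inv', one_mul, mul_assoc]
        _ = OpenA_pr F r v * (A δ⁻¹ * A γ) := by rw [mul_assoc]
    have hinj : Function.Injective (fun q : Γ ⧸ U0 => f q.out) := by
      intro q q' h
      have h1 := hf _ _ h
      have h2 : (QuotientGroup.mk q'.out : Γ ⧸ U0) = QuotientGroup.mk q.out :=
        QuotientGroup.eq.mpr h1
      rw [QuotientGroup.out_eq', QuotientGroup.out_eq'] at h2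
      exact h2.symm
    have : Finite (Γ ⧸ U0) := Finite.of_injective _ hinj
    exact Subgroup.finiteIndex_of_finite_quotient
  refine ⟨⟨U0, U0.isOpen_of_isClosed_of_finiteIndex hclosed'⟩, ?_⟩
  intro γ hγ
  exact (hmem' γ).mp hγ

end Pool.Agent.Lib.MP_640417_ag.Frob
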