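import Pool.Agent.Lib.MP_640417_ag.Frob.Middle
import Pool.Agent.Lib.MP_640417_ag.Frob.Descent

/-!
# Extension of the coefficients
-/

namespace Pool.Agent.Lib.MP_640417_ag.Frob

open Module Polynomial TensorProduct

variable {Γ : Type} [Group Γ] [TopologicalSpace Γ] {F : Type} [Field F]
  {V : Type} [AddCommGroup V] [Module F V] [FiniteDimensional F V]

/-- Zero sets of matrix coefficients stay closed. -/
theorem closed_baseChange [TopologicalSpace F] [IsTopologicalRing F] [T1Space F]
    (K : Type) [Field K] [Algebra F K] (T : Γ → Module.End F V)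
    (hcont : ∀ (f : Module.Dual F V) (x : V), Continuous fun γ => f (T γ x))
    (f' : Module.Dual K (K ⊗[F] V)) (x' : K ⊗[F] V) :
    IsClosed {γ : Γ | f' ((T γ).baseChange K x') = 0} := by
  classical
  let e := Module.finBasis F V
  let b : Fin (finrank F V) → Fin (finrank F V) → K := fun u v =>
    (e.baseChange K).repr x' v * f' ((1 : K) ⊗ₜ[F] e u)
  have h1 : ∀ γ, f' ((T γ).baseChange K x') =
      ∑ u, ∑ v, (e.repr (T γ (e v)) u) • b u v := by
    intro γ
    conv_lhs => rw [← (e.baseChange K).sum_repr x']
    rw [map_sum, map_sum, Finset.sum_comm]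
    apply Finset.sum_congr rfl
    intro v _
    rw [map_smul, map_smul, Basis.baseChange_apply, LinearMap.baseChange_tmul]
    conv_lhs => rw [← e.sum_repr (T γ (e v))]
    rw [TensorProduct.tmul_sum, map_sum, Finset.smul_sum]
    apply Finset.sum_congr rfl
    intro u _
    simp only [b, TensorProduct.tmul_smul]
    rw [LinearMap.map_smul_of_tower, smul_eq_mul, mul_smul_comm]
  have h2 : {γ : Γ | f' ((T γ).baseChange K x') = 0} =
      ⋂ ψ : Module.Dual F K, {γ : Γ | ∑ u, ∑ v, (e.repr (T γ (e v)) u) * ψ (b u v) = 0} := by
    ext γ
    simp only [Set.mem_ofPred_eq, Set.mem_iInter]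
    rw [h1, ← Module.forall_dual_apply_eq_zero_iff F]
    simp only [map_sum, map_smul, smul_eq_mul]
  rw [h2]
  apply isClosed_iInter
  intro ψ
  have h3 : Continuous fun γ => ∑ u, ∑ v, (e.repr (T γ (e v)) u) * ψ (b u v) := by
    apply continuous_finsetSum
    intro u _
    apply continuous_finsetSum
    intro v _
    exact (hcont (e.coord u) (e v)).mul continuous_const
  exact isClosed_singleton.preimage h3

/-- Extension of an alternating form. -/
theorem alt_baseChange (K : Type) [Field K] [Algebra F K] (form : LinearMap.BilinForm F V)
    (halt : ∀ x, form x x = 0) (x : K ⊗[F] V) : form.baseChange K x x = 0 := by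
  have hanti : ∀ x y, form x y = - form y x := by
    intro x y
    have h1 := halt (x + y)
    simp only [map_add, LinearMap.add_apply, halt x, halt y, zero_add, add_zero] at h1
    rw [eq_neg_iff_add_eq_zero, add_comm]
    exact h1
  have hanti' : ∀ x y, form.baseChange K x y + form.baseChange K y x = 0 := by
    intro x y
    induction x using TensorProduct.induction_on with
    | zero => simp
    | add x₁ x₂ h1 h2 =>
      simp only [map_add, LinearMap.add_apply]
      calc form.baseChange K x₁ y + form.baseChange K x₂ y +
            (form.baseChange K y x₁ + form.baseChange K y x₂)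
          = (form.baseChange K x₁ y + form.baseChange K y x₁) +
            (form.baseChange K x₂ y + form.baseChange K y x₂) := by ring
        _ = 0 := by rw [h1, h2, add_zero]
    | tmul a v =>
      induction y using TensorProduct.induction_on with
      | zero => simp
      | add y₁ y₂ h1 h2 =>
        simp only [map_add, LinearMap.add_apply]
        calc form.baseChange K (a ⊗ₜ[F] v) y₁ + form.baseChange K (a ⊗ₜ[F] v) y₂ +
              (form.baseChange K y₁ (a ⊗ₜ[F] v) + form.baseChange K y₂ (a ⊗ₜ[F] v))
            = (form.baseChange K (a ⊗ₜ[F] v) y₁ + form.baseChange K y₁ (a ⊗ₜ[F] v)) +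
              (form.baseChange K (a ⊗ₜ[F] v) y₂ + form.baseChange K y₂ (a ⊗ₜ[F] v)) := by ring
          _ = 0 := by rw [h1, h2, add_zero]
      | tmul b w =>
        rw [LinearMap.BilinForm.baseChange_tmul, LinearMap.BilinForm.baseChange_tmul, hanti v w,
          neg_smul, mul_comm b a, neg_add_cancel]
  induction x using TensorProduct.induction_on with
  | zero => simp
  | add x y h1 h2 =>
    simp only [map_add, LinearMap.add_apply, h1, h2, zero_add, add_zero]
    rw [add_comm]
    exact hanti' x y
  | tmul a v => rw [LinearMap.BilinForm.baseChange_tmul, halt, zero_smul]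

/-- Extension of a nondegenerate form. -/
theorem nondeg_baseChange (K : Type) [Field K] [Algebra F K] (form : LinearMap.BilinForm F V)
    (halt : ∀ x, form x x = 0) (hnd : ∀ x, (∀ y, form x y = 0) → x = 0) (x : K ⊗[F] V)
    (hx : ∀ y, form.baseChange K x y = 0) : x = 0 := by
  classical
  have hanti : ∀ x y, form x y = - form y x := by
    intro x y
    have h1 := halt (x + y)
    simp only [map_add, LinearMap.add_apply, halt x, halt y, zero_add, add_zero] at h1
    rw [eq_neg_iff_add_eq_zero, add_comm]
    exact h1
  have hinj : Function.Injective (form : V →ₗ[F] Module.Dual F V) := by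
    rw [← LinearMap.ker_eq_bot, LinearMap.ker_eq_bot']
    intro v hv
    exact hnd v fun y => by rw [hv]; rfl
  have hsurj : Function.Surjective (form : V →ₗ[F] Module.Dual F V) :=
    (LinearMap.injective_iff_surjective_of_finrank_eq_finrank
      (Subspace.dual_finrank_eq (K := F) (V := V)).symm).mp hinj
  let e := Module.finBasis F V
  have h1 : ∀ j, ∃ g : V, ∀ v, form v g = e.coord j v := by
    intro j
    obtain ⟨g, hg⟩ := hsurj (- e.coord j)
    refine ⟨g, fun v => ?_⟩
    rw [hanti, hg, LinearMap.neg_apply, neg_neg]
  choose g hg using h1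
  apply (e.baseChange K).ext_elem
  intro j
  rw [map_zero, Finsupp.zero_apply]
  have h2 := hx ((1 : K) ⊗ₜ[F] g j)
  rw [← (e.baseChange K).sum_repr x, map_sum, LinearMap.sum_apply] at h2
  have h3 : ∀ v, form.baseChange K ((e.baseChange K).repr x v • (e.baseChange K) v)
      ((1 : K) ⊗ₜ[F] g j) = if v = j then (e.baseChange K).repr x v else 0 := by
    intro v
    rw [map_smul, LinearMap.smul_apply, Basis.baseChange_apply,
      LinearMap.BilinForm.baseChange_tmul, hg, Basis.coord_apply, Basis.repr_self,
      Finsupp.single_apply]
    by_cases h : v = j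
    · rw [if_pos h, if_pos h]; simp
    · rw [if_neg h, if_neg h]; simp
  rw [Finset.sum_congr rfl (fun v _ => h3 v), Finset.sum_ite_eq' Finset.univ j] at h2
  simpa using h2

/-- Extension of the equivariance. -/
theorem equivariant_baseChange (K : Type) [Field K] [Algebra F K]
    (form : LinearMap.BilinForm F V) (S : Module.End F V) (k : F)
    (h : ∀ x y, form (S x) (S y) = k * form x y) (x y : K ⊗[F] V) :
    form.baseChange K (S.baseChange K x) (S.baseChange K y) =
      algebraMap F K k * form.baseChange K x y := by
  induction x using TensorProduct.induction_on with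
  | zero => simp
  | add x₁ x₂ h1 h2 => simp only [map_add, LinearMap.add_apply, h1, h2, mul_add]
  | tmul a v =>
    induction y using TensorProduct.induction_on with
    | zero => simp
    | add y₁ y₂ h1 h2 => simp only [map_add, h1, h2, mul_add]
    | tmul b w =>
      rw [LinearMap.baseChange_tmul, LinearMap.baseChange_tmul,
        LinearMap.BilinForm.baseChange_tmul, LinearMap.BilinForm.baseChange_tmul, h,
        Algebra.smul_def, Algebra.smul_def, map_mul]
      ring

end Pool.Agent.Lib.MP_640417_ag.Frob
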