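import Pool.Agent.Lib.MP_640417_ag.Frob.DiscA

/-!
# A polynomial without factors of square discriminant is separable
-/

namespace Pool.Agent.Lib.MP_640417_ag.Frob

open Polynomial

private lemma angleA_discr_sq {M : Type} [Field M] [CharZero M] (q : M[X]) (hq : q.Monic)
    (hu : ¬ IsUnit q) : (q * q).discr = 0 := by
  have hQm : (q * q).Monic := hq.mul hq
  have hd : 0 < q.natDegree := by
    rcases Nat.eq_zero_or_pos q.natDegree with h | h
    · exact absurd (by rw [hq.natDegree_eq_zero.mp h]; exact isUnit_one) hu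
    · exact h
  have hdQ : 0 < (q * q).degree := by
    rw [← natDegree_pos_iff_degree_pos, hq.natDegree_mul hq]
    omega
  have h1 := resultant_deriv hdQ
  have h2 : (derivative (q * q)).natDegree = (q * q).natDegree - 1 :=
    natDegree_derivative _
  rw [← h2] at h1
  have h3 : resultant (q * q) (derivative (q * q)) = 0 := by
    rw [resultant_eq_zero_iff]
    refine ⟨Or.inl hQm.ne_zero, fun hcop => hu ?_⟩
    refine hcop.isUnit_of_dvd' (dvd_mul_right q q) ?_
    rw [derivative_mul]
    exact dvd_add (dvd_mul_left q _) (dvd_mul_right q _)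
  rw [h3, hQm.leadingCoeff, mul_one] at h1
  have h4 := h1.symm
  rcases mul_eq_zero.mp h4 with h5 | h5
  · exact absurd h5 (pow_ne_zero _ (neg_ne_zero.mpr one_ne_zero))
  · exact h5

/-- The roots are distinct. -/
theorem separable_of_discr {M F : Type} [Field M] [CharZero M] [Field F] [CharZero F]
    (P : ℤ[X]) (hPm : P.Monic)
    (hdisc : ∀ Q : M[X], Q.Monic → Q ∣ P.map (Int.castRingHom M) → Q ≠ 1 → ¬ IsSquare Q.discr) :
    (P.map (Int.castRingHom F)).Separable := by
  have hsq : Squarefree (P.map (Int.castRingHom M)) := by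
    intro x hx
    by_contra hu
    have hx0 : x ≠ 0 := by
      rintro rfl
      rw [zero_mul, zero_dvd_iff] at hx
      exact (hPm.map (Int.castRingHom M)).ne_zero hx
    have hl : x.leadingCoeff ≠ 0 := leadingCoeff_ne_zero.mpr hx0
    let q : M[X] := C x.leadingCoeff⁻¹ * x
    have hqm : q.Monic := by
      change (C x.leadingCoeff⁻¹ * x).Monic
      rw [Monic, leadingCoeff_mul, leadingCoeff_C, inv_mul_cancel₀ hl]
    have hxq : Associated q x := by
      refine (associated_isUnit_mul_left_iff ?_).mpr (Associated.refl x)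
      exact isUnit_C.mpr (inv_ne_zero hl).isUnit
    have hqu : ¬ IsUnit q := fun h => hu (hxq.isUnit h)
    have hqd : q * q ∣ P.map (Int.castRingHom M) :=
      (hxq.mul_mul hxq).dvd.trans hx
    refine hdisc (q * q) (hqm.mul hqm) hqd ?_ ?_
    · intro h
      exact hqu (isUnit_iff_exists_inv.mpr ⟨q, h⟩)
    · rw [angleA_discr_sq q hqm hqu]
      exact ⟨0, by simp⟩
  have hsep : (P.map (Int.castRingHom M)).Separable := PerfectField.separable_iff_squarefree.mpr hsq
  have e1 : P.map (Int.castRingHom M) = (P.map (Int.castRingHom ℚ)).map (algebraMap ℚ M) := by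
    rw [Polynomial.map_map]
    congr 1
    exact RingHom.ext_int _ _
  have e2 : P.map (Int.castRingHom F) = (P.map (Int.castRingHom ℚ)).map (algebraMap ℚ F) := by
    rw [Polynomial.map_map]
    congr 1
    exact RingHom.ext_int _ _
  rw [e1, separable_map] at hsep
  rw [e2, separable_map]
  exact hsep

end Pool.Agent.Lib.MP_640417_ag.Frob
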