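import Pool.Agent.Lib.MP_640417_ag.Frob.DiscB

/-!
# Orbits on the roots
-/

namespace Pool.Agent.Lib.MP_640417_ag.Frob

open Polynomial

/-- The orbits on the roots have the size of the degrees of the irreducible factors. -/
theorem exists_card_orbit {M K : Type} [Field M] [Field K] [Algebra M K] [IsGalois M K]
    {I : Type} [Fintype I] [DecidableEq I] (μ : I → K) (hμ : Function.Injective μ) (P : M[X])
    (hP : P.map (algebraMap M K) = ∏ i, (X - C (μ i))) (i : I) :
    ∃ Q : M[X], Irreducible Q ∧ Q ∣ P ∧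
      Nat.card (MulAction.orbit (galPerm M K μ) i) = Q.natDegree := by
  have hroot : ∀ y : K, aeval y P = 0 ↔ ∃ j, μ j = y := by
    intro y
    rw [← eval_map_algebraMap, hP, eval_prod, Finset.prod_eq_zero_iff]
    constructor
    · rintro ⟨j, _, hj⟩
      rw [eval_sub, eval_X, eval_C, sub_eq_zero] at hj
      exact ⟨j, hj.symm⟩
    · rintro ⟨j, rfl⟩
      exact ⟨j, Finset.mem_univ j, by simp⟩
  have hint : IsIntegral M (μ i) := Algebra.IsIntegral.isIntegral (μ i)
  have hdvd : minpoly M (μ i) ∣ P := minpoly.dvd M _ ((hroot _).2 ⟨i, rfl⟩)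
  refine ⟨minpoly M (μ i), minpoly.irreducible hint, hdvd, ?_⟩
  have hmem : ∀ y : K, y ∈ (minpoly M (μ i)).rootSet K ↔ ∃ σ : K ≃ₐ[M] K, σ (μ i) = y := by
    intro y
    rw [← isConjRoot_iff_mem_minpoly_rootSet hint, IsConjRoot.comm,
      isConjRoot_iff_exists_algEquiv]
  have key : Nat.card (MulAction.orbit (galPerm M K μ) i) =
      Nat.card ((minpoly M (μ i)).rootSet K) := by
    refine Nat.card_congr (Equiv.ofBijective
      (fun j => ⟨μ j.1, ?_⟩) ⟨?_, ?_⟩)
    · rw [hmem]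
      obtain ⟨j, γ, hγ⟩ := j
      obtain ⟨σ, hσ⟩ := γ.2
      refine ⟨σ, ?_⟩
      rw [hσ]
      exact congrArg μ hγ
    · intro j j' h
      exact Subtype.ext (hμ (congrArg Subtype.val h))
    · rintro ⟨y, hy⟩
      obtain ⟨σ, hσ⟩ := (hmem y).1 hy
      obtain ⟨π, hπ⟩ := exists_perm μ hμ P hP σ
      refine ⟨⟨π i, ⟨⟨π, σ, hπ⟩, rfl⟩⟩, ?_⟩
      apply Subtype.ext
      change μ (π i) = y
      rw [← hπ, hσ]
  rw [key, Nat.card_eq_fintype_card]
  exact card_rootSet_eq_natDegree (IsGalois.separable M (μ i)) (Normal.splits inferInstance (μ i))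

end Pool.Agent.Lib.MP_640417_ag.Frob
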