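import Pool.Agent.Lib.MP_640417_ag.CMRep

/-!
# Galois representations with the properties of `H¹` of an abelian variety
-/

namespace Pool.Agent.Lib.MP_640417_ag.Frob

open Module Polynomial

/-- A continuous representation `T` of `Γ` on `V` with a nondegenerate alternating form of
multiplier `χ⁻¹`. For an abelian variety `A` over a field `k₁` finitely generated over `ℚ` take for
`Γ` the Galois group of `k₁`, for `F` the field `ℚ_ℓ`, for `V` the space `H¹(A)`, for `χ` the
cyclotomic character and for the form the Weil pairing given by a polarization. -/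
structure H1Rep (Γ : Type) [Group Γ] [TopologicalSpace Γ] (F : Type) [Field F]
    [TopologicalSpace F] (V : Type) [AddCommGroup V] [Module F V] where
  /-- The action of `Γ` on `V`. -/
  T : Γ →* Module.End F V
  /-- The cyclotomic character. -/
  χ : Γ →* Fˣ
  /-- The matrix coefficients are continuous. -/
  continuous_coeff : ∀ (f : Module.Dual F V) (x : V), Continuous fun γ => f (T γ x)
  /-- The pairing. -/
  form : LinearMap.BilinForm F V
  /-- The pairing is alternating. -/
  form_alt : ∀ x, form x x = 0
  /-- The pairing is nondegenerate. -/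
  form_nondeg : ∀ x, (∀ y, form x y = 0) → x = 0
  /-- The pairing has multiplier `χ⁻¹`. -/
  form_equivariant : ∀ γ x y, form (T γ x) (T γ y) = ((χ γ)⁻¹ : Fˣ).val * form x y

/-- The element `φ` acts like the (geometric) Frobenius of a place of good reduction with residue
field of `p ^ a` elements: its characteristic polynomial on `V` is `P`, with integral coefficients,
and `χ φ = p ^ (-a)`. -/
structure IsFrobenius {Γ : Type} [Group Γ] [TopologicalSpace Γ] {F : Type} [Field F]
    [TopologicalSpace F] {V : Type} [AddCommGroup V] [Module F V] [FiniteDimensional F V]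
    (ρ : H1Rep Γ F V) (φ : Γ) (p a : ℕ) (P : ℤ[X]) : Prop where
  prime : p.Prime
  pos : 0 < a
  charpoly : (ρ.T φ).charpoly = P.map (Int.castRingHom F)
  cyclotomic : ((ρ.χ φ)⁻¹ : Fˣ).val = (p : F) ^ a

/-- All slopes of the Newton polygon of `P` at `p`, normalized so that `p ^ a` has slope `1`, have
odd denominators: for some odd `b`, the absolute value of the `b`-th power of each root of `P` in
the algebraic closure of the `p`-adic numbers is an integral power of `p ^ a`. -/
def OddSlopes (p : ℕ) [Fact p.Prime] (a : ℕ) (P : ℤ[X]) : Prop :=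
  ∃ b : ℕ, Odd b ∧ ∀ α : PadicAlgCl p, aeval α P = 0 → ∃ j : ℤ, ‖α‖ ^ b = ((p : ℝ) ^ a) ^ j

end Pool.Agent.Lib.MP_640417_ag.Frob
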