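import Mathlib

/-!
# The ordinary condition
-/

namespace Pool.Agent.Lib.MP_640417_ag.Frob

open Polynomial

/-- The ordinary condition: of each pair of roots with product `q = p ^ a` exactly one is
a unit at any place above `p`. -/
theorem ordinary_units {K : Type} [Field K] [CharZero K] (p a g : ℕ) (hp : p.Prime) (ha : 0 < a)
    {I : Type} [Fintype I] [DecidableEq I] (hI : Fintype.card I = 2 * g)
    (P : ℤ[X]) (μ : I → K) (hP : P.map (Int.castRingHom K) = ∏ i, (X - C (μ i)))
    (c : I → I) (hc : ∀ i, c (c i) = i) (hμc : ∀ i, μ (c i) * μ i = (p : K) ^ a)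
    (hord : ¬ (p : ℤ) ∣ P.coeff g) (A : ValuationSubring K) (hA : A.valuation (p : K) < 1)
    (i : I) :
    (A.valuation (μ i) = 1 ∧ A.valuation (μ (c i)) < 1) ∨
      (A.valuation (μ i) < 1 ∧ A.valuation (μ (c i)) = 1) := by
  classical
  -- integrality
  have hmonic : P.Monic := by
    have h1 : (P.map (Int.castRingHom K)).Monic := by
      rw [hP]
      exact monic_prod_of_monic _ _ fun i _ => monic_X_sub_C (μ i)
    exact (Int.cast_injective (α := K)).monic_map_iff.2 h1
  have hle : ∀ i, A.valuation (μ i) ≤ 1 := by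
    intro i
    rw [A.valuation_le_one_iff]
    have h1 : IsIntegral ℤ (μ i) := by
      refine ⟨P, hmonic, ?_⟩
      rw [← eval_map]
      change eval (μ i) (P.map (Int.castRingHom K)) = 0
      rw [hP, eval_prod]
      exact Finset.prod_eq_zero (Finset.mem_univ i) (by simp)
    have h2 : IsIntegral A (μ i) := h1.tower_top
    obtain ⟨y, hy⟩ := IsIntegrallyClosed.isIntegral_iff.1 h2
    rw [← hy]
    exact y.2
  have hint : ∀ z : ℤ, A.valuation (z : K) ≤ 1 := by
    intro z
    rw [A.valuation_le_one_iff]
    exact intCast_mem A z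
  have hq : ∀ i, A.valuation (μ (c i)) * A.valuation (μ i) < 1 := by
    intro i
    rw [← map_mul, hμc, map_pow]
    exact pow_lt_one₀ zero_le hA ha.ne'
  by_cases h1 : A.valuation (μ i) = 1
  · left
    refine ⟨h1, ?_⟩
    have := hq i
    rwa [h1, mul_one] at this
  by_cases h2 : A.valuation (μ (c i)) = 1
  · right
    exact ⟨lt_of_le_of_ne (hle i) h1, h2⟩
  exfalso
  -- counting
  let U : Finset I := Finset.univ.filter fun j => A.valuation (μ j) = 1
  have hcinj : Function.Injective c := fun x y h => by rw [← hc x, h, hc]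
  have hUc : ∀ j ∈ U, A.valuation (μ (c j)) ≠ 1 := by
    intro j hj h
    have h3 := hq j
    rw [h, (Finset.mem_filter.1 hj).2, mul_one] at h3
    exact lt_irrefl _ h3
  have hdisj : Disjoint U (U.image c) := by
    rw [Finset.disjoint_left]
    intro j hj hj'
    obtain ⟨l, hl, rfl⟩ := Finset.mem_image.1 hj'
    exact hUc l hl (Finset.mem_filter.1 hj).2
  have hi1 : i ∉ U ∪ U.image c := by
    rw [Finset.mem_union]
    rintro (h | h)
    · exact h1 (Finset.mem_filter.1 h).2
    · obtain ⟨l, hl, hli⟩ := Finset.mem_image.1 h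
      apply h2
      rw [← hli, hc]
      exact (Finset.mem_filter.1 hl).2
  have hcard : (insert i (U ∪ U.image c)).card ≤ 2 * g := by
    rw [← hI]
    exact Finset.card_le_univ _
  rw [Finset.card_insert_of_notMem hi1, Finset.card_union_of_disjoint hdisj,
    Finset.card_image_of_injective _ hcinj] at hcard
  have hUg : U.card < g := by omega
  -- the middle coefficient
  have hcoeff : A.valuation ((P.coeff g : ℤ) : K) < 1 := by
    have h3 : ((P.coeff g : ℤ) : K) = (P.map (Int.castRingHom K)).coeff g := by
      rw [coeff_map]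
      rfl
    have h4 : ∏ i, (X - C (μ i)) =
        ((Finset.univ.val.map μ).map fun t => X - C t).prod := by
      rw [Multiset.map_map]
      rfl
    have hcardU : Multiset.card ((Finset.univ : Finset I).val.map μ) = 2 * g := by
      rw [Multiset.card_map]
      exact hI
    rw [h3, hP, h4, Multiset.prod_X_sub_C_coeff _ (by rw [hcardU]; omega), hcardU,
      Finset.esymm_map_val, map_mul]
    have h5 : A.valuation ((-1 : K) ^ (2 * g - g)) = 1 := by
      rw [map_pow, Valuation.map_neg, map_one, one_pow]
    rw [h5, one_mul]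
    refine Valuation.map_sum_lt _ one_ne_zero fun t ht => ?_
    have htc : t.card = g := by
      have := (Finset.mem_powersetCard.1 ht).2
      omega
    obtain ⟨j, hjt, hjU⟩ : ∃ j ∈ t, j ∉ U := by
      by_contra hcon
      push Not at hcon
      have := Finset.card_le_card (show t ⊆ U from hcon)
      omega
    have hj1 : A.valuation (μ j) < 1 :=
      lt_of_le_of_ne (hle j) fun h => hjU (Finset.mem_filter.2 ⟨Finset.mem_univ _, h⟩)
    rw [map_prod, ← Finset.mul_prod_erase _ _ hjt]
    have h6 : ∏ x ∈ t.erase j, A.valuation (μ x) ≤ 1 :=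
      Finset.prod_le_one' fun x _ => hle x
    exact mul_lt_one_of_lt_of_le hj1 h6
  -- contradiction
  have hcop : IsCoprime (P.coeff g) (p : ℤ) := by
    rw [isCoprime_comm]
    exact (Nat.prime_iff_prime_int.1 hp).coprime_iff_not_dvd.2 hord
  obtain ⟨x, y, hxy⟩ := hcop
  have h7 : A.valuation (1 : K) < 1 := by
    have h8 : (1 : K) = (x : K) * ((P.coeff g : ℤ) : K) + (y : K) * (p : K) := by
      have := congrArg (Int.cast : ℤ → K) hxy
      push_cast at this
      exact this.symm
    rw [h8]
    refine Valuation.map_add_lt _ ?_ ?_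
    · rw [map_mul]
      exact (mul_le_of_le_one_left' (hint x)).trans_lt hcoeff
    · rw [map_mul]
      exact (mul_le_of_le_one_left' (hint y)).trans_lt hA
  rw [map_one] at h7
  exact lt_irrefl _ h7

/-- The valuations of a monomial relation between the roots. -/
theorem valuation_relation {K : Type} [Field K] [CharZero K] (p a : ℕ) (hp : p.Prime)
    (ha : 0 < a) {I : Type} [Fintype I] [DecidableEq I] (μ : I → K)
    (c : I → I) (hμc : ∀ i, μ (c i) * μ i = (p : K) ^ a)
    (A : ValuationSubring K) (hA : A.valuation (p : K) < 1)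
    (hunit : ∀ i, (A.valuation (μ i) = 1 ∧ A.valuation (μ (c i)) < 1) ∨
      (A.valuation (μ i) < 1 ∧ A.valuation (μ (c i)) = 1))
    (m : I → ℤ) (k : ℤ) (N : ℕ) (hN : 0 < N)
    (hrel : (∏ i, μ i ^ m i) ^ N = (((p : K) ^ a) ^ k) ^ N) :
    ∑ i, (if A.valuation (μ i) = 1 then 0 else m i) = k := by
  classical
  have hp0 : (p : K) ≠ 0 := by exact_mod_cast hp.ne_zero
  set x := A.valuation ((p : K) ^ a) with hx
  have hx0 : x ≠ 0 := by
    rw [hx, Valuation.ne_zero_iff]
    exact pow_ne_zero _ hp0
  have hx1 : x < 1 := by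
    rw [hx, map_pow]
    exact pow_lt_one₀ zero_le hA ha.ne'
  have hi : ∀ i, A.valuation (μ i ^ m i) = x ^ (if A.valuation (μ i) = 1 then 0 else m i) := by
    intro i
    rw [map_zpow₀]
    by_cases h : A.valuation (μ i) = 1
    · rw [if_pos h, h]
      simp
    · rw [if_neg h]
      rcases hunit i with h1 | h1
      · exact absurd h1.1 h
      · have h2 := congrArg A.valuation (hμc i)
        rw [map_mul, h1.2, one_mul] at h2
        rw [h2]
  have hprod : A.valuation (∏ i, μ i ^ m i) =
      x ^ ∑ i, (if A.valuation (μ i) = 1 then 0 else m i) := by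
    rw [map_prod]
    simp only [hi]
    have key : ∀ s : Finset I, ∏ i ∈ s, x ^ (if A.valuation (μ i) = 1 then 0 else m i) =
        x ^ ∑ i ∈ s, (if A.valuation (μ i) = 1 then 0 else m i) := by
      intro s
      induction s using Finset.induction_on with
      | empty => simp
      | insert b s hb ih => rw [Finset.prod_insert hb, Finset.sum_insert hb, ih, zpow_add₀ hx0]
    exact key _
  have h1 := congrArg A.valuation hrel
  rw [map_pow, map_pow, hprod, map_zpow₀, ← hx, ← zpow_natCast, ← zpow_natCast, ← zpow_mul,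
    ← zpow_mul] at h1
  have h2 := zpow_right_injective₀ (zero_lt_iff.2 hx0) hx1.ne h1
  have hN' : (N : ℤ) ≠ 0 := by exact_mod_cast hN.ne'
  exact mul_right_cancel₀ hN' h2

end Pool.Agent.Lib.MP_640417_ag.Frob
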