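import Pool.Agent.Lib.MP_640417_ag.TwoAdic
import Pool.Agent.Lib.MP_640417_ag.Frob.Setup
import Pool.Agent.Lib.MP_640417_ag.Frob.DiscC
import Pool.Agent.Lib.MP_640417_ag.Frob.ValB
import Pool.Agent.Lib.MP_640417_ag.Frob.AngleA

/-!
# Newton polygons whose slopes have odd denominators
-/

namespace Pool.Agent.Lib.MP_640417_ag.Frob

open Polynomial

lemma norm_q (p : ℕ) [Fact p.Prime] (a : ℕ) :
    ‖((p : PadicAlgCl p) ^ a)‖ = ((p : ℝ) ^ a)⁻¹ := by
  rw [norm_pow, ← map_natCast (algebraMap ℚ_[p] (PadicAlgCl p)), PadicAlgCl.norm_extends,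
    Padic.norm_p, inv_pow]

/-- The valuations of a monomial relation between the roots. -/
lemma sum_of_relation (p a : ℕ) [Fact p.Prime] (ha : 0 < a) {I : Type} [Fintype I]
    (ν : I → PadicAlgCl p) (b : ℕ) (j : I → ℤ)
    (hj : ∀ i, ‖ν i‖ ^ b = ((p : ℝ) ^ a) ^ (j i)) (m : I → ℤ) (k : ℤ) (N : ℕ) (hN : 0 < N)
    (hrel : (∏ i, ν i ^ m i) ^ N = (((p : PadicAlgCl p) ^ a) ^ k) ^ N) :
    ∑ i, m i * j i = - (k * b) := by
  classical
  have hp : (1 : ℝ) < p := by exact_mod_cast (Fact.out : p.Prime).one_lt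
  set y : ℝ := (p : ℝ) ^ a with hy
  have hy1 : 1 < y := one_lt_pow₀ hp ha.ne'
  have hy0 : y ≠ 0 := by positivity
  have h1 := congrArg (fun z => ‖z‖ ^ b) hrel
  simp only [norm_pow, norm_prod, norm_zpow] at h1
  have h2 : ‖(p : PadicAlgCl p)‖ ^ a = y⁻¹ := by
    rw [← norm_pow, norm_q]
  rw [h2] at h1
  have h3 : ((∏ i, ‖ν i‖ ^ m i) ^ N) ^ b = y ^ ((∑ i, m i * j i) * N) := by
    rw [← pow_mul, mul_comm N b, pow_mul, ← Finset.prod_pow]
    have h4 : ∀ i, (‖ν i‖ ^ m i) ^ b = y ^ (m i * j i) := by
      intro i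
      rw [← zpow_natCast, ← zpow_mul, mul_comm (m i), zpow_mul, zpow_natCast, hj i, ← zpow_mul,
        mul_comm]
    rw [Finset.prod_congr rfl (fun i _ => h4 i)]
    have h5 : ∀ s : Finset I, ∏ i ∈ s, y ^ (m i * j i) = y ^ (∑ i ∈ s, m i * j i) := by
      intro s
      induction s using Finset.induction_on with
      | empty => simp
      | insert x s hx ih => rw [Finset.prod_insert hx, Finset.sum_insert hx, ih, zpow_add₀ hy0]
    rw [h5, ← zpow_natCast, ← zpow_mul]
  have h6 : (((y⁻¹) ^ k) ^ N) ^ b = y ^ (-(k * b) * N) := by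
    rw [inv_zpow', ← zpow_natCast, ← zpow_natCast, ← zpow_mul, ← zpow_mul]
    congr 1
    ring
  rw [h3, h6] at h1
  have h7 := zpow_right_injective₀ (by positivity) hy1.ne' h1
  have hN' : (N : ℤ) ≠ 0 := by exact_mod_cast hN.ne'
  exact mul_right_cancel₀ hN' h7

/-- The eigenvalues of a Frobenius whose slopes have odd denominators satisfy only the trivial
relations. -/
theorem angle_slope {M F : Type} [Field M] [CharZero M] [Field F] [CharZero F]
    (p a : ℕ) [Fact p.Prime] (ha : 0 < a)
    {I : Type} [Fintype I] [DecidableEq I]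
    (P : ℤ[X]) (lam : I → F) (hP : P.map (Int.castRingHom F) = ∏ i, (X - C (lam i)))
    (c : I → I) (hc : ∀ i, c (c i) = i) (hlc : ∀ i, lam (c i) * lam i = (p : F) ^ a)
    (hslope : OddSlopes p a P)
    (hpow : ∀ Q : M[X], Irreducible Q → Q ∣ P.map (Int.castRingHom M) → ∃ k, Q.natDegree = 2 ^ k)
    (hdisc : ∀ Q : M[X], Q.Monic → Q ∣ P.map (Int.castRingHom M) → Q ≠ 1 → ¬ IsSquare Q.discr)
    (m : I → ℤ) (k : ℤ) (N : ℕ) (hN : 0 < N)
    (hrel : (∏ i, lam i ^ m i) ^ N = (((p : F) ^ a) ^ k) ^ N) (i : I) : m i = m (c i) := by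
  classical
  have hp : p.Prime := Fact.out
  have hPm : P.Monic := by
    have h1 : (P.map (Int.castRingHom F)).Monic := by
      rw [hP]
      exact monic_prod_of_monic _ _ (fun i _ => monic_X_sub_C _)
    exact Polynomial.monic_of_injective (RingHom.injective_int _) h1
  let L : IntermediateField ℚ F := IntermediateField.adjoin ℚ (Set.range lam)
  have hint : ∀ i, IsIntegral ℚ (lam i) := by
    intro i
    refine ⟨P.map (Int.castRingHom ℚ), hPm.map _, ?_⟩
    have h1 : (P.map (Int.castRingHom F)).eval (lam i) = 0 := by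
      rw [hP, eval_prod]
      apply Finset.prod_eq_zero (Finset.mem_univ i)
      simp
    rw [eval₂_map]
    rw [eval_map] at h1
    have h2 : (algebraMap ℚ F).comp (Int.castRingHom ℚ) = Int.castRingHom F :=
      RingHom.ext_int _ _
    rw [h2]
    exact h1
  have halg : Algebra.IsAlgebraic ℚ L :=
    IntermediateField.isAlgebraic_adjoin (by
      rintro x ⟨i, rfl⟩
      exact hint i)
  let K : Type := AlgebraicClosure M
  let algK : Algebra ℚ K := inferInstance
  let σ : L →ₐ[ℚ] K := IsAlgClosed.lift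
  let τ : L →ₐ[ℚ] PadicAlgCl p := IsAlgClosed.lift
  have hmem : ∀ i, lam i ∈ L := fun i => IntermediateField.subset_adjoin ℚ _ ⟨i, rfl⟩
  let lamL : I → L := fun i => ⟨lam i, hmem i⟩
  let μ : I → K := fun i => σ (lamL i)
  let ν : I → PadicAlgCl p := fun i => τ (lamL i)
  have hPL : P.map (Int.castRingHom L) = ∏ i, (X - C (lamL i)) := by
    apply Polynomial.map_injective (algebraMap L F) (algebraMap L F).injective
    rw [Polynomial.map_map, Polynomial.map_prod]
    have h1 : (algebraMap L F).comp (Int.castRingHom L) = Int.castRingHom F :=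
      RingHom.ext_int _ _
    rw [h1, hP]
    apply Finset.prod_congr rfl
    intro i _
    rw [Polynomial.map_sub, Polynomial.map_X, Polynomial.map_C]
    rfl
  have hPK : P.map (Int.castRingHom K) = ∏ i, (X - C (μ i)) := by
    have h1 : (σ : L →+* K).comp (Int.castRingHom L) = Int.castRingHom K :=
      RingHom.ext_int _ _
    rw [← h1, ← Polynomial.map_map, hPL, Polynomial.map_prod]
    apply Finset.prod_congr rfl
    intro i _
    rw [Polynomial.map_sub, Polynomial.map_X, Polynomial.map_C]
    rfl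
  have hlcL : ∀ i, lamL (c i) * lamL i = (p : L) ^ a := by
    intro i
    apply Subtype.ext
    have := hlc i
    push_cast
    exact this
  have hrelL : (∏ i, lamL i ^ m i) ^ N = (((p : L) ^ a) ^ k) ^ N := by
    apply (algebraMap L F).injective
    rw [map_pow, map_prod, map_pow, map_zpow₀, map_pow, map_natCast]
    simp only [map_zpow₀]
    exact hrel
  have hgalI : IsGalois M K := by
    have : Normal M K := inferInstance
    have : Algebra.IsSeparable M K := inferInstance
    exact ⟨⟩
  have hchar : CharZero K := charZero_of_injective_algebraMap (algebraMap M K).injective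
  have hμc : ∀ i, μ (c i) * μ i = (p : K) ^ a := by
    intro i
    have := congrArg σ (hlcL i)
    rw [map_mul, map_pow, map_natCast] at this
    exact this
  have hsep : (P.map (Int.castRingHom K)).Separable := separable_of_discr P hPm hdisc
  have hμ : Function.Injective μ := by
    rw [hPK] at hsep
    exact separable_prod_X_sub_C_iff.mp hsep
  set PM : M[X] := P.map (Int.castRingHom M) with hPM
  have hPMK : PM.map (algebraMap M K) = ∏ i, (X - C (μ i)) := by
    rw [hPM, Polynomial.map_map, ← hPK]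
    congr 1
  have hp0 : ((p : K) ^ a) ≠ 0 := pow_ne_zero _ (Nat.cast_ne_zero.mpr hp.ne_zero)
  have hμ0 : ∀ i, μ i ≠ 0 := by
    intro i h
    have h1 := hμc i
    rw [h, mul_zero] at h1
    exact hp0 h1.symm
  -- the action of the Galois group
  have hgal : ∀ γ : galPerm M K μ, ∃ σ : K ≃ₐ[M] K, ∀ i, σ (μ i) = μ (γ • i) := by
    intro γ
    obtain ⟨σ, hσ⟩ := γ.2
    exact ⟨σ, hσ⟩
  have hμcγ : ∀ (γ : galPerm M K μ) (i : I), μ (γ • c i) * μ (γ • i) = (p : K) ^ a := by
    intro γ i
    obtain ⟨σ, hσ⟩ := hgal γ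
    rw [← hσ, ← hσ, ← map_mul, hμc, map_pow, map_natCast]
  have hcG : ∀ (γ : galPerm M K μ) (i : I), γ • c i = c (γ • i) := by
    intro γ i
    apply hμ
    apply mul_right_cancel₀ (hμ0 (γ • i))
    rw [hμcγ, hμc]
  -- the slopes
  obtain ⟨b, hb, hb2⟩ := hslope
  have hνroot : ∀ i, aeval (ν i) P = 0 := by
    intro i
    have h1 : (P.map (Int.castRingHom (PadicAlgCl p))) = ∏ i, (X - C (ν i)) := by
      have h1 : (τ : L →+* PadicAlgCl p).comp (Int.castRingHom L) =
          Int.castRingHom (PadicAlgCl p) := RingHom.ext_int _ _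
      rw [← h1, ← Polynomial.map_map, hPL, Polynomial.map_prod]
      apply Finset.prod_congr rfl
      intro i _
      rw [Polynomial.map_sub, Polynomial.map_X, Polynomial.map_C]
      rfl
    have h2 : aeval (ν i) P = (P.map (Int.castRingHom (PadicAlgCl p))).eval (ν i) := by
      rw [eval_map, aeval_def]
      congr 1
    rw [h2, h1, eval_prod]
    exact Finset.prod_eq_zero (Finset.mem_univ i) (by simp)
  choose j hj using fun i => hb2 (ν i) (hνroot i)
  have hp1 : (1 : ℝ) < p := by exact_mod_cast hp.one_lt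
  have hy1 : (1 : ℝ) < (p : ℝ) ^ a := one_lt_pow₀ hp1 ha.ne'
  have hjc : ∀ i, j (c i) = - j i - b := by
    intro i
    have h1 : ν (c i) * ν i = (p : PadicAlgCl p) ^ a := by
      have := congrArg τ (hlcL i)
      rw [map_mul, map_pow, map_natCast] at this
      exact this
    have h2 := congrArg (fun z => ‖z‖ ^ b) h1
    simp only [norm_mul] at h2
    have h4 : (((p : ℝ) ^ a)⁻¹) ^ b = ((p : ℝ) ^ a) ^ (-(b : ℤ)) := by
      rw [inv_pow, zpow_neg, zpow_natCast]
    rw [mul_pow, hj, hj, norm_q, ← zpow_add₀ (by positivity), h4] at h2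
    have h3 := zpow_right_injective₀ (by positivity) hy1.ne' h2
    linarith
  let e : I → ℤ := fun i => 2 * j i + b
  have he : ∀ i, Odd (e i) := by
    intro i
    have : Odd (b : ℤ) := by exact_mod_cast hb
    exact (even_two_mul _).add_odd this
  have hec : ∀ i, e (c i) = - e i := by
    intro i
    simp only [e, hjc]; ring
  have hsum : ∀ γ : galPerm M K μ, ∑ i, m i * e (γ • i) = b * ∑ i, m i - 2 * (k * b) := by
    intro γ
    obtain ⟨ρ, hρ⟩ := hgal γ
    have h2 : (∏ i, μ (γ • i) ^ m i) ^ N = (((p : K) ^ a) ^ k) ^ N := by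
      have h1 := congrArg σ hrelL
      rw [map_pow, map_prod, map_pow, map_zpow₀, map_pow, map_natCast] at h1
      simp only [map_zpow₀] at h1
      have h2 := congrArg ρ h1
      rw [map_pow, map_prod, map_pow, map_zpow₀, map_pow, map_natCast] at h2
      simp only [map_zpow₀] at h2
      simp only [← hρ]
      exact h2
    have h3 : (∏ i, lamL (γ • i) ^ m i) ^ N = (((p : L) ^ a) ^ k) ^ N := by
      apply (σ : L →+* K).injective
      change σ _ = σ _
      rw [map_pow, map_prod, map_pow, map_zpow₀, map_pow, map_natCast]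
      simp only [map_zpow₀]
      exact h2
    have h4 : (∏ i, ν (γ • i) ^ m i) ^ N = (((p : PadicAlgCl p) ^ a) ^ k) ^ N := by
      have h5 := congrArg τ h3
      rw [map_pow, map_prod, map_pow, map_zpow₀, map_pow, map_natCast] at h5
      simp only [map_zpow₀] at h5
      exact h5
    have h5 := sum_of_relation p a ha (fun i => ν (γ • i)) b (fun i => j (γ • i))
      (fun i => hj (γ • i)) m k N hN h4
    have h6 : ∑ i, m i * e (γ • i) = 2 * (∑ i, m i * j (γ • i)) + b * ∑ i, m i := by
      rw [Finset.mul_sum, Finset.mul_sum, ← Finset.sum_add_distrib]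
      apply Finset.sum_congr rfl
      intro i _
      simp only [e]; ring
    rw [h6, h5]; ring
  have hv := relation_const_eq_zero (G := galPerm M K μ) c hc hcG (by
      intro s
      obtain ⟨Q, hQ1, hQ2, hQ3⟩ := exists_card_orbit μ hμ PM hPMK s
      obtain ⟨l, hl⟩ := hpow Q hQ1 hQ2
      exact ⟨l, by rw [hQ3, hl]⟩)
    (by
      intro Y hne _ hY
      exact exists_odd μ hμ PM hPMK hdisc Y hne hY)
    e he hec (fun i => m i - m (c i)) (by
      intro s
      simp only [hc]; ring) (2 * (b * ∑ i, m i - 2 * (k * b))) (by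
      intro γ
      simp only [sub_mul]
      rw [Finset.sum_sub_distrib, hsum γ]
      have h2 : ∑ i, m (c i) * e (γ • i) = - ∑ i, m i * e (γ • i) := by
        rw [← Finset.sum_neg_distrib]
        apply Fintype.sum_bijective c (Function.Involutive.bijective hc)
        intro j
        rw [hcG, hec]; ring
      rw [h2, hsum γ]; ring)
  have h3 := congrFun hv i
  simp only [Pi.zero_apply] at h3
  linarith

/-- Ordinary polynomials have integral slopes. -/
theorem oddSlopes_of_ordinary (p a g : ℕ) [Fact p.Prime] (ha : 0 < a)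
    {I F : Type} [Fintype I] [DecidableEq I] [Field F] [CharZero F]
    (hI : Fintype.card I = 2 * g)
    (P : ℤ[X]) (lam : I → F) (hP : P.map (Int.castRingHom F) = ∏ i, (X - C (lam i)))
    (c : I → I) (hc : ∀ i, c (c i) = i) (hlc : ∀ i, lam (c i) * lam i = (p : F) ^ a)
    (hord : ¬ (p : ℤ) ∣ P.coeff g) : OddSlopes p a P := by
  classical
  have hp : p.Prime := Fact.out
  have hPm : P.Monic := by
    have h1 : (P.map (Int.castRingHom F)).Monic := by
      rw [hP]
      exact monic_prod_of_monic _ _ (fun i _ => monic_X_sub_C _)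
    exact Polynomial.monic_of_injective (RingHom.injective_int _) h1
  let L : IntermediateField ℚ F := IntermediateField.adjoin ℚ (Set.range lam)
  have hint : ∀ i, IsIntegral ℚ (lam i) := by
    intro i
    refine ⟨P.map (Int.castRingHom ℚ), hPm.map _, ?_⟩
    have h1 : (P.map (Int.castRingHom F)).eval (lam i) = 0 := by
      rw [hP, eval_prod]
      apply Finset.prod_eq_zero (Finset.mem_univ i)
      simp
    rw [eval₂_map]
    rw [eval_map] at h1
    have h2 : (algebraMap ℚ F).comp (Int.castRingHom ℚ) = Int.castRingHom F :=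
      RingHom.ext_int _ _
    rw [h2]
    exact h1
  have halg : Algebra.IsAlgebraic ℚ L :=
    IntermediateField.isAlgebraic_adjoin (by
      rintro x ⟨i, rfl⟩
      exact hint i)
  let τ : L →ₐ[ℚ] PadicAlgCl p := IsAlgClosed.lift
  have hmem : ∀ i, lam i ∈ L := fun i => IntermediateField.subset_adjoin ℚ _ ⟨i, rfl⟩
  let lamL : I → L := fun i => ⟨lam i, hmem i⟩
  let ν : I → PadicAlgCl p := fun i => τ (lamL i)
  have hPL : P.map (Int.castRingHom L) = ∏ i, (X - C (lamL i)) := by
    apply Polynomial.map_injective (algebraMap L F) (algebraMap L F).injective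
    rw [Polynomial.map_map, Polynomial.map_prod]
    have h1 : (algebraMap L F).comp (Int.castRingHom L) = Int.castRingHom F :=
      RingHom.ext_int _ _
    rw [h1, hP]
    apply Finset.prod_congr rfl
    intro i _
    rw [Polynomial.map_sub, Polynomial.map_X, Polynomial.map_C]
    rfl
  have hPν : (P.map (Int.castRingHom (PadicAlgCl p))) = ∏ i, (X - C (ν i)) := by
    have h1 : (τ : L →+* PadicAlgCl p).comp (Int.castRingHom L) =
        Int.castRingHom (PadicAlgCl p) := RingHom.ext_int _ _
    rw [← h1, ← Polynomial.map_map, hPL, Polynomial.map_prod]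
    apply Finset.prod_congr rfl
    intro i _
    rw [Polynomial.map_sub, Polynomial.map_X, Polynomial.map_C]
    rfl
  have hνc : ∀ i, ν (c i) * ν i = (p : PadicAlgCl p) ^ a := by
    intro i
    have h1 : lamL (c i) * lamL i = (p : L) ^ a := by
      apply Subtype.ext
      have := hlc i
      push_cast
      exact this
    have := congrArg τ h1
    rw [map_mul, map_pow, map_natCast] at this
    exact this
  let v : Valuation (PadicAlgCl p) NNReal := Valued.v
  have hv : ∀ x, ((v x : NNReal) : ℝ) = ‖x‖ := fun x => PadicAlgCl.valuation_coe p x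
  let A : ValuationSubring (PadicAlgCl p) := v.valuationSubring
  have hequiv : v.IsEquiv A.valuation := v.isEquiv_valuation_valuationSubring
  have hA : A.valuation (p : PadicAlgCl p) < 1 := by
    rw [← hequiv.lt_one_iff_lt_one]
    have h1 : v (p : PadicAlgCl p) = 1 / (p : NNReal) := PadicAlgCl.valuation_p p
    rw [h1, one_div]
    apply inv_lt_one_of_one_lt₀
    exact_mod_cast hp.one_lt
  have hunit := ordinary_units p a g hp ha hI P ν hPν c hc hνc hord A hA
  refine ⟨1, odd_one, ?_⟩
  intro α hα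
  have h1 : (P.map (Int.castRingHom (PadicAlgCl p))).eval α = 0 := by
    have h2 : aeval α P = (P.map (Int.castRingHom (PadicAlgCl p))).eval α := by
      rw [eval_map, aeval_def]
      congr 1
    rw [← h2, hα]
  rw [hPν, eval_prod, Finset.prod_eq_zero_iff] at h1
  obtain ⟨i, -, hi⟩ := h1
  rw [eval_sub, eval_X, eval_C, sub_eq_zero] at hi
  rw [hi, pow_one]
  rcases hunit i with ⟨h2, -⟩ | ⟨-, h2⟩
  · refine ⟨0, ?_⟩
    rw [← hequiv.eq_one_iff_eq_one] at h2
    rw [← hv, h2]
    simp
  · refine ⟨-1, ?_⟩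
    rw [← hequiv.eq_one_iff_eq_one] at h2
    have h3 : ‖ν (c i)‖ = 1 := by rw [← hv, h2]; simp
    have h4 := congrArg norm (hνc i)
    rw [norm_mul, h3, one_mul, norm_q] at h4
    rw [h4, zpow_neg_one]

end Pool.Agent.Lib.MP_640417_ag.Frob
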