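import Pool.Agent.Lib.MP_640417_ag.Frob.Defs

/-!
# Canonical anticommutation relations
-/

namespace Pool.Agent.Lib.MP_640417_ag.Frob

open Module

variable {I : Type} [Fintype I] [DecidableEq I] {F : Type} [Field F] {n : ℕ}

omit [Fintype I] in
lemma cr_apply (p : Fin n × I) (x : Lam I F n) : cr F p x = ev F p * x := rfl

omit [Fintype I] in
lemma an_cr (p q : Fin n × I) (x : Lam I F n) :
    an F p (cr F q x) = (if p = q then x else 0) - cr F q (an F p x) := by
  rw [cr_apply, cr_apply]
  have h := CliffordAlgebra.contractLeft_ι_mul (Q := (0 : QuadraticForm F (Fin n × I → F)))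
    (d := (LinearMap.proj p : (Fin n × I → F) →ₗ[F] F)) (Pi.single q (1 : F)) x
  have h2 : (LinearMap.proj p : (Fin n × I → F) →ₗ[F] F) (Pi.single q (1 : F)) • x =
      if p = q then x else 0 := by
    rw [LinearMap.proj_apply]
    by_cases hpq : p = q
    · subst hpq; simp
    · simp [hpq]
  rw [h2] at h
  exact h

omit [Fintype I] in
lemma cr_cr (p q : Fin n × I) (x : Lam I F n) : cr F p (cr F q x) = - cr F q (cr F p x) := by
  rw [cr_apply, cr_apply, cr_apply, cr_apply, ← mul_assoc, ← mul_assoc, ← neg_mul]
  congr 1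
  exact eq_neg_of_add_eq_zero_left (ExteriorAlgebra.ι_add_mul_swap _ _)

omit [Fintype I] in
lemma an_an (p q : Fin n × I) (x : Lam I F n) : an F p (an F q x) = - an F q (an F p x) := by
  exact CliffordAlgebra.contractLeft_comm (Q := (0 : QuadraticForm F (Fin n × I → F)))
    (LinearMap.proj p : (Fin n × I → F) →ₗ[F] F) (LinearMap.proj q : (Fin n × I → F) →ₗ[F] F) x

omit [Fintype I] in
lemma cr_cr_self (p : Fin n × I) (x : Lam I F n) : cr F p (cr F p x) = 0 := by
  rw [cr_apply, cr_apply, ← mul_assoc]
  unfold ev
  rw [ExteriorAlgebra.ι_sq_zero, zero_mul]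

omit [Fintype I] in
lemma an_an_self (p : Fin n × I) (x : Lam I F n) : an F p (an F p x) = 0 :=
  CliffordAlgebra.contractLeft_contractLeft (Q := (0 : QuadraticForm F (Fin n × I → F)))
    (d := (LinearMap.proj p : (Fin n × I → F) →ₗ[F] F)) x

omit [Fintype I] in
lemma an_algebraMap (p : Fin n × I) (r : F) : an F p (algebraMap F (Lam I F n) r) = 0 :=
  CliffordAlgebra.contractLeft_algebraMap (0 : QuadraticForm F (Fin n × I → F))
    (LinearMap.proj p : (Fin n × I → F) →ₗ[F] F) r

omit [Fintype I] in
lemma EE_apply (u v : I) (x : Lam I F n) :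
    EE F n u v x = ∑ a : Fin n, cr F (a, u) (an F (a, v) x) := by
  unfold EE
  rw [LinearMap.sum_apply]
  rfl

omit [Fintype I] in
lemma EE_cr (u v w : I) (a : Fin n) (x : Lam I F n) :
    EE F n u v (cr F (a, w) x) = cr F (a, w) (EE F n u v x) + if v = w then cr F (a, u) x else 0 := by
  have h : ∀ b : Fin n, cr F (b, u) (an F (b, v) (cr F (a, w) x)) =
      cr F (a, w) (cr F (b, u) (an F (b, v) x)) +
        if b = a then (if v = w then cr F (a, u) x else 0) else 0 := by
    intro b
    rw [an_cr, map_sub, cr_cr (b, u) (a, w), sub_neg_eq_add, add_comm]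
    congr 1
    by_cases hb : b = a
    · subst hb
      by_cases hv : v = w
      · subst hv; simp
      · simp [hv]
    · simp [hb]
  rw [EE_apply, EE_apply, map_sum, Finset.sum_congr rfl (fun b _ => h b),
    Finset.sum_add_distrib, Finset.sum_ite_eq' Finset.univ a]
  simp

omit [Fintype I] in
lemma EE_an (u v w : I) (a : Fin n) (x : Lam I F n) :
    EE F n u v (an F (a, w) x) = an F (a, w) (EE F n u v x) - if u = w then an F (a, v) x else 0 := by
  have h : ∀ b : Fin n, cr F (b, u) (an F (b, v) (an F (a, w) x)) =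
      an F (a, w) (cr F (b, u) (an F (b, v) x)) -
        if b = a then (if u = w then an F (a, v) x else 0) else 0 := by
    intro b
    rw [an_an (b, v) (a, w), map_neg, an_cr (a, w) (b, u)]
    by_cases hb : b = a
    · subst hb
      by_cases hv : u = w
      · subst hv; simp
      · have hv' : ¬ w = u := fun h => hv h.symm
        simp [hv, hv']
    · have hb' : ¬ a = b := fun h => hb h.symm
      simp [hb, hb']
  rw [EE_apply, EE_apply, map_sum, Finset.sum_congr rfl (fun b _ => h b),
    Finset.sum_sub_distrib, Finset.sum_ite_eq' Finset.univ a]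
  simp

omit [Fintype I] in
lemma EE_algebraMap (u v : I) (r : F) : EE F n u v (algebraMap F (Lam I F n) r) = 0 := by
  rw [EE_apply]
  exact Finset.sum_eq_zero fun a _ => by rw [an_algebraMap, map_zero]

omit [Fintype I] in
/-- The commutation relations of `gl(V)`. -/
lemma EE_EE (s t u v : I) (x : Lam I F n) :
    EE F n s t (EE F n u v x) - EE F n u v (EE F n s t x)
      = (if t = u then EE F n s v x else 0) - (if s = v then EE F n u t x else 0) := by
  have h : ∀ a : Fin n, EE F n s t (cr F (a, u) (an F (a, v) x)) =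
      cr F (a, u) (an F (a, v) (EE F n s t x)) +
        ((if t = u then cr F (a, s) (an F (a, v) x) else 0) -
          (if s = v then cr F (a, u) (an F (a, t) x) else 0)) := by
    intro a
    rw [EE_cr, EE_an, map_sub]
    by_cases h1 : t = u <;> by_cases h2 : s = v <;> simp [h1, h2] <;> abel
  have e1 : EE F n s t (EE F n u v x) = EE F n u v (EE F n s t x) +
      ((if t = u then EE F n s v x else 0) - (if s = v then EE F n u t x else 0)) := by
    rw [EE_apply u v x, map_sum, Finset.sum_congr rfl (fun a _ => h a), Finset.sum_add_distrib,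
      ← EE_apply u v, Finset.sum_sub_distrib]
    congr 1
    congr 1
    · by_cases h1 : t = u
      · simp only [h1, if_true]; rw [EE_apply]
      · simp [h1]
    · by_cases h1 : s = v
      · simp only [h1, if_true]; rw [EE_apply]
      · simp [h1]
  rw [e1]
  abel

lemma DD_add (A B : Matrix I I F) : DD n (A + B) = DD n A + DD n B := by
  unfold DD
  simp only [Matrix.add_apply, add_smul, Finset.sum_add_distrib]

lemma DD_smul (r : F) (A : Matrix I I F) : DD n (r • A) = r • DD n A := by
  unfold DD
  simp only [Matrix.smul_apply, smul_eq_mul, mul_smul, Finset.smul_sum]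

lemma DD_single (u v : I) (r : F) : DD n (Matrix.single u v r) = r • EE F n u v := by
  unfold DD
  rw [Finset.sum_eq_single u, Finset.sum_eq_single v]
  · simp
  · intro w _ hw
    rw [Matrix.single_apply_of_ne _ _ _ _ _ (by rintro ⟨-, h⟩; exact hw h.symm), zero_smul]
  · intro h; exact absurd (Finset.mem_univ _) h
  · intro w _ hw
    refine Finset.sum_eq_zero fun z _ => ?_
    rw [Matrix.single_apply_of_ne _ _ _ _ _ (by rintro ⟨h, -⟩; exact hw h.symm), zero_smul]
  · intro h; exact absurd (Finset.mem_univ _) h

lemma DD_algebraMap (A : Matrix I I F) (r : F) : DD n A (algebraMap F (Lam I F n) r) = 0 := by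
  unfold DD
  rw [LinearMap.sum_apply]
  refine Finset.sum_eq_zero fun u _ => ?_
  rw [LinearMap.sum_apply]
  refine Finset.sum_eq_zero fun v _ => ?_
  rw [LinearMap.smul_apply, EE_algebraMap, smul_zero]

end Pool.Agent.Lib.MP_640417_ag.Frob
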