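import Pool.Agent.Lib.MP_640417_ag.Frob.LieA
import Pool.Agent.Lib.MP_640417_ag.Frob.LieB

/-!
# The root elements of `R0` kill all Tate classes
-/

namespace Pool.Agent.Lib.MP_640417_ag.Frob

open Module

variable {I : Type} [Fintype I] [DecidableEq I] {F : Type} [Field F] {n : ℕ}
  {Γ : Type} [Group Γ] [TopologicalSpace Γ]

/-- The matrices all of whose off-diagonal nonzero entries have a root element that kills. -/
private def lieR1 [CharZero F] (n : ℕ) (c : I → I) (hc : ∀ v, c (c v) = v)
    (w : I → F) (hw : ∀ v, w v ≠ 0) (hwc : ∀ v, w (c v) = - w v)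
    (A : Γ →* Matrix I I F) (χ : Γ →* Fˣ) : Subalgebra F (Matrix I I F) where
  carrier := {M | ∀ a b, a ≠ b → M a b ≠ 0 → Kills n A χ (XX c w a b)}
  mul_mem' := by
    intro M M' hM hM' a b hab hne
    rw [Matrix.mul_apply] at hne
    obtain ⟨s, -, hs⟩ := Finset.exists_ne_zero_of_sum_ne_zero hne
    have h1 : M a s ≠ 0 := left_ne_zero_of_mul hs
    have h2 : M' s b ≠ 0 := right_ne_zero_of_mul hs
    by_cases hsa : s = a
    · subst hsa; exact hM' s b hab h2
    by_cases hsb : s = b
    · subst hsb; exact hM a s hab h1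
    have k1 : Kills n A χ (XX c w a s) := hM a s (Ne.symm hsa) h1
    have k2 : Kills n A χ (XX c w s b) := hM' s b hsb h2
    have k3 := kills_comm A χ k1 k2
    rw [XX_comm c hc w hwc b s a (Ne.symm hsb) hsa (Ne.symm hab), smul_smul] at k3
    set r : F := ((if s = c b then 2 else 1) + (if s = c a then 1 else 0) : F) * w s with hr
    have hr0 : r ≠ 0 := by
      refine mul_ne_zero ?_ (hw s)
      split_ifs <;> norm_num
    have k4 := kills_smul A χ r⁻¹ k3
    rwa [smul_smul, inv_mul_cancel₀ hr0, one_smul] at k4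
  add_mem' := by
    intro M M' hM hM' a b hab hne
    by_cases h1 : M a b = 0
    · refine hM' a b hab (fun h2 => hne ?_)
      rw [Matrix.add_apply, h1, h2, add_zero]
    · exact hM a b hab h1
  algebraMap_mem' := by
    intro r a b hab hne
    exact absurd (Matrix.algebraMap_matrix_apply.trans (if_neg hab)) hne

private lemma lie_diag_symp (c : I → I) (w t : I → F) (ht : ∀ v, t (c v) = - t v) :
    (Matrix.diagonal t).transpose * Om c w + Om c w * Matrix.diagonal t = 0 := by
  ext u v
  rw [Matrix.diagonal_transpose, Matrix.add_apply, Matrix.diagonal_mul, Matrix.mul_diagonal,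
    Matrix.zero_apply]
  by_cases h : v = c u
  · subst h
    rw [ht u]; ring
  · simp [Om, h]

/-- The matrices in the symplectic Lie algebra that kill all Tate classes. -/
private def lieL (n : ℕ) (c : I → I) (w : I → F) (A : Γ →* Matrix I I F) (χ : Γ →* Fˣ) :
    Submodule F (Matrix I I F) where
  carrier := {M | M.transpose * Om c w + Om c w * M = 0 ∧ Kills n A χ M}
  zero_mem' := by
    refine ⟨by simp, ?_⟩
    intro i x _
    have : DD n (0 : Matrix I I F) = 0 := by simp [DD]
    rw [this]; rfl
  add_mem' := by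
    rintro M M' ⟨h1, h2⟩ ⟨h3, h4⟩
    refine ⟨?_, kills_add A χ h2 h4⟩
    rw [Matrix.transpose_add, add_mul, mul_add]
    calc _ = (M.transpose * Om c w + Om c w * M) + (M'.transpose * Om c w + Om c w * M') := by abel
      _ = 0 := by rw [h1, h3, add_zero]
  smul_mem' := by
    rintro r M ⟨h1, h2⟩
    refine ⟨?_, kills_smul A χ r h2⟩
    rw [Matrix.transpose_smul, Matrix.smul_mul, Matrix.mul_smul, ← smul_add, h1, smul_zero]

private lemma lie_conj_symp (c : I → I) (w : I → F) {B B' T : Matrix I I F} (hB : B * B' = 1)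
    {k : F} (hform : B.transpose * Om c w * B = k • Om c w)
    (hT : T.transpose * Om c w + Om c w * T = 0) :
    (B * T * B').transpose * Om c w + Om c w * (B * T * B') = 0 := by
  have e1 : B.transpose * Om c w = k • (Om c w * B') := by
    have := congrArg (fun M => M * B') hform
    simp only [Matrix.mul_assoc, hB, Matrix.mul_one, Matrix.smul_mul] at this
    exact this
  have hB' : B'.transpose * B.transpose = 1 := by
    rw [← Matrix.transpose_mul, hB, Matrix.transpose_one]
  have e2 : Om c w * B = k • (B'.transpose * Om c w) := by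
    have := congrArg (fun M => B'.transpose * M) hform
    simp only [← Matrix.mul_assoc, hB', Matrix.one_mul, Matrix.mul_smul] at this
    exact this
  have e3 : (B * T * B').transpose * Om c w = k • (B'.transpose * (T.transpose * Om c w) * B') := by
    rw [Matrix.transpose_mul, Matrix.transpose_mul, Matrix.mul_assoc, Matrix.mul_assoc, e1,
      Matrix.mul_smul, Matrix.mul_smul]
    simp only [Matrix.mul_assoc]
  have e4 : Om c w * (B * T * B') = k • (B'.transpose * (Om c w * T) * B') := by
    rw [← Matrix.mul_assoc, ← Matrix.mul_assoc, e2, Matrix.smul_mul, Matrix.smul_mul]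
    simp only [Matrix.mul_assoc]
  rw [e3, e4, ← smul_add, ← Matrix.add_mul, ← Matrix.mul_add, hT]
  simp

omit [DecidableEq I] in
private lemma lie_exists_odd [CharZero F] (c : I → I) (hc : ∀ v, c (c v) = v)
    (hcne : ∀ v, c v ≠ v) :
    ∃ t : I → F, (∀ v, t (c v) = - t v) ∧ Function.Injective t := by
  classical
  set e := Fintype.equivFin I with he
  have hne : ∀ v, e v ≠ e (c v) := fun v h => hcne v (e.injective h).symm
  refine ⟨fun v => if e v < e (c v) then (((e v : ℕ) + 1 : ℕ) : F)
    else -(((e (c v) : ℕ) + 1 : ℕ) : F), ?_, ?_⟩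
  · intro v
    simp only [hc]
    by_cases h : e v < e (c v)
    · rw [if_neg (not_lt.2 h.le), if_pos h]
    · have h' : e (c v) < e v := lt_of_le_of_ne (not_lt.1 h) (Ne.symm (hne v))
      rw [if_pos h', if_neg h, neg_neg]
  · intro v v' h
    simp only at h
    have key : ∀ a b : ℕ, ((a + 1 : ℕ) : F) ≠ -((b + 1 : ℕ) : F) := by
      intro a b hab
      have : (((a + 1) + (b + 1) : ℕ) : F) = 0 := by
        rw [Nat.cast_add, hab]; ring
      rw [Nat.cast_eq_zero] at this
      omega
    by_cases h1 : e v < e (c v) <;> by_cases h2 : e v' < e (c v')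
    · rw [if_pos h1, if_pos h2] at h
      have : (e v : ℕ) + 1 = (e v' : ℕ) + 1 := by exact_mod_cast h
      exact e.injective (Fin.ext (by omega))
    · rw [if_pos h1, if_neg h2] at h
      exact absurd h (key _ _)
    · rw [if_neg h1, if_pos h2] at h
      exact absurd h.symm (key _ _)
    · rw [if_neg h1, if_neg h2, neg_inj] at h
      have : (e (c v) : ℕ) + 1 = (e (c v') : ℕ) + 1 := by exact_mod_cast h
      have h3 : c v = c v' := e.injective (Fin.ext (by omega))
      rw [← hc v, h3, hc]

/-- Conjugation as an algebra homomorphism. -/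
private def lieConj (B B' : Matrix I I F) (h : B * B' = 1) (h' : B' * B = 1) :
    Matrix I I F →ₐ[F] Matrix I I F :=
  AlgHom.ofLinearMap (LinearMap.mulLeft F B ∘ₗ LinearMap.mulRight F B')
    (by simp [h]) (by
      intro x y
      simp only [LinearMap.comp_apply, LinearMap.mulLeft_apply, LinearMap.mulRight_apply]
      calc B * (x * y * B') = B * x * 1 * (y * B') := by
            simp only [Matrix.mul_assoc, Matrix.mul_one]
        _ = B * (x * B') * (B * (y * B')) := by
            rw [← h']; simp only [Matrix.mul_assoc])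

private lemma lieConj_apply (B B' : Matrix I I F) (h : B * B' = 1) (h' : B' * B = 1)
    (M : Matrix I I F) : lieConj B B' h h' M = B * M * B' := by
  simp [lieConj, Matrix.mul_assoc]

private lemma lie_aeval_diagonal (t : I → F) (p : Polynomial F) :
    Polynomial.aeval (Matrix.diagonal t) p = Matrix.diagonal (fun v => p.eval (t v)) := by
  have h1 : Matrix.diagonal t = Matrix.diagonalAlgHom F t := rfl
  rw [h1, Polynomial.aeval_algHom_apply]
  have h2 : Polynomial.aeval t p = fun v => p.eval (t v) := by
    funext v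
    have := Polynomial.aeval_algHom_apply (Pi.evalAlgHom F (fun _ : I => F) v) t p
    simp only [Pi.evalAlgHom_apply] at this
    rw [← this, Polynomial.coe_aeval_eq_eval]
  rw [h2]
  rfl

/-- The root elements attached to the algebra `R0` kill all Tate classes, if the odd diagonal
matrices do. -/
theorem kills_of_mem_R0 [CharZero F] [IsTopologicalGroup Γ] (c : I → I) (hc : ∀ v, c (c v) = v)
    (hcne : ∀ v, c v ≠ v)
    (w : I → F) (hw : ∀ v, w v ≠ 0) (hwc : ∀ v, w (c v) = - w v)
    (A : Γ →* Matrix I I F) (χ : Γ →* Fˣ)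
    (hform : ∀ γ, (A γ).transpose * Om c w * A γ = ((χ γ)⁻¹ : Fˣ).val • Om c w)
    (hdiag : ∀ t : I → F, (∀ v, t (c v) = - t v) → Kills n A χ (Matrix.diagonal t))
    (u v : I) (huv : u ≠ v) (h : Matrix.single v u (1 : F) ∈ R0 A) :
    Kills n A χ (XX c w v u) := by
  classical
  have hAA : ∀ γ, A γ * A γ⁻¹ = 1 := fun γ => by rw [← map_mul, mul_inv_cancel, map_one]
  have hAA' : ∀ γ, A γ⁻¹ * A γ = 1 := fun γ => by rw [← map_mul, inv_mul_cancel, map_one]
  -- odd diagonal matrices
  have hodd : ∀ (γ : Γ) (t : I → F), (∀ v, t (c v) = - t v) →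
      A γ * Matrix.diagonal t * A γ⁻¹ ∈ lieR1 n c hc w hw hwc A χ := by
    intro γ t ht a b hab hne
    have hmem : A γ * Matrix.diagonal t * A γ⁻¹ ∈ lieL n c w A χ :=
      ⟨lie_conj_symp c w (hAA γ) (hform γ) (lie_diag_symp c w t ht),
        kills_conj A χ (hdiag t ht) γ⟩
    have := projection c hc hcne w hw hwc (lieL n c w A χ) (fun M hM => hM.1) (by
      rintro M ⟨hM1, hM2⟩ s hs
      refine ⟨?_, kills_comm A χ (hdiag s hs) hM2⟩
      have hS := lie_diag_symp c w s hs
      set T := Matrix.diagonal s
      have e1 : T.transpose * Om c w = -(Om c w * T) := eq_neg_of_add_eq_zero_left hS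
      have e2 : M.transpose * Om c w = -(Om c w * M) := eq_neg_of_add_eq_zero_left hM1
      rw [Matrix.transpose_sub, Matrix.transpose_mul, Matrix.transpose_mul, Matrix.sub_mul,
        Matrix.mul_assoc, e1, Matrix.mul_assoc, e2, Matrix.mul_neg, Matrix.mul_neg,
        ← Matrix.mul_assoc, e2, ← Matrix.mul_assoc, e1, Matrix.mul_sub, Matrix.neg_mul,
        Matrix.neg_mul]
      simp only [Matrix.mul_assoc]
      abel) _ hmem b a (Ne.symm hab) hne
    exact this.2
  obtain ⟨t0, ht0, hinj⟩ := lie_exists_odd (F := F) c hc hcne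
  have hall : ∀ (γ : Γ) (d : I → F),
      A γ * Matrix.diagonal d * A γ⁻¹ ∈ lieR1 n c hc w hw hwc A χ := by
    intro γ d
    set p : Polynomial F := Lagrange.interpolate Finset.univ t0 d with hp
    have hd : Matrix.diagonal d = Polynomial.aeval (Matrix.diagonal t0) p := by
      rw [lie_aeval_diagonal]
      congr 1
      funext v
      exact (Lagrange.eval_interpolate_at_node d (hinj.injOn) (Finset.mem_univ v)).symm
    have h1 : A γ * Matrix.diagonal d * A γ⁻¹ =
        Polynomial.aeval (A γ * Matrix.diagonal t0 * A γ⁻¹) p := by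
      rw [hd, ← lieConj_apply (A γ) (A γ⁻¹) (hAA γ) (hAA' γ), ← Polynomial.aeval_algHom_apply,
        lieConj_apply]
    rw [h1]
    have h2 : Algebra.adjoin F {A γ * Matrix.diagonal t0 * A γ⁻¹} ≤
        lieR1 n c hc w hw hwc A χ := by
      apply Algebra.adjoin_le
      rintro _ rfl
      exact hodd γ t0 ht0
    exact h2 (Polynomial.aeval_mem_adjoin_singleton F _)
  have hle : R0 A ≤ lieR1 n c hc w hw hwc A χ := by
    apply Algebra.adjoin_le
    rintro _ ⟨γ, d, rfl⟩
    exact hall γ d
  exact hle h v u (Ne.symm huv) (by simp)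

end Pool.Agent.Lib.MP_640417_ag.Frob
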