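import Pool.Agent.Lib.MP_640417_ag.Frob.CarB

/-!
# The invariant bivectors are Tate classes
-/

namespace Pool.Agent.Lib.MP_640417_ag.Frob

open Module

variable {I : Type} [Fintype I] [DecidableEq I] {F : Type} [Field F] {n : ℕ}
  {Γ : Type} [Group Γ] [TopologicalSpace Γ]

/-- The inverse matrix relation in entries. -/
private lemma OpenB_entries (c : I → I) (hc : ∀ v, c (c v) = v) (w : I → F) (hw : ∀ v, w v ≠ 0)
    (hwc : ∀ v, w (c v) = - w v) (B : Matrix I I F) (t₀ : F) (ht₀ : t₀ ≠ 0)
    (hB : B.transpose * Om c w * B = t₀ • Om c w) (s t : I) :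
    ∑ u, (w u)⁻¹ * (B s u * B t (c u)) = t₀ * (if t = c s then (w s)⁻¹ else 0) := by
  set N : Matrix I I F := Matrix.of fun u v => if v = c u then (w u)⁻¹ else 0 with hN
  have hON : Om c w * N = -1 := by
    ext u v
    rw [Matrix.mul_apply]
    simp only [Om, hN, Matrix.of_apply]
    rw [Finset.sum_eq_single (c u)]
    · rw [if_pos rfl, hc, hwc, Matrix.neg_apply, Matrix.one_apply]
      by_cases h : v = u
      · rw [if_pos h, if_pos h.symm, inv_neg, mul_neg, mul_inv_cancel₀ (hw u)]
      · rw [if_neg h, if_neg (fun h' => h h'.symm), mul_zero, neg_zero]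
    · intro x _ hx
      rw [if_neg hx, zero_mul]
    · intro h
      exact absurd (Finset.mem_univ _) h
  have hNO : N * Om c w = -1 := by
    have h1 : (-N) * Om c w = 1 := by
      apply mul_eq_one_comm.1
      rw [Matrix.mul_neg, hON, neg_neg]
    rw [Matrix.neg_mul] at h1
    rw [← h1, neg_neg]
  have h1 : B.transpose * (t₀⁻¹ • -(Om c w * B * N)) = 1 := by
    rw [Matrix.mul_smul, Matrix.mul_neg, ← Matrix.mul_assoc, ← Matrix.mul_assoc, hB,
      Matrix.smul_mul, hON, smul_neg, smul_smul, inv_mul_cancel₀ ht₀, one_smul, neg_neg]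
  have h2 : (t₀⁻¹ • -(Om c w * B * N)) * B.transpose = 1 := mul_eq_one_comm.1 h1
  have h3 : Om c w * (B * N * B.transpose) = -(t₀ • (1 : Matrix I I F)) := by
    have h4 : t₀ • ((t₀⁻¹ • -(Om c w * B * N)) * B.transpose) = t₀ • (1 : Matrix I I F) := by
      rw [h2]
    rw [Matrix.smul_mul, smul_smul, mul_inv_cancel₀ ht₀, one_smul, Matrix.neg_mul] at h4
    rw [← h4, neg_neg, ← Matrix.mul_assoc, ← Matrix.mul_assoc]
  have h5 : B * N * B.transpose = t₀ • N := by
    have h6 : N * (Om c w * (B * N * B.transpose)) = N * (-(t₀ • (1 : Matrix I I F))) := by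
      rw [h3]
    rw [← Matrix.mul_assoc, hNO, Matrix.neg_mul, Matrix.one_mul, Matrix.mul_neg, Matrix.mul_smul,
      Matrix.mul_one, neg_inj] at h6
    exact h6
  have h7 := congrFun (congrFun h5 s) t
  rw [Matrix.mul_apply, Matrix.smul_apply, smul_eq_mul, hN, Matrix.of_apply] at h7
  rw [← h7]
  have h8 : ∀ x, (B * N) s x = B s (c x) * (w (c x))⁻¹ := by
    intro x
    rw [Matrix.mul_apply, Finset.sum_eq_single (c x)]
    · simp only [hN, Matrix.of_apply]
      rw [hc, if_pos rfl]
    · intro y _ hy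
      simp only [hN, Matrix.of_apply]
      rw [if_neg, mul_zero]
      intro h
      apply hy
      rw [h, hc]
    · intro h
      exact absurd (Finset.mem_univ _) h
  have h9 : Function.Bijective c := (Function.Involutive.bijective hc)
  rw [← h9.sum_comp]
  refine Finset.sum_congr rfl fun x _ => ?_
  rw [← hN, h8, Matrix.transpose_apply, hc]
  ring

private lemma OpenB_map_ev (B : Matrix I I F) (a : Fin n) (u : I) :
    ExteriorAlgebra.map (Tn n B) (ev F (a, u)) = ∑ s, B s u • ev F (a, s) := by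
  rw [ev, ExteriorAlgebra.map_apply_ι, Tn_single, map_sum]
  refine Finset.sum_congr rfl fun s _ => ?_
  rw [map_smul, ev]

private lemma OpenB_map_zz (c : I → I) (hc : ∀ v, c (c v) = v)
    (w : I → F) (hw : ∀ v, w v ≠ 0) (hwc : ∀ v, w (c v) = - w v)
    (B : Matrix I I F) (t₀ : F) (ht₀ : t₀ ≠ 0)
    (hB : B.transpose * Om c w * B = t₀ • Om c w)
    (r : I → I → Prop) [DecidableRel r] (hr : Equivalence r)
    (hU : ∀ u v, ¬ r u v → B u v = 0) (v : I) (a b : Fin n) :
    ExteriorAlgebra.map (Tn n B) (zz c w r v a b : Lam I F n) = t₀ • zz c w r v a b := by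
  rw [zz, map_sum]
  have h1 : ∀ u, ExteriorAlgebra.map (Tn n B) ((w u)⁻¹ • (ev F (a, u) * ev F (b, c u))) =
      ∑ s, ∑ t, ((w u)⁻¹ * (B s u * B t (c u))) • (ev F (a, s) * ev F (b, t)) := by
    intro u
    rw [map_smul, map_mul, OpenB_map_ev, OpenB_map_ev, Finset.sum_mul_sum, Finset.smul_sum]
    refine Finset.sum_congr rfl fun s _ => ?_
    rw [Finset.smul_sum]
    refine Finset.sum_congr rfl fun t _ => ?_
    rw [smul_mul_smul_comm, smul_smul]
  rw [Finset.sum_congr rfl fun u _ => h1 u, Finset.sum_comm]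
  have h2 : ∀ s, ∑ u ∈ Finset.univ.filter (fun u => r v u), ∑ t,
      ((w u)⁻¹ * (B s u * B t (c u))) • (ev F (a, s) * ev F (b, t)) =
      if r v s then t₀ • ((w s)⁻¹ • (ev F (a, s) * ev F (b, c s))) else 0 := by
    intro s
    rw [Finset.sum_comm]
    have h3 : ∀ t, ∑ u ∈ Finset.univ.filter (fun u => r v u),
        ((w u)⁻¹ * (B s u * B t (c u))) • (ev F (a, s) * ev F (b, t)) =
        (if r v s then t₀ * (if t = c s then (w s)⁻¹ else 0) else 0) •
          (ev F (a, s) * ev F (b, t)) := by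
      intro t
      rw [← Finset.sum_smul]
      congr 1
      split_ifs with h h'
      · have h4 := OpenB_entries c hc w hw hwc B t₀ ht₀ hB s t
        rw [if_pos h'] at h4
        rw [← h4, Finset.sum_filter]
        refine Finset.sum_congr rfl fun u _ => ?_
        split_ifs with hu
        · rfl
        · rw [hU s u (fun hsu => hu (hr.trans h hsu)), zero_mul, mul_zero]
      · have h4 := OpenB_entries c hc w hw hwc B t₀ ht₀ hB s t
        rw [if_neg h'] at h4
        rw [← h4, Finset.sum_filter]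
        refine Finset.sum_congr rfl fun u _ => ?_
        split_ifs with hu
        · rfl
        · rw [hU s u (fun hsu => hu (hr.trans h hsu)), zero_mul, mul_zero]
      · refine Finset.sum_eq_zero fun u hu => ?_
        have hu' : r v u := (Finset.mem_filter.1 hu).2
        rw [hU s u (fun hsu => h (hr.trans hu' (hr.symm hsu))), zero_mul, mul_zero]
    rw [Finset.sum_congr rfl fun t _ => h3 t]
    split_ifs with h
    · rw [Finset.sum_eq_single (c s)]
      · rw [if_pos rfl, smul_smul]
      · intro t _ ht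
        rw [if_neg ht, mul_zero, zero_smul]
      · intro h
        exact absurd (Finset.mem_univ _) h
    · simp
  rw [Finset.sum_congr rfl fun s _ => h2 s, ← Finset.sum_filter, Finset.smul_sum]

omit [Fintype I] in
private lemma OpenB_mem (p q : Fin n × I) :
    ev F p * ev F q ∈ ⋀[F]^(2 * 1) (Fin n × I → F) := by
  rw [ExteriorAlgebra.exteriorPower, mul_one, pow_two]
  exact Submodule.mul_mem_mul ⟨_, rfl⟩ ⟨_, rfl⟩

/-- The invariant bivectors are Tate classes of codimension `1`. -/
theorem zz_tate (c : I → I) (hc : ∀ v, c (c v) = v)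
    (w : I → F) (hw : ∀ v, w v ≠ 0) (hwc : ∀ v, w (c v) = - w v)
    (A : Γ →* Matrix I I F) (χ : Γ →* Fˣ)
    (hform : ∀ γ, (A γ).transpose * Om c w * A γ = ((χ γ)⁻¹ : Fˣ).val • Om c w)
    (r : I → I → Prop) [DecidableRel r] (hr : Equivalence r) (hrc : ∀ u v, r u v → r (c u) (c v))
    (U : OpenSubgroup Γ) (hU : ∀ γ ∈ U, ∀ u v, ¬ r u v → A γ u v = 0)
    (v : I) (a b : Fin n) :
    TateClass (fun γ => Tn n (A γ)) χ 1 (zz c w r v a b : Lam I F n) := by
  refine ⟨Submodule.sum_mem _ fun u _ => Submodule.smul_mem _ _ (OpenB_mem _ _), U, ?_⟩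
  intro γ hγ
  have h0 : ((χ γ)⁻¹ : Fˣ).val ≠ 0 := Units.ne_zero _
  simp only
  rw [OpenB_map_zz c hc w hw hwc (A γ) _ h0 (hform γ) r hr (hU γ hγ), pow_one, smul_smul,
    Units.mul_inv, one_smul]

end Pool.Agent.Lib.MP_640417_ag.Frob
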