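import Pool.Agent.Lib.MP_640417_ag.Frob.LieB
import Pool.Agent.Lib.MP_640417_ag.Frob.CarB

/-!
# Opposite root elements

A vector of weight zero that is killed by a root element is killed by the opposite root element.
-/

namespace Pool.Agent.Lib.MP_640417_ag.Frob

open Module

/-- A vector of weight zero killed by the raising operator is killed by the lowering operator. -/
theorem sl2_kill {F L : Type} [Field F] [CharZero F] [AddCommGroup L] [Module F L]
    (e f h : Module.End F L) (α : F) (hα : α ≠ 0)
    (hef : ∀ y, e (f y) - f (e y) = h y) (hhf : ∀ y, h (f y) - f (h y) = α • f y)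
    (W : Submodule F L) [FiniteDimensional F W] (hfW : ∀ y ∈ W, f y ∈ W)
    (x : L) (hxW : x ∈ W) (hex : e x = 0) (hhx : h x = 0) : f x = 0 := by
  by_contra hfx
  -- the powers
  have hH : ∀ k : ℕ, h ((f ^ k) x) = ((k : F) * α) • (f ^ k) x := by
    intro k
    induction k with
    | zero => simp [hhx]
    | succ k ih =>
      have h1 := hhf ((f ^ k) x)
      rw [ih, map_smul] at h1
      have h2 : (f ^ (k + 1)) x = f ((f ^ k) x) := by rw [pow_succ', Module.End.mul_apply]
      rw [h2, eq_add_of_sub_eq h1, ← add_smul]
      congr 1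
      push_cast; ring
  have hE : ∀ k : ℕ, e ((f ^ (k + 1)) x) = ((k : F) * (k + 1) / 2 * α) • (f ^ k) x := by
    intro k
    induction k with
    | zero =>
      have h1 := hef x
      rw [hex, map_zero, sub_zero, hhx] at h1
      simp [h1]
    | succ k ih =>
      have h1 := hef ((f ^ (k + 1)) x)
      rw [ih, map_smul, hH] at h1
      have h2 : (f ^ (k + 1 + 1)) x = f ((f ^ (k + 1)) x) := by
        rw [pow_succ' f (k + 1), Module.End.mul_apply]
      have h3 : (f ^ (k + 1)) x = f ((f ^ k) x) := by rw [pow_succ', Module.End.mul_apply]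
      rw [h2, eq_add_of_sub_eq h1, ← h3, ← add_smul]
      congr 1
      push_cast; ring
  have hne : ∀ k : ℕ, (f ^ k) x ≠ 0 := by
    intro k
    rcases k with _ | k
    · intro h0
      apply hfx
      rw [pow_zero, Module.End.one_apply] at h0
      rw [h0, map_zero]
    · induction k with
      | zero => simpa using hfx
      | succ k ih =>
        intro h0
        have h1 := hE (k + 1)
        rw [h0, map_zero] at h1
        have h2 := (smul_eq_zero.mp h1.symm).resolve_right ih
        have h3 : ((k + 1 : ℕ) : F) * (((k + 1 : ℕ) : F) + 1) / 2 ≠ 0 := by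
          have e1 : ((k + 1 : ℕ) : F) ≠ 0 := Nat.cast_ne_zero.mpr (Nat.succ_ne_zero k)
          have e2 : (((k + 1 : ℕ) : F) + 1) ≠ 0 := by
            have : (((k + 1 : ℕ) : F) + 1) = ((k + 2 : ℕ) : F) := by push_cast; ring
            rw [this]
            exact Nat.cast_ne_zero.mpr (by omega)
          exact div_ne_zero (mul_ne_zero e1 e2) two_ne_zero
        exact (mul_ne_zero h3 hα) h2
  have hW : ∀ k : ℕ, (f ^ k) x ∈ W := by
    intro k
    induction k with
    | zero => simpa using hxW
    | succ k ih => rw [pow_succ', Module.End.mul_apply]; exact hfW _ ih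
  let d := finrank F W
  have hli : LinearIndependent F (fun k : Fin (d + 1) => (f ^ (k : ℕ)) x) := by
    apply Module.End.eigenvectors_linearIndependent' h (fun k : Fin (d + 1) => ((k : ℕ) : F) * α)
    · intro a b hab
      have h1 := mul_right_cancel₀ hα hab
      exact Fin.ext (Nat.cast_injective h1)
    · intro k
      refine ⟨?_, hne k⟩
      rw [Module.End.mem_eigenspace_iff]
      exact hH k
  have hli' : LinearIndependent F
      (fun k : Fin (d + 1) => (⟨(f ^ (k : ℕ)) x, hW k⟩ : W)) := by
    apply LinearIndependent.of_comp W.subtype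
    exact hli
  have := hli'.fintype_card_le_finrank
  rw [Fintype.card_fin] at this
  omega

variable {I : Type} [Fintype I] [DecidableEq I] {F : Type} [Field F] {n : ℕ}

private lemma Sl2_single_mul (i j k l : I) :
    (Matrix.single i j (1 : F)) * Matrix.single k l (1 : F)
      = if j = k then Matrix.single i l (1 : F) else 0 := by
  split_ifs with h
  · subst h
    rw [Matrix.single_mul_single_same, one_mul]
  · rw [Matrix.single_mul_single_of_ne _ _ _ _ h]

/-- The commutator of opposite root elements is diagonal. -/
lemma XX_opp (c : I → I) (hc : ∀ v, c (c v) = v) (w : I → F) (hwc : ∀ v, w (c v) = - w v)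
    (u v : I) (huv : u ≠ v) :
    XX c w u v * XX c w v u - XX c w v u * XX c w u v
      = Matrix.diagonal (fun s => ((if v = c u then 2 else 1) * (w u * w v)) *
        ((if s = u then 1 else 0) - (if s = c u then 1 else 0) - (if s = v then 1 else 0)
          + (if s = c v then 1 else 0))) := by
  unfold XX
  simp only [sub_mul, mul_sub, smul_mul_assoc, mul_smul_comm, Sl2_single_mul, if_true]
  by_cases h1 : v = c u
  · have h2 : c v = u := by rw [h1, hc]
    have h3 : w v = - w u := by rw [h1, hwc]
    simp only [if_pos h1, if_pos h1.symm, h2, if_true]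
    have h4 : u ≠ c u := by rw [← h1]; exact huv
    ext a b
    by_cases hab : a = b
    · subst hab
      simp only [← h1, Matrix.sub_apply, Matrix.smul_apply, Matrix.single_apply, and_self,
        Matrix.diagonal_apply_eq, smul_eq_mul, h3, eq_comm (a := u) (b := a),
        eq_comm (a := v) (b := a)]
      ring
    · have k1 : ∀ z : I, ¬ (z = a ∧ z = b) := by
        rintro z ⟨rfl, h⟩; exact hab h
      simp only [← h1, Matrix.sub_apply, Matrix.smul_apply, Matrix.single_apply,
        Matrix.diagonal_apply_ne _ hab, smul_eq_mul, k1, if_false]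
      ring
  · have h2 : ¬ (c v = u) := fun h => h1 (by rw [← h, hc])
    have h2' : ¬ (u = c v) := fun h => h2 h.symm
    have h1' : ¬ (c u = v) := fun h => h1 h.symm
    simp only [if_neg h1, if_neg h1', if_neg h2, if_neg h2', smul_zero]
    ext a b
    by_cases hab : a = b
    · subst hab
      simp only [Matrix.sub_apply, Matrix.smul_apply, Matrix.single_apply, and_self,
        Matrix.diagonal_apply_eq, smul_eq_mul, Matrix.zero_apply, eq_comm (a := u) (b := a),
        eq_comm (a := v) (b := a), eq_comm (a := c u) (b := a), eq_comm (a := c v) (b := a)]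
      ring
    · have k1 : ∀ z : I, ¬ (z = a ∧ z = b) := by
        rintro z ⟨rfl, h⟩; exact hab h
      simp only [Matrix.sub_apply, Matrix.smul_apply, Matrix.single_apply,
        Matrix.diagonal_apply_ne _ hab, smul_eq_mul, k1, if_false, Matrix.zero_apply]
      ring

/-- The commutator with a diagonal matrix. -/
lemma diag_XX (c : I → I) (w t : I → F) (ht : ∀ s, t (c s) = - t s) (u v : I) :
    Matrix.diagonal t * XX c w v u - XX c w v u * Matrix.diagonal t = (t v - t u) • XX c w v u := by
  ext a b
  simp only [XX, Matrix.sub_apply, Matrix.diagonal_mul, Matrix.mul_diagonal, Matrix.smul_apply,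
    Matrix.single_apply, smul_eq_mul]
  by_cases h1 : v = a ∧ u = b
  · obtain ⟨rfl, rfl⟩ := h1
    by_cases h2 : c u = v ∧ c v = u
    · obtain ⟨h3, h4⟩ := h2
      simp only [h3, h4, and_self, if_true]; ring
    · simp only [if_neg h2, and_self, if_true]; ring
  · by_cases h2 : c u = a ∧ c v = b
    · obtain ⟨rfl, rfl⟩ := h2
      simp only [if_neg h1, and_self, if_true, ht]; ring
    · simp only [if_neg h1, if_neg h2]; ring

/-- Opposite root elements. -/
theorem kills_symm [CharZero F] (c : I → I) (hc : ∀ v, c (c v) = v) (hcne : ∀ v, c v ≠ v)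
    (w : I → F) (hw : ∀ v, w v ≠ 0) (hwc : ∀ v, w (c v) = - w v)
    (u v : I) (huv : u ≠ v) (m : ℕ) (x : Lam I F n) (hx : x ∈ ⋀[F]^m (Fin n × I → F))
    (hdiag : ∀ t : I → F, (∀ s, t (c s) = - t s) → DD n (Matrix.diagonal t) x = 0)
    (h : DD n (XX c w u v) x = 0) : DD n (XX c w v u) x = 0 := by
  have hinj : ∀ a b, c a = c b → a = b := fun a b h => by rw [← hc a, h, hc]
  set t : I → F := fun s => ((if v = c u then 2 else 1) * (w u * w v)) *
        ((if s = u then 1 else 0) - (if s = c u then 1 else 0) - (if s = v then 1 else 0)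
          + (if s = c v then 1 else 0)) with ht
  have htc : ∀ s, t (c s) = - t s := by
    intro s
    have k1 : ∀ z, (c s = z) = (s = c z) := by
      intro z
      apply propext
      constructor
      · rintro rfl; rw [hc]
      · rintro rfl; rw [hc]
    simp only [ht, k1, hc]
    ring
  have hα : t v - t u ≠ 0 := by
    have e1 : ¬ (v = c v) := fun h => hcne v h.symm
    have e2 : ¬ (u = c u) := fun h => hcne u h.symm
    have e3 : ¬ (v = u) := fun h => huv h.symm
    simp only [ht, if_true, if_neg e1, if_neg e2, if_neg e3, if_neg huv]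
    by_cases h1 : v = c u
    · have h2 : u = c v := by rw [h1, hc]
      simp only [if_pos h1, if_pos h2]
      have h3 : (2 * (w u * w v) * (0 - 1 - 1 + 0) - 2 * (w u * w v) * (1 - 0 - 0 + 1) : F) =
          -8 * (w u * w v) := by ring
      rw [h3]
      exact mul_ne_zero (by norm_num) (mul_ne_zero (hw u) (hw v))
    · have h2 : ¬ (u = c v) := fun h => h1 (by rw [h, hc])
      simp only [if_neg h1, if_neg h2]
      have h3 : (1 * (w u * w v) * (0 - 0 - 1 + 0) - 1 * (w u * w v) * (1 - 0 - 0 + 0) : F) =
          -2 * (w u * w v) := by ring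
      rw [h3]
      exact mul_ne_zero (by norm_num) (mul_ne_zero (hw u) (hw v))
  refine sl2_kill (DD n (XX c w u v)) (DD n (XX c w v u)) (DD n (Matrix.diagonal t))
    (t v - t u) hα ?_ ?_ (⋀[F]^m (Fin n × I → F)) (fun y hy => DD_mem _ _ hy) x hx h
    (hdiag t htc)
  · intro y
    rw [DD_comm, XX_opp c hc w hwc u v huv]
  · intro y
    rw [DD_comm, diag_XX c w t htc]
    simp only [DD, Matrix.smul_apply, smul_eq_mul, LinearMap.sum_apply, LinearMap.smul_apply,
      Finset.smul_sum, smul_smul]

end Pool.Agent.Lib.MP_640417_ag.Frob
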