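import Pool.Agent.Lib.MP_640417_ag.Frob.Fft
import Pool.Agent.Lib.MP_640417_ag.Frob.Balanced
import Pool.Agent.Lib.MP_640417_ag.Frob.Lie
import Pool.Agent.Lib.MP_640417_ag.Frob.Sl2
import Pool.Agent.Lib.MP_640417_ag.Frob.OpenA
import Pool.Agent.Lib.MP_640417_ag.Frob.OpenB

/-!
# The main theorem in coordinates
-/

namespace Pool.Agent.Lib.MP_640417_ag.Frob

open Module

variable {I : Type} [Fintype I] [DecidableEq I] {F : Type} [Field F] [CharZero F] {n : ℕ}
  {Γ : Type} [Group Γ] [TopologicalSpace Γ]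

lemma exists_pow_mem [IsTopologicalGroup Γ] [CompactSpace Γ] (U : OpenSubgroup Γ) (φ : Γ) :
    ∃ N : ℕ, 0 < N ∧ φ ^ N ∈ U := by
  have h1 : Finite (Γ ⧸ (U : Subgroup Γ)) := Subgroup.quotient_finite_of_isOpen _ U.isOpen
  have h2 : (U : Subgroup Γ).index ≠ 0 := Subgroup.index_ne_zero_of_finite
  obtain ⟨N, hN, -, hmem⟩ := Subgroup.exists_pow_mem_of_index_ne_zero h2 φ
  exact ⟨N, hN, hmem⟩

/-- Both root elements attached to `u` and `v` kill all Tate classes. -/
def relK (n : ℕ) (c : I → I) (w : I → F) (A : Γ →* Matrix I I F) (χ : Γ →* Fˣ) (u v : I) : Prop :=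
  u = v ∨ (Kills n A χ (XX c w u v) ∧ Kills n A χ (XX c w v u))

lemma kills_trans (c : I → I) (hc : ∀ v, c (c v) = v)
    (w : I → F) (hw : ∀ v, w v ≠ 0) (hwc : ∀ v, w (c v) = - w v)
    (A : Γ →* Matrix I I F) (χ : Γ →* Fˣ) (u v s : I) (huv : u ≠ v) (hvs : v ≠ s) (hus : u ≠ s)
    (h1 : Kills n A χ (XX c w s v)) (h2 : Kills n A χ (XX c w v u)) :
    Kills n A χ (XX c w s u) := by
  have h3 := kills_comm A χ h1 h2
  rw [XX_comm c hc w hwc u v s huv hvs hus] at h3
  set k : F := ((if v = c u then 2 else 1) + (if v = c s then 1 else 0) : F) with hk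
  have hk0 : k ≠ 0 := by
    rw [hk]
    split_ifs <;> norm_num
  have h4 := kills_smul A χ (w v)⁻¹ (kills_smul A χ k⁻¹ h3)
  rw [smul_smul k⁻¹ k, inv_mul_cancel₀ hk0, one_smul, smul_smul, inv_mul_cancel₀ (hw v),
    one_smul] at h4
  exact h4

lemma relK_equivalence (c : I → I) (hc : ∀ v, c (c v) = v)
    (w : I → F) (hw : ∀ v, w v ≠ 0) (hwc : ∀ v, w (c v) = - w v)
    (A : Γ →* Matrix I I F) (χ : Γ →* Fˣ) : Equivalence (relK n c w A χ) := by
  refine ⟨fun u => Or.inl rfl, ?_, ?_⟩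
  · rintro u v (rfl | ⟨h1, h2⟩)
    · exact Or.inl rfl
    · exact Or.inr ⟨h2, h1⟩
  · intro u v s huv hvs
    by_cases e1 : u = v
    · subst e1; exact hvs
    by_cases e2 : v = s
    · subst e2; exact huv
    by_cases e3 : u = s
    · exact Or.inl e3
    obtain ⟨h1, h2⟩ := huv.resolve_left e1
    obtain ⟨h3, h4⟩ := hvs.resolve_left e2
    exact Or.inr ⟨kills_trans c hc w hw hwc A χ s v u (Ne.symm e2) (Ne.symm e1) (Ne.symm e3) h1 h3,
      kills_trans c hc w hw hwc A χ u v s e1 e2 e3 h4 h2⟩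

lemma XX_cc (c : I → I) (hc : ∀ v, c (c v) = v) (w : I → F) (hwc : ∀ v, w (c v) = - w v)
    (u v : I) : XX c w (c u) (c v) = XX c w v u := by
  unfold XX
  rw [hc, hc, hwc, hwc, neg_smul, neg_smul, sub_neg_eq_add, neg_add_eq_sub]

/-- Spaces with an element whose eigenvalues satisfy only the trivial relations have no exotic
Tate classes. -/
theorem main_coord [IsTopologicalGroup Γ] [CompactSpace Γ]
    (c : I → I) (hc : ∀ v, c (c v) = v) (hcne : ∀ v, c v ≠ v)
    (w : I → F) (hw : ∀ v, w v ≠ 0) (hwc : ∀ v, w (c v) = - w v)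
    (A : Γ →* Matrix I I F) (χ : Γ →* Fˣ)
    (hclosed : ∀ u v : I, IsClosed {γ : Γ | A γ u v = 0})
    (hform : ∀ γ, (A γ).transpose * Om c w * A γ = ((χ γ)⁻¹ : Fˣ).val • Om c w)
    (φ : Γ) (lam : I → F) (hφ : A φ = Matrix.diagonal lam)
    (hangle : ∀ (m : I → ℤ) (k : ℤ) (N : ℕ), 0 < N →
      (∏ v, lam v ^ m v) ^ N = ((((χ φ)⁻¹ : Fˣ).val) ^ k) ^ N → ∀ v, m v = m (c v))
    (i : ℕ) (x : Lam I F n) (hx : TateClass (fun γ => Tn n (A γ)) χ i x) :
    x ∈ divisorAlg (fun γ => Tn n (A γ)) χ := by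
  classical
  have hlam0 : ∀ v, lam v ≠ 0 := by
    intro v hv
    have h1 : A φ * A φ⁻¹ = 1 := by rw [← map_mul, mul_inv_cancel, map_one]
    have h2 := congrFun (congrFun h1 v) v
    rw [hφ, Matrix.diagonal_mul, hv, zero_mul, Matrix.one_apply_eq] at h2
    exact zero_ne_one h2
  have hdiag : ∀ t : I → F, (∀ v, t (c v) = - t v) → Kills n A χ (Matrix.diagonal t) := by
    intro t ht j y hy
    obtain ⟨hy1, U, hU⟩ := hy
    obtain ⟨N, hN, hmem⟩ := exists_pow_mem U φ
    apply balanced c hc lam hlam0 (((χ φ)⁻¹ : Fˣ).val) (Units.ne_zero _) N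
      (fun m k h => hangle m k N hN h) j y hy1 _ t ht
    have h1 := hU _ hmem
    have h2 : (((((χ φ)⁻¹ : Fˣ).val)⁻¹) ^ N) ^ j = ((χ (φ ^ N) : Fˣ) : F) ^ j := by
      rw [map_pow, Units.val_pow_eq_pow_val, Units.val_inv_eq_inv_val, inv_inv]
    have h3 : Matrix.diagonal lam ^ N = A (φ ^ N) := by
      rw [map_pow, hφ]
    rw [h2, h3]
    exact h1
  -- the block relation
  have hr : Equivalence (relK n c w A χ) := relK_equivalence c hc w hw hwc A χ
  have hrc : ∀ u v, relK n c w A χ u v → relK n c w A χ (c u) (c v) := by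
    rintro u v (rfl | ⟨h1, h2⟩)
    · exact Or.inl rfl
    · refine Or.inr ⟨?_, ?_⟩
      · rw [XX_cc c hc w hwc]; exact h2
      · rw [XX_cc c hc w hwc]; exact h1
  have hrel : ∀ a b, rel A a b → relK n c w A χ a b := by
    intro a b hab
    by_cases h : a = b
    · exact Or.inl h
    have h1 : Kills n A χ (XX c w a b) :=
      kills_of_mem_R0 c hc hcne w hw hwc A χ hform hdiag b a (Ne.symm h) hab
    refine Or.inr ⟨h1, ?_⟩
    intro j y hy
    exact kills_symm c hc hcne w hw hwc a b h (2 * j) y hy.1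
      (fun t ht => hdiag t ht j y hy) (h1 j y hy)
  have hinv : ∀ u v, relK n c w A χ u v → DD n (XX c w u v) x = 0 := by
    rintro u v (rfl | ⟨h1, -⟩)
    · have h1 : XX c w u u = Matrix.diagonal
          (fun s => w u * (if s = u then 1 else 0) - w u * (if s = c u then 1 else 0)) := by
        ext a b
        simp only [XX, Matrix.sub_apply, Matrix.smul_apply, Matrix.single_apply,
          Matrix.diagonal_apply, smul_eq_mul]
        by_cases hab : a = b
        · subst hab
          simp only [and_self, if_true, eq_comm]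
        · rw [if_neg hab]
          have e1 : ¬ (u = a ∧ u = b) := by
            rintro ⟨h1, h2⟩; exact hab (h1.symm.trans h2)
          have e2 : ¬ (c u = a ∧ c u = b) := by
            rintro ⟨h1, h2⟩; exact hab (h1.symm.trans h2)
          rw [if_neg e1, if_neg e2]; ring
      rw [h1]
      apply hdiag _ _ i x hx
      intro v
      have e1 : (c v = u) = (v = c u) := by
        apply propext
        constructor
        · rintro rfl; rw [hc]
        · rintro rfl; rw [hc]
      have e2 : (c v = c u) = (v = u) := by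
        apply propext
        constructor
        · intro h; rw [← hc v, h, hc]
        · rintro rfl; rfl
      simp only [e1, e2]
      ring
    · exact h1 i x hx
  have hmem := fft c hc w hw hwc (relK n c w A χ) hr hrc (2 * i) x hx.1 hinv
  obtain ⟨U, hU⟩ := exists_open_block A hclosed (relK n c w A χ) hr hrel
  refine Algebra.adjoin_le ?_ hmem
  rintro y ⟨v, a, b, rfl⟩
  exact Algebra.subset_adjoin
    (zz_tate c hc w hw hwc A χ hform (relK n c w A χ) hr hrc U hU v a b)

end Pool.Agent.Lib.MP_640417_ag.Frob
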