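import Pool.Agent.Lib.MP_640417_ag.CMRep

/-!
# Operators on the exterior algebra of `Vⁿ` in coordinates

`V = I → F`, `Vⁿ = Fin n × I → F`, `Lam I F n` is the exterior algebra of `Vⁿ`.
-/

namespace Pool.Agent.Lib.MP_640417_ag.Frob

open Module

variable {I : Type} [Fintype I] [DecidableEq I] {F : Type} [Field F] {n : ℕ}

/-- The exterior algebra of `Vⁿ`. -/
abbrev Lam (I F : Type) [Field F] (n : ℕ) : Type := ExteriorAlgebra F (Fin n × I → F)

/-- The basis vector with index `p`, in the exterior algebra. -/
noncomputable def ev (F : Type) [Field F] (p : Fin n × I) : Lam I F n :=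
  ExteriorAlgebra.ι F (Pi.single p (1 : F))

/-- Left multiplication by a basis vector. -/
noncomputable def cr (F : Type) [Field F] (p : Fin n × I) : Module.End F (Lam I F n) :=
  LinearMap.mulLeft F (ev F p)

/-- Contraction with a coordinate. -/
noncomputable def an (F : Type) [Field F] (p : Fin n × I) : Module.End F (Lam I F n) :=
  CliffordAlgebra.contractLeft (Q := (0 : QuadraticForm F (Fin n × I → F)))
    (LinearMap.proj p : (Fin n × I → F) →ₗ[F] F)

/-- The derivation of the exterior algebra induced by the matrix unit `(u, v)` of `V`. -/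
noncomputable def EE (F : Type) [Field F] (n : ℕ) (u v : I) : Module.End F (Lam I F n) :=
  ∑ a : Fin n, cr F (a, u) * an F (a, v)

/-- The derivation of the exterior algebra of `Vⁿ` induced by a matrix. -/
noncomputable def DD (n : ℕ) (A : Matrix I I F) : Module.End F (Lam I F n) :=
  ∑ u, ∑ v, A u v • EE F n u v

/-- The diagonal action of a matrix on `Vⁿ`. -/
noncomputable def Tn (n : ℕ) (A : Matrix I I F) : (Fin n × I → F) →ₗ[F] (Fin n × I → F) :=
  LinearMap.pi fun p => ∑ v, A p.2 v • LinearMap.proj (p.1, v)

/-- The elements of the symplectic Lie algebra attached to roots: the form has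
`ω (e v) (e (c v)) = w v`. -/
def XX (c : I → I) (w : I → F) (u v : I) : Matrix I I F :=
  w v • Matrix.single u v 1 - w u • Matrix.single (c v) (c u) 1

/-- The invariant bivectors; `r` is an equivalence relation on `I`. -/
noncomputable def zz (c : I → I) (w : I → F) (r : I → I → Prop) [DecidableRel r] (v : I)
    (a b : Fin n) : Lam I F n :=
  ∑ u ∈ Finset.univ.filter (fun u => r v u), (w u)⁻¹ • (ev F (a, u) * ev F (b, c u))

/-- The matrix of the alternating form with `ω (e v) (e (c v)) = w v`. -/
def Om (c : I → I) (w : I → F) : Matrix I I F :=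
  Matrix.of fun u v => if v = c u then w u else 0

end Pool.Agent.Lib.MP_640417_ag.Frob
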