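import Mathlib

/-!
# The discriminant of a polynomial in terms of its roots
-/

namespace Pool.Agent.Lib.MP_640417_ag.Frob

open Polynomial

private theorem DiscA_natDegree {K : Type} [Field K] {m : ℕ} (r : Fin m → K) :
    (∏ i, (X - C (r i)) : K[X]).natDegree = m := by
  rw [natDegree_prod_of_monic _ _ (fun i _ => monic_X_sub_C (r i))]
  simp

private theorem DiscA_monic {K : Type} [Field K] {m : ℕ} (r : Fin m → K) :
    (∏ i, (X - C (r i)) : K[X]).Monic :=
  monic_prod_of_monic _ _ (fun i _ => monic_X_sub_C (r i))

private theorem DiscA_roots {K : Type} [Field K] {m : ℕ} (r : Fin m → K) :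
    (∏ i, (X - C (r i)) : K[X]).roots = Finset.univ.val.map r := by
  have := roots_multiset_prod_X_sub_C (Finset.univ.val.map r)
  rw [Multiset.map_map] at this
  exact this

private theorem DiscA_splits {K : Type} [Field K] {m : ℕ} (r : Fin m → K) :
    (∏ i, (X - C (r i)) : K[X]).Splits :=
  Splits.prod (fun i _ => Splits.X_sub_C (r i))

private theorem DiscA_eval {K : Type} [Field K] {m : ℕ} (r : Fin m → K) (i : Fin m) :
    (derivative (∏ i, (X - C (r i)) : K[X])).eval (r i)
      = ∏ j ∈ Finset.univ.erase i, (r i - r j) := by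
  classical
  rw [derivative_prod_finset]
  rw [eval_finsetSum, Finset.sum_eq_single i]
  · simp [eval_prod]
  · intro b _ hb
    simp only [derivative_sub, derivative_X, derivative_C, sub_zero, mul_one, eval_prod]
    exact Finset.prod_eq_zero (Finset.mem_erase.2 ⟨hb.symm, Finset.mem_univ i⟩) (by simp)
  · intro h
    exact absurd (Finset.mem_univ i) h

private theorem DiscA_sign (m : ℕ) :
    ∑ i : Fin m, (Finset.Ioi i).card = m * (m - 1) / 2 := by
  have h : ∀ i : Fin m, (Finset.Ioi i).card = m - 1 - i := by
    intro i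
    simp
  simp only [h]
  rw [Fin.sum_univ_eq_sum_range (fun i => m - 1 - i) m, Finset.sum_range_reflect (fun i => i) m,
    Finset.sum_range_id]

private theorem DiscA_vander {K : Type} [Field K] {m : ℕ} (r : Fin m → K) :
    ∏ i : Fin m, ∏ j ∈ Finset.univ.erase i, (r i - r j)
      = (-1) ^ (m * (m - 1) / 2) * (Matrix.vandermonde r).det ^ 2 := by
  classical
  have h1 : ∏ i : Fin m, ∏ j ∈ Finset.univ.erase i, (r i - r j)
      = ∏ i : Fin m, ∏ j ∈ Finset.Ioi i, ((r i - r j) * (r j - r i)) := by
    rw [Finset.prod_prod_Ioi_mul_eq_prod_prod_off_diag (fun i j => r j - r i)]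
    refine Finset.prod_congr rfl fun i _ => Finset.prod_congr ?_ fun j _ => rfl
    ext j
    simp
  rw [h1, Matrix.det_vandermonde, ← DiscA_sign, ← Finset.prod_pow_eq_pow_sum,
    ← Finset.prod_pow, ← Finset.prod_mul_distrib]
  refine Finset.prod_congr rfl fun i _ => ?_
  rw [← Finset.prod_const, ← Finset.prod_pow, ← Finset.prod_mul_distrib]
  refine Finset.prod_congr rfl fun j _ => ?_
  ring

/-- The discriminant of a polynomial in terms of its roots. -/
theorem discr_prod_X_sub_C {K : Type} [Field K] {m : ℕ} (r : Fin m → K) :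
    (∏ i, (X - C (r i)) : K[X]).discr = (Matrix.vandermonde r).det ^ 2 := by
  rcases Nat.eq_zero_or_pos m with rfl | hm
  · have : (∏ i, (X - C (r i)) : K[X]) = C 1 := by simp
    rw [this, discr_C]
    simp
  · have hd := DiscA_natDegree r
    have hpos : 0 < (∏ i, (X - C (r i)) : K[X]).degree := by
      rw [← natDegree_pos_iff_degree_pos, hd]; exact hm
    have h1 := resultant_deriv hpos
    have h2 := resultant_eq_prod_eval (∏ i, (X - C (r i)) : K[X])
      (derivative (∏ i, (X - C (r i)) : K[X])) (m - 1)
      (by have := natDegree_derivative_le (∏ i, (X - C (r i)) : K[X]); rwa [hd] at this)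
      (DiscA_splits r)
    rw [hd] at h1 h2
    rw [h2, (DiscA_monic r).leadingCoeff, DiscA_roots, Multiset.map_map] at h1
    have h3 : (Multiset.map ((fun x => eval x (derivative (∏ i, (X - C (r i)) : K[X]))) ∘ r)
        Finset.univ.val).prod = ∏ i : Fin m, ∏ j ∈ Finset.univ.erase i, (r i - r j) := by
      rw [Finset.prod]
      congr 1
      refine Multiset.map_congr rfl fun i _ => ?_
      exact DiscA_eval r i
    rw [h3, DiscA_vander] at h1
    simp only [one_pow, one_mul, mul_one] at h1
    have h4 : ((-1 : K) ^ (m * (m - 1) / 2)) ≠ 0 := pow_ne_zero _ (by simp)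
    exact (mul_left_cancel₀ h4 h1).symm

/-- The discriminant commutes with extension of the base field. -/
theorem discr_map {M K : Type} [Field M] [Field K] [Algebra M K] (Q : M[X]) (hQ : Q.Monic) :
    (Q.map (algebraMap M K)).discr = algebraMap M K Q.discr := by
  rcases Nat.eq_zero_or_pos Q.natDegree with h0 | hm
  · have : Q = C 1 := by
      rw [eq_one_of_monic_natDegree_zero hQ h0]; simp
    rw [this, map_C, discr_C, discr_C, map_one]
  · have hQ' : (Q.map (algebraMap M K)).Monic := hQ.map _
    have hd : (Q.map (algebraMap M K)).natDegree = Q.natDegree := hQ.natDegree_map _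
    have h1 := resultant_deriv (natDegree_pos_iff_degree_pos.1 hm)
    have h2 := resultant_deriv (f := Q.map (algebraMap M K))
      (natDegree_pos_iff_degree_pos.1 (by rw [hd]; exact hm))
    rw [hd, derivative_map, resultant_map_map, h1, hQ.leadingCoeff, hQ'.leadingCoeff] at h2
    simp only [mul_one, map_mul, map_pow, map_neg, map_one] at h2
    have h4 : ((-1 : K) ^ (Q.natDegree * (Q.natDegree - 1) / 2)) ≠ 0 :=
      pow_ne_zero _ (by simp)
    exact (mul_left_cancel₀ h4 h2).symm

end Pool.Agent.Lib.MP_640417_ag.Frob
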