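import Pool.Agent.Lib.MP_640417_ag.Frob.DiscA

/-!
# Discriminants and even permutations of the roots
-/

namespace Pool.Agent.Lib.MP_640417_ag.Frob

open Polynomial

/-- The permutations of the roots coming from the Galois group. -/
def galPerm (M K : Type) [Field M] [Field K] [Algebra M K] {I : Type} (μ : I → K) :
    Subgroup (Equiv.Perm I) where
  carrier := {π | ∃ σ : K ≃ₐ[M] K, ∀ i, σ (μ i) = μ (π i)}
  mul_mem' := by
    rintro π π' ⟨σ, hσ⟩ ⟨σ', hσ'⟩
    exact ⟨σ * σ', fun i => by
      change σ (σ' (μ i)) = μ (π (π' i))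
      rw [hσ', hσ]⟩
  one_mem' := ⟨1, fun i => rfl⟩
  inv_mem' := by
    rintro π ⟨σ, hσ⟩
    refine ⟨σ.symm, fun i => ?_⟩
    apply σ.injective
    rw [AlgEquiv.apply_symm_apply, hσ]
    simp

/-- Every element of the Galois group permutes the roots. -/
theorem exists_perm {M K : Type} [Field M] [Field K] [Algebra M K] {I : Type} [Fintype I]
    [DecidableEq I] (μ : I → K) (hμ : Function.Injective μ) (P : M[X])
    (hP : P.map (algebraMap M K) = ∏ i, (X - C (μ i))) (σ : K ≃ₐ[M] K) :
    ∃ π : Equiv.Perm I, ∀ i, σ (μ i) = μ (π i) := by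
  have h1 : ∀ i, ∃ j, σ (μ i) = μ j := by
    intro i
    have h2 : aeval (μ i) P = 0 := by
      rw [← eval_map_algebraMap, hP, eval_prod]
      exact Finset.prod_eq_zero (Finset.mem_univ i) (by simp)
    have h3 : aeval (σ (μ i)) P = 0 := by
      have h4 := aeval_algHom_apply (σ : K →ₐ[M] K) (μ i) P
      rw [h2, map_zero] at h4
      exact h4
    rw [← eval_map_algebraMap, hP, eval_prod, Finset.prod_eq_zero_iff] at h3
    obtain ⟨j, -, hj⟩ := h3
    exact ⟨j, by simpa [sub_eq_zero] using hj⟩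
  choose f hf using h1
  have hinj : Function.Injective f := by
    intro i j hij
    apply hμ
    apply σ.injective
    rw [hf, hf, hij]
  exact ⟨Equiv.ofBijective f (Finite.injective_iff_bijective.1 hinj), hf⟩

/-- Elements fixed by the Galois group come from the base field. -/
private theorem DiscB_fixed {M K : Type} [Field M] [Field K] [Algebra M K] [IsGalois M K] (x : K)
    (h : ∀ σ : K ≃ₐ[M] K, σ x = x) : ∃ y : M, algebraMap M K y = x :=
  (InfiniteGalois.mem_range_algebraMap_iff_fixed x).2 h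

/-- Polynomials fixed by the Galois group come from the base field. -/
private theorem DiscB_lift {M K : Type} [Field M] [Field K] [Algebra M K] [IsGalois M K] (R : K[X])
    (h : ∀ σ : K ≃ₐ[M] K, R.map (σ : K →+* K) = R) : ∃ Q : M[X], Q.map (algebraMap M K) = R := by
  have h1 : R ∈ Polynomial.lifts (algebraMap M K) := by
    rw [Polynomial.lifts_iff_coeff_lifts]
    intro n
    apply DiscB_fixed
    intro σ
    have := congrArg (fun S => S.coeff n) (h σ)
    simpa using this
  obtain ⟨Q, hQ⟩ := h1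
  exact ⟨Q, hQ⟩

/-- If the Galois group acts on the roots of `Q` by even permutations, the discriminant of `Q` is
a square. -/
theorem isSquare_discr {M K : Type} [Field M] [Field K] [Algebra M K] [IsGalois M K]
    {Y : Type} [Fintype Y] [DecidableEq Y] (μ : Y → K) (Q : M[X])
    (hQ : Q.map (algebraMap M K) = ∏ y, (X - C (μ y)))
    (heven : ∀ σ : K ≃ₐ[M] K, ∃ π : Equiv.Perm Y, Equiv.Perm.sign π = 1 ∧
      ∀ y, σ (μ y) = μ (π y)) : IsSquare Q.discr := by
  let e : Y ≃ Fin (Fintype.card Y) := Fintype.equivFin Y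
  let r : Fin (Fintype.card Y) → K := fun i => μ (e.symm i)
  have hQr : Q.map (algebraMap M K) = ∏ i, (X - C (r i)) := by
    rw [hQ]
    exact (Equiv.prod_comp e.symm (fun y => X - C (μ y))).symm
  have hmonic : Q.Monic := by
    apply Polynomial.monic_of_injective (algebraMap M K).injective
    rw [hQr]
    exact monic_prod_of_monic _ _ (fun i _ => monic_X_sub_C _)
  have hδ : algebraMap M K Q.discr = (Matrix.vandermonde r).det ^ 2 := by
    rw [← discr_map Q hmonic, hQr, discr_prod_X_sub_C]
  obtain ⟨d, hd⟩ := DiscB_fixed (M := M) (Matrix.vandermonde r).det (by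
    intro σ
    obtain ⟨π, hπ1, hπ⟩ := heven σ
    let π' : Equiv.Perm (Fin (Fintype.card Y)) := (e.symm.trans π).trans e
    have hsign : Equiv.Perm.sign π' = 1 := by
      rw [← hπ1]
      exact Equiv.Perm.sign_symm_trans_trans π e
    have h1 : (σ : K →+* K).mapMatrix (Matrix.vandermonde r) =
        (Matrix.vandermonde r).submatrix π' id := by
      ext i j
      simp only [RingHom.mapMatrix_apply, Matrix.map_apply, Matrix.vandermonde_apply,
        Matrix.submatrix_apply, id, map_pow]
      congr 1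
      change σ (μ (e.symm i)) = μ (e.symm (e (π (e.symm i))))
      rw [hπ, Equiv.symm_apply_apply]
    have h2 : σ (Matrix.vandermonde r).det = ((σ : K →+* K).mapMatrix (Matrix.vandermonde r)).det :=
      RingHom.map_det (σ : K →+* K) _
    rw [h2, h1, Matrix.det_permute, hsign]
    simp)
  refine ⟨d, (algebraMap M K).injective ?_⟩
  rw [hδ, ← hd, map_mul, pow_two]

/-- A set of roots stable under the Galois group gives a factor over the base field. -/
theorem exists_factor {M K : Type} [Field M] [Field K] [Algebra M K] [IsGalois M K]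
    {I : Type} [Fintype I] [DecidableEq I] (μ : I → K) (P : M[X])
    (hP : P.map (algebraMap M K) = ∏ i, (X - C (μ i))) (Y : Finset I)
    (hY : ∀ σ : K ≃ₐ[M] K, ∃ π : Equiv.Perm I, (∀ i, σ (μ i) = μ (π i)) ∧
      ∀ i, π i ∈ Y ↔ i ∈ Y) :
    ∃ Q : M[X], Q.Monic ∧ Q ∣ P ∧ Q.map (algebraMap M K) = ∏ i ∈ Y, (X - C (μ i)) := by
  obtain ⟨Q, hQ⟩ := DiscB_lift (M := M) (∏ i ∈ Y, (X - C (μ i))) (by
    intro σ
    obtain ⟨π, hπ, hπY⟩ := hY σ
    rw [Polynomial.map_prod]
    apply Finset.prod_nbij π
    · intro i hi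
      exact (hπY i).2 hi
    · exact π.injective.injOn
    · intro j hj
      refine ⟨π.symm j, ?_, by simp⟩
      rw [Finset.mem_coe, ← hπY]
      simpa using hj
    · intro i hi
      rw [Polynomial.map_sub, map_X, map_C]
      change X - C (σ (μ i)) = _
      rw [hπ])
  have hmonic : Q.Monic := by
    apply Polynomial.monic_of_injective (algebraMap M K).injective
    rw [hQ]
    exact monic_prod_of_monic _ _ (fun i _ => monic_X_sub_C _)
  refine ⟨Q, hmonic, ?_, hQ⟩
  rw [← Polynomial.map_dvd_map' (algebraMap M K), hQ, hP]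
  exact Finset.prod_dvd_prod_of_subset _ _ _ (Finset.subset_univ Y)

/-- On every stable set of roots some Galois element acts as an odd permutation. -/
theorem exists_odd {M K : Type} [Field M] [Field K] [Algebra M K] [IsGalois M K]
    {I : Type} [Fintype I] [DecidableEq I] (μ : I → K) (hμ : Function.Injective μ) (P : M[X])
    (hP : P.map (algebraMap M K) = ∏ i, (X - C (μ i)))
    (hdisc : ∀ Q : M[X], Q.Monic → Q ∣ P → Q ≠ 1 → ¬ IsSquare Q.discr)
    (Y : Finset I) (hne : Y.Nonempty)
    (hY : ∀ (γ : galPerm M K μ) (i : I), γ • i ∈ Y ↔ i ∈ Y) :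
    ∃ γ : galPerm M K μ, Equiv.Perm.sign ((MulAction.toPerm γ : Equiv.Perm I).subtypePerm
        (p := fun s => s ∈ Y) (fun s => hY γ s)) = -1 := by
  by_contra hcon
  push Not at hcon
  have hall : ∀ σ : K ≃ₐ[M] K, ∃ γ : galPerm M K μ, ∀ i, σ (μ i) = μ (γ • i) := by
    intro σ
    obtain ⟨π, hπ⟩ := exists_perm μ hμ P hP σ
    exact ⟨⟨π, σ, hπ⟩, hπ⟩
  obtain ⟨Q, hQm, hQP, hQ⟩ := exists_factor μ P hP Y (by
    intro σ
    obtain ⟨γ, hγ⟩ := hall σ
    exact ⟨MulAction.toPerm γ, hγ, fun i => hY γ i⟩)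
  have hne1 : Q ≠ 1 := by
    rintro rfl
    rw [Polynomial.map_one] at hQ
    have h1 := congrArg Polynomial.natDegree hQ
    rw [natDegree_one, natDegree_prod_of_monic _ _ (fun i _ => monic_X_sub_C _)] at h1
    simp only [natDegree_X_sub_C, Finset.sum_const, smul_eq_mul, mul_one] at h1
    exact hne.card_pos.ne h1
  apply hdisc Q hQm hQP hne1
  apply isSquare_discr (Y := {s // s ∈ Y}) (fun y => μ y) Q
  · rw [hQ]
    exact (Finset.prod_coe_sort Y (fun i => X - C (μ i))).symm
  · intro σ
    obtain ⟨γ, hγ⟩ := hall σ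
    refine ⟨(MulAction.toPerm γ : Equiv.Perm I).subtypePerm
        (p := fun s => s ∈ Y) (fun s => hY γ s), ?_, fun y => hγ y⟩
    exact (Int.units_eq_one_or _).resolve_right (hcon γ)

end Pool.Agent.Lib.MP_640417_ag.Frob
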