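import Mathlib

/-!
# A model of the exterior algebra with integral creation and annihilation operators
-/

set_option linter.unusedSectionVars false

namespace Pool.Agent.Lib.MP_640417_ag.Frob

open Module

variable {J : Type} [Fintype J] [DecidableEq J]

/-- The sign: number of elements of `S` of smaller rank than `p`. -/
def sg (rk : J → ℕ) (p : J) (S : Finset J) : ℤ := (-1) ^ (S.filter (fun s => rk s < rk p)).card

/-- Creation operators on functions of finite sets. -/
def fockCr (rk : J → ℕ) (R : Type) [CommRing R] (p : J) :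
    (Finset J → R) →ₗ[R] (Finset J → R) where
  toFun f := fun S => if p ∈ S then (sg rk p S : R) * f (S.erase p) else 0
  map_add' f g := by
    funext S
    simp only [Pi.add_apply]
    split_ifs <;> ring
  map_smul' r f := by
    funext S
    simp only [Pi.smul_apply, smul_eq_mul, RingHom.id_apply]
    split_ifs <;> ring

/-- Annihilation operators on functions of finite sets. -/
def fockAn (rk : J → ℕ) (R : Type) [CommRing R] (p : J) :
    (Finset J → R) →ₗ[R] (Finset J → R) where
  toFun f := fun S => if p ∈ S then 0 else (sg rk p S : R) * f (insert p S)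
  map_add' f g := by
    funext S
    simp only [Pi.add_apply]
    split_ifs <;> ring
  map_smul' r f := by
    funext S
    simp only [Pi.smul_apply, smul_eq_mul, RingHom.id_apply]
    split_ifs <;> ring

section fock

variable (rk : J → ℕ) (F : Type) [Field F]

theorem fock_exists_min {S : Finset J} (h : S.Nonempty) : ∃ m ∈ S, ∀ s ∈ S, rk m ≤ rk s :=
  Finset.exists_min_image S rk h

/-- the ordered products of generators -/
noncomputable def fockE (S : Finset J) : ExteriorAlgebra F (J → F) :=
  if h : S.Nonempty then
    ExteriorAlgebra.ι F (Pi.single (fock_exists_min rk h).choose (1 : F)) *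
      fockE (S.erase (fock_exists_min rk h).choose)
  else 1
termination_by S.card
decreasing_by exact Finset.card_erase_lt_of_mem (fock_exists_min rk h).choose_spec.1

theorem fockE_empty : fockE rk F (∅ : Finset J) = 1 := by
  rw [fockE, dif_neg Finset.not_nonempty_empty]

theorem fockE_min (hrk : Function.Injective rk) {S : Finset J} {m : J} (hm : m ∈ S)
    (hmin : ∀ s ∈ S, rk m ≤ rk s) :
    fockE rk F S = ExteriorAlgebra.ι F (Pi.single m (1 : F)) * fockE rk F (S.erase m) := by
  have hS : S.Nonempty := ⟨m, hm⟩
  have h1 := (fock_exists_min rk hS).choose_spec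
  have h2 : (fock_exists_min rk hS).choose = m :=
    hrk (le_antisymm (h1.2 m hm) (hmin _ h1.1))
  rw [fockE, dif_pos hS, h2]

theorem sg_min {S : Finset J} {m : J} (hmin : ∀ s ∈ S, rk m ≤ rk s) : sg rk m S = 1 := by
  have : S.filter (fun s => rk s < rk m) = ∅ := by
    apply Finset.filter_eq_empty_iff.2
    intro s hs
    exact not_lt.2 (hmin s hs)
  rw [sg, this, Finset.card_empty, pow_zero]

theorem sg_erase_lt {S : Finset J} {m p : J} (hm : m ∈ S) (h : rk m < rk p) :
    sg rk p S = - sg rk p (S.erase m) := by
  have : S.filter (fun s => rk s < rk p) =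
      insert m ((S.erase m).filter (fun s => rk s < rk p)) := by
    ext s
    simp only [Finset.mem_filter, Finset.mem_insert, Finset.mem_erase]
    constructor
    · rintro ⟨h1, h2⟩
      by_cases h3 : s = m
      · exact Or.inl h3
      · exact Or.inr ⟨⟨h3, h1⟩, h2⟩
    · rintro (rfl | ⟨⟨-, h1⟩, h2⟩)
      · exact ⟨hm, h⟩
      · exact ⟨h1, h2⟩
  rw [sg, sg, this, Finset.card_insert_of_notMem (by simp), pow_succ]
  ring

theorem sg_insert_self (p : J) (S : Finset J) : sg rk p (insert p S) = sg rk p S := by
  rw [sg, sg, Finset.filter_insert, if_neg (lt_irrefl _)]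

theorem sg_erase_self (p : J) (S : Finset J) : sg rk p (S.erase p) = sg rk p S := by
  by_cases h : p ∈ S
  · conv_rhs => rw [← Finset.insert_erase h]
    rw [sg_insert_self]
  · rw [Finset.erase_eq_of_notMem h]

theorem sg_mul_self (p : J) (S : Finset J) : sg rk p S * sg rk p S = 1 := by
  rw [sg, ← pow_add, ← two_mul, pow_mul, neg_one_sq, one_pow]

variable {rk}

theorem ι_mul_fockE (hrk : Function.Injective rk) (p : J) (S : Finset J) :
    ExteriorAlgebra.ι F (Pi.single p (1 : F)) * fockE rk F S =
      if p ∈ S then 0 else (sg rk p S : F) • fockE rk F (insert p S) := by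
  induction hn : S.card generalizing S with
  | zero =>
    obtain rfl := Finset.card_eq_zero.1 hn
    rw [if_neg (Finset.notMem_empty p), sg_min rk (by simp), Int.cast_one, one_smul,
      fockE_min rk F hrk (S := insert p ∅) (m := p) (by simp) (by simp),
      Finset.erase_insert (Finset.notMem_empty p)]
  | succ n ih =>
    have hS : S.Nonempty := by
      rw [← Finset.card_pos]
      omega
    obtain ⟨m, hm, hmin⟩ := fock_exists_min rk hS
    rcases lt_trichotomy (rk p) (rk m) with hlt | heq | hgt
    · have hp : p ∉ S := fun h => absurd (hmin p h) (not_le.2 hlt)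
      rw [if_neg hp, sg_min rk (fun s hs => hlt.le.trans (hmin s hs)), Int.cast_one, one_smul,
        fockE_min rk F hrk (S := insert p S) (m := p) (Finset.mem_insert_self _ _) (by
          intro s hs
          rcases Finset.mem_insert.1 hs with rfl | hs
          · exact le_rfl
          · exact hlt.le.trans (hmin s hs)), Finset.erase_insert hp]
    · obtain rfl := hrk heq
      rw [if_pos hm, fockE_min rk F hrk hm hmin, ← mul_assoc]
      have := ExteriorAlgebra.ι_sq_zero (R := F) (Pi.single p (1 : F) : J → F)
      rw [this, zero_mul]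
    · have hne : p ≠ m := fun h => by
        rw [h] at hgt
        exact lt_irrefl _ hgt
      have hanti : ExteriorAlgebra.ι F (Pi.single p (1 : F) : J → F) *
          ExteriorAlgebra.ι F (Pi.single m (1 : F)) =
          - (ExteriorAlgebra.ι F (Pi.single m (1 : F)) *
            ExteriorAlgebra.ι F (Pi.single p (1 : F))) :=
        eq_neg_of_add_eq_zero_left (ExteriorAlgebra.ι_add_mul_swap (R := F) _ _)
      rw [fockE_min rk F hrk hm hmin, ← mul_assoc, hanti, neg_mul, mul_assoc,
        ih (S.erase m) (by rw [Finset.card_erase_of_mem hm, hn]; rfl)]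
      by_cases hp : p ∈ S
      · rw [if_pos hp, if_pos (Finset.mem_erase.2 ⟨hne, hp⟩), mul_zero, neg_zero]
      · rw [if_neg hp, if_neg (fun h => hp (Finset.mem_erase.1 h).2),
          fockE_min rk F hrk (S := insert p S) (m := m) (Finset.mem_insert_of_mem hm) (by
            intro s hs
            rcases Finset.mem_insert.1 hs with rfl | hs
            · exact hgt.le
            · exact hmin s hs), Finset.erase_insert_of_ne hne, sg_erase_lt rk hm hgt,
          mul_smul_comm, Int.cast_neg, neg_smul]

theorem contract_fockE (hrk : Function.Injective rk) (p : J) (S : Finset J) :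
    CliffordAlgebra.contractLeft (Q := (0 : QuadraticForm F (J → F)))
      (LinearMap.proj p : (J → F) →ₗ[F] F) (fockE rk F S) =
      if p ∈ S then (sg rk p S : F) • fockE rk F (S.erase p) else 0 := by
  induction hn : S.card generalizing S with
  | zero =>
    obtain rfl := Finset.card_eq_zero.1 hn
    rw [if_neg (Finset.notMem_empty p), fockE_empty]
    exact CliffordAlgebra.contractLeft_one _ _
  | succ n ih =>
    have hS : S.Nonempty := by
      rw [← Finset.card_pos]
      omega
    obtain ⟨m, hm, hmin⟩ := fock_exists_min rk hS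
    have h1 : CliffordAlgebra.contractLeft (Q := (0 : QuadraticForm F (J → F)))
        (LinearMap.proj p : (J → F) →ₗ[F] F) (fockE rk F S) =
        (Pi.single m (1 : F) : J → F) p • fockE rk F (S.erase m) -
        ExteriorAlgebra.ι F (Pi.single m (1 : F)) *
          CliffordAlgebra.contractLeft (Q := (0 : QuadraticForm F (J → F)))
            (LinearMap.proj p : (J → F) →ₗ[F] F) (fockE rk F (S.erase m)) := by
      rw [fockE_min rk F hrk hm hmin]
      exact CliffordAlgebra.contractLeft_ι_mul _ _ _
    rw [h1, ih (S.erase m) (by rw [Finset.card_erase_of_mem hm, hn]; rfl)]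
    by_cases hpm : p = m
    · subst hpm
      rw [if_pos hm, if_neg (by simp), mul_zero, sub_zero, Pi.single_eq_same, sg_min rk hmin,
        Int.cast_one]
    · rw [Pi.single_eq_of_ne hpm, zero_smul, zero_sub]
      by_cases hp : p ∈ S
      · have hlt : rk m < rk p := lt_of_le_of_ne (hmin p hp) (fun h => hpm (hrk h.symm))
        rw [if_pos hp, if_pos (Finset.mem_erase.2 ⟨hpm, hp⟩), sg_erase_lt rk hm hlt,
          fockE_min rk F hrk (S := S.erase p) (m := m)
            (Finset.mem_erase.2 ⟨fun h => hpm h.symm, hm⟩)
            (fun s hs => hmin s (Finset.mem_erase.1 hs).2), mul_smul_comm, Int.cast_neg,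
          neg_smul, Finset.erase_right_comm]
      · rw [if_neg hp, if_neg (fun h => hp (Finset.mem_erase.1 h).2), mul_zero, neg_zero]

theorem algebraMapInv_fockE (hrk : Function.Injective rk) (S : Finset J) :
    ExteriorAlgebra.algebraMapInv (fockE rk F S) = if S = ∅ then 1 else 0 := by
  by_cases h : S = ∅
  · rw [if_pos h, h, fockE_empty, map_one]
  · obtain ⟨m, hm, hmin⟩ := fock_exists_min rk (Finset.nonempty_iff_ne_empty.2 h)
    rw [if_neg h, fockE_min rk F hrk hm hmin, map_mul]
    have : ExteriorAlgebra.algebraMapInv (ExteriorAlgebra.ι F (Pi.single m (1 : F) : J → F)) = 0 := by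
      simp [ExteriorAlgebra.algebraMapInv]
    rw [this, zero_mul]

variable (rk) in
/-- the comparison map -/
noncomputable def fockΦ : (Finset J → F) →ₗ[F] ExteriorAlgebra F (J → F) :=
  ∑ S : Finset J, (LinearMap.toSpanSingleton F _ (fockE rk F S)) ∘ₗ LinearMap.proj S

theorem fockΦ_single (S : Finset J) : fockΦ rk F (Pi.single S (1 : F)) = fockE rk F S := by
  rw [fockΦ, LinearMap.sum_apply, Finset.sum_eq_single S]
  · rw [LinearMap.comp_apply, LinearMap.proj_apply, Pi.single_eq_same,
      LinearMap.toSpanSingleton_apply, one_smul]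
  · intro T _ hT
    rw [LinearMap.comp_apply, LinearMap.proj_apply, Pi.single_eq_of_ne hT,
      LinearMap.toSpanSingleton_apply, zero_smul]
  · intro h
    exact absurd (Finset.mem_univ _) h

theorem fockCr_single (p : J) (T : Finset J) :
    fockCr rk F p (Pi.single T (1 : F)) =
      if p ∈ T then 0 else (sg rk p T : F) • Pi.single (insert p T) (1 : F) := by
  funext S
  show (if p ∈ S then (sg rk p S : F) * (Pi.single T (1 : F) : Finset J → F) (S.erase p) else 0) = _
  by_cases hT : p ∈ T
  · rw [if_pos hT, Pi.zero_apply]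
    split_ifs with hS
    · rw [Pi.single_eq_of_ne (by
        rintro rfl
        exact (Finset.mem_erase.1 hT).1 rfl), mul_zero]
    · rfl
  · rw [if_neg hT, Pi.smul_apply]
    by_cases hS : p ∈ S
    · rw [if_pos hS]
      by_cases h : S.erase p = T
      · have h2 : S = insert p T := by rw [← h, Finset.insert_erase hS]
        rw [h, h2, Pi.single_eq_same, Pi.single_eq_same, sg_insert_self, smul_eq_mul]
      · have h2 : S ≠ insert p T := by
          rintro rfl
          exact h (Finset.erase_insert hT)
        rw [Pi.single_eq_of_ne h, Pi.single_eq_of_ne h2, mul_zero, smul_zero]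
    · have h2 : S ≠ insert p T := by
        rintro rfl
        exact hS (Finset.mem_insert_self _ _)
      rw [if_neg hS, Pi.single_eq_of_ne h2, smul_zero]

theorem fockAn_single (p : J) (T : Finset J) :
    fockAn rk F p (Pi.single T (1 : F)) =
      if p ∈ T then (sg rk p T : F) • Pi.single (T.erase p) (1 : F) else 0 := by
  funext S
  show (if p ∈ S then 0 else (sg rk p S : F) * (Pi.single T (1 : F) : Finset J → F) (insert p S)) = _
  by_cases hT : p ∈ T
  · rw [if_pos hT, Pi.smul_apply]
    by_cases hS : p ∈ S
    · have h2 : S ≠ T.erase p := by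
        rintro rfl
        exact (Finset.mem_erase.1 hS).1 rfl
      rw [if_pos hS, Pi.single_eq_of_ne h2, smul_zero]
    · rw [if_neg hS]
      by_cases h : insert p S = T
      · have h2 : S = T.erase p := by rw [← h, Finset.erase_insert hS]
        rw [h, Pi.single_eq_same, h2, Pi.single_eq_same, sg_erase_self, smul_eq_mul]
      · have h2 : S ≠ T.erase p := by
          rintro rfl
          exact h (Finset.insert_erase hT)
        rw [Pi.single_eq_of_ne h, Pi.single_eq_of_ne h2, mul_zero, smul_zero]
  · rw [if_neg hT, Pi.zero_apply]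
    split_ifs with hS
    · rfl
    · rw [Pi.single_eq_of_ne (by
        rintro rfl
        exact hT (Finset.mem_insert_self _ _)), mul_zero]

theorem fockΦ_cr (hrk : Function.Injective rk) (p : J) (f : Finset J → F) :
    fockΦ rk F (fockCr rk F p f) = ExteriorAlgebra.ι F (Pi.single p (1 : F)) * fockΦ rk F f := by
  have h : (fockΦ rk F) ∘ₗ (fockCr rk F p) =
      (LinearMap.mulLeft F (ExteriorAlgebra.ι F (Pi.single p (1 : F)))) ∘ₗ (fockΦ rk F) := by
    apply LinearMap.pi_ext'
    intro T
    apply LinearMap.ext_ring
    show fockΦ rk F (fockCr rk F p (Pi.single T (1 : F))) =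
      ExteriorAlgebra.ι F (Pi.single p (1 : F)) * fockΦ rk F (Pi.single T (1 : F))
    rw [fockCr_single, fockΦ_single, ι_mul_fockE F hrk]
    split_ifs
    · rw [map_zero]
    · rw [map_smul, fockΦ_single]
  exact LinearMap.congr_fun h f

theorem fockΦ_an (hrk : Function.Injective rk) (p : J) (f : Finset J → F) :
    fockΦ rk F (fockAn rk F p f) =
      CliffordAlgebra.contractLeft (Q := (0 : QuadraticForm F (J → F)))
        (LinearMap.proj p : (J → F) →ₗ[F] F) (fockΦ rk F f) := by
  have h : (fockΦ rk F) ∘ₗ (fockAn rk F p) =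
      (CliffordAlgebra.contractLeft (Q := (0 : QuadraticForm F (J → F)))
        (LinearMap.proj p : (J → F) →ₗ[F] F)) ∘ₗ (fockΦ rk F) := by
    apply LinearMap.pi_ext'
    intro T
    apply LinearMap.ext_ring
    show fockΦ rk F (fockAn rk F p (Pi.single T (1 : F))) =
      CliffordAlgebra.contractLeft (Q := (0 : QuadraticForm F (J → F)))
        (LinearMap.proj p : (J → F) →ₗ[F] F) (fockΦ rk F (Pi.single T (1 : F)))
    rw [fockAn_single, fockΦ_single, contract_fockE F hrk]
    split_ifs
    · rw [map_smul, fockΦ_single]
    · rw [map_zero]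
  exact LinearMap.congr_fun h f

theorem fockΦ_inv (hrk : Function.Injective rk) (f : Finset J → F) :
    ExteriorAlgebra.algebraMapInv (fockΦ rk F f) = f ∅ := by
  have h : (ExteriorAlgebra.algebraMapInv (R := F) (M := J → F)).toLinearMap ∘ₗ (fockΦ rk F) =
      LinearMap.proj ∅ := by
    apply LinearMap.pi_ext'
    intro T
    apply LinearMap.ext_ring
    show ExteriorAlgebra.algebraMapInv (fockΦ rk F (Pi.single T (1 : F))) =
      (Pi.single T (1 : F) : Finset J → F) ∅
    rw [fockΦ_single, algebraMapInv_fockE F hrk]
    by_cases hT : T = ∅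
    · rw [if_pos hT, hT, Pi.single_eq_same]
    · rw [if_neg hT, Pi.single_eq_of_ne (fun h => hT h.symm)]
  exact LinearMap.congr_fun h f

theorem fockΦ_injective (hrk : Function.Injective rk) : Function.Injective (fockΦ rk F) := by
  rw [← LinearMap.ker_eq_bot, LinearMap.ker_eq_bot']
  intro f hf
  funext T
  induction T using Finset.induction_on generalizing f with
  | empty => rw [← fockΦ_inv F hrk f, hf, map_zero]; rfl
  | insert p S hp ih =>
    have h1 : fockΦ rk F (fockAn rk F p f) = 0 := by
      rw [fockΦ_an F hrk, hf, map_zero]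
    have h2 := ih (fockAn rk F p f) h1
    have h3 : (sg rk p S : F) * f (insert p S) = 0 := by
      have h4 : (fockAn rk F p f) S = (sg rk p S : F) * f (insert p S) := if_neg hp
      rw [← h4, h2]
      rfl
    have h5 : (sg rk p S : F) * (sg rk p S : F) = 1 := by
      rw [← Int.cast_mul, sg_mul_self, Int.cast_one]
    show f (insert p S) = 0
    calc f (insert p S) = ((sg rk p S : F) * (sg rk p S : F)) * f (insert p S) := by
          rw [h5, one_mul]
      _ = 0 := by rw [mul_assoc, h3, mul_zero]

theorem fockΦ_surjective (hrk : Function.Injective rk) : Function.Surjective (fockΦ rk F) := by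
  intro x
  induction x using CliffordAlgebra.left_induction with
  | algebraMap r =>
    refine ⟨r • Pi.single ∅ (1 : F), ?_⟩
    rw [map_smul, fockΦ_single, fockE_empty, Algebra.algebraMap_eq_smul_one]
  | add x y hx hy =>
    obtain ⟨f, rfl⟩ := hx
    obtain ⟨g, rfl⟩ := hy
    exact ⟨f + g, map_add _ _ _⟩
  | ι_mul x v hx =>
    obtain ⟨f, rfl⟩ := hx
    refine ⟨∑ p : J, v p • fockCr rk F p f, ?_⟩
    have hv : v = ∑ p : J, v p • (Pi.single p (1 : F) : J → F) := by
      funext q
      rw [Finset.sum_apply, Finset.sum_eq_single q]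
      · rw [Pi.smul_apply, Pi.single_eq_same, smul_eq_mul, mul_one]
      · intro p _ hp
        rw [Pi.smul_apply, Pi.single_eq_of_ne (fun h => hp h.symm), smul_zero]
      · intro h
        exact absurd (Finset.mem_univ _) h
    have h1 : CliffordAlgebra.ι (0 : QuadraticForm F (J → F)) v * fockΦ rk F f =
        ∑ p : J, v p • (ExteriorAlgebra.ι F (Pi.single p (1 : F)) * fockΦ rk F f) := by
      conv_lhs => rw [hv]
      rw [map_sum, Finset.sum_mul]
      apply Finset.sum_congr rfl
      intro p _
      rw [map_smul, smul_mul_assoc]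
    rw [h1, map_sum]
    apply Finset.sum_congr rfl
    intro p _
    rw [map_smul, fockΦ_cr F hrk]

end fock

/-- The model is isomorphic to the exterior algebra. -/
theorem exists_fockEquiv (rk : J → ℕ) (hrk : Function.Injective rk) (F : Type) [Field F] :
    ∃ Φ : (Finset J → F) ≃ₗ[F] ExteriorAlgebra F (J → F),
      (∀ p f, Φ (fockCr rk F p f) = ExteriorAlgebra.ι F (Pi.single p (1 : F)) * Φ f) ∧
      (∀ p f, Φ (fockAn rk F p f) =
        CliffordAlgebra.contractLeft (Q := (0 : QuadraticForm F (J → F)))
          (LinearMap.proj p : (J → F) →ₗ[F] F) (Φ f)) ∧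
      (∀ f, ExteriorAlgebra.algebraMapInv (Φ f) = f ∅) :=
  ⟨LinearEquiv.ofBijective (fockΦ rk F) ⟨fockΦ_injective F hrk, fockΦ_surjective F hrk⟩,
    fun p f => fockΦ_cr F hrk p f, fun p f => fockΦ_an F hrk p f, fun f => fockΦ_inv F hrk f⟩

end Pool.Agent.Lib.MP_640417_ag.Frob
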