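import Pool.Agent.Lib.MP_640417_ag.Frob.Defs
import Pool.Agent.Lib.MP_640417_ag.Frob.Fock

/-!
# A positive definite operator on the exterior algebra
-/

namespace Pool.Agent.Lib.MP_640417_ag.Frob

open Module

section Model

variable {J : Type} [Fintype J] [DecidableEq J]

private theorem Pos_sg_erase (rk : J → ℕ) (p : J) (S : Finset J) :
    sg rk p (S.erase p) = sg rk p S := by
  unfold sg
  congr 2
  ext s
  simp only [Finset.mem_filter, Finset.mem_erase]
  constructor
  · rintro ⟨⟨-, h⟩, h'⟩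
    exact ⟨h, h'⟩
  · rintro ⟨h, h'⟩
    refine ⟨⟨?_, h⟩, h'⟩
    rintro rfl
    exact lt_irrefl _ h'

private theorem Pos_sg_insert (rk : J → ℕ) (p : J) (S : Finset J) (hp : p ∉ S) :
    sg rk p (insert p S) = sg rk p S := by
  have h := Pos_sg_erase rk p (insert p S)
  rw [Finset.erase_insert hp] at h
  exact h.symm

private theorem Pos_sg_sq (rk : J → ℕ) (p : J) (S : Finset J) : sg rk p S * sg rk p S = 1 := by
  unfold sg
  rw [← mul_pow]
  norm_num

private theorem Pos_crAn (rk : J → ℕ) (R : Type) [CommRing R] (p : J) (f : Finset J → R)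
    (S : Finset J) :
    fockCr rk R p (fockAn rk R p f) S = if p ∈ S then f S else 0 := by
  change (if p ∈ S then (sg rk p S : R) * (if p ∈ S.erase p then 0 else
    (sg rk p (S.erase p) : R) * f (insert p (S.erase p))) else 0) = _
  by_cases hp : p ∈ S
  · rw [if_pos hp, if_pos hp, if_neg (Finset.notMem_erase p S), Finset.insert_erase hp,
      Pos_sg_erase, ← mul_assoc, ← Int.cast_mul, Pos_sg_sq, Int.cast_one, one_mul]
  · rw [if_neg hp, if_neg hp]

/-- The adjunction. -/
private theorem Pos_adj (rk : J → ℕ) (p : J) (f g : Finset J → ℚ) :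
    ∑ S, fockCr rk ℚ p f S * g S = ∑ S, f S * fockAn rk ℚ p g S := by
  have h1 : ∑ S, fockCr rk ℚ p f S * g S =
      ∑ S ∈ Finset.univ.filter (fun S : Finset J => p ∈ S),
        (sg rk p S : ℚ) * f (S.erase p) * g S := by
    rw [Finset.sum_filter]
    refine Finset.sum_congr rfl fun S _ => ?_
    change (if p ∈ S then (sg rk p S : ℚ) * f (S.erase p) else 0) * g S = _
    split_ifs
    · rfl
    · ring
  have h2 : ∑ S, f S * fockAn rk ℚ p g S =
      ∑ S ∈ Finset.univ.filter (fun S : Finset J => p ∉ S),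
        (sg rk p S : ℚ) * f S * g (insert p S) := by
    rw [Finset.sum_filter]
    refine Finset.sum_congr rfl fun S _ => ?_
    change f S * (if p ∈ S then 0 else (sg rk p S : ℚ) * g (insert p S)) = _
    split_ifs
    · ring
    · ring
  rw [h1, h2]
  refine Finset.sum_bij' (fun S _ => S.erase p) (fun S _ => insert p S) ?_ ?_ ?_ ?_ ?_
  · intro S _
    simp
  · intro S _
    simp
  · intro S hS
    exact Finset.insert_erase (Finset.mem_filter.mp hS).2
  · intro S hS
    exact Finset.erase_insert (Finset.mem_filter.mp hS).2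
  · intro S hS
    rw [Pos_sg_erase, Finset.insert_erase (Finset.mem_filter.mp hS).2]

/-- Change of coefficients. -/
private theorem Pos_mapCr {F : Type} [Field F] [CharZero F] (rk : J → ℕ) (p : J)
    (l : F →ₗ[ℚ] ℚ) (f : Finset J → F) :
    (fun S => l (fockCr rk F p f S)) = fockCr rk ℚ p (fun S => l (f S)) := by
  funext S
  change l (if p ∈ S then (sg rk p S : F) * f (S.erase p) else 0) =
    if p ∈ S then (sg rk p S : ℚ) * l (f (S.erase p)) else 0
  split_ifs
  · rw [← zsmul_eq_mul, map_zsmul, zsmul_eq_mul]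
  · exact map_zero l

private theorem Pos_mapAn {F : Type} [Field F] [CharZero F] (rk : J → ℕ) (p : J)
    (l : F →ₗ[ℚ] ℚ) (f : Finset J → F) :
    (fun S => l (fockAn rk F p f S)) = fockAn rk ℚ p (fun S => l (f S)) := by
  funext S
  change l (if p ∈ S then 0 else (sg rk p S : F) * f (insert p S)) =
    if p ∈ S then 0 else (sg rk p S : ℚ) * l (f (insert p S))
  split_ifs
  · exact map_zero l
  · rw [← zsmul_eq_mul, map_zsmul, zsmul_eq_mul]

end Model

variable {I : Type} [Fintype I] [DecidableEq I] {F : Type} [Field F] [CharZero F] {n : ℕ}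

/-- The operators `EE` in the model. -/
private noncomputable def Pos_ee (rk : Fin n × I → ℕ) (R : Type) [CommRing R] (u v : I) :
    (Finset (Fin n × I) → R) →ₗ[R] (Finset (Fin n × I) → R) :=
  ∑ a : Fin n, fockCr rk R (a, u) ∘ₗ fockAn rk R (a, v)

private theorem Pos_ee_apply (rk : Fin n × I → ℕ) (R : Type) [CommRing R] (u v : I)
    (f : Finset (Fin n × I) → R) (S : Finset (Fin n × I)) :
    Pos_ee rk R u v f S = ∑ a : Fin n, fockCr rk R (a, u) (fockAn rk R (a, v) f) S := by
  unfold Pos_ee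
  rw [LinearMap.sum_apply, Finset.sum_apply]
  rfl

private theorem Pos_ee_apply' (rk : Fin n × I → ℕ) (R : Type) [CommRing R] (u v : I)
    (f : Finset (Fin n × I) → R) :
    Pos_ee rk R u v f = ∑ a : Fin n, fockCr rk R (a, u) (fockAn rk R (a, v) f) := by
  unfold Pos_ee
  rw [LinearMap.sum_apply]
  rfl

private theorem Pos_ee_map (rk : Fin n × I → ℕ) (u v : I) (l : F →ₗ[ℚ] ℚ)
    (f : Finset (Fin n × I) → F) :
    (fun S => l (Pos_ee rk F u v f S)) = Pos_ee rk ℚ u v (fun S => l (f S)) := by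
  funext S
  rw [Pos_ee_apply, Pos_ee_apply, map_sum]
  refine Finset.sum_congr rfl fun a _ => ?_
  have h1 := congrFun (Pos_mapCr rk (a, u) l (fockAn rk F (a, v) f)) S
  rw [Pos_mapAn] at h1
  exact h1

private theorem Pos_ee_adj (rk : Fin n × I → ℕ) (u v : I) (f g : Finset (Fin n × I) → ℚ) :
    ∑ S, Pos_ee rk ℚ u v f S * g S =
      ∑ a : Fin n, ∑ S, fockAn rk ℚ (a, v) f S * fockAn rk ℚ (a, u) g S := by
  simp only [Pos_ee_apply, Finset.sum_mul]
  rw [Finset.sum_comm]
  refine Finset.sum_congr rfl fun a _ => ?_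
  exact Pos_adj rk (a, u) _ g

private theorem Pos_ee_symm (rk : Fin n × I → ℕ) (u v : I) (f g : Finset (Fin n × I) → ℚ) :
    ∑ S, Pos_ee rk ℚ u v f S * g S = ∑ S, f S * Pos_ee rk ℚ v u g S := by
  have h : ∑ S, f S * Pos_ee rk ℚ v u g S = ∑ S, Pos_ee rk ℚ v u g S * f S :=
    Finset.sum_congr rfl fun S _ => mul_comm _ _
  rw [h, Pos_ee_adj, Pos_ee_adj]
  exact Finset.sum_congr rfl fun a _ => Finset.sum_congr rfl fun S _ => mul_comm _ _

private theorem Pos_ee_diag (rk : Fin n × I → ℕ) (R : Type) [CommRing R] (v : I)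
    (f : Finset (Fin n × I) → R) (S : Finset (Fin n × I)) :
    Pos_ee rk R v v f S =
      ((Finset.univ.filter (fun a : Fin n => (a, v) ∈ S)).card : R) * f S := by
  rw [Pos_ee_apply]
  simp only [Pos_crAn]
  rw [← Finset.sum_filter, Finset.sum_const, nsmul_eq_mul]

/-- The positivity over `ℚ`. -/
private theorem Pos_rat (rk : Fin n × I → ℕ) (R : Finset (I × I)) (hR : ∀ v : I, (v, v) ∈ R)
    (S : Finset I) (g : Finset (Fin n × I) → ℚ)
    (hg : ∑ p ∈ R, Pos_ee rk ℚ p.2 p.1 (Pos_ee rk ℚ p.1 p.2 g) + ∑ v ∈ S, Pos_ee rk ℚ v v g = 0)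
    (h0 : g ∅ = 0) : g = 0 := by
  have h1 : ∑ p ∈ R, (∑ T, Pos_ee rk ℚ p.1 p.2 g T * Pos_ee rk ℚ p.1 p.2 g T) +
      ∑ v ∈ S, (∑ a : Fin n, ∑ T, fockAn rk ℚ (a, v) g T * fockAn rk ℚ (a, v) g T) = 0 := by
    have h2 : ∑ T, (∑ p ∈ R, Pos_ee rk ℚ p.2 p.1 (Pos_ee rk ℚ p.1 p.2 g) +
        ∑ v ∈ S, Pos_ee rk ℚ v v g) T * g T = 0 := by
      rw [hg]
      simp
    simp only [Pi.add_apply, Finset.sum_apply, add_mul, Finset.sum_mul,
      Finset.sum_add_distrib] at h2
    rw [Finset.sum_comm] at h2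
    rw [Finset.sum_comm (s := Finset.univ) (t := S)] at h2
    rw [← h2]
    congr 1
    · refine Finset.sum_congr rfl fun p _ => ?_
      rw [Pos_ee_symm]
      exact Finset.sum_congr rfl fun T _ => mul_comm _ _
    · refine Finset.sum_congr rfl fun v _ => ?_
      rw [Pos_ee_adj]
  have hA : 0 ≤ ∑ v ∈ S, (∑ a : Fin n, ∑ T, fockAn rk ℚ (a, v) g T * fockAn rk ℚ (a, v) g T) :=
    Finset.sum_nonneg fun v _ => Finset.sum_nonneg fun a _ => Finset.sum_nonneg fun T _ =>
      mul_self_nonneg _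
  have hB : ∀ p ∈ R, 0 ≤ ∑ T, Pos_ee rk ℚ p.1 p.2 g T * Pos_ee rk ℚ p.1 p.2 g T :=
    fun p _ => Finset.sum_nonneg fun T _ => mul_self_nonneg _
  have hC : ∑ p ∈ R, (∑ T, Pos_ee rk ℚ p.1 p.2 g T * Pos_ee rk ℚ p.1 p.2 g T) = 0 :=
    le_antisymm (by linarith) (Finset.sum_nonneg hB)
  rw [Finset.sum_eq_zero_iff_of_nonneg hB] at hC
  have hD : ∀ v T, Pos_ee rk ℚ v v g T = 0 := by
    intro v T
    have h3 := hC (v, v) (hR v)
    rw [Finset.sum_eq_zero_iff_of_nonneg (fun T _ => mul_self_nonneg _)] at h3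
    exact mul_self_eq_zero.mp (h3 T (Finset.mem_univ T))
  funext T
  rcases T.eq_empty_or_nonempty with rfl | ⟨⟨a, v⟩, ha⟩
  · exact h0
  · have h4 := hD v T
    rw [Pos_ee_diag] at h4
    rcases mul_eq_zero.mp h4 with h5 | h5
    · exfalso
      have h6 : (Finset.univ.filter (fun a : Fin n => (a, v) ∈ T)).card = 0 := by
        exact_mod_cast h5
      rw [Finset.card_eq_zero] at h6
      have h7 : a ∈ Finset.univ.filter (fun a : Fin n => (a, v) ∈ T) :=
        Finset.mem_filter.mpr ⟨Finset.mem_univ a, ha⟩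
      rw [h6] at h7
      exact Finset.notMem_empty a h7
    · exact h5

/-- The operator `∑_{(u, v) ∈ R} E_{vu} E_{uv} + ∑_{v ∈ S} E_{vv}` is injective on elements with
zero constant term, if `R` contains the diagonal (over `ℚ` it is positive definite there, and it
has integral matrix entries in the monomial basis). -/
theorem pos (R : Finset (I × I)) (hR : ∀ v : I, (v, v) ∈ R) (S : Finset I) (x : Lam I F n)
    (hx : ∑ p ∈ R, EE F n p.2 p.1 (EE F n p.1 p.2 x) + ∑ v ∈ S, EE F n v v x = 0)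
    (h0 : ExteriorAlgebra.algebraMapInv x = 0) : x = 0 := by
  obtain ⟨rk, hrk⟩ : ∃ rk : Fin n × I → ℕ, Function.Injective rk :=
    ⟨fun p => (Fintype.equivFin (Fin n × I) p : ℕ),
      Fin.val_injective.comp (Fintype.equivFin (Fin n × I)).injective⟩
  obtain ⟨Φ, h1, h2, h3⟩ := exists_fockEquiv rk hrk F
  have hee : ∀ (u v : I) (f : Finset (Fin n × I) → F),
      EE F n u v (Φ f) = Φ (Pos_ee rk F u v f) := by
    intro u v f
    rw [Pos_ee_apply', map_sum]
    unfold EE
    rw [LinearMap.sum_apply]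
    refine Finset.sum_congr rfl fun a _ => ?_
    rw [h1, h2]
    rfl
  obtain ⟨f, rfl⟩ := Φ.surjective x
  rw [h3] at h0
  simp only [hee] at hx
  rw [← map_sum, ← map_sum, ← map_add, map_eq_zero_iff Φ Φ.injective] at hx
  have key : ∀ l : F →ₗ[ℚ] ℚ, (fun T => l (f T)) = 0 := by
    intro l
    refine Pos_rat rk R hR S _ ?_ ?_
    · funext T
      have h4 := congrArg l (congrFun hx T)
      simp only [Pi.add_apply, Finset.sum_apply, map_add, map_sum, Pi.zero_apply, map_zero] at h4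
      simp only [Pi.add_apply, Finset.sum_apply, Pi.zero_apply]
      rw [← h4]
      congr 1
      · refine Finset.sum_congr rfl fun p _ => ?_
        rw [← Pos_ee_map, ← Pos_ee_map]
      · refine Finset.sum_congr rfl fun v _ => ?_
        rw [← Pos_ee_map]
    · rw [h0, map_zero]
  have hf : f = 0 := by
    funext T
    by_contra hT
    have hT' : f T ≠ 0 := hT
    obtain ⟨l, hl⟩ : ∃ l : F →ₗ[ℚ] ℚ, l (f T) ≠ 0 := by
      by_contra hcon
      push Not at hcon
      exact hT' ((Module.forall_dual_apply_eq_zero_iff ℚ (f T)).mp hcon)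
    exact hl (congrFun (key l) T)
  rw [hf, map_zero]

end Pool.Agent.Lib.MP_640417_ag.Frob
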