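import Pool.Agent.Lib.MP_640417_ag.Frob.FftB
import Pool.Agent.Lib.MP_640417_ag.Frob.Pos

/-!
# The first fundamental theorem for exterior algebras
-/

namespace Pool.Agent.Lib.MP_640417_ag.Frob

open Module

variable {I : Type} [Fintype I] [DecidableEq I] {F : Type} [Field F] {n : ℕ}

omit [Fintype I] [DecidableEq I] in
private lemma Fft_inv_zero {m : ℕ} {y : Lam I F n} (hy : y ∈ ⋀[F]^(m + 1) (Fin n × I → F)) :
    ExteriorAlgebra.algebraMapInv y = 0 := by
  rw [ExteriorAlgebra.exteriorPower, pow_succ] at hy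
  refine Submodule.mul_induction_on hy ?_ ?_
  · rintro a _ _ ⟨f, rfl⟩
    rw [map_mul]
    have : ExteriorAlgebra.algebraMapInv (ExteriorAlgebra.ι F f) = 0 := by
      simp [ExteriorAlgebra.algebraMapInv]
    rw [this, mul_zero]
  · intro a b ha hb
    rw [map_add, ha, hb, add_zero]

/-- The Casimir operator as a linear map. -/
private noncomputable def Fft_K (F : Type) [Field F] (n : ℕ) (c : I → I) (r : I → I → Prop)
    [DecidableRel r] : Module.End F (Lam I F n) :=
  ∑ p ∈ Finset.univ.filter (fun p : I × I => r p.1 p.2), EE F n p.2 p.1 * EE F n p.1 p.2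
    + ∑ v ∈ Finset.univ.filter (fun v => r v (c v)), EE F n v v

private lemma Fft_K_apply (c : I → I) (r : I → I → Prop) [DecidableRel r] (x : Lam I F n) :
    Fft_K F n c r x = ∑ p ∈ Finset.univ.filter (fun p : I × I => r p.1 p.2),
        EE F n p.2 p.1 (EE F n p.1 p.2 x)
      + ∑ v ∈ Finset.univ.filter (fun v => r v (c v)), EE F n v v x := by
  rw [Fft_K, LinearMap.add_apply, LinearMap.sum_apply, LinearMap.sum_apply]
  rfl

/-- The invariants in degree `m`. -/
private noncomputable def Fft_Inv (F : Type) [Field F] (n : ℕ) (c : I → I) (w : I → F)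
    (r : I → I → Prop) (m : ℕ) : Submodule F (Lam I F n) where
  carrier := {y | y ∈ ⋀[F]^m (Fin n × I → F) ∧ ∀ u v, r u v → DD n (XX c w u v) y = 0}
  add_mem' := by
    rintro a b ⟨ha, ha'⟩ ⟨hb, hb'⟩
    refine ⟨Submodule.add_mem _ ha hb, fun u v h => ?_⟩
    rw [map_add, ha' u v h, hb' u v h, add_zero]
  zero_mem' := ⟨Submodule.zero_mem _, fun u v _ => map_zero _⟩
  smul_mem' := by
    rintro t a ⟨ha, ha'⟩
    refine ⟨Submodule.smul_mem _ t ha, fun u v h => ?_⟩
    rw [map_smul, ha' u v h, smul_zero]

/-- **First fundamental theorem.** Elements of the exterior algebra killed by all `X_{uv}` with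
`r u v` lie in the algebra generated by the invariant bivectors. -/
theorem fft [CharZero F] (c : I → I) (hc : ∀ v, c (c v) = v) (w : I → F) (hw : ∀ v, w v ≠ 0)
    (hwc : ∀ v, w (c v) = - w v) (r : I → I → Prop) [DecidableRel r] (hr : Equivalence r)
    (hrc : ∀ u v, r u v → r (c u) (c v)) (m : ℕ) (x : Lam I F n)
    (hx : x ∈ ⋀[F]^m (Fin n × I → F))
    (hinv : ∀ u v, r u v → DD n (XX c w u v) x = 0) :
    x ∈ Algebra.adjoin F {y : Lam I F n | ∃ v a b, y = zz c w r v a b} := by
  induction m using Nat.strong_induction_on generalizing x with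
  | _ m ih =>
  rcases m with _ | m
  · rw [ExteriorAlgebra.exteriorPower, pow_zero, Submodule.mem_one] at hx
    obtain ⟨t, rfl⟩ := hx
    exact Subalgebra.algebraMap_mem _ t
  · set Inv := Fft_Inv F n c w r (m + 1) with hInv
    have hle : Inv ≤ ⋀[F]^(m + 1) (Fin n × I → F) := fun y hy => hy.1
    have : FiniteDimensional F Inv := Submodule.finiteDimensional_of_le hle
    have hK : ∀ y ∈ Inv, Fft_K F n c r y ∈ Inv := by
      rintro y ⟨hy, hy'⟩
      refine ⟨?_, fun s t hst => ?_⟩
      · rw [Fft_K_apply]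
        exact Submodule.add_mem _
          (Submodule.sum_mem _ fun p _ => EE_mem _ _ _ (EE_mem _ _ _ hy))
          (Submodule.sum_mem _ fun v _ => EE_mem _ _ _ hy)
      · rw [Fft_K_apply]
        exact casimir_invariant c hc w r hr hrc y s t hst (hy' s t hst)
    set K : Inv →ₗ[F] Inv := (Fft_K F n c r).restrict hK with hKdef
    have hinj : Function.Injective K := by
      rw [← LinearMap.ker_eq_bot, LinearMap.ker_eq_bot']
      rintro ⟨y, hy⟩ h0
      have h1 : Fft_K F n c r y = 0 := by
        have := congrArg Subtype.val h0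
        simpa [hKdef] using this
      rw [Fft_K_apply] at h1
      have h2 : y = 0 := pos (Finset.univ.filter (fun p : I × I => r p.1 p.2))
        (fun v => by simp [hr.refl v]) _ y h1 (Fft_inv_zero hy.1)
      exact Subtype.ext h2
    have hsurj : Function.Surjective K := LinearMap.injective_iff_surjective.1 hinj
    obtain ⟨⟨y, hy⟩, hyx⟩ := hsurj ⟨x, hx, hinv⟩
    have hyx' : Fft_K F n c r y = x := by
      have := congrArg Subtype.val hyx
      simpa [hKdef] using this
    rw [← hyx', Fft_K_apply, fundamental c hc w hw hwc r hr hrc y hy.2]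
    refine Subalgebra.neg_mem _ (Subalgebra.sum_mem _ fun a _ => Subalgebra.sum_mem _ fun b _ => ?_)
    refine sum_zz c w r hr y a b _ (fun v => Algebra.subset_adjoin ⟨v, a, b, rfl⟩) (fun v => ?_)
    have hCC : CC F n c w r v a b y =
        ∑ u ∈ Finset.univ.filter (fun u => r v u), w u • an F (a, u) (an F (b, c u) y) := by
      rw [CC, LinearMap.sum_apply]
      rfl
    rcases m with _ | m
    · have : CC F n c w r v a b y = 0 := by
        rw [hCC]
        refine Finset.sum_eq_zero fun u _ => ?_
        rw [an_mem_zero (a, u) (an_mem (b, c u) 0 hy.1), smul_zero]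
      rw [this]
      exact Subalgebra.zero_mem _
    · refine ih m (by omega) _ ?_ (fun s t hst => CC_invariant c hc w hw hwc r hr hrc y hy.2 v a b
        s t hst)
      rw [hCC]
      exact Submodule.sum_mem _ fun u _ => Submodule.smul_mem _ _ (an_mem _ _ (an_mem _ _ hy.1))

end Pool.Agent.Lib.MP_640417_ag.Frob
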