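import Pool.Agent.Lib.MP_640417_ag.Frob.CarB

/-!
# The fundamental identity
-/

namespace Pool.Agent.Lib.MP_640417_ag.Frob

open Module

variable {I : Type} [Fintype I] [DecidableEq I] {F : Type} [Field F] {n : ℕ}

/-- The lowering operators attached to an equivalence class. -/
noncomputable def CC (F : Type) [Field F] (n : ℕ) (c : I → I) (w : I → F) (r : I → I → Prop)
    [DecidableRel r] (v : I) (a b : Fin n) : Module.End F (Lam I F n) :=
  ∑ u ∈ Finset.univ.filter (fun u => r v u), w u • (an F (a, u) * an F (b, c u))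

omit [Fintype I] in
/-- The product of the two matrix units after the first step. -/
private lemma fftA_EE_EE (u v s t : I) (x : Lam I F n) :
    EE F n v u (EE F n s t x) = (if u = s then EE F n v t x else 0)
      - ∑ a : Fin n, ∑ b : Fin n, cr F (a, v) (cr F (b, s) (an F (a, u) (an F (b, t) x))) := by
  rw [EE_apply v u]
  have h1 : ∀ a : Fin n, cr F (a, v) (an F (a, u) (EE F n s t x))
      = (if u = s then cr F (a, v) (an F (a, t) x) else 0)
        - ∑ b : Fin n, cr F (a, v) (cr F (b, s) (an F (a, u) (an F (b, t) x))) := by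
    intro a
    rw [EE_apply s t, map_sum, map_sum]
    have h2 : ∀ b : Fin n, cr F (a, v) (an F (a, u) (cr F (b, s) (an F (b, t) x)))
        = (if a = b then (if u = s then cr F (a, v) (an F (a, t) x) else 0) else 0)
          - cr F (a, v) (cr F (b, s) (an F (a, u) (an F (b, t) x))) := by
      intro b
      rw [an_cr, map_sub]
      congr 1
      by_cases hab : a = b
      · subst hab
        by_cases hus : u = s
        · simp [hus]
        · simp [hus]
      · simp [hab]
    rw [Finset.sum_congr rfl fun b _ => h2 b, Finset.sum_sub_distrib]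
    congr 1
    simp
  rw [Finset.sum_congr rfl fun a _ => h1 a, Finset.sum_sub_distrib]
  congr 1
  by_cases hus : u = s
  · simp only [hus, if_true]
    rw [EE_apply]
  · simp [hus]

/-- The fundamental identity. The right hand side runs over all `v`, with the factor
`(size of the class)⁻¹`; equivalently the sum over `v` and `u` with `r v u`. -/
theorem fundamental (c : I → I) (hc : ∀ v, c (c v) = v) (w : I → F) (hw : ∀ v, w v ≠ 0)
    (hwc : ∀ v, w (c v) = - w v) (r : I → I → Prop) [DecidableRel r] (hr : Equivalence r)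
    (hrc : ∀ u v, r u v → r (c u) (c v)) (x : Lam I F n)
    (hinv : ∀ u v, r u v → DD n (XX c w u v) x = 0) :
    ∑ p ∈ Finset.univ.filter (fun p : I × I => r p.1 p.2),
        EE F n p.2 p.1 (EE F n p.1 p.2 x)
      + ∑ v ∈ Finset.univ.filter (fun v => r v (c v)), EE F n v v x
      = - ∑ a : Fin n, ∑ b : Fin n, ∑ v : I, (w v)⁻¹ • (ev F (a, v) * ev F (b, c v) *
          CC F n c w r v a b x) := by
  -- the basic relation
  have hE : ∀ u v, r u v → EE F n u v x = ((w v)⁻¹ * w u) • EE F n (c v) (c u) x := by
    intro u v huv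
    have h := hinv u v huv
    have hDD : DD n (XX c w u v) x = w v • EE F n u v x - w u • EE F n (c v) (c u) x := by
      unfold XX
      rw [sub_eq_add_neg, ← neg_smul, DD_add, DD_smul, DD_smul, DD_single, DD_single, one_smul,
        one_smul, LinearMap.add_apply, LinearMap.smul_apply, LinearMap.smul_apply, neg_smul,
        ← sub_eq_add_neg]
    rw [hDD, sub_eq_zero] at h
    rw [mul_smul, ← h, smul_smul, inv_mul_cancel₀ (hw v), one_smul]
  -- the terms
  have hterm : ∀ u v, r u v → EE F n v u (EE F n u v x)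
      = (if u = c v then - EE F n v v x else 0)
        - ∑ a : Fin n, ∑ b : Fin n, ((w v)⁻¹ * w u) •
          cr F (a, v) (cr F (b, c v) (an F (a, u) (an F (b, c u) x))) := by
    intro u v huv
    rw [hE u v huv, map_smul, fftA_EE_EE, smul_sub, Finset.smul_sum]
    congr 1
    · by_cases huc : u = c v
      · subst huc
        rw [if_pos rfl, if_pos rfl, hc, hwc, mul_neg, inv_mul_cancel₀ (hw v), neg_smul, one_smul]
      · rw [if_neg huc, if_neg huc, smul_zero]
    · refine Finset.sum_congr rfl fun a _ => ?_
      rw [Finset.smul_sum]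
  have hL1 : ∑ p ∈ Finset.univ.filter (fun p : I × I => r p.1 p.2),
        EE F n p.2 p.1 (EE F n p.1 p.2 x)
      = ∑ v : I, ∑ u : I, if r u v then (if u = c v then - EE F n v v x else 0)
        - ∑ a : Fin n, ∑ b : Fin n, ((w v)⁻¹ * w u) •
          cr F (a, v) (cr F (b, c v) (an F (a, u) (an F (b, c u) x))) else 0 := by
    rw [Finset.sum_filter, Fintype.sum_prod_type, Finset.sum_comm]
    refine Finset.sum_congr rfl fun v _ => Finset.sum_congr rfl fun u _ => ?_
    by_cases h : r u v
    · simp only [h, if_true]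
      exact hterm u v h
    · simp only [h, if_false]
  have hL2 : ∀ v : I, (∑ u : I, if r u v then (if u = c v then - EE F n v v x else 0)
        - ∑ a : Fin n, ∑ b : Fin n, ((w v)⁻¹ * w u) •
          cr F (a, v) (cr F (b, c v) (an F (a, u) (an F (b, c u) x))) else 0)
      = (if r v (c v) then - EE F n v v x else 0)
        - ∑ u : I, if r u v then ∑ a : Fin n, ∑ b : Fin n, ((w v)⁻¹ * w u) •
          cr F (a, v) (cr F (b, c v) (an F (a, u) (an F (b, c u) x))) else 0 := by
    intro v
    have h1 : ∀ u : I, (if r u v then (if u = c v then - EE F n v v x else 0)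
        - ∑ a : Fin n, ∑ b : Fin n, ((w v)⁻¹ * w u) •
          cr F (a, v) (cr F (b, c v) (an F (a, u) (an F (b, c u) x))) else 0)
        = (if u = c v then (if r v (c v) then - EE F n v v x else 0) else 0)
          - (if r u v then ∑ a : Fin n, ∑ b : Fin n, ((w v)⁻¹ * w u) •
          cr F (a, v) (cr F (b, c v) (an F (a, u) (an F (b, c u) x))) else 0) := by
      intro u
      by_cases h : r u v
      · rw [if_pos h, if_pos h]
        congr 1
        by_cases h2 : u = c v
        · rw [if_pos h2, if_pos h2, if_pos (hr.symm (h2 ▸ h))]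
        · rw [if_neg h2, if_neg h2]
      · rw [if_neg h, if_neg h, sub_zero]
        by_cases h2 : u = c v
        · rw [if_pos h2, if_neg fun h3 => h (hr.symm (h2 ▸ h3))]
        · rw [if_neg h2]
    rw [Finset.sum_congr rfl fun u _ => h1 u, Finset.sum_sub_distrib, Finset.sum_ite_eq' ,
      if_pos (Finset.mem_univ _)]
  have hR : ∀ (a b : Fin n) (v : I), (w v)⁻¹ • (ev F (a, v) * ev F (b, c v) *
          CC F n c w r v a b x) = ∑ u : I, if r u v then ((w v)⁻¹ * w u) •
          cr F (a, v) (cr F (b, c v) (an F (a, u) (an F (b, c u) x))) else 0 := by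
    intro a b v
    rw [mul_assoc, ← cr_apply (b, c v), ← cr_apply (a, v)]
    unfold CC
    rw [LinearMap.sum_apply, map_sum, map_sum, Finset.smul_sum, Finset.sum_filter]
    refine Finset.sum_congr rfl fun u _ => ?_
    by_cases h : r v u
    · rw [if_pos h, if_pos (hr.symm h), LinearMap.smul_apply, map_smul, map_smul, smul_smul]
      rfl
    · rw [if_neg h, if_neg fun h2 => h (hr.symm h2)]
  rw [hL1, Finset.sum_congr rfl fun v _ => hL2 v, Finset.sum_sub_distrib, Finset.sum_filter]
  have h0 : (∑ v : I, if r v (c v) then - EE F n v v x else 0)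
      = - ∑ v : I, if r v (c v) then EE F n v v x else 0 := by
    rw [← Finset.sum_neg_distrib]
    refine Finset.sum_congr rfl fun v _ => ?_
    by_cases h : r v (c v)
    · rw [if_pos h, if_pos h]
    · rw [if_neg h, if_neg h, neg_zero]
  have h3 : (∑ a : Fin n, ∑ b : Fin n, ∑ v : I, (w v)⁻¹ • (ev F (a, v) * ev F (b, c v) *
          CC F n c w r v a b x))
      = ∑ v : I, ∑ u : I, if r u v then ∑ a : Fin n, ∑ b : Fin n, ((w v)⁻¹ * w u) •
          cr F (a, v) (cr F (b, c v) (an F (a, u) (an F (b, c u) x))) else 0 := by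
    have h4 : ∀ v u : I, (if r u v then ∑ a : Fin n, ∑ b : Fin n, ((w v)⁻¹ * w u) •
          cr F (a, v) (cr F (b, c v) (an F (a, u) (an F (b, c u) x))) else 0)
        = ∑ a : Fin n, ∑ b : Fin n, if r u v then ((w v)⁻¹ * w u) •
          cr F (a, v) (cr F (b, c v) (an F (a, u) (an F (b, c u) x))) else 0 := by
      intro v u
      by_cases h : r u v
      · simp only [h, if_true]
      · simp only [h, if_false, Finset.sum_const_zero]
    simp only [h4, hR]
    calc (∑ a : Fin n, ∑ b : Fin n, ∑ v : I, ∑ u : I, if r u v then ((w v)⁻¹ * w u) •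
          cr F (a, v) (cr F (b, c v) (an F (a, u) (an F (b, c u) x))) else 0)
        = ∑ a : Fin n, ∑ v : I, ∑ b : Fin n, ∑ u : I, if r u v then ((w v)⁻¹ * w u) •
          cr F (a, v) (cr F (b, c v) (an F (a, u) (an F (b, c u) x))) else 0 :=
          Finset.sum_congr rfl fun a _ => Finset.sum_comm
      _ = ∑ v : I, ∑ a : Fin n, ∑ b : Fin n, ∑ u : I, if r u v then ((w v)⁻¹ * w u) •
          cr F (a, v) (cr F (b, c v) (an F (a, u) (an F (b, c u) x))) else 0 := Finset.sum_comm
      _ = ∑ v : I, ∑ a : Fin n, ∑ u : I, ∑ b : Fin n, if r u v then ((w v)⁻¹ * w u) •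
          cr F (a, v) (cr F (b, c v) (an F (a, u) (an F (b, c u) x))) else 0 :=
          Finset.sum_congr rfl fun v _ => Finset.sum_congr rfl fun a _ => Finset.sum_comm
      _ = ∑ v : I, ∑ u : I, ∑ a : Fin n, ∑ b : Fin n, if r u v then ((w v)⁻¹ * w u) •
          cr F (a, v) (cr F (b, c v) (an F (a, u) (an F (b, c u) x))) else 0 :=
          Finset.sum_congr rfl fun v _ => Finset.sum_comm
  rw [h0, h3]
  abel

/-- The sum in the fundamental identity in terms of the invariant bivectors. -/
theorem sum_zz (c : I → I) (w : I → F) (r : I → I → Prop) [DecidableRel r]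
    (hr : Equivalence r) (x : Lam I F n) (a b : Fin n)
    (A : Subalgebra F (Lam I F n)) (hA : ∀ v, zz c w r v a b ∈ A)
    (hC : ∀ v, CC F n c w r v a b x ∈ A) :
    ∑ v : I, (w v)⁻¹ • (ev F (a, v) * ev F (b, c v) * CC F n c w r v a b x) ∈ A := by
  classical
  let s : Setoid I := ⟨r, hr⟩
  have hCC : ∀ v v', r v v' → CC F n c w r v a b = CC F n c w r v' a b := by
    intro v v' h
    unfold CC
    congr 1
    ext u
    simp only [Finset.mem_filter, Finset.mem_univ, true_and]
    exact ⟨fun h1 => hr.trans (hr.symm h) h1, fun h1 => hr.trans h h1⟩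
  have hfib := Finset.sum_fiberwise (s := (Finset.univ : Finset I))
    (g := fun v => (Quotient.mk s v : Quotient s))
    (f := fun v => (w v)⁻¹ • (ev F (a, v) * ev F (b, c v) * CC F n c w r v a b x))
  rw [← hfib]
  refine Subalgebra.sum_mem _ fun q _ => ?_
  obtain ⟨v0, rfl⟩ := Quotient.exists_rep q
  have hset : (Finset.univ.filter fun v => (Quotient.mk s v : Quotient s) = Quotient.mk s v0)
      = Finset.univ.filter fun v => r v0 v := by
    ext v
    simp only [Finset.mem_filter, Finset.mem_univ, true_and]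
    rw [Quotient.eq]
    exact ⟨fun h => hr.symm h, fun h => hr.symm h⟩
  rw [hset]
  have hsum : ∑ v ∈ Finset.univ.filter (fun v => r v0 v),
      (w v)⁻¹ • (ev F (a, v) * ev F (b, c v) * CC F n c w r v a b x)
      = zz c w r v0 a b * CC F n c w r v0 a b x := by
    unfold zz
    rw [Finset.sum_mul]
    refine Finset.sum_congr rfl fun v hv => ?_
    rw [Finset.mem_filter] at hv
    rw [smul_mul_assoc, hCC v0 v hv.2]
  rw [hsum]
  exact A.mul_mem (hA v0) (hC v0)

end Pool.Agent.Lib.MP_640417_ag.Frob
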