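import Pool.Agent.Lib.MP_640417_ag.Frob.FftA

/-!
# Invariance of the lowering operators and of the Casimir operator
-/

namespace Pool.Agent.Lib.MP_640417_ag.Frob

open Module

variable {I : Type} [Fintype I] [DecidableEq I] {F : Type} [Field F] {n : ℕ}

private lemma DD_XX (c : I → I) (w : I → F) (s t : I) (x : Lam I F n) :
    DD n (XX c w s t) x = w t • EE F n s t x - w s • EE F n (c t) (c s) x := by
  have h : XX c w s t = w t • Matrix.single s t (1 : F)
      + (-(w s)) • Matrix.single (c t) (c s) (1 : F) := by
    rw [XX, neg_smul, sub_eq_add_neg]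
  rw [h, DD_add, DD_smul, DD_smul, DD_single, DD_single]
  simp [sub_eq_add_neg]

omit [Fintype I] in
private lemma EE_an_an (s t u u' : I) (a b : Fin n) (x : Lam I F n) :
    EE F n s t (an F (a, u) (an F (b, u') x)) = an F (a, u) (an F (b, u') (EE F n s t x))
      - (if s = u then an F (a, t) (an F (b, u') x) else 0)
      - (if s = u' then an F (a, u) (an F (b, t) x) else 0) := by
  rw [EE_an, EE_an, map_sub]
  have e : an F (a, u) (if s = u' then an F (b, t) x else 0)
      = if s = u' then an F (a, u) (an F (b, t) x) else 0 := by
    split_ifs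
    · rfl
    · exact map_zero _
  rw [e]
  abel

omit [DecidableEq I] in
private lemma CC_apply (c : I → I) (w : I → F) (r : I → I → Prop) [DecidableRel r] (v : I)
    (a b : Fin n) (x : Lam I F n) :
    CC F n c w r v a b x = ∑ u, if r v u then w u • an F (a, u) (an F (b, c u) x) else 0 := by
  rw [CC, LinearMap.sum_apply, Finset.sum_filter]
  simp

private lemma EE_CC (c : I → I) (hc : ∀ v, c (c v) = v) (w : I → F)
    (r : I → I → Prop) [DecidableRel r] (x : Lam I F n) (v : I) (a b : Fin n) (s t : I) :
    EE F n s t (CC F n c w r v a b x) = CC F n c w r v a b (EE F n s t x)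
      - (if r v s then w s • an F (a, t) (an F (b, c s) x) else 0)
      - (if r v (c s) then w (c s) • an F (a, c s) (an F (b, t) x) else 0) := by
  rw [CC_apply, CC_apply, map_sum]
  have h1 : (∑ u, if s = u then (if r v u then w u • an F (a, t) (an F (b, c u) x) else 0) else 0)
      = (if r v s then w s • an F (a, t) (an F (b, c s) x) else 0) := by
    rw [Finset.sum_ite_eq]; simp
  have h2 : (∑ u, if c s = u then (if r v u then w u • an F (a, u) (an F (b, t) x) else 0) else 0)
      = (if r v (c s) then w (c s) • an F (a, c s) (an F (b, t) x) else 0) := by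
    rw [Finset.sum_ite_eq]; simp
  rw [← h1, ← h2, ← Finset.sum_sub_distrib, ← Finset.sum_sub_distrib]
  apply Finset.sum_congr rfl
  intro u _
  have h3 : (s = c u) ↔ (c s = u) := by
    constructor
    · intro h; rw [h, hc]
    · intro h; rw [← h, hc]
  by_cases hu : r v u
  · simp only [hu, if_true]
    rw [map_smul, EE_an_an, smul_sub, smul_sub]
    simp only [h3, smul_ite, smul_zero]
  · simp [hu]

/-- The lowering operators commute with the Lie algebra. -/
theorem CC_invariant (c : I → I) (hc : ∀ v, c (c v) = v) (w : I → F) (hw : ∀ v, w v ≠ 0)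
    (hwc : ∀ v, w (c v) = - w v) (r : I → I → Prop) [DecidableRel r] (hr : Equivalence r)
    (hrc : ∀ u v, r u v → r (c u) (c v)) (x : Lam I F n)
    (hinv : ∀ u v, r u v → DD n (XX c w u v) x = 0) (v : I) (a b : Fin n) (s t : I)
    (hst : r s t) : DD n (XX c w s t) (CC F n c w r v a b x) = 0 := by
  have h0 := congrArg (CC F n c w r v a b) (hinv s t hst)
  rw [DD_XX, map_sub, map_smul, map_smul, map_zero] at h0
  rw [DD_XX, EE_CC c hc w r x v a b s t, EE_CC c hc w r x v a b (c t) (c s), hc, hwc]
  have h1 : r v s ↔ r v t := ⟨fun h => hr.trans h hst, fun h => hr.trans h (hr.symm hst)⟩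
  have h2 : r v (c s) ↔ r v (c t) :=
    ⟨fun h => hr.trans h (hrc _ _ hst), fun h => hr.trans h (hrc _ _ (hr.symm hst))⟩
  simp only [h1, h2, hwc]
  have h3 : w t • CC F n c w r v a b (EE F n s t x)
      = w s • CC F n c w r v a b (EE F n (c t) (c s) x) := sub_eq_zero.mp h0
  simp only [smul_sub, h3]
  by_cases h4 : r v t <;> by_cases h5 : r v (c t) <;>
    simp only [h4, h5, if_true, if_false, smul_zero, smul_smul, neg_smul, smul_neg,
      mul_comm (w s) (w t)] <;> abel

omit [Fintype I] in
private lemma EE_EE' (s t u v : I) (x : Lam I F n) :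
    EE F n s t (EE F n u v x) = EE F n u v (EE F n s t x)
      + (if t = u then EE F n s v x else 0) - (if s = v then EE F n u t x else 0) := by
  have h := EE_EE s t u v x
  rw [sub_eq_iff_eq_add] at h
  rw [h]; abel

private lemma EE_casimir (c : I → I)
    (r : I → I → Prop) [DecidableRel r] (hr : Equivalence r)
    (hrc : ∀ u v, r u v → r (c u) (c v)) (x : Lam I F n)
    (s t : I) (hst : r s t) :
    EE F n s t (∑ p ∈ Finset.univ.filter (fun p : I × I => r p.1 p.2),
        EE F n p.2 p.1 (EE F n p.1 p.2 x)
      + ∑ v ∈ Finset.univ.filter (fun v => r v (c v)), EE F n v v x)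
    = ∑ p ∈ Finset.univ.filter (fun p : I × I => r p.1 p.2),
        EE F n p.2 p.1 (EE F n p.1 p.2 (EE F n s t x))
      + ∑ v ∈ Finset.univ.filter (fun v => r v (c v)), EE F n v v (EE F n s t x) := by
  rw [map_add, map_sum, map_sum]
  congr 1
  · rw [Finset.sum_filter, Finset.sum_filter, Fintype.sum_prod_type, Fintype.sum_prod_type]
    have key : ∀ u v : I, (if r u v then EE F n s t (EE F n v u (EE F n u v x)) else 0)
        = (if r u v then EE F n v u (EE F n u v (EE F n s t x)) else 0)
          + (if t = u then (if r u v then EE F n v t (EE F n s v x) else 0) else 0)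
          - (if s = v then (if r u v then EE F n s u (EE F n u t x) else 0) else 0)
          + (if t = v then (if r u v then EE F n s u (EE F n u t x) else 0) else 0)
          - (if s = u then (if r u v then EE F n v t (EE F n s v x) else 0) else 0) := by
      intro u v
      by_cases h : r u v
      · simp only [h, if_true]
        rw [EE_EE' s t v u, EE_EE' s t u v, map_sub, map_add]
        have e1 : EE F n v u (if t = u then EE F n s v x else 0)
            = if t = u then EE F n v t (EE F n s v x) else 0 := by
          split_ifs with h'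
          · rw [h']
          · exact map_zero _
        have e2 : EE F n v u (if s = v then EE F n u t x else 0)
            = if s = v then EE F n s u (EE F n u t x) else 0 := by
          split_ifs with h'
          · rw [h']
          · exact map_zero _
        have e3 : (if t = v then EE F n s u (EE F n u v x) else 0)
            = if t = v then EE F n s u (EE F n u t x) else 0 := by
          split_ifs with h'
          · rw [h']
          · rfl
        have e4 : (if s = u then EE F n v t (EE F n u v x) else 0)
            = if s = u then EE F n v t (EE F n s v x) else 0 := by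
          split_ifs with h'
          · rw [h']
          · rfl
        rw [e1, e2, e3, e4]
      · simp [h]
    simp only [key, Finset.sum_add_distrib, Finset.sum_sub_distrib]
    have s1 : (∑ u, ∑ v, if t = u then (if r u v then EE F n v t (EE F n s v x) else 0) else 0)
        = ∑ v, if r t v then EE F n v t (EE F n s v x) else 0 := by
      rw [Finset.sum_comm]
      exact Finset.sum_congr rfl fun v _ => by rw [Finset.sum_ite_eq]; simp
    have s4 : (∑ u, ∑ v, if s = u then (if r u v then EE F n v t (EE F n s v x) else 0) else 0)
        = ∑ v, if r s v then EE F n v t (EE F n s v x) else 0 := by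
      rw [Finset.sum_comm]
      exact Finset.sum_congr rfl fun v _ => by rw [Finset.sum_ite_eq]; simp
    have s2 : (∑ u, ∑ v, if s = v then (if r u v then EE F n s u (EE F n u t x) else 0) else 0)
        = ∑ u, if r u s then EE F n s u (EE F n u t x) else 0 :=
      Finset.sum_congr rfl fun v _ => by rw [Finset.sum_ite_eq]; simp
    have s3 : (∑ u, ∑ v, if t = v then (if r u v then EE F n s u (EE F n u t x) else 0) else 0)
        = ∑ u, if r u t then EE F n s u (EE F n u t x) else 0 :=
      Finset.sum_congr rfl fun v _ => by rw [Finset.sum_ite_eq]; simp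
    rw [s1, s2, s3, s4]
    have i1 : ∀ v, r t v ↔ r s v :=
      fun v => ⟨fun h => hr.trans hst h, fun h => hr.trans (hr.symm hst) h⟩
    have i2 : ∀ u, r u t ↔ r u s :=
      fun v => ⟨fun h => hr.trans h (hr.symm hst), fun h => hr.trans h hst⟩
    simp only [i1, i2]
    abel
  · rw [Finset.sum_filter, Finset.sum_filter]
    have key : ∀ v : I, (if r v (c v) then EE F n s t (EE F n v v x) else 0)
        = (if r v (c v) then EE F n v v (EE F n s t x) else 0)
          + (if t = v then (if r v (c v) then EE F n s t x else 0) else 0)
          - (if s = v then (if r v (c v) then EE F n s t x else 0) else 0) := by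
      intro v
      by_cases h : r v (c v)
      · simp only [h, if_true]
        rw [EE_EE' s t v v]
        have e3 : (if t = v then EE F n s v x else 0) = if t = v then EE F n s t x else 0 := by
          split_ifs with h'
          · rw [h']
          · rfl
        have e4 : (if s = v then EE F n v t x else 0) = if s = v then EE F n s t x else 0 := by
          split_ifs with h'
          · rw [h']
          · rfl
        rw [e3, e4]
      · simp [h]
    simp only [key, Finset.sum_add_distrib, Finset.sum_sub_distrib, Finset.sum_ite_eq,
      Finset.mem_univ, if_true]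
    have i1 : r t (c t) ↔ r s (c s) :=
      ⟨fun h => hr.trans hst (hr.trans h (hrc _ _ (hr.symm hst))),
        fun h => hr.trans (hr.symm hst) (hr.trans h (hrc _ _ hst))⟩
    simp only [i1]
    abel

/-- The operator of the fundamental identity commutes with the Lie algebra. -/
theorem casimir_invariant (c : I → I) (hc : ∀ v, c (c v) = v) (w : I → F)
    (r : I → I → Prop) [DecidableRel r] (hr : Equivalence r)
    (hrc : ∀ u v, r u v → r (c u) (c v)) (x : Lam I F n)
    (s t : I) (hst : r s t) (hinv : DD n (XX c w s t) x = 0) :
    DD n (XX c w s t) (∑ p ∈ Finset.univ.filter (fun p : I × I => r p.1 p.2),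
        EE F n p.2 p.1 (EE F n p.1 p.2 x)
      + ∑ v ∈ Finset.univ.filter (fun v => r v (c v)), EE F n v v x) = 0 := by
  rw [DD_XX, EE_casimir c r hr hrc x s t hst,
    EE_casimir c r hr hrc x (c t) (c s) (hrc _ _ (hr.symm hst))]
  rw [DD_XX] at hinv
  have h3 : w t • EE F n s t x = w s • EE F n (c t) (c s) x := sub_eq_zero.mp hinv
  rw [smul_add, smul_add, Finset.smul_sum, Finset.smul_sum, Finset.smul_sum, Finset.smul_sum]
  simp only [← map_smul, h3, sub_self]

end Pool.Agent.Lib.MP_640417_ag.Frob
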