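import Pool.Agent.Lib.MP_640417_ag.TwoAdic

/-!
# Parity of the elements of a group acting on the odd part of orthogonal relations
-/

namespace Pool.Agent.Lib.MP_640417_ag.Frob

open Pool.Agent.Lib.MP_640417_ag

section irrA

variable {X : Type} [Fintype X] [DecidableEq X]

/-- If two odd functions `u`, `e` are orthogonal, also after a translation by `π`, the odd support
of `u` is contained in the one of `e` and both are stable under `π`, then `π` is even on the odd
support of `u`. -/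
lemma parity_even (c : X → X) (hc : ∀ s, c (c s) = s) (hne : ∀ s, c s ≠ s)
    (π : Equiv.Perm X) (hπc : ∀ s, π (c s) = c (π s))
    (u e : X → ℤ) (huc : ∀ s, u (c s) = - u s) (hec : ∀ s, e (c s) = - e s)
    (h0 : ∑ s, u s * e s = 0) (h1 : ∑ s, u s * e (π s) = 0)
    (heπ : ∀ s, Odd (e (π s)) ↔ Odd (e s)) (hue : ∀ s, Odd (u s) → Odd (e s))
    (Y : Finset X) (hYmem : ∀ s, s ∈ Y ↔ Odd (u s)) (hYπ : ∀ s, π s ∈ Y ↔ s ∈ Y) :
    Equiv.Perm.sign (π.subtypePerm (p := fun s => s ∈ Y) hYπ) = 1 := by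
  classical
  obtain ⟨T, hT⟩ := exists_transversal c hc hne
  have hYc : ∀ s ∈ Y, c s ∈ Y := by
    intro s hs
    rw [hYmem] at hs ⊢
    rw [huc]
    exact hs.neg
  have hhalf : ∀ f : X → ℤ, (∀ s, f (c s) = f s) → ∑ s, f s = 2 * ∑ s ∈ T, f s := by
    intro f hf
    have h1 : ∑ s, f s = ∑ s ∈ T, f s + ∑ s ∈ Tᶜ, f s := (Finset.sum_add_sum_compl T f).symm
    have h2 : ∑ s ∈ Tᶜ, f s = ∑ s ∈ T, f s := by
      symm
      apply Finset.sum_bij (fun s _ => c s)
      · intro s hs
        rw [Finset.mem_compl]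
        exact (hT s).mp hs
      · intro a _ b _ hab
        rw [← hc a, hab, hc]
      · intro b hb
        rw [Finset.mem_compl] at hb
        refine ⟨c b, ?_, hc b⟩
        by_contra h
        exact hb ((hT b).mpr h)
      · intro s _
        exact (hf s).symm
    rw [h1, h2]; ring
  have hhalf0 : ∀ δ : Equiv.Perm X, (∀ s, δ (c s) = c (δ s)) → ∑ s, u s * e (δ s) = 0 →
      ∑ s ∈ T, u s * e (δ s) = 0 := by
    intro δ hδ hs
    have h1 := hhalf (fun s => u s * e (δ s)) (by
      intro s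
      rw [huc, hδ, hec]; ring)
    rw [hs] at h1
    omega
  let ε : X → ℤˣ := fun s => chi4 (e s)
  let TY : Finset X := T.filter (fun s => s ∈ Y)
  have hconst : ∀ δ : Equiv.Perm X, (∀ s, δ (c s) = c (δ s)) → (∑ s, u s * e (δ s) = 0) →
      (∀ s, Odd (e (δ s)) ↔ Odd (e s)) → ∃ k : ℤ,
      ((∏ s ∈ TY, chi4 (u s) * ε (δ s) : ℤˣ) : ℤ)
      = 1 - TY.card - ∑ s ∈ (T.filter (fun s => s ∉ Y)).filter (fun s => Odd (e s)), u s
        + 4 * k := by
    intro δ hδc hδ0 hδo
    have hodd1 : ∀ s ∈ TY, Odd (u s * e (δ s)) := by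
      intro s hs
      have h5 : s ∈ Y := (Finset.mem_filter.mp hs).2
      have h6 := (hYmem s).mp h5
      exact h6.mul ((hδo s).2 (hue s h6))
    obtain ⟨k, hk⟩ := sum_odd_mod4 TY (fun s => u s * e (δ s)) hodd1
    have h1 : ∏ s ∈ TY, chi4 (u s * e (δ s)) = ∏ s ∈ TY, chi4 (u s) * ε (δ s) := by
      apply Finset.prod_congr rfl
      intro s hs
      have h5 : s ∈ Y := (Finset.mem_filter.mp hs).2
      have h6 := (hYmem s).mp h5
      exact chi4_mul h6 ((hδo s).2 (hue s h6))
    rw [h1] at hk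
    have h2 : ∑ s ∈ TY, u s * e (δ s) + ∑ s ∈ T.filter (fun s => s ∉ Y), u s * e (δ s)
        = 0 := by
      rw [← hhalf0 δ hδc hδ0]
      exact Finset.sum_filter_add_sum_filter_not T (fun s => s ∈ Y) (fun s => u s * e (δ s))
    have h3 : ∃ l : ℤ, ∑ s ∈ T.filter (fun s => s ∉ Y), u s * e (δ s)
        = ∑ s ∈ (T.filter (fun s => s ∉ Y)).filter (fun s => Odd (e s)), u s + 4 * l := by
      have h4 : ∀ s ∈ T.filter (fun s => s ∉ Y), ∃ l : ℤ,
          u s * e (δ s) = (if Odd (e s) then u s else 0) + 4 * l := by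
        intro s hs
        have h5 : s ∉ Y := (Finset.mem_filter.mp hs).2
        rw [hYmem, Int.not_odd_iff_even] at h5
        obtain ⟨a, ha⟩ := h5
        by_cases h6 : Odd (e s)
        · obtain ⟨b, hb⟩ := (hδo s).2 h6
          refine ⟨a * b, ?_⟩
          rw [if_pos h6, ha, hb]; ring
        · have h7 : ¬ Odd (e (δ s)) := fun h => h6 ((hδo s).1 h)
          rw [Int.not_odd_iff_even] at h7
          obtain ⟨b, hb⟩ := h7
          refine ⟨a * b, ?_⟩
          rw [if_neg h6, ha, hb]; ring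
      choose! l hl using h4
      refine ⟨∑ s ∈ T.filter (fun s => s ∉ Y), l s, ?_⟩
      rw [Finset.sum_filter (fun s => Odd (e s)), Finset.mul_sum, ← Finset.sum_add_distrib]
      exact Finset.sum_congr rfl hl
    obtain ⟨l, hl⟩ := h3
    refine ⟨k - l, ?_⟩
    rw [hk]
    linarith
  have hconst2 : ∏ s ∈ TY, ε (π s) = ∏ s ∈ TY, ε s := by
    obtain ⟨k, hk⟩ := hconst π hπc h1 heπ
    obtain ⟨l, hl⟩ := hconst 1 (fun s => rfl) (by simpa using h0) (fun s => Iff.rfl)
    have h1 : ∏ s ∈ TY, chi4 (u s) * ε (π s) =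
        ∏ s ∈ TY, chi4 (u s) * ε ((1 : Equiv.Perm X) s) := by
      apply units_eq_of_mod4 (k := k - l)
      rw [hk, hl]; ring
    rw [Finset.prod_mul_distrib, Finset.prod_mul_distrib] at h1
    have h2 := mul_left_cancel h1
    simpa using h2
  have hoY : ∀ s ∈ Y, Odd (e s) := fun s hs => hue s ((hYmem s).1 hs)
  let cY : {s // s ∈ Y} → {s // s ∈ Y} := fun s => ⟨c s.1, hYc s.1 s.2⟩
  let TT : Finset {s // s ∈ Y} := Finset.univ.filter (fun s => s.1 ∈ T)
  have hsign := prod_transversal cY (fun s => Subtype.ext (hc s.1))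
    (π.subtypePerm (p := fun s => s ∈ Y) hYπ)
    (fun s => Subtype.ext (hπc s.1)) (fun s => ε s.1) (fun s => by
      simp only [ε, cY]
      rw [hec, chi4_neg (hoY s.1 s.2)]) TT (by
      intro s
      simp only [TT, Finset.mem_filter, Finset.mem_univ, true_and, cY]
      exact hT s.1)
  have htr : ∀ f : X → ℤˣ, ∏ s ∈ TT, f s.1 = ∏ s ∈ TY, f s := by
    intro f
    apply Finset.prod_bij (fun s _ => s.1)
    · intro s hs
      simp only [TT, Finset.mem_filter, Finset.mem_univ, true_and] at hs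
      exact Finset.mem_filter.mpr ⟨hs, s.2⟩
    · intro a _ b _ hab
      exact Subtype.ext hab
    · intro b hb
      obtain ⟨h1, h2⟩ := Finset.mem_filter.mp hb
      exact ⟨⟨b, h2⟩, by simp [TT, h1], rfl⟩
    · intro s _; rfl
  have h3 : ∏ s ∈ TT, (fun s : {s // s ∈ Y} => ε s.1)
      ((π.subtypePerm (p := fun s => s ∈ Y) hYπ) s) = ∏ s ∈ TY, ε (π s) :=
    htr (fun s => ε (π s))
  rw [h3, hconst2, htr ε] at hsign
  have h4 : (1 : ℤˣ) * ∏ s ∈ TY, ε s =
      Equiv.Perm.sign (π.subtypePerm (p := fun s => s ∈ Y) hYπ) * ∏ s ∈ TY, ε s := by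
    rw [one_mul]
    exact hsign
  exact (mul_right_cancel h4).symm

/-- A nonzero group of functions modulo `p`, stable under a `p`-group of permutations, contains a
nonzero fixed function. -/
lemma exists_fixed_modp (p : ℕ) [Fact p.Prime] (L : AddSubgroup (X → ZMod p)) (v : X → ZMod p)
    (hv : v ∈ L) (hv0 : v ≠ 0) {P : Type*} [Group P] [MulAction P X]
    (hP : IsPGroup p P) (hstab : ∀ (γ : P), ∀ u ∈ L, (fun s => u (γ • s)) ∈ L) :
    ∃ u ∈ L, u ≠ 0 ∧ ∀ (γ : P) (s : X), u (γ • s) = u s := by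
  classical
  let act : MulAction P L :=
    { smul := fun γ y => ⟨fun s => y.1 (γ⁻¹ • s), hstab γ⁻¹ y.1 y.2⟩
      one_smul := by
        intro y
        apply Subtype.ext
        funext s
        change y.1 ((1 : P)⁻¹ • s) = y.1 s
        rw [inv_one, one_smul]
      mul_smul := by
        intro γ δ y
        apply Subtype.ext
        funext s
        change y.1 ((γ * δ)⁻¹ • s) = y.1 (δ⁻¹ • (γ⁻¹ • s))
        rw [mul_inv_rev, mul_smul] }
  have hfin : Finite L := Subtype.finite
  have hcard : p ∣ Nat.card L := by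
    have h0 : IsPGroup p (Multiplicative L) := by
      intro y
      refine ⟨1, ?_⟩
      rw [pow_one]
      apply Multiplicative.toAdd.injective
      apply Subtype.ext
      funext s
      change ((p • (Multiplicative.toAdd y) : L) : X → ZMod p) s = 0
      rw [AddSubgroup.coe_nsmul, Pi.smul_apply, nsmul_eq_mul, CharP.cast_eq_zero, zero_mul]
    have hfin' : Finite (Multiplicative L) := hfin
    obtain ⟨m, hm⟩ := IsPGroup.iff_card.mp h0
    have hm' : Nat.card L = p ^ m := hm
    rw [hm']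
    apply dvd_pow_self
    intro h2
    have h3 : Nat.card L = 1 := by rw [hm', h2, pow_zero]
    have h4 : Subsingleton L := (Nat.card_eq_one_iff_unique.mp h3).1
    have h5 : (⟨v, hv⟩ : L) = 0 := Subsingleton.elim _ _
    exact hv0 (congrArg (fun z : L => z.1) h5)
  obtain ⟨y, hy, hy0⟩ := hP.exists_fixed_point_of_prime_dvd_card_of_fixed_point L hcard
    (a := (0 : L)) (by
      intro γ
      apply Subtype.ext
      rfl)
  refine ⟨y.1, y.2, ?_, ?_⟩
  · intro h
    apply hy0
    apply Subtype.ext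
    exact h.symm
  · intro γ s
    have h1 := hy γ⁻¹
    have h2 := congrArg (fun z : L => z.1 s) h1
    have h3 : y.1 ((γ⁻¹)⁻¹ • s) = y.1 s := h2
    rw [inv_inv] at h3
    exact h3

end irrA

end Pool.Agent.Lib.MP_640417_ag.Frob
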