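import Pool.Agent.Lib.MP_640417_ag.Frob.IrrA

/-!
# The odd functions on an orbit form an irreducible representation
-/

namespace Pool.Agent.Lib.MP_640417_ag.Frob

open Pool.Agent.Lib.MP_640417_ag

section dot

variable {X : Type} [Fintype X]

/-- The standard pairing of functions. -/
def dotB (X : Type) [Fintype X] : LinearMap.BilinForm ℚ (X → ℚ) :=
  LinearMap.mk₂ ℚ (fun x y => ∑ s, x s * y s)
    (fun a b y => by simp only [Pi.add_apply, add_mul, Finset.sum_add_distrib])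
    (fun r a y => by simp only [Pi.smul_apply, smul_eq_mul, mul_assoc, Finset.mul_sum])
    (fun a y z => by simp only [Pi.add_apply, mul_add, Finset.sum_add_distrib])
    (fun r a y => by
      simp only [Pi.smul_apply, smul_eq_mul, Finset.mul_sum]
      exact Finset.sum_congr rfl fun s _ => by ring)

lemma dotB_apply (x y : X → ℚ) : dotB X x y = ∑ s, x s * y s := rfl

/-- The orthogonal complement. -/
def perp (R : Submodule ℚ (X → ℚ)) : Submodule ℚ (X → ℚ) := (dotB X).orthogonal R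

lemma mem_perp {R : Submodule ℚ (X → ℚ)} {y : X → ℚ} :
    y ∈ perp R ↔ ∀ x ∈ R, ∑ s, x s * y s = 0 := Iff.rfl

lemma isCompl_perp (R : Submodule ℚ (X → ℚ)) : IsCompl R (perp R) := by
  have hrefl : (dotB X).IsRefl := by
    intro x y h
    rw [dotB_apply] at h ⊢
    rw [← h]
    exact Finset.sum_congr rfl fun s _ => mul_comm _ _
  refine (LinearMap.BilinForm.isCompl_orthogonal_iff_disjoint hrefl).2 ?_
  rw [Submodule.disjoint_def]
  intro x hx hx'
  have h1 : ∑ s, x s * x s = 0 := hx' x hx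
  rw [Finset.sum_eq_zero_iff_of_nonneg (fun s _ => mul_self_nonneg _)] at h1
  funext s
  exact mul_self_eq_zero.1 (h1 s (Finset.mem_univ s))

lemma exists_decomp (R : Submodule ℚ (X → ℚ)) (x : X → ℚ) :
    ∃ r ∈ R, ∃ d ∈ perp R, r + d = x := by
  have h := (isCompl_perp R).sup_eq_top
  have h1 : x ∈ R ⊔ perp R := by rw [h]; trivial
  obtain ⟨r, hr, d, hd, h2⟩ := Submodule.mem_sup.1 h1
  exact ⟨r, hr, d, hd, h2⟩

/-- The odd functions supported on `O`. -/
def oddOn (c : X → X) (O : Set X) : Submodule ℚ (X → ℚ) where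
  carrier := {x | (∀ s, x (c s) = - x s) ∧ ∀ s, s ∉ O → x s = 0}
  zero_mem' := ⟨fun s => by simp, fun s _ => rfl⟩
  add_mem' := by
    rintro a b ⟨h1, h2⟩ ⟨h3, h4⟩
    refine ⟨fun s => ?_, fun s hs => ?_⟩
    · simp only [Pi.add_apply, h1, h3]; ring
    · simp only [Pi.add_apply, h2 s hs, h4 s hs, add_zero]
  smul_mem' := by
    rintro r a ⟨h1, h2⟩
    refine ⟨fun s => ?_, fun s hs => ?_⟩
    · simp only [Pi.smul_apply, smul_eq_mul, h1]; ring
    · simp only [Pi.smul_apply, smul_eq_mul, h2 s hs, mul_zero]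

/-- The integral functions in a space. -/
def latt (R : Submodule ℚ (X → ℚ)) : AddSubgroup (X → ℤ) where
  carrier := {n | (fun s => (n s : ℚ)) ∈ R}
  zero_mem' := by
    have : (fun s => (((0 : X → ℤ) s : ℤ) : ℚ)) = (0 : X → ℚ) := by funext s; simp
    change (fun s => (((0 : X → ℤ) s : ℤ) : ℚ)) ∈ R
    rw [this]
    exact R.zero_mem
  add_mem' := by
    intro a b ha hb
    have : (fun s => (((a + b) s : ℤ) : ℚ)) = (fun s => (a s : ℚ)) + (fun s => (b s : ℚ)) := by
      funext s; simp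
    change (fun s => (((a + b) s : ℤ) : ℚ)) ∈ R
    rw [this]
    exact R.add_mem ha hb
  neg_mem' := by
    intro a ha
    have : (fun s => (((- a) s : ℤ) : ℚ)) = - (fun s => (a s : ℚ)) := by
      funext s; simp
    change (fun s => (((- a) s : ℤ) : ℚ)) ∈ R
    rw [this]
    exact R.neg_mem ha

lemma mem_latt {R : Submodule ℚ (X → ℚ)} {n : X → ℤ} :
    n ∈ latt R ↔ (fun s => (n s : ℚ)) ∈ R := Iff.rfl

lemma latt_sat (R : Submodule ℚ (X → ℚ)) (m : ℤ) (n : X → ℤ) (hm : m ≠ 0)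
    (h : m • n ∈ latt R) : n ∈ latt R := by
  rw [mem_latt] at h ⊢
  have h1 : (fun s => (n s : ℚ)) = (m : ℚ)⁻¹ • (fun s => (((m • n) s : ℤ) : ℚ)) := by
    funext s
    have hm' : (m : ℚ) ≠ 0 := by exact_mod_cast hm
    simp only [Pi.smul_apply, smul_eq_mul, Int.cast_mul]
    rw [inv_mul_cancel_left₀ hm']
  rw [h1]
  exact R.smul_mem _ h

lemma exists_clear (x y : X → ℚ) : ∃ M : ℕ, 0 < M ∧ (∃ n : X → ℤ, ∀ s, (n s : ℚ) = M * x s) ∧
    ∃ n : X → ℤ, ∀ s, (n s : ℚ) = M * y s := by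
  classical
  have key : ∀ z : X → ℚ, ∀ M' : ℕ, ∃ n : X → ℤ, ∀ s, (n s : ℚ) =
      ((M' * ∏ s, (z s).den : ℕ) : ℚ) * z s := by
    intro z M'
    refine ⟨fun s => M' * (∏ t ∈ Finset.univ.erase s, ((z t).den : ℤ)) * (z s).num, fun s => ?_⟩
    rw [← Finset.mul_prod_erase Finset.univ (fun s => (z s).den) (Finset.mem_univ s)]
    have h1 : ((z s).num : ℚ) = z s * (z s).den := (Rat.mul_den_eq_num (z s)).symm
    push_cast
    rw [h1]
    ring
  refine ⟨(∏ s, (x s).den) * ∏ s, (y s).den,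
    Nat.mul_pos (Finset.prod_pos fun s _ => (x s).den_pos)
      (Finset.prod_pos fun s _ => (y s).den_pos), ?_, key y _⟩
  obtain ⟨n, hn⟩ := key x (∏ s, (y s).den)
  exact ⟨n, fun s => by rw [hn, mul_comm (∏ s, (x s).den)]⟩

lemma exists_latt_ne (R : Submodule ℚ (X → ℚ)) (hR : R ≠ ⊥) : ∃ n ∈ latt R, n ≠ 0 := by
  obtain ⟨x, hx, hx0⟩ := R.ne_bot_iff.1 hR
  obtain ⟨M, hM, ⟨n, hn⟩, -⟩ := exists_clear x x
  refine ⟨n, ?_, ?_⟩
  · rw [mem_latt]
    have : (fun s => (n s : ℚ)) = (M : ℚ) • x := by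
      funext s
      simp only [Pi.smul_apply, smul_eq_mul, hn]
    rw [this]
    exact R.smul_mem _ hx
  · intro h0
    apply hx0
    funext s
    have h1 := hn s
    rw [h0] at h1
    simp only [Pi.zero_apply, Int.cast_zero] at h1
    have hM' : (M : ℚ) ≠ 0 := by exact_mod_cast hM.ne'
    exact (mul_eq_zero.1 h1.symm).resolve_left hM'

end dot

section irrB

variable {X : Type} [Fintype X] [DecidableEq X]

/-- Restriction of functions to a class. -/
def resF (κ : X → ℕ) (k : ℕ) (x : X → ℚ) : X → ℚ := fun s => if κ s = k then x s else 0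

/-- The key contradiction. -/
lemma claim_one {H : Type} [Group H] [MulAction H X]
    (c : X → X) (hc : ∀ s, c (c s) = s) (hne : ∀ s, c s ≠ s)
    (hcH : ∀ (γ : H) (s : X), γ • c s = c (γ • s))
    (κ : X → ℕ) (hκH : ∀ (h : H) s, κ (h • s) = κ s) (hκc : ∀ s, κ (c s) = κ s) (O : Set X)
    (hodd : ∀ Y : Finset X, Y.Nonempty → (∀ s ∈ Y, s ∈ O) → (∀ s ∈ Y, c s ∈ Y) →
      (∀ s ∈ Y, ∀ t ∈ Y, κ s = κ t) → ∀ hY : (∀ (γ : H) (s : X), γ • s ∈ Y ↔ s ∈ Y),
      ∃ γ : H, Equiv.Perm.sign ((MulAction.toPerm γ : Equiv.Perm X).subtypePerm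
        (p := fun s => s ∈ Y) (fun s => hY γ s)) = -1)
    (A B : Submodule ℚ (X → ℚ)) (hA : A ≤ oddOn c O) (hB : B ≤ oddOn c O)
    (hAκ : ∀ x ∈ A, ∀ k, resF κ k x ∈ A) (hBκ : ∀ x ∈ B, ∀ k, resF κ k x ∈ B)
    (hBH : ∀ (γ : H), ∀ x ∈ B, (fun s => x (γ • s)) ∈ B)
    (hAB : ∀ x ∈ A, ∀ y ∈ B, ∑ s, x s * y s = 0)
    (n m : X → ℤ) (hn : n ∈ latt A) (hm : m ∈ latt B)
    (hnH : ∀ (h : H) (s : X), Odd (n (h • s)) ↔ Odd (n s))
    (hmH : ∀ (h : H) (s : X), Odd (m (h • s)) ↔ Odd (m s))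
    (hnm : ∀ s, Odd (n s) → Odd (m s)) (s₀ : X) : ¬ Odd (n s₀) := by
  classical
  intro hs₀
  let k := κ s₀
  let n' : X → ℤ := fun s => if κ s = k then n s else 0
  let m' : X → ℤ := fun s => if κ s = k then m s else 0
  have hn' : n' ∈ latt A := by
    rw [mem_latt]
    have : (fun s => (n' s : ℚ)) = resF κ k (fun s => (n s : ℚ)) := by
      funext s
      simp only [n', resF]
      split_ifs <;> simp
    rw [this]
    exact hAκ _ hn k
  have hm' : m' ∈ latt B := by
    rw [mem_latt]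
    have : (fun s => (m' s : ℚ)) = resF κ k (fun s => (m s : ℚ)) := by
      funext s
      simp only [m', resF]
      split_ifs <;> simp
    rw [this]
    exact hBκ _ hm k
  have hoddZ : ∀ (A : Submodule ℚ (X → ℚ)), A ≤ oddOn c O → ∀ n ∈ latt A, ∀ s, n (c s) = - n s := by
    intro A hA n hn s
    have h1 : ((n (c s) : ℤ) : ℚ) = - (n s : ℚ) := (hA hn).1 s
    exact_mod_cast h1
  have hsuppZ : ∀ (A : Submodule ℚ (X → ℚ)), A ≤ oddOn c O → ∀ n ∈ latt A, ∀ s, s ∉ O →
      n s = 0 := by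
    intro A hA n hn s hs
    have h1 : ((n s : ℤ) : ℚ) = 0 := (hA hn).2 s hs
    exact_mod_cast h1
  have horth : ∀ n ∈ latt A, ∀ m ∈ latt B, ∑ s, n s * m s = 0 := by
    intro n hn m hm
    have h1 := hAB _ hn _ hm
    exact_mod_cast h1
  have hodd' : ∀ s, Odd (n' s) ↔ κ s = k ∧ Odd (n s) := by
    intro s
    simp only [n']
    split_ifs with h
    · simp [h]
    · simp [h]
  have hoddm' : ∀ s, Odd (m' s) ↔ κ s = k ∧ Odd (m s) := by
    intro s
    simp only [m']
    split_ifs with h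
    · simp [h]
    · simp [h]
  let Y : Finset X := Finset.univ.filter (fun s => Odd (n' s))
  have hYmem : ∀ s, s ∈ Y ↔ Odd (n' s) := fun s => by simp [Y]
  have hYH : ∀ (γ : H) (s : X), γ • s ∈ Y ↔ s ∈ Y := by
    intro γ s
    rw [hYmem, hYmem, hodd', hodd', hκH, hnH]
  obtain ⟨h, hh⟩ := hodd Y ⟨s₀, (hYmem _).2 ((hodd' _).2 ⟨rfl, hs₀⟩)⟩
    (by
      intro s hs
      by_contra hO
      have h1 := hsuppZ A hA n' hn' s hO
      rw [hYmem, h1] at hs
      exact absurd hs (by decide))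
    (by
      intro s hs
      rw [hYmem] at hs ⊢
      rw [hoddZ A hA n' hn']
      exact hs.neg)
    (by
      intro s hs t ht
      rw [hYmem, hodd'] at hs ht
      rw [hs.1, ht.1]) hYH
  have h1 := parity_even c hc hne (MulAction.toPerm h : Equiv.Perm X) (fun s => hcH h s) n' m'
    (hoddZ A hA n' hn') (hoddZ B hB m' hm') (horth n' hn' m' hm')
    (by
      have h2 : (fun s => m' (h • s)) ∈ latt B := hBH h _ hm'
      exact horth n' hn' _ h2)
    (by
      intro s
      change Odd (m' (h • s)) ↔ Odd (m' s)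
      rw [hoddm', hoddm', hκH, hmH])
    (by
      intro s hs
      rw [hodd'] at hs
      exact (hoddm' s).2 ⟨hs.1, hnm s hs.2⟩) Y hYmem (fun s => hYH h s)
  rw [h1] at hh
  exact absurd hh (by decide)

/-- The main criterion of irreducibility. -/
theorem irrOn_of_parity {G H : Type} [Group G] [Group H] [Finite H] [MulAction G X] [MulAction H X]
    (c : X → X) (hc : ∀ s, c (c s) = s) (hne : ∀ s, c s ≠ s)
    (hcG : ∀ (γ : G) (s : X), γ • c s = c (γ • s))
    (hHG : ∀ h : H, ∃ γ : G, ∀ s : X, h • s = γ • s)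
    (hpow : ∀ s : X, ∃ k : ℕ, Nat.card (MulAction.orbit H s) = 2 ^ k)
    (κ : X → ℕ) (hκH : ∀ (h : H) s, κ (h • s) = κ s) (hκc : ∀ s, κ (c s) = κ s)
    (v₀ : X) (hcO : c v₀ ∈ MulAction.orbit G v₀)
    (hodd : ∀ Y : Finset X, Y.Nonempty → (∀ s ∈ Y, s ∈ MulAction.orbit G v₀) →
      (∀ s ∈ Y, c s ∈ Y) →
      (∀ s ∈ Y, ∀ t ∈ Y, κ s = κ t) → ∀ hY : (∀ (γ : H) (s : X), γ • s ∈ Y ↔ s ∈ Y),
      ∃ γ : H, Equiv.Perm.sign ((MulAction.toPerm γ : Equiv.Perm X).subtypePerm
        (p := fun s => s ∈ Y) (fun s => hY γ s)) = -1)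
    (R : Submodule ℚ (X → ℚ)) (hRO : R ≤ oddOn c (MulAction.orbit G v₀))
    (hRG : ∀ (γ : G), ∀ x ∈ R, (fun s => x (γ • s)) ∈ R)
    (hRκ : ∀ x ∈ R, ∀ k, resF κ k x ∈ R) :
    R = ⊥ ∨ R = oddOn c (MulAction.orbit G v₀) := by
  classical
  set O := MulAction.orbit G v₀ with hO
  by_contra hcon
  rw [not_or] at hcon
  obtain ⟨hR0, hR1⟩ := hcon
  have hOG : ∀ (γ : G) (s : X), γ • s ∈ O ↔ s ∈ O := by
    intro γ s
    constructor
    · rintro ⟨δ, hδ⟩
      exact ⟨γ⁻¹ * δ, by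
        change (γ⁻¹ * δ) • v₀ = s
        rw [mul_smul]
        change γ⁻¹ • (δ • v₀) = s
        rw [show δ • v₀ = γ • s from hδ, inv_smul_smul]⟩
    · rintro ⟨δ, hδ⟩
      exact ⟨γ * δ, by
        change (γ * δ) • v₀ = γ • s
        rw [mul_smul]
        rw [show δ • v₀ = s from hδ]⟩
  have hOc : ∀ s, c s ∈ O ↔ s ∈ O := by
    have h1 : ∀ s, s ∈ O → c s ∈ O := by
      rintro s ⟨γ, rfl⟩
      change c (γ • v₀) ∈ O
      rw [← hcG, hOG]
      exact hcO
    intro s
    refine ⟨fun h => ?_, h1 s⟩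
    have := h1 _ h
    rwa [hc] at this
  let D : Submodule ℚ (X → ℚ) := perp R ⊓ oddOn c O
  have hDO : D ≤ oddOn c O := inf_le_right
  have hRD : ∀ x ∈ R, ∀ y ∈ D, ∑ s, x s * y s = 0 := fun x hx y hy => hy.1 x hx
  have hDR : ∀ x ∈ D, ∀ y ∈ R, ∑ s, x s * y s = 0 := by
    intro x hx y hy
    rw [← hRD y hy x hx]
    exact Finset.sum_congr rfl fun s _ => mul_comm _ _
  have hDG : ∀ (γ : G), ∀ x ∈ D, (fun s => x (γ • s)) ∈ D := by
    intro γ y hy
    refine ⟨?_, ?_, ?_⟩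
    · intro x hx
      have h1 := hRD _ (hRG γ⁻¹ x hx) y hy
      change ∑ s, x s * y (γ • s) = 0
      rw [← h1]
      apply Fintype.sum_bijective (fun s => γ • s) (MulAction.bijective γ)
      intro s
      simp only [inv_smul_smul]
    · intro s
      simp only [hcG]
      exact (hDO hy).1 _
    · intro s hs
      exact (hDO hy).2 _ (fun h => hs ((hOG γ s).1 h))
  have hDκ : ∀ x ∈ D, ∀ k, resF κ k x ∈ D := by
    intro y hy k
    refine ⟨?_, ?_, ?_⟩
    · intro x hx
      have h1 := hRD _ (hRκ x hx k) y hy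
      change ∑ s, x s * resF κ k y s = 0
      rw [← h1]
      apply Finset.sum_congr rfl
      intro s _
      simp only [resF]
      split_ifs <;> simp
    · intro s
      simp only [resF, hκc]
      split_ifs
      · exact (hDO hy).1 s
      · simp
    · intro s hs
      simp only [resF]
      split_ifs
      · exact (hDO hy).2 s hs
      · rfl
  have hD0 : D ≠ ⊥ := by
    intro h0
    apply hR1
    apply le_antisymm hRO
    intro x hx
    obtain ⟨r, hr, d, hd, h1⟩ := exists_decomp R x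
    have h2 : d ∈ D := by
      refine ⟨hd, ?_⟩
      have : d = x - r := by rw [← h1]; abel
      rw [this]
      exact Submodule.sub_mem _ hx (hRO hr)
    rw [h0, Submodule.mem_bot] at h2
    rw [← h1, h2, add_zero]
    exact hr
  have hcH : ∀ (γ : H) (s : X), γ • c s = c (γ • s) := by
    intro h s
    obtain ⟨γ, hγ⟩ := hHG h
    rw [hγ, hγ, hcG]
  have hRH : ∀ (γ : H), ∀ x ∈ R, (fun s => x (γ • s)) ∈ R := by
    intro h x hx
    obtain ⟨γ, hγ⟩ := hHG h
    simp only [hγ]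
    exact hRG γ x hx
  have hDH : ∀ (γ : H), ∀ x ∈ D, (fun s => x (γ • s)) ∈ D := by
    intro h x hx
    obtain ⟨γ, hγ⟩ := hHG h
    simp only [hγ]
    exact hDG γ x hx
  have key1 := claim_one (H := H) c hc hne hcH κ hκH hκc O hodd R D hRO hDO hRκ hDκ hDH hRD
  have key2 := claim_one (H := H) c hc hne hcH κ hκH hκc O hodd D R hDO hRO hDκ hRκ hRH hDR
  obtain ⟨P⟩ : Nonempty (Sylow 2 H) := inferInstance
  have hodd2 : ∀ a : ℤ, Odd a ↔ (a : ZMod 2) ≠ 0 := by
    intro a
    rw [← Int.not_even_iff_odd, even_iff_two_dvd, not_iff_not]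
    exact (ZMod.intCast_zmod_eq_zero_iff_dvd a 2).symm
  have hlift : ∀ f : X → ZMod 2, (∀ (δ : P) (s : X), f (δ • s) = f s) →
      ∀ (h : H) (s : X), f (h • s) = f s := by
    intro f hf h s
    obtain ⟨k, hk⟩ := hpow s
    obtain ⟨δ, hδ⟩ := orbit_sylow_eq P s k hk h
    rw [← hδ, hf]
  -- the reductions modulo 2 meet only in zero
  let red : (X → ℤ) →+ (X → ZMod 2) :=
    { toFun := fun u s => (u s : ZMod 2)
      map_zero' := by funext s; simp
      map_add' := by intro a b; funext s; simp }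
  have hstabL : ∀ (A : Submodule ℚ (X → ℚ)), (∀ (γ : H), ∀ x ∈ A, (fun s => x (γ • s)) ∈ A) →
      ∀ (γ : P), ∀ u ∈ (latt A).map red, (fun s => u (γ • s)) ∈ (latt A).map red := by
    rintro A hA γ u ⟨n, hn, rfl⟩
    exact ⟨fun s => n (γ • s), hA γ.1 _ hn, rfl⟩
  have halpha : ∀ n ∈ latt R, ∀ m ∈ latt D, (∀ s, (n s : ZMod 2) = m s) →
      ∀ s, (n s : ZMod 2) = 0 := by
    intro n hn m hm hnm
    by_contra hcon
    have hv : red n ∈ (latt R).map red ⊓ (latt D).map red := by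
      refine ⟨⟨n, hn, rfl⟩, ⟨m, hm, ?_⟩⟩
      funext s
      exact (hnm s).symm
    have hv0 : red n ≠ 0 := by
      intro h0
      apply hcon
      intro s
      exact congrFun h0 s
    obtain ⟨u, hu, hu0, hufix⟩ := exists_fixed_modp 2 _ (red n) hv hv0 P.isPGroup' (by
      rintro γ u ⟨h1, h2⟩
      exact ⟨hstabL R hRH γ u h1, hstabL D hDH γ u h2⟩)
    obtain ⟨⟨n', hn', hn'u⟩, ⟨m', hm', hm'u⟩⟩ := hu
    have h1 : ∀ s, (n' s : ZMod 2) = u s := fun s => congrFun hn'u s
    have h2 : ∀ s, (m' s : ZMod 2) = u s := fun s => congrFun hm'u s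
    have h3 := hlift u hufix
    apply hu0
    funext s
    by_contra h4
    refine key1 n' m' hn' hm' ?_ ?_ ?_ s ?_
    · intro h s
      rw [hodd2, hodd2, h1, h1, h3]
    · intro h s
      rw [hodd2, hodd2, h2, h2, h3]
    · intro s
      rw [hodd2, hodd2, h1, h2]
      exact id
    · rw [hodd2, h1]
      exact h4
  -- the index of the sum of the two lattices is odd
  have hbeta : ∀ (k : ℕ) (x : X → ℤ),
      (∃ r ∈ latt R, ∃ d ∈ latt D, ∀ s, 2 ^ k * x s = r s + d s) →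
      ∃ r ∈ latt R, ∃ d ∈ latt D, ∀ s, x s = r s + d s := by
    intro k
    induction k with
    | zero => simp
    | succ k ih =>
      rintro x ⟨r, hr, d, hd, h1⟩
      apply ih
      have h2 : ∀ s, (r s : ZMod 2) = ((- d) s : ℤ) := by
        intro s
        have h3 : ((2 ^ (k + 1) * x s : ℤ) : ZMod 2) = 0 := by
          rw [ZMod.intCast_zmod_eq_zero_iff_dvd]
          exact ⟨2 ^ k * x s, by push_cast; ring⟩
        rw [h1] at h3
        push_cast at h3 ⊢
        rw [Pi.neg_apply]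
        push_cast
        exact eq_neg_of_add_eq_zero_left h3
      have h3 := halpha r hr (- d) ((latt D).neg_mem hd) h2
      have h4 : ∀ s, (d s : ZMod 2) = 0 := by
        intro s
        have h5 := h2 s
        rw [h3 s] at h5
        simp only [Pi.neg_apply, Int.cast_neg] at h5
        exact neg_eq_zero.1 h5.symm
      have h5 : ∀ s, ∃ a, r s = 2 * a := fun s =>
        (ZMod.intCast_zmod_eq_zero_iff_dvd (r s) 2).1 (h3 s)
      have h6 : ∀ s, ∃ a, d s = 2 * a := fun s =>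
        (ZMod.intCast_zmod_eq_zero_iff_dvd (d s) 2).1 (h4 s)
      choose r' hr' using h5
      choose d' hd' using h6
      refine ⟨r', latt_sat R 2 r' two_ne_zero ?_, d', latt_sat D 2 d' two_ne_zero ?_, ?_⟩
      · have : (2 : ℤ) • r' = r := by
          funext s
          rw [Pi.smul_apply, smul_eq_mul, hr']
        rw [this]; exact hr
      · have : (2 : ℤ) • d' = d := by
          funext s
          rw [Pi.smul_apply, smul_eq_mul, hd']
        rw [this]; exact hd
      · intro s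
        have h7 := h1 s
        rw [hr', hd', pow_succ] at h7
        linarith
  -- an odd function with values `±1`
  obtain ⟨T, hT⟩ := exists_transversal c hc hne
  let x₁ : X → ℤ := fun s => if s ∈ O then (if s ∈ T then 1 else -1) else 0
  have hx₁ : (fun s => (x₁ s : ℚ)) ∈ oddOn c O := by
    refine ⟨?_, ?_⟩
    · intro s
      simp only [x₁, hOc]
      by_cases h : s ∈ O
      · by_cases h2 : s ∈ T
        · have := (hT s).1 h2
          simp [h, h2, this]
        · have h3 : c s ∈ T := by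
            by_contra h'
            exact h2 ((hT s).mpr h')
          simp [h, h2, h3]
      · simp [h]
    · intro s hs
      simp [x₁, hs]
  have hx₁odd : ∀ s, Odd (x₁ s) ↔ s ∈ O := by
    intro s
    simp only [x₁]
    by_cases h : s ∈ O
    · by_cases h2 : s ∈ T <;> simp [h, h2]
    · simp [h]
  obtain ⟨r, hr, d, hd, hrd⟩ := exists_decomp R (fun s => (x₁ s : ℚ))
  have hdD : d ∈ D := by
    refine ⟨hd, ?_⟩
    have : d = (fun s => (x₁ s : ℚ)) - r := by rw [← hrd]; abel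
    rw [this]
    exact Submodule.sub_mem _ hx₁ (hRO hr)
  obtain ⟨M, hM, ⟨n, hn⟩, ⟨m, hm⟩⟩ := exists_clear r d
  have hnR : n ∈ latt R := by
    rw [mem_latt]
    have : (fun s => (n s : ℚ)) = (M : ℚ) • r := by
      funext s
      simp only [Pi.smul_apply, smul_eq_mul, hn]
    rw [this]
    exact R.smul_mem _ hr
  have hmD : m ∈ latt D := by
    rw [mem_latt]
    have : (fun s => (m s : ℚ)) = (M : ℚ) • d := by
      funext s
      simp only [Pi.smul_apply, smul_eq_mul, hm]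
    rw [this]
    exact D.smul_mem _ hdD
  obtain ⟨k, M', hM'odd, hM'⟩ := Nat.exists_eq_two_pow_mul_odd hM.ne'
  obtain ⟨n₁, hn₁, m₁, hm₁, hnm₁⟩ := hbeta k (fun s => M' * x₁ s) ⟨n, hnR, m, hmD, by
    intro s
    have h1 : (r s + d s : ℚ) = x₁ s := congrFun hrd s
    have h2 : ((2 ^ k * (M' * x₁ s) : ℤ) : ℚ) = ((n s + m s : ℤ) : ℚ) := by
      push_cast
      rw [hn, hm, ← h1, hM']
      push_cast
      ring
    exact_mod_cast h2⟩
  have hM'2 : (((M' : ℤ)) : ZMod 2) = 1 := by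
    obtain ⟨a, ha⟩ := hM'odd
    rw [ha]
    push_cast
    have : (2 : ZMod 2) = 0 := by decide
    rw [this]
    ring
  have hx₁2 : ∀ s, (x₁ s : ZMod 2) = if s ∈ O then 1 else 0 := by
    intro s
    simp only [x₁]
    by_cases h : s ∈ O
    · by_cases h2 : s ∈ T
      · simp [h, h2]
      · simp only [h, h2, if_true, if_false]
        decide
    · simp [h]
  have hsum2 : ∀ s, (n₁ s : ZMod 2) + m₁ s = if s ∈ O then 1 else 0 := by
    intro s
    have h1 : ((M' * x₁ s : ℤ) : ZMod 2) = ((n₁ s + m₁ s : ℤ) : ZMod 2) :=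
      congrArg (fun z : ℤ => (z : ZMod 2)) (hnm₁ s)
    rw [← Int.cast_add, ← h1, ← hx₁2, Int.cast_mul, hM'2, one_mul]
  have hinvn : ∀ (γ : G) (s : X), (n₁ (γ • s) : ZMod 2) = n₁ s := by
    intro γ s
    have h1 := halpha ((fun s => n₁ (γ • s)) - n₁) ((latt R).sub_mem (hRG γ _ hn₁) hn₁)
      (-((fun s => m₁ (γ • s)) - m₁)) ((latt D).neg_mem ((latt D).sub_mem (hDG γ _ hm₁) hm₁))
      (by
        intro s
        have h2 := hsum2 (γ • s)
        have h3 := hsum2 s
        simp only [hOG] at h2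
        rw [← h3] at h2
        simp only [Pi.sub_apply, Pi.neg_apply, Int.cast_sub, Int.cast_neg]
        linear_combination h2) s
    simp only [Pi.sub_apply, Int.cast_sub] at h1
    exact sub_eq_zero.1 h1
  have hinvm : ∀ (γ : G) (s : X), (m₁ (γ • s) : ZMod 2) = m₁ s := by
    intro γ s
    have h2 := hsum2 (γ • s)
    have h3 := hsum2 s
    simp only [hOG] at h2
    rw [← h3, hinvn] at h2
    exact add_left_cancel h2
  have hv₀ : v₀ ∈ O := MulAction.mem_orbit_self v₀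
  have hdich : ∀ a b : ZMod 2, a + b = 1 → a ≠ 0 ∨ b ≠ 0 := by decide
  have h1 := hsum2 v₀
  rw [if_pos hv₀] at h1
  rcases hdich _ _ h1 with h2 | h2
  · -- `n₁` is odd on the orbit
    have h3 : ∀ s ∈ O, Odd (n₁ s) := by
      rintro s ⟨γ, rfl⟩
      rw [hodd2]
      change (n₁ (γ • v₀) : ZMod 2) ≠ 0
      rw [hinvn]
      exact h2
    obtain ⟨w, hw, hw0⟩ := exists_latt_ne D hD0
    obtain ⟨u, hu, hu0, hufix⟩ := exists_fixed_reduction (latt D) (latt_sat D) w hw hw0 2
      P.isPGroup' (fun γ u hu => hDH γ.1 _ hu)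
    apply hu0
    funext s
    by_contra h4
    refine key2 u n₁ hu hn₁ ?_ ?_ ?_ s ?_
    · intro h s
      have h9 : (u (h • s) : ZMod 2) = u s := hlift (fun s => (u s : ZMod 2)) hufix h s
      rw [hodd2, hodd2, h9]
    · intro h s
      obtain ⟨γ, hγ⟩ := hHG h
      rw [hγ, hodd2, hodd2, hinvn]
    · intro s hs
      apply h3
      by_contra h5
      have h6 : ((u s : ℤ) : ℚ) = 0 := (hDO hu).2 s h5
      have h7 : u s = 0 := by exact_mod_cast h6
      rw [h7] at hs
      exact absurd hs (by decide)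
    · rw [hodd2]
      exact h4
  · have h3 : ∀ s ∈ O, Odd (m₁ s) := by
      rintro s ⟨γ, rfl⟩
      rw [hodd2]
      change (m₁ (γ • v₀) : ZMod 2) ≠ 0
      rw [hinvm]
      exact h2
    obtain ⟨w, hw, hw0⟩ := exists_latt_ne R hR0
    obtain ⟨u, hu, hu0, hufix⟩ := exists_fixed_reduction (latt R) (latt_sat R) w hw hw0 2
      P.isPGroup' (fun γ u hu => hRH γ.1 _ hu)
    apply hu0
    funext s
    by_contra h4
    refine key1 u m₁ hu hm₁ ?_ ?_ ?_ s ?_
    · intro h s
      have h9 : (u (h • s) : ZMod 2) = u s := hlift (fun s => (u s : ZMod 2)) hufix h s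
      rw [hodd2, hodd2, h9]
    · intro h s
      obtain ⟨γ, hγ⟩ := hHG h
      rw [hγ, hodd2, hodd2, hinvm]
    · intro s hs
      apply h3
      by_contra h5
      have h6 : ((u s : ℤ) : ℚ) = 0 := (hRO hu).2 s h5
      have h7 : u s = 0 := by exact_mod_cast h6
      rw [h7] at hs
      exact absurd hs (by decide)
    · rw [hodd2]
      exact h4

end irrB

end Pool.Agent.Lib.MP_640417_ag.Frob
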