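import Pool.Agent.Lib.MP_640417_ag.Frob.IrrB

/-!
# Stable subspaces split according to the sizes of the orbits
-/

namespace Pool.Agent.Lib.MP_640417_ag.Frob

open Pool.Agent.Lib.MP_640417_ag Module

section irrC

variable {X : Type} [Fintype X] [DecidableEq X]

/-- The odd functions supported on `O` have no proper stable subspaces. -/
def IrrOn (G : Type) [Group G] [MulAction G X] (c : X → X) (O : Set X) : Prop :=
  ∀ R : Submodule ℚ (X → ℚ), R ≤ oddOn c O →
    (∀ (γ : G), ∀ x ∈ R, (fun s => x (γ • s)) ∈ R) → R = ⊥ ∨ R = oddOn c O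

/-- The odd function `δ_s - δ_{cs}`. -/
def ev2 (c : X → X) (s : X) : X → ℚ := Pi.single s 1 - Pi.single (c s) 1

omit [Fintype X] in
lemma ev2_mem (c : X → X) (hc : ∀ s, c (c s) = s) (O : Set X) (s : X) (hs : s ∈ O)
    (hs' : c s ∈ O) : ev2 c s ∈ oddOn c O := by
  constructor
  · intro t
    have e1 : c t = s ↔ t = c s := ⟨fun h => by rw [← h, hc], fun h => by rw [h, hc]⟩
    have e2 : c t = c s ↔ t = s := ⟨fun h => by rw [← hc t, h, hc], fun h => by rw [h]⟩
    simp only [ev2, Pi.sub_apply, Pi.single_apply, e1, e2]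
    ring
  · intro t ht
    have h1 : t ≠ s := fun h => ht (h ▸ hs)
    have h2 : t ≠ c s := fun h => ht (h ▸ hs')
    simp [ev2, h1, h2]

lemma sum_ev2 (c : X → X) (hc : ∀ s, c (c s) = s) (x : X → ℚ) (hx : ∀ s, x (c s) = - x s) :
    ∑ s, x s • ev2 c s = (2 : ℚ) • x := by
  funext t
  rw [Finset.sum_apply]
  simp only [Pi.smul_apply, smul_eq_mul, ev2, Pi.sub_apply, Pi.single_apply, mul_sub]
  rw [Finset.sum_sub_distrib]
  have h1 : ∑ s, x s * (if t = s then (1 : ℚ) else 0) = x t := by simp
  have h2 : ∑ s, x s * (if t = c s then (1 : ℚ) else 0) = x (c t) := by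
    have h3 : ∀ s, (if t = c s then (1 : ℚ) else 0) = if c t = s then 1 else 0 := by
      intro s
      have e1 : t = c s ↔ c t = s := ⟨fun h => by rw [h, hc], fun h => by rw [← h, hc]⟩
      simp only [e1]
    simp only [h3]
    simp
  rw [h1, h2, hx]
  ring

/-- The dimension of the space of odd functions. -/
lemma finrank_oddOn (c : X → X) (hc : ∀ s, c (c s) = s) (hne : ∀ s, c s ≠ s) (O : Set X)
    (hO : ∀ s ∈ O, c s ∈ O) : 2 * finrank ℚ (oddOn c O) = Nat.card O := by
  classical
  obtain ⟨T, hT⟩ := exists_transversal c hc hne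
  have hT' : ∀ s, s ∉ T → c s ∈ T := by
    intro s hs
    by_contra h
    exact hs ((hT s).2 h)
  let A : Type := {s : X // s ∈ T ∧ s ∈ O}
  let e : oddOn c O ≃ₗ[ℚ] (A → ℚ) :=
    { toFun := fun x a => x.1 a.1
      map_add' := fun x y => rfl
      map_smul' := fun r x => rfl
      invFun := fun f => ⟨fun s => if h : s ∈ T ∧ s ∈ O then f ⟨s, h⟩
          else if h' : c s ∈ T ∧ c s ∈ O then - f ⟨c s, h'⟩ else 0, by
        constructor
        · intro s
          by_cases h : s ∈ T
          · have h1 := (hT s).1 h
            by_cases h2 : s ∈ O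
            · have h3 := hO s h2
              have h4 : c s ∉ T := h1
              simp [h, h2, h1, hc]
            · have h3 : c s ∉ O := fun h3 => h2 (by have := hO _ h3; rwa [hc] at this)
              simp [h2, h3, hc]
          · have h1 := hT' s h
            by_cases h2 : s ∈ O
            · have h3 := hO s h2
              simp [h, h1, h3]
            · have h3 : c s ∉ O := fun h3 => h2 (by have := hO _ h3; rwa [hc] at this)
              simp [h2, h3, hc]
        · intro s hs
          have h3 : c s ∉ O := fun h3 => hs (by have := hO _ h3; rwa [hc] at this)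
          simp [hs, h3]⟩
      left_inv := by
        rintro ⟨x, hx1, hx2⟩
        apply Subtype.ext
        funext s
        change (if h : s ∈ T ∧ s ∈ O then x s
          else if h' : c s ∈ T ∧ c s ∈ O then - x (c s) else 0) = x s
        by_cases h : s ∈ O
        · have h3 := hO s h
          by_cases h2 : s ∈ T
          · simp [h, h2]
          · have h4 := hT' s h2
            simp [h2, h3, h4, hx1]
        · have h3 : c s ∉ O := fun h3 => h (by have := hO _ h3; rwa [hc] at this)
          simp [h, h3, hx2 s h]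
      right_inv := by
        intro f
        funext a
        change (if h : a.1 ∈ T ∧ a.1 ∈ O then f ⟨a.1, h⟩
          else if h' : c a.1 ∈ T ∧ c a.1 ∈ O then - f ⟨c a.1, h'⟩ else 0) = f a
        rw [dif_pos a.2] }
  have hfin : Fintype A := Fintype.ofFinite A
  rw [LinearEquiv.finrank_eq e, finrank_fintype_fun_eq_card]
  -- the cardinality
  have h1 : Nat.card O = Nat.card (A × Bool) := by
    apply Nat.card_congr
    refine Equiv.symm (Equiv.ofBijective
      (fun p : A × Bool => (⟨if p.2 then p.1.1 else c p.1.1, ?_⟩ : O)) ⟨?_, ?_⟩)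
    · rcases p with ⟨a, b⟩
      cases b
      · exact hO _ a.2.2
      · exact a.2.2
    · rintro ⟨a, b⟩ ⟨a', b'⟩ h
      have h' := congrArg Subtype.val h
      cases b <;> cases b'
      · have h2 : c a.1 = c a'.1 := h'
        have h3 : a.1 = a'.1 := by rw [← hc a.1, h2, hc]
        rw [Subtype.ext h3]
      · exfalso
        have h2 : c a.1 = a'.1 := h'
        apply (hT a.1).1 a.2.1
        rw [h2]
        exact a'.2.1
      · exfalso
        have h2 : a.1 = c a'.1 := h'
        apply (hT a'.1).1 a'.2.1
        rw [← h2]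
        exact a.2.1
      · have h2 : a.1 = a'.1 := h'
        rw [Subtype.ext h2]
    · rintro ⟨s, hs⟩
      by_cases h : s ∈ T
      · exact ⟨⟨⟨s, h, hs⟩, true⟩, rfl⟩
      · refine ⟨⟨⟨c s, hT' s h, hO s hs⟩, false⟩, ?_⟩
        apply Subtype.ext
        exact hc s
  rw [h1, Nat.card_prod, Nat.card_eq_fintype_card, Nat.card_eq_fintype_card, Fintype.card_bool]
  ring

/-- The size of an orbit and the elements acting trivially on it. -/
noncomputable def orbType (G : Type) [Group G] [MulAction G X] (s : X) : ℕ × Set G :=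
  (Nat.card (MulAction.orbit G s), {γ | ∀ u ∈ MulAction.orbit G s, γ • u = u})

/-- Stable subspaces split according to the types of the orbits. -/
theorem res_of_irr {G : Type} [Group G] [MulAction G X]
    (c : X → X) (hc : ∀ s, c (c s) = s) (hne : ∀ s, c s ≠ s)
    (hcG : ∀ (γ : G) (s : X), γ • c s = c (γ • s))
    (hcO : ∀ s, c s ∈ MulAction.orbit G s)
    (hirr : ∀ s, IrrOn G c (MulAction.orbit G s))
    (κ : X → ℕ) (hκ : ∀ s t, orbType G s = orbType G t → κ s = κ t)
    (R : Submodule ℚ (X → ℚ)) (hRO : ∀ x ∈ R, ∀ s, x (c s) = - x s)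
    (hRG : ∀ (γ : G), ∀ x ∈ R, (fun s => x (γ • s)) ∈ R)
    (n : ℕ) (x : X → ℚ) (hx : x ∈ R) :
    resF κ n x ∈ R := by
  classical
  let E : (X → ℚ) →ₗ[ℚ] (X → ℚ) := R.projection (perp R) (isCompl_perp R)
  have hE1 : ∀ x ∈ R, E x = x := fun x hx =>
    Submodule.projection_apply_of_mem_left (isCompl_perp R) hx
  have hE2 : ∀ x, E x ∈ R := fun x => by
    change ((R.projectionOnto (perp R) (isCompl_perp R) x : R) : X → ℚ) ∈ R
    exact Subtype.mem _
  have hE3 : ∀ x, x - E x ∈ perp R := by
    intro x
    obtain ⟨r, hr, d, hd, h⟩ := exists_decomp R x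
    have h1 : E d = 0 := (Submodule.projection_apply_eq_zero_iff (isCompl_perp R)).2 hd
    rw [← h, map_add, hE1 r hr, h1]
    have : r + d - (r + 0) = d := by abel
    rw [this]
    exact hd
  have hE4 : ∀ x r, r ∈ R → x - r ∈ perp R → E x = r := by
    intro x r hr hd
    have h1 : E (x - r) = 0 := (Submodule.projection_apply_eq_zero_iff (isCompl_perp R)).2 hd
    rw [map_sub, hE1 r hr, sub_eq_zero] at h1
    exact h1
  have hEG : ∀ (γ : G) (x : X → ℚ), E (fun s => x (γ • s)) = fun s => E x (γ • s) := by
    intro γ x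
    apply hE4
    · exact hRG γ _ (hE2 x)
    · intro y hy
      have h1 := hE3 x _ (hRG γ⁻¹ y hy)
      change ∑ s, y s * (x (γ • s) - E x (γ • s)) = 0
      rw [← h1, dotB_apply]
      apply Fintype.sum_bijective (fun s => γ • s) (MulAction.bijective γ)
      intro s
      simp only [inv_smul_smul, Pi.sub_apply]
  have hEc : ∀ x s, E x (c s) = - E x s := fun x s => hRO _ (hE2 x) s
  have horb : ∀ (t : X) (γ : G) (s : X), γ • s ∈ MulAction.orbit G t ↔ s ∈ MulAction.orbit G t := by
    intro t γ s
    constructor
    · rintro ⟨δ, hδ⟩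
      refine ⟨γ⁻¹ * δ, ?_⟩
      change (γ⁻¹ * δ) • t = s
      rw [mul_smul, show δ • t = γ • s from hδ, inv_smul_smul]
    · rintro ⟨δ, hδ⟩
      refine ⟨γ * δ, ?_⟩
      change (γ * δ) • t = γ • s
      rw [mul_smul, show δ • t = s from hδ]
  have hcorb : ∀ t s, s ∈ MulAction.orbit G t → c s ∈ MulAction.orbit G t := by
    intro t s hs
    obtain ⟨γ, hγ⟩ := hcO s
    rw [← show γ • s = c s from hγ, horb]
    exact hs
  have hcorb' : ∀ t s, c s ∈ MulAction.orbit G t ↔ s ∈ MulAction.orbit G t := by
    intro t s
    refine ⟨fun h => ?_, hcorb t s⟩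
    have := hcorb t _ h
    rwa [hc] at this
  -- vanishing
  have hvan : ∀ s t, κ s ≠ κ t → E (ev2 c s) t = 0 := by
    intro s t hst
    by_contra hE
    let Φ : (X → ℚ) →ₗ[ℚ] (X → ℚ) :=
      { toFun := fun x u => if u ∈ MulAction.orbit G t then E x u else 0
        map_add' := by
          intro x y
          funext u
          simp only [map_add, Pi.add_apply]
          split_ifs <;> simp
        map_smul' := by
          intro r x
          funext u
          simp only [map_smul, Pi.smul_apply, smul_eq_mul, RingHom.id_apply]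
          split_ifs <;> simp }
    have hΦ : ∀ x u, Φ x u = if u ∈ MulAction.orbit G t then E x u else 0 := fun x u => rfl
    have hΦG : ∀ (γ : G) (x : X → ℚ), Φ (fun s => x (γ • s)) = fun s => Φ x (γ • s) := by
      intro γ x
      funext u
      simp only [hΦ, hEG, horb]
    have hsmem : ev2 c s ∈ oddOn c (MulAction.orbit G s) :=
      ev2_mem c hc _ s (MulAction.mem_orbit_self s) (hcO s)
    have hker : oddOn c (MulAction.orbit G s) ⊓ LinearMap.ker Φ = ⊥ := by
      rcases hirr s (oddOn c (MulAction.orbit G s) ⊓ LinearMap.ker Φ) inf_le_left (by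
        rintro γ x ⟨⟨h1, h2⟩, h3⟩
        refine ⟨⟨?_, ?_⟩, ?_⟩
        · intro u
          simp only [hcG]
          exact h1 _
        · intro u hu
          exact h2 _ (fun h => hu ((horb s γ u).1 h))
        · change Φ (fun s => x (γ • s)) = 0
          rw [hΦG]
          funext u
          have h4 : Φ x = 0 := h3
          rw [h4]
          rfl) with h | h
      · exact h
      · exfalso
        rw [← h] at hsmem
        have h4 : Φ (ev2 c s) = 0 := hsmem.2
        have h5 := congrFun h4 t
        rw [hΦ, if_pos (MulAction.mem_orbit_self t)] at h5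
        exact hE h5
    have hran : (oddOn c (MulAction.orbit G s)).map Φ = oddOn c (MulAction.orbit G t) := by
      rcases hirr t ((oddOn c (MulAction.orbit G s)).map Φ) (by
        rintro _ ⟨x, hx, rfl⟩
        constructor
        · intro u
          simp only [hΦ, hcorb', hEc]
          split_ifs <;> simp
        · intro u hu
          rw [hΦ, if_neg hu]) (by
        rintro γ _ ⟨x, hx, rfl⟩
        refine ⟨fun s => x (γ • s), ⟨?_, ?_⟩, hΦG γ x⟩
        · intro u
          simp only [hcG]
          exact hx.1 _
        · intro u hu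
          exact hx.2 _ (fun h => hu ((horb s γ u).1 h))) with h | h
      · exfalso
        have h4 : Φ (ev2 c s) ∈ (oddOn c (MulAction.orbit G s)).map Φ := ⟨_, hsmem, rfl⟩
        rw [h, Submodule.mem_bot] at h4
        have h5 := congrFun h4 t
        rw [hΦ, if_pos (MulAction.mem_orbit_self t)] at h5
        exact hE h5
      · exact h
    have hfr : finrank ℚ (oddOn c (MulAction.orbit G s)) =
        finrank ℚ (oddOn c (MulAction.orbit G t)) := by
      rw [← hran, ← LinearMap.range_domRestrict]
      symm
      apply LinearMap.finrank_range_of_inj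
      rw [injective_iff_map_eq_zero]
      intro z hz
      have h1 : z.1 ∈ oddOn c (MulAction.orbit G s) ⊓ LinearMap.ker Φ := ⟨z.2, hz⟩
      rw [hker, Submodule.mem_bot] at h1
      exact Subtype.ext h1
    have h1 := finrank_oddOn c hc hne (MulAction.orbit G s) (hcorb s)
    have h2 := finrank_oddOn c hc hne (MulAction.orbit G t) (hcorb t)
    have hfix : ∀ (t : X) (γ : G), (∀ u ∈ MulAction.orbit G t, γ • u = u) ↔
        ∀ y ∈ oddOn c (MulAction.orbit G t), (fun u => y (γ • u)) = y := by
      intro t γ
      constructor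
      · intro h y hy
        funext u
        by_cases hu : u ∈ MulAction.orbit G t
        · rw [h u hu]
        · rw [hy.2 u hu, hy.2 _ (fun h => hu ((horb t γ u).1 h))]
      · intro h u hu
        have h3 : ev2 c u ∈ oddOn c (MulAction.orbit G t) := ev2_mem c hc _ u hu (hcorb t u hu)
        have h4 := congrFun (h _ h3) u
        have h5 : (ev2 c u) u = 1 := by
          simp [ev2, (hne u).symm]
        rw [h5] at h4
        by_contra h6
        simp only [ev2, Pi.sub_apply, Pi.single_apply, if_neg h6] at h4
        split_ifs at h4 <;> norm_num at h4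
    have hker2 : {γ : G | ∀ u ∈ MulAction.orbit G s, γ • u = u} =
        {γ | ∀ u ∈ MulAction.orbit G t, γ • u = u} := by
      ext γ
      change (∀ u ∈ MulAction.orbit G s, γ • u = u) ↔ (∀ u ∈ MulAction.orbit G t, γ • u = u)
      rw [hfix, hfix]
      constructor
      · intro h y hy
        rw [← hran] at hy
        obtain ⟨x, hx, rfl⟩ := hy
        rw [← hΦG, h x hx]
      · intro h y hy
        have h3 : (fun u => y (γ • u)) - y ∈
            oddOn c (MulAction.orbit G s) ⊓ LinearMap.ker Φ := by
          refine ⟨Submodule.sub_mem _ ⟨?_, ?_⟩ hy, ?_⟩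
          · intro u
            simp only [hcG]
            exact hy.1 _
          · intro u hu
            exact hy.2 _ (fun h => hu ((horb s γ u).1 h))
          · change Φ ((fun u => y (γ • u)) - y) = 0
            rw [map_sub, hΦG, h _ (by rw [← hran]; exact ⟨y, hy, rfl⟩), sub_self]
        rw [hker, Submodule.mem_bot, sub_eq_zero] at h3
        exact h3
    apply hst
    apply hκ
    exact Prod.ext (by change Nat.card _ = Nat.card _; rw [← h1, ← h2, hfr]) hker2
  have hexp : ∀ z : X → ℚ, (∀ s, z (c s) = - z s) → ∀ t, 2 * E z t = ∑ s, z s * E (ev2 c s) t := by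
    intro z hz t
    have h1 := congrArg (fun w => E w t) (sum_ev2 c hc z hz)
    simp only [map_sum, map_smul, Finset.sum_apply, Pi.smul_apply, smul_eq_mul] at h1
    exact h1.symm
  have hκc : ∀ s, κ (c s) = κ s := by
    intro s
    apply hκ
    simp only [orbType]
    rw [MulAction.orbit_eq_iff.2 (hcO s)]
  have hxo : ∀ s, x (c s) = - x s := hRO x hx
  have hyo : ∀ s, resF κ n x (c s) = - resF κ n x s := by
    intro s
    simp only [resF, hκc]
    split_ifs
    · exact hxo s
    · simp
  have hEy : E (resF κ n x) = resF κ n x := by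
    funext t
    have h1 := hexp _ hyo t
    by_cases ht : κ t = n
    · have h2 := hexp x hxo t
      rw [hE1 x hx] at h2
      have h3 : ∑ s, resF κ n x s * E (ev2 c s) t = ∑ s, x s * E (ev2 c s) t := by
        apply Finset.sum_congr rfl
        intro s _
        by_cases hs : κ s = n
        · simp only [resF, if_pos hs]
        · rw [hvan s t (by rw [ht]; exact hs), mul_zero, mul_zero]
      rw [h3, ← h2] at h1
      simp only [resF, if_pos ht]
      linarith
    · have h3 : ∑ s, resF κ n x s * E (ev2 c s) t = 0 := by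
        apply Finset.sum_eq_zero
        intro s _
        by_cases hs : κ s = n
        · rw [hvan s t (by rw [hs]; exact fun h => ht h.symm), mul_zero]
        · simp only [resF, if_neg hs, zero_mul]
      rw [h3] at h1
      simp only [resF, if_neg ht]
      linarith
  rw [← hEy]
  exact hE2 _

end irrC

end Pool.Agent.Lib.MP_640417_ag.Frob
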