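import Pool.Agent.Lib.MP_640417_ag.Frob.IrrC

/-!
# The stable spaces of odd functions
-/

namespace Pool.Agent.Lib.MP_640417_ag.Frob

open Pool.Agent.Lib.MP_640417_ag Module

section irrD

variable {X : Type} [Fintype X] [DecidableEq X]

/-- The orbits are stable under the involution. -/
lemma c_mem_orbit {H : Type} [Group H] [MulAction H X]
    (c : X → X) (hc : ∀ s, c (c s) = s)
    (hcH : ∀ (γ : H) (s : X), γ • c s = c (γ • s))
    (hodd : ∀ Y : Finset X, Y.Nonempty → (∀ s ∈ Y, c s ∈ Y) →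
      (∀ s ∈ Y, ∀ t ∈ Y, orbType H s = orbType H t) →
      ∀ hY : (∀ (γ : H) (s : X), γ • s ∈ Y ↔ s ∈ Y),
      ∃ γ : H, Equiv.Perm.sign ((MulAction.toPerm γ : Equiv.Perm X).subtypePerm
        (p := fun s => s ∈ Y) (fun s => hY γ s)) = -1) (s₀ : X) :
    c s₀ ∈ MulAction.orbit H s₀ := by
  classical
  by_contra hmem
  have horbc : ∀ s t, t ∈ MulAction.orbit H (c s) ↔ c t ∈ MulAction.orbit H s := by
    intro s t
    constructor
    · rintro ⟨γ, hγ⟩
      refine ⟨γ, ?_⟩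
      change γ • s = c t
      rw [← show γ • c s = t from hγ, hcH, hc]
    · rintro ⟨γ, hγ⟩
      refine ⟨γ, ?_⟩
      change γ • c s = t
      rw [hcH, show γ • s = c t from hγ, hc]
  have hcard : ∀ s, orbType H (c s) = orbType H s := by
    intro s
    apply Prod.ext
    · apply Nat.card_congr
      refine ⟨fun t => ⟨c t.1, (horbc s t.1).1 t.2⟩, fun t => ⟨c t.1, (horbc s _).2 ?_⟩,
        fun t => Subtype.ext (hc _), fun t => Subtype.ext (hc _)⟩
      rw [hc]
      exact t.2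
    · ext γ
      constructor
      · intro h u hu
        have h1 := h (c u) ((horbc s _).2 (by rw [hc]; exact hu))
        rw [hcH] at h1
        rw [← hc (γ • u), h1, hc]
      · intro h u hu
        have h1 := h (c u) ((horbc s _).1 hu)
        rw [hcH] at h1
        rw [← hc (γ • u), h1, hc]
  let O : Finset X := Finset.univ.filter (fun s => ∃ γ : H, γ • s₀ = s)
  let Y : Finset X := Finset.univ.filter (fun s => s ∈ O ∨ c s ∈ O)
  have hO : ∀ s, s ∈ O ↔ ∃ γ : H, γ • s₀ = s := by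
    intro s; simp [O]
  have hYm : ∀ s, s ∈ Y ↔ s ∈ O ∨ c s ∈ O := by
    intro s; simp [Y]
  have hOG : ∀ (γ : H) (s : X), γ • s ∈ O ↔ s ∈ O := by
    intro γ s
    rw [hO, hO]
    constructor
    · rintro ⟨δ, hδ⟩
      exact ⟨γ⁻¹ * δ, by rw [mul_smul, hδ, inv_smul_smul]⟩
    · rintro ⟨δ, hδ⟩
      exact ⟨γ * δ, by rw [mul_smul, hδ]⟩
  have hdisj : ∀ s, s ∈ O → c s ∉ O := by
    intro s hs hcs
    obtain ⟨γ, hγ⟩ := (hO s).mp hs
    obtain ⟨δ, hδ⟩ := (hO (c s)).mp hcs
    apply hmem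
    refine ⟨γ⁻¹ * δ, ?_⟩
    change (γ⁻¹ * δ) • s₀ = c s₀
    rw [mul_smul, hδ, ← hγ, ← hcH, inv_smul_smul]
  have hsm : ∀ (γ : H) (s : X), orbType H (γ • s) = orbType H s := by
    intro γ s
    simp only [orbType]
    rw [MulAction.orbit_smul]
  have hcardY : ∀ s ∈ Y, orbType H s = orbType H s₀ := by
    intro s hs
    rw [hYm] at hs
    rcases hs with h | h
    · obtain ⟨γ, rfl⟩ := (hO s).1 h
      rw [hsm]
    · obtain ⟨γ, hγ⟩ := (hO _).1 h
      rw [← hcard, ← hγ, hsm]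
  obtain ⟨γ, hγ⟩ := hodd Y ⟨s₀, (hYm s₀).mpr (Or.inl ((hO s₀).mpr ⟨1, one_smul _ _⟩))⟩
    (by
      intro s hs
      rw [hYm] at hs ⊢
      rw [hc]
      exact hs.symm)
    (by
      intro s hs t ht
      rw [hcardY s hs, hcardY t ht])
    (by
      intro γ s
      rw [hYm, hYm, ← hcH, hOG, hOG])
  have hYc : ∀ s ∈ Y, c s ∈ Y := by
    intro s hs
    rw [hYm] at hs ⊢
    rw [hc]
    exact hs.symm
  let cY : {s // s ∈ Y} → {s // s ∈ Y} := fun s => ⟨c s.1, hYc s.1 s.2⟩
  let TT : Finset {s // s ∈ Y} := Finset.univ.filter (fun s => s.1 ∈ O)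
  let ε : {s // s ∈ Y} → ℤˣ := fun s => if s.1 ∈ O then 1 else -1
  have hor : ∀ s : {s // s ∈ Y}, s.1 ∈ O ∨ c s.1 ∈ O := fun s => (hYm s.1).mp s.2
  have hYG : ∀ (γ : H) (s : X), γ • s ∈ Y ↔ s ∈ Y := by
    intro γ s
    rw [hYm, hYm, ← hcH, hOG, hOG]
  have hsign := prod_transversal cY (fun s => Subtype.ext (hc s.1))
    ((MulAction.toPerm γ : Equiv.Perm X).subtypePerm (p := fun s => s ∈ Y) (fun s => hYG γ s))
    (fun s => Subtype.ext (hcH γ s.1)) ε (by
      intro s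
      simp only [ε, cY]
      rcases hor s with h | h
      · have := hdisj s.1 h
        simp [h, this]
      · have h2 : s.1 ∉ O := by
          intro h3
          exact hdisj s.1 h3 h
        simp [h, h2]) TT (by
      intro s
      simp only [TT, Finset.mem_filter, Finset.mem_univ, true_and, cY]
      constructor
      · exact hdisj s.1
      · intro h
        exact (hor s).resolve_right h)
  have h1 : ∏ s ∈ TT, ε (((MulAction.toPerm γ : Equiv.Perm X).subtypePerm (p := fun s => s ∈ Y)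
      (fun s => hYG γ s)) s) = 1 := by
    apply Finset.prod_eq_one
    intro s hs
    simp only [TT, Finset.mem_filter, Finset.mem_univ, true_and] at hs
    have h3 : γ • s.1 ∈ O := (hOG γ s.1).mpr hs
    exact if_pos h3
  have h2 : ∏ s ∈ TT, ε s = 1 := by
    apply Finset.prod_eq_one
    intro s hs
    simp only [TT, Finset.mem_filter, Finset.mem_univ, true_and] at hs
    simp [ε, hs]
  rw [h1, h2, mul_one, hγ] at hsign
  exact absurd hsign (by decide)

omit [DecidableEq X] in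
/-- Labels for the values of a function. -/
lemma exists_label {β : Type} (f : X → β) : ∃ κ : X → ℕ, ∀ s t, κ s = κ t ↔ f s = f t := by
  classical
  have hex : ∀ s, ∃ r, f r = f s := fun s => ⟨s, rfl⟩
  let e := Fintype.equivFin X
  let g : X → Fin (Fintype.card X) := fun s =>
    Finset.min' (Finset.univ.filter (fun i => f (e.symm i) = f s)) ⟨e s, by simp⟩
  refine ⟨fun s => (g s : ℕ), fun s t => ?_⟩
  constructor
  · intro h
    have h1 : g s = g t := Fin.ext h
    have h2 := Finset.min'_mem (Finset.univ.filter (fun i => f (e.symm i) = f s)) ⟨e s, by simp⟩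
    have h3 := Finset.min'_mem (Finset.univ.filter (fun i => f (e.symm i) = f t)) ⟨e t, by simp⟩
    rw [Finset.mem_filter] at h2 h3
    rw [← h2.2, ← h3.2]
    exact congrArg (fun i => f (e.symm i)) h1
  · intro h
    have h1 : g s = g t := by
      simp only [g, h]
    exact congrArg Fin.val h1

/-- Irreducibility and splitting. -/
theorem irr_setup {G H : Type} [Group G] [Group H] [Finite H] [MulAction G X] [MulAction H X]
    (c : X → X) (hc : ∀ s, c (c s) = s) (hne : ∀ s, c s ≠ s)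
    (hcG : ∀ (γ : G) (s : X), γ • c s = c (γ • s))
    (hHG : ∀ h : H, ∃ γ : G, ∀ s : X, h • s = γ • s)
    (hpow : ∀ s : X, ∃ k : ℕ, Nat.card (MulAction.orbit H s) = 2 ^ k)
    (hodd : ∀ Y : Finset X, Y.Nonempty → (∀ s ∈ Y, c s ∈ Y) →
      (∀ s ∈ Y, ∀ t ∈ Y, orbType H s = orbType H t) →
      ∀ hY : (∀ (γ : H) (s : X), γ • s ∈ Y ↔ s ∈ Y),
      ∃ γ : H, Equiv.Perm.sign ((MulAction.toPerm γ : Equiv.Perm X).subtypePerm
        (p := fun s => s ∈ Y) (fun s => hY γ s)) = -1) :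
    (∀ s, IrrOn G c (MulAction.orbit G s)) ∧
    (∀ R : Submodule ℚ (X → ℚ), (∀ x ∈ R, ∀ s, x (c s) = - x s) →
      (∀ (γ : H), ∀ x ∈ R, (fun s => x (γ • s)) ∈ R) →
      ∀ κ : X → ℕ, (∀ s t, orbType H s = orbType H t → κ s = κ t) →
      ∀ x ∈ R, ∀ k, resF κ k x ∈ R) ∧
    (∀ R : Submodule ℚ (X → ℚ), (∀ x ∈ R, ∀ s, x (c s) = - x s) →
      (∀ (γ : G), ∀ x ∈ R, (fun s => x (γ • s)) ∈ R) →
      ∀ κ : X → ℕ, (∀ s t, orbType G s = orbType G t → κ s = κ t) →
      ∀ x ∈ R, ∀ k, resF κ k x ∈ R) := by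
  classical
  have hcH : ∀ (γ : H) (s : X), γ • c s = c (γ • s) := by
    intro h s
    obtain ⟨γ, hγ⟩ := hHG h
    rw [hγ, hγ, hcG]
  have hcOH : ∀ s, c s ∈ MulAction.orbit H s := c_mem_orbit c hc hcH hodd
  have hcOG : ∀ s, c s ∈ MulAction.orbit G s := by
    intro s
    obtain ⟨h, hh⟩ := hcOH s
    obtain ⟨γ, hγ⟩ := hHG h
    exact ⟨γ, by rw [← hh]; exact (hγ s).symm⟩
  have horbH : ∀ (t : X) (s : X), s ∈ MulAction.orbit H t →
      MulAction.orbit H s = MulAction.orbit H t := fun t s h => MulAction.orbit_eq_iff.2 h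
  -- irreducibility for the small group
  have hirrH : ∀ s, IrrOn H c (MulAction.orbit H s) := by
    intro v R' hR' hR'H
    refine irrOn_of_parity (G := H) (H := H) c hc hne hcH (fun h => ⟨h, fun s => rfl⟩) hpow
      (fun _ => 0) (fun _ _ => rfl) (fun _ => rfl) v (hcOH v) ?_ R' hR' hR'H ?_
    · intro Y hYne hYO hYc _ hY
      refine hodd Y hYne hYc ?_ hY
      intro s hs t ht
      simp only [orbType]
      rw [horbH v s (hYO s hs), horbH v t (hYO t ht)]
    · intro y hy k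
      by_cases hk : 0 = k
      · have : resF (fun _ => 0) k y = y := by
          funext s
          simp [resF, hk]
        rw [this]
        exact hy
      · have : resF (fun _ => 0) k y = 0 := by
          funext s
          simp [resF, hk]
        rw [this]
        exact R'.zero_mem
  obtain ⟨κ, hκ⟩ := exists_label (orbType H : X → _)
  have hcard : ∀ (h : H) (s : X), κ (h • s) = κ s := by
    intro h s
    rw [hκ]
    simp only [orbType]
    rw [MulAction.orbit_smul]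
  have hcardc : ∀ s : X, κ (c s) = κ s := by
    intro s
    rw [hκ]
    simp only [orbType]
    rw [horbH s (c s) (hcOH s)]
  have hHstab : ∀ R' : Submodule ℚ (X → ℚ), (∀ (γ : G), ∀ x ∈ R', (fun s => x (γ • s)) ∈ R') →
      ∀ (γ : H), ∀ x ∈ R', (fun s => x (γ • s)) ∈ R' := by
    intro R' hR' h x hx
    obtain ⟨γ, hγ⟩ := hHG h
    simp only [hγ]
    exact hR' γ x hx
  -- irreducibility for the large group
  have hirrG : ∀ s, IrrOn G c (MulAction.orbit G s) := by
    intro v R' hR' hR'G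
    refine irrOn_of_parity (G := G) (H := H) c hc hne hcG hHG hpow
      κ hcard hcardc v (hcOG v) ?_ R' hR' hR'G ?_
    · intro Y hYne _ hYc hYcard hY
      exact hodd Y hYne hYc (fun s hs t ht => (hκ s t).1 (hYcard s hs t ht)) hY
    · intro y hy k
      exact res_of_irr c hc hne hcH hcOH hirrH κ (fun s t h => (hκ s t).2 h) R'
        (fun x hx => (hR' hx).1) (hHstab R' hR'G) k y hy
  refine ⟨hirrG, ?_, ?_⟩
  · intro R hRO hRH κ hκ x hx k
    exact res_of_irr c hc hne hcH hcOH hirrH κ hκ R hRO hRH k x hx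
  · intro R hRO hRG κ hκ x hx k
    exact res_of_irr c hc hne hcG hcOG hirrG κ hκ R hRO hRG k x hx

/-- A stable space of odd functions contains the odd functions on an orbit which is the only one
of its type. -/
theorem odd_submodule {G H : Type} [Group G] [Group H] [Finite H] [MulAction G X] [MulAction H X]
    (c : X → X) (hc : ∀ s, c (c s) = s) (hne : ∀ s, c s ≠ s)
    (hcG : ∀ (γ : G) (s : X), γ • c s = c (γ • s))
    (hHG : ∀ h : H, ∃ γ : G, ∀ s : X, h • s = γ • s)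
    (hpow : ∀ s : X, ∃ k : ℕ, Nat.card (MulAction.orbit H s) = 2 ^ k)
    (hodd : ∀ Y : Finset X, Y.Nonempty → (∀ s ∈ Y, c s ∈ Y) →
      (∀ s ∈ Y, ∀ t ∈ Y, orbType H s = orbType H t) →
      ∀ hY : (∀ (γ : H) (s : X), γ • s ∈ Y ↔ s ∈ Y),
      ∃ γ : H, Equiv.Perm.sign ((MulAction.toPerm γ : Equiv.Perm X).subtypePerm
        (p := fun s => s ∈ Y) (fun s => hY γ s)) = -1)
    (R : Submodule ℚ (X → ℚ)) (hRO : ∀ x ∈ R, ∀ s, x (c s) = - x s)
    (hRG : ∀ (γ : G), ∀ x ∈ R, (fun s => x (γ • s)) ∈ R)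
    (x : X → ℚ) (hx : x ∈ R) (s : X) (hs : x s ≠ 0)
    (hdist : ∀ t : X, orbType G t = orbType G s → t ∈ MulAction.orbit G s) : ev2 c s ∈ R := by
  classical
  obtain ⟨hirrG, -, hresG⟩ := irr_setup c hc hne hcG hHG hpow hodd
  have hcH : ∀ (γ : H) (s : X), γ • c s = c (γ • s) := by
    intro h s
    obtain ⟨γ, hγ⟩ := hHG h
    rw [hγ, hγ, hcG]
  have hcOH : ∀ s, c s ∈ MulAction.orbit H s := c_mem_orbit c hc hcH hodd
  have hcOG : ∀ s, c s ∈ MulAction.orbit G s := by
    intro s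
    obtain ⟨h, hh⟩ := hcOH s
    obtain ⟨γ, hγ⟩ := hHG h
    exact ⟨γ, by rw [← hh]; exact (hγ s).symm⟩
  obtain ⟨κ', hκ'⟩ := exists_label (orbType G : X → _)
  have h1 := hresG R hRO hRG κ' (fun s t h => (hκ' s t).2 h) x hx (κ' s)
  have horb : ∀ (t : X) (γ : G) (s : X), γ • s ∈ MulAction.orbit G t ↔ s ∈ MulAction.orbit G t := by
    intro t γ s
    constructor
    · rintro ⟨δ, hδ⟩
      refine ⟨γ⁻¹ * δ, ?_⟩
      change (γ⁻¹ * δ) • t = s
      rw [mul_smul, show δ • t = γ • s from hδ, inv_smul_smul]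
    · rintro ⟨δ, hδ⟩
      refine ⟨γ * δ, ?_⟩
      change (γ * δ) • t = γ • s
      rw [mul_smul, show δ • t = s from hδ]
  rcases hirrG s (R ⊓ oddOn c (MulAction.orbit G s)) inf_le_right (by
    rintro γ y ⟨hy1, hy2, hy3⟩
    refine ⟨hRG γ y hy1, ?_, ?_⟩
    · intro u
      simp only [hcG]
      exact hy2 _
    · intro u hu
      exact hy3 _ (fun h => hu ((horb s γ u).1 h))) with h | h
  · exfalso
    have h2 : resF κ' (κ' s) x ∈ R ⊓ oddOn c (MulAction.orbit G s) := by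
      refine ⟨h1, fun u => hRO _ h1 u, ?_⟩
      intro u hu
      simp only [resF]
      rw [if_neg]
      intro h3
      exact hu (hdist u ((hκ' u s).1 h3))
    rw [h, Submodule.mem_bot] at h2
    have h3 := congrFun h2 s
    simp only [resF, if_true, Pi.zero_apply] at h3
    exact hs h3
  · have h2 : ev2 c s ∈ oddOn c (MulAction.orbit G s) :=
      ev2_mem c hc _ s (MulAction.mem_orbit_self s) (hcOG s)
    rw [← h] at h2
    exact h2.1

/-- A stable space orthogonal to a function with odd values on the orbits of one type vanishes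
there. -/
theorem odd_contra {G H : Type} [Group G] [Group H] [Finite H] [MulAction G X] [MulAction H X]
    (c : X → X) (hc : ∀ s, c (c s) = s) (hne : ∀ s, c s ≠ s)
    (hcG : ∀ (γ : G) (s : X), γ • c s = c (γ • s))
    (hHG : ∀ h : H, ∃ γ : G, ∀ s : X, h • s = γ • s)
    (hpow : ∀ s : X, ∃ k : ℕ, Nat.card (MulAction.orbit H s) = 2 ^ k)
    (hodd : ∀ Y : Finset X, Y.Nonempty → (∀ s ∈ Y, c s ∈ Y) →
      (∀ s ∈ Y, ∀ t ∈ Y, orbType H s = orbType H t) →
      ∀ hY : (∀ (γ : H) (s : X), γ • s ∈ Y ↔ s ∈ Y),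
      ∃ γ : H, Equiv.Perm.sign ((MulAction.toPerm γ : Equiv.Perm X).subtypePerm
        (p := fun s => s ∈ Y) (fun s => hY γ s)) = -1)
    (R : Submodule ℚ (X → ℚ)) (hRO : ∀ x ∈ R, ∀ s, x (c s) = - x s)
    (hRG : ∀ (γ : G), ∀ x ∈ R, (fun s => x (γ • s)) ∈ R)
    (s₀ : X) (w : X → ℤ) (hwc : ∀ s, w (c s) = - w s)
    (hwodd : ∀ u, orbType G u = orbType G s₀ → Odd (w u))
    (hw : ∀ y ∈ R, (∀ u, orbType G u ≠ orbType G s₀ → y u = 0) → ∑ u, y u * w u = 0)
    (x : X → ℚ) (hx : x ∈ R) (s : X) (hs : x s ≠ 0) (hs₀ : orbType G s = orbType G s₀) :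
    False := by
  classical
  obtain ⟨hirrG, hresH, hresG⟩ := irr_setup c hc hne hcG hHG hpow hodd
  have hcH : ∀ (γ : H) (s : X), γ • c s = c (γ • s) := by
    intro h s
    obtain ⟨γ, hγ⟩ := hHG h
    rw [hγ, hγ, hcG]
  have hcOH : ∀ s, c s ∈ MulAction.orbit H s := c_mem_orbit c hc hcH hodd
  have hcOG : ∀ s, c s ∈ MulAction.orbit G s := by
    intro s
    obtain ⟨h, hh⟩ := hcOH s
    obtain ⟨γ, hγ⟩ := hHG h
    exact ⟨γ, by rw [← hh]; exact (hγ s).symm⟩
  obtain ⟨κ, hκ⟩ := exists_label (orbType H : X → _)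
  obtain ⟨κ', hκ'⟩ := exists_label (orbType G : X → _)
  have hcard : ∀ (h : H) (s : X), κ (h • s) = κ s := by
    intro h s
    rw [hκ]
    simp only [orbType]
    rw [MulAction.orbit_smul]
  have hcardc : ∀ s : X, κ (c s) = κ s := by
    intro s
    rw [hκ]
    simp only [orbType]
    rw [MulAction.orbit_eq_iff.2 (hcOH s)]
  have hcardG : ∀ (h : G) (s : X), κ' (h • s) = κ' s := by
    intro h s
    rw [hκ']
    simp only [orbType]
    rw [MulAction.orbit_smul]
  have hcardcG : ∀ s : X, κ' (c s) = κ' s := by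
    intro s
    rw [hκ']
    simp only [orbType]
    rw [MulAction.orbit_eq_iff.2 (hcOG s)]
  let O : Set X := {u | orbType G u = orbType G s₀}
  have hO : ∀ u, u ∈ O ↔ κ' u = κ' s₀ := fun u => (hκ' u s₀).symm
  have hOG : ∀ (γ : G) (s : X), γ • s ∈ O ↔ s ∈ O := fun γ s => by rw [hO, hO, hcardG]
  have hOc : ∀ (s : X), c s ∈ O ↔ s ∈ O := fun s => by rw [hO, hO, hcardcG]
  let A : Submodule ℚ (X → ℚ) := R ⊓ oddOn c O
  let B : Submodule ℚ (X → ℚ) := perp A ⊓ oddOn c O
  have hA : A ≤ oddOn c O := inf_le_right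
  have hB : B ≤ oddOn c O := inf_le_right
  have hAG : ∀ (γ : G), ∀ x ∈ A, (fun s => x (γ • s)) ∈ A := by
    rintro γ y ⟨hy1, hy2, hy3⟩
    refine ⟨hRG γ y hy1, ?_, ?_⟩
    · intro u
      simp only [hcG]
      exact hy2 _
    · intro u hu
      exact hy3 _ (fun h => hu ((hOG γ u).1 h))
  have hBG : ∀ (γ : G), ∀ x ∈ B, (fun s => x (γ • s)) ∈ B := by
    rintro γ y ⟨hy1, hy2, hy3⟩
    refine ⟨?_, ?_, ?_⟩
    · intro x hx
      have h1 := hy1 _ (hAG γ⁻¹ x hx)
      rw [dotB_apply] at h1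
      change ∑ s, x s * y (γ • s) = 0
      rw [← h1]
      apply Fintype.sum_bijective (fun s => γ • s) (MulAction.bijective γ)
      intro s
      simp only [inv_smul_smul]
    · intro u
      simp only [hcG]
      exact hy2 _
    · intro u hu
      exact hy3 _ (fun h => hu ((hOG γ u).1 h))
  have hstabH : ∀ R' : Submodule ℚ (X → ℚ), (∀ (γ : G), ∀ x ∈ R', (fun s => x (γ • s)) ∈ R') →
      ∀ (γ : H), ∀ x ∈ R', (fun s => x (γ • s)) ∈ R' := by
    intro R' hR' h x hx
    obtain ⟨γ, hγ⟩ := hHG h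
    simp only [hγ]
    exact hR' γ x hx
  have hAH := hstabH A hAG
  have hBH := hstabH B hBG
  have hAκ : ∀ x ∈ A, ∀ k, resF κ k x ∈ A :=
    hresH A (fun x hx => (hA hx).1) hAH κ (fun s t h => (hκ s t).2 h)
  have hBκ : ∀ x ∈ B, ∀ k, resF κ k x ∈ B :=
    hresH B (fun x hx => (hB hx).1) hBH κ (fun s t h => (hκ s t).2 h)
  have hAB : ∀ x ∈ A, ∀ y ∈ B, ∑ s, x s * y s = 0 := fun x hx y hy => hy.1 x hx
  -- the function `w` on the orbits of the given type
  let w' : X → ℤ := fun u => if κ' u = κ' s₀ then w u else 0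
  have hw' : w' ∈ latt B := by
    refine ⟨?_, ?_, ?_⟩
    · intro y hy
      have h1 := hw y hy.1 (fun u hu => hy.2.2 u hu)
      rw [dotB_apply, ← h1]
      apply Finset.sum_congr rfl
      intro u _
      by_cases hu : κ' u = κ' s₀
      · simp only [w', if_pos hu]
      · rw [hy.2.2 u (fun h => hu ((hO u).1 h)), zero_mul, zero_mul]
    · intro u
      change ((w' (c u) : ℤ) : ℚ) = - ((w' u : ℤ) : ℚ)
      simp only [w', hcardcG, hwc]
      split_ifs <;> simp
    · intro u hu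
      change ((w' u : ℤ) : ℚ) = 0
      simp only [w']
      rw [if_neg (fun h => hu ((hO u).2 h)), Int.cast_zero]
  have hw'odd : ∀ u, Odd (w' u) ↔ u ∈ O := by
    intro u
    rw [hO]
    simp only [w']
    split_ifs with h
    · simp only [h, iff_true]
      exact hwodd u ((hκ' u s₀).1 h)
    · simp [h]
  -- a nonzero element
  have hA0 : A ≠ ⊥ := by
    intro h0
    have h1 := hresG R hRO hRG κ' (fun s t h => (hκ' s t).2 h) x hx (κ' s₀)
    have h2 : resF κ' (κ' s₀) x ∈ A := by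
      refine ⟨h1, fun u => hRO _ h1 u, ?_⟩
      intro u hu
      simp only [resF]
      rw [if_neg (fun h => hu ((hO u).2 h))]
    rw [h0, Submodule.mem_bot] at h2
    have h3 := congrFun h2 s
    simp only [resF, if_pos ((hκ' s s₀).2 hs₀), Pi.zero_apply] at h3
    exact hs h3
  obtain ⟨P⟩ : Nonempty (Sylow 2 H) := inferInstance
  have hodd2 : ∀ a : ℤ, Odd a ↔ (a : ZMod 2) ≠ 0 := by
    intro a
    rw [← Int.not_even_iff_odd, even_iff_two_dvd, not_iff_not]
    exact (ZMod.intCast_zmod_eq_zero_iff_dvd a 2).symm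
  obtain ⟨v, hv, hv0⟩ := exists_latt_ne A hA0
  obtain ⟨u, hu, hu0, hufix⟩ := exists_fixed_reduction (latt A) (latt_sat A) v hv hv0 2
    P.isPGroup' (fun γ u hu => hAH γ.1 _ hu)
  apply hu0
  funext t
  by_contra h4
  refine claim_one (H := H) c hc hne hcH κ hcard hcardc O ?_ A B hA hB hAκ hBκ hBH hAB u w' hu hw'
    ?_ ?_ ?_ t ?_
  · intro Y hYne _ hYc hYcard hY
    exact hodd Y hYne hYc (fun s hs t ht => (hκ s t).1 (hYcard s hs t ht)) hY
  · intro h s
    obtain ⟨k, hk⟩ := hpow s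
    obtain ⟨δ, hδ⟩ := orbit_sylow_eq P s k hk h
    have h9 : (u (δ • s) : ZMod 2) = u s := hufix δ s
    rw [hodd2, hodd2, ← hδ, h9]
  · intro h s
    obtain ⟨γ, hγ⟩ := hHG h
    rw [hw'odd, hw'odd, hγ, hOG]
  · intro r hr
    rw [hw'odd]
    by_contra h5
    have h6 : ((u r : ℤ) : ℚ) = 0 := (hA hu).2 r h5
    have h7 : u r = 0 := by exact_mod_cast h6
    rw [h7] at hr
    exact absurd hr (by decide)
  · rw [hodd2]
    exact h4

end irrD

end Pool.Agent.Lib.MP_640417_ag.Frob
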