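import Pool.Agent.Lib.MP_640417_ag.Frob.Types
import Pool.Agent.Lib.MP_640417_ag.Frob.AngleA
import Pool.Agent.Lib.MP_640417_ag.Frob.DiscC
import Pool.Agent.Lib.MP_640417_ag.Frob.IrrD

/-!
# The Galois action on the roots
-/

namespace Pool.Agent.Lib.MP_640417_ag.Frob

open Polynomial Pool.Agent.Lib.MP_640417_ag

lemma splits_of_associated {M K : Type} [Field M] [Field K] [Algebra M K] {A B : M[X]}
    (h : Associated A B) (hA : (A.map (algebraMap M K)).Splits) (hB : B ≠ 0) :
    (B.map (algebraMap M K)).Splits := by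
  have hA0 : A ≠ 0 := fun h0 => hB (h.eq_zero_iff.1 h0)
  exact Splits.of_dvd hA (by rwa [Ne, Polynomial.map_eq_zero]) (Polynomial.map_dvd _ h.symm.dvd)

lemma SameSplit.of_associated {M : Type} [Field M] {A B : M[X]} (h : Associated A B)
    (hB : B ≠ 0) : SameSplit A B := by
  have hA0 : A ≠ 0 := fun h0 => hB (h.eq_zero_iff.1 h0)
  exact ⟨natDegree_eq_of_degree_eq (degree_eq_degree_of_associated h),
    splits_of_associated h.symm (SplittingField.splits B) hA0,
    splits_of_associated h (SplittingField.splits A) hB⟩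

/-- A polynomial such that no monic factor with irreducible factors of one degree has a square
discriminant is separable. -/
theorem separable_of_discr2 {M F : Type} [Field M] [CharZero M] [Field F] [CharZero F]
    (P : ℤ[X]) (hPm : P.Monic)
    (hdisc : ∀ Q : M[X], Q.Monic → Q ∣ P.map (Int.castRingHom M) → Q ≠ 1 →
      (∀ A B : M[X], Irreducible A → Irreducible B → A ∣ Q → B ∣ Q → SameSplit A B) →
      ¬ IsSquare Q.discr) :
    (P.map (Int.castRingHom F)).Separable := by
  have hsq : Squarefree (P.map (Int.castRingHom M)) := by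
    rw [squarefree_iff_irreducible_sq_not_dvd_of_ne_zero (hPm.map (Int.castRingHom M)).ne_zero]
    intro x hxirr hx
    have hx0 : x ≠ 0 := hxirr.ne_zero
    have hl : x.leadingCoeff ≠ 0 := leadingCoeff_ne_zero.mpr hx0
    let q : M[X] := C x.leadingCoeff⁻¹ * x
    have hqm : q.Monic := by
      change (C x.leadingCoeff⁻¹ * x).Monic
      rw [Monic, leadingCoeff_mul, leadingCoeff_C, inv_mul_cancel₀ hl]
    have hxq : Associated q x := by
      refine (associated_isUnit_mul_left_iff ?_).mpr (Associated.refl x)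
      exact isUnit_C.mpr (inv_ne_zero hl).isUnit
    have hqirr : Irreducible q := hxq.irreducible_iff.2 hxirr
    have hqd : q * q ∣ P.map (Int.castRingHom M) :=
      (hxq.mul_mul hxq).dvd.trans hx
    have hfac : ∀ A : M[X], Irreducible A → A ∣ q * q → Associated A q := by
      intro A hA hAq
      have h1 : A ∣ q := by
        rcases hA.prime.dvd_or_dvd hAq with h | h <;> exact h
      exact hA.associated_of_dvd hqirr h1
    have hd : 0 < q.natDegree := hqirr.natDegree_pos
    have hQm : (q * q).Monic := hqm.mul hqm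
    refine hdisc (q * q) hQm hqd ?_ ?_ ?_
    · intro h
      exact hqirr.not_isUnit (isUnit_iff_exists_inv.mpr ⟨q, h⟩)
    · intro A B hA hB hAq hBq
      exact SameSplit.of_associated ((hfac A hA hAq).trans (hfac B hB hBq).symm) hB.ne_zero
    · have hdQ : 0 < (q * q).degree := by
        rw [← natDegree_pos_iff_degree_pos, hqm.natDegree_mul hqm]
        omega
      have h1 := resultant_deriv hdQ
      have h2 : (derivative (q * q)).natDegree = (q * q).natDegree - 1 :=
        natDegree_derivative _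
      rw [← h2] at h1
      have h3 : resultant (q * q) (derivative (q * q)) = 0 := by
        rw [resultant_eq_zero_iff]
        refine ⟨Or.inl hQm.ne_zero, fun hcop => hqirr.not_isUnit ?_⟩
        refine hcop.isUnit_of_dvd' (dvd_mul_right q q) ?_
        rw [derivative_mul]
        exact dvd_add (dvd_mul_left q _) (dvd_mul_right q _)
      rw [h3, hQm.leadingCoeff, mul_one] at h1
      rcases mul_eq_zero.mp h1.symm with h5 | h5
      · exact absurd h5 (pow_ne_zero _ (neg_ne_zero.mpr one_ne_zero))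
      · rw [h5]
        exact ⟨0, by simp⟩
  have hsep : (P.map (Int.castRingHom M)).Separable := PerfectField.separable_iff_squarefree.mpr hsq
  have e1 : P.map (Int.castRingHom M) = (P.map (Int.castRingHom ℚ)).map (algebraMap ℚ M) := by
    rw [Polynomial.map_map]
    congr 1
    exact RingHom.ext_int _ _
  have e2 : P.map (Int.castRingHom F) = (P.map (Int.castRingHom ℚ)).map (algebraMap ℚ F) := by
    rw [Polynomial.map_map]
    congr 1
    exact RingHom.ext_int _ _
  rw [e1, separable_map] at hsep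
  rw [e2, separable_map]
  exact hsep

section galois

variable {M K : Type} [Field M] [Field K] [Algebra M K] [IsGalois M K]
    {I : Type} [Fintype I] [DecidableEq I] (μ : I → K) (hμ : Function.Injective μ) (P : M[X])
    (hP : P.map (algebraMap M K) = ∏ i, (X - C (μ i)))

include hμ hP

/-- The orbits on the roots. -/
lemma mem_orbit_iff (i j : I) : j ∈ MulAction.orbit (galPerm M K μ) i ↔
    μ j ∈ (minpoly M (μ i)).rootSet K := by
  have hint : IsIntegral M (μ i) := Algebra.IsIntegral.isIntegral (μ i)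
  rw [← isConjRoot_iff_mem_minpoly_rootSet hint, IsConjRoot.comm,
    isConjRoot_iff_exists_algEquiv]
  constructor
  · rintro ⟨γ, hγ⟩
    obtain ⟨σ, hσ⟩ := γ.2
    refine ⟨σ, ?_⟩
    rw [hσ]
    exact congrArg μ hγ
  · rintro ⟨σ, hσ⟩
    obtain ⟨π, hπ⟩ := exists_perm μ hμ P hP σ
    refine ⟨⟨π, σ, hπ⟩, ?_⟩
    change π i = j
    apply hμ
    rw [← hπ, hσ]

lemma card_orbit (i : I) :
    Nat.card (MulAction.orbit (galPerm M K μ) i) = (minpoly M (μ i)).natDegree := by
  have hroot : ∀ y : K, aeval y P = 0 ↔ ∃ j, μ j = y := by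
    intro y
    rw [← eval_map_algebraMap, hP, eval_prod, Finset.prod_eq_zero_iff]
    constructor
    · rintro ⟨j, _, hj⟩
      rw [eval_sub, eval_X, eval_C, sub_eq_zero] at hj
      exact ⟨j, hj.symm⟩
    · rintro ⟨j, rfl⟩
      exact ⟨j, Finset.mem_univ j, by simp⟩
  have hint : IsIntegral M (μ i) := Algebra.IsIntegral.isIntegral (μ i)
  have hdvd : minpoly M (μ i) ∣ P := minpoly.dvd M _ ((hroot _).2 ⟨i, rfl⟩)
  have key : Nat.card (MulAction.orbit (galPerm M K μ) i) =
      Nat.card ((minpoly M (μ i)).rootSet K) := by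
    refine Nat.card_congr (Equiv.ofBijective
      (fun j => ⟨μ j.1, (mem_orbit_iff μ hμ P hP i j.1).1 j.2⟩) ⟨?_, ?_⟩)
    · intro j j' h
      exact Subtype.ext (hμ (congrArg Subtype.val h))
    · rintro ⟨y, hy⟩
      have h1 : aeval y P = 0 := by
        obtain ⟨g, hg⟩ := hdvd
        rw [hg, map_mul, (mem_rootSet.1 hy).2, zero_mul]
      obtain ⟨j, rfl⟩ := (hroot y).1 h1
      exact ⟨⟨j, (mem_orbit_iff μ hμ P hP i j).2 hy⟩, rfl⟩
  rw [key, Nat.card_eq_fintype_card]
  exact card_rootSet_eq_natDegree (IsGalois.separable M (μ i)) (Normal.splits inferInstance (μ i))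

lemma splits_of_dvd {A : M[X]} (hAP : A ∣ P) : (A.map (algebraMap M K)).Splits := by
  have h1 : A.map (algebraMap M K) ∣ ∏ i, (X - C (μ i)) := by
    rw [← hP]
    exact Polynomial.map_dvd _ hAP
  exact Splits.of_dvd (Splits.prod fun i _ => Splits.X_sub_C _)
    (monic_prod_of_monic _ _ (fun i _ => monic_X_sub_C _)).ne_zero h1

lemma root_iff {A : M[X]} (hA : Irreducible A) {s : I} (hs : aeval (μ s) A = 0) (x : K) :
    x ∈ A.rootSet K ↔ ∃ j ∈ MulAction.orbit (galPerm M K μ) s, μ j = x := by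
  have h5 : Associated (minpoly M (μ s)) A :=
    (minpoly.irreducible (Algebra.IsIntegral.isIntegral (μ s))).associated_of_dvd hA
      (minpoly.dvd M _ hs)
  have h6 : ∀ x : K, x ∈ A.rootSet K ↔ x ∈ (minpoly M (μ s)).rootSet K := by
    intro x
    rw [mem_rootSet, mem_rootSet]
    constructor
    · rintro ⟨h1, h2⟩
      refine ⟨minpoly.ne_zero (Algebra.IsIntegral.isIntegral (μ s)), ?_⟩
      obtain ⟨g, hg⟩ := h5.symm.dvd
      rw [hg, map_mul, h2, zero_mul]
    · rintro ⟨h1, h2⟩
      refine ⟨hA.ne_zero, ?_⟩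
      obtain ⟨g, hg⟩ := h5.dvd
      rw [hg, map_mul, h2, zero_mul]
  rw [h6, ← isConjRoot_iff_mem_minpoly_rootSet (Algebra.IsIntegral.isIntegral (μ s)),
    IsConjRoot.comm, isConjRoot_iff_exists_algEquiv]
  constructor
  · rintro ⟨σ, hσ⟩
    obtain ⟨π, hπ⟩ := exists_perm μ hμ P hP σ
    exact ⟨π s, ⟨⟨π, σ, hπ⟩, rfl⟩, by rw [← hπ, hσ]⟩
  · rintro ⟨j, ⟨γ, hγ⟩, rfl⟩
    obtain ⟨σ, hσ⟩ := γ.2
    exact ⟨σ, by rw [hσ]; exact congrArg μ hγ⟩

lemma splits_of_orbit {A B : M[X]} (hA : Irreducible A) (hB : Irreducible B) (hAP : A ∣ P)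
    (hBP : B ∣ P) {s t : I} (hs : aeval (μ s) A = 0) (ht : aeval (μ t) B = 0)
    (hker : ∀ γ : galPerm M K μ, (∀ u ∈ MulAction.orbit (galPerm M K μ) t, γ • u = u) →
      ∀ u ∈ MulAction.orbit (galPerm M K μ) s, γ • u = u) :
    (A.map (algebraMap M B.SplittingField)).Splits := by
  have hAK := splits_of_dvd μ hμ P hP hAP
  have hBK := splits_of_dvd μ hμ P hP hBP
  let LB : IntermediateField M K := IntermediateField.adjoin M (B.rootSet K)
  have hspl : B.IsSplittingField M LB := IntermediateField.adjoin_rootSet_isSplittingField hBK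
  have hAL : (A.map (algebraMap M LB)).Splits := by
    rw [IntermediateField.splits_iff_mem hAK]
    intro x hx
    rw [← InfiniteGalois.fixedField_fixingSubgroup LB, IntermediateField.mem_fixedField_iff]
    intro σ hσ
    rw [IntermediateField.mem_fixingSubgroup_iff] at hσ
    obtain ⟨π, hπ⟩ := exists_perm μ hμ P hP σ
    obtain ⟨j, hj, rfl⟩ := (root_iff μ hμ P hP hA hs x).1 hx
    have h1 := hker ⟨π, σ, hπ⟩ (by
      intro u hu
      change π u = u
      apply hμ
      rw [← hπ]
      apply hσ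
      apply IntermediateField.subset_adjoin
      exact (root_iff μ hμ P hP hB ht _).2 ⟨u, hu, rfl⟩) j hj
    rw [hπ]
    exact congrArg μ h1
  let e : LB ≃ₐ[M] B.SplittingField := IsSplittingField.algEquiv LB B
  have h2 : A.map (algebraMap M B.SplittingField) =
      (A.map (algebraMap M LB)).map (e : LB →+* B.SplittingField) := by
    rw [Polynomial.map_map]
    congr 1
    ext x
    exact (e.commutes x).symm
  rw [h2]
  exact hAL.map _

lemma sameSplit_of_orbType {A B : M[X]} (hA : Irreducible A) (hB : Irreducible B) (hAP : A ∣ P)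
    (hBP : B ∣ P) {s t : I} (hs : aeval (μ s) A = 0) (ht : aeval (μ t) B = 0)
    (hst : orbType (galPerm M K μ) s = orbType (galPerm M K μ) t) : SameSplit A B := by
  have h1 : Nat.card (MulAction.orbit (galPerm M K μ) s) =
    Nat.card (MulAction.orbit (galPerm M K μ) t) := congrArg Prod.fst hst
  have h2 : {γ : galPerm M K μ | ∀ u ∈ MulAction.orbit (galPerm M K μ) s, γ • u = u} =
    {γ | ∀ u ∈ MulAction.orbit (galPerm M K μ) t, γ • u = u} := congrArg Prod.snd hst
  rw [card_orbit μ hμ P hP, card_orbit μ hμ P hP] at h1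
  have h5 : Associated (minpoly M (μ s)) A :=
    (minpoly.irreducible (Algebra.IsIntegral.isIntegral (μ s))).associated_of_dvd hA
      (minpoly.dvd M _ hs)
  have h6 : Associated (minpoly M (μ t)) B :=
    (minpoly.irreducible (Algebra.IsIntegral.isIntegral (μ t))).associated_of_dvd hB
      (minpoly.dvd M _ ht)
  refine ⟨?_, ?_, ?_⟩
  · rw [← natDegree_eq_of_degree_eq (degree_eq_degree_of_associated h5),
      ← natDegree_eq_of_degree_eq (degree_eq_degree_of_associated h6), h1]
  · exact splits_of_orbit μ hμ P hP hA hB hAP hBP hs ht (fun γ hγ => by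
      have h7 : γ ∈ {γ : galPerm M K μ | ∀ u ∈ MulAction.orbit (galPerm M K μ) t, γ • u = u} := hγ
      rw [← h2] at h7
      exact h7)
  · exact splits_of_orbit μ hμ P hP hB hA hBP hAP ht hs (fun γ hγ => by
      have h7 : γ ∈ {γ : galPerm M K μ | ∀ u ∈ MulAction.orbit (galPerm M K μ) s, γ • u = u} := hγ
      rw [h2] at h7
      exact h7)

/-- On every stable set of roots with orbits of one type some Galois element acts as an odd
permutation. -/
theorem exists_odd2
    (hdisc : ∀ Q : M[X], Q.Monic → Q ∣ P → Q ≠ 1 →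
      (∀ A B : M[X], Irreducible A → Irreducible B → A ∣ Q → B ∣ Q → SameSplit A B) →
      ¬ IsSquare Q.discr)
    (Y : Finset I) (hne : Y.Nonempty)
    (hsize : ∀ s ∈ Y, ∀ t ∈ Y, orbType (galPerm M K μ) s = orbType (galPerm M K μ) t)
    (hY : ∀ (γ : galPerm M K μ) (i : I), γ • i ∈ Y ↔ i ∈ Y) :
    ∃ γ : galPerm M K μ, Equiv.Perm.sign ((MulAction.toPerm γ : Equiv.Perm I).subtypePerm
        (p := fun s => s ∈ Y) (fun s => hY γ s)) = -1 := by
  by_contra hcon
  push Not at hcon
  have hall : ∀ σ : K ≃ₐ[M] K, ∃ γ : galPerm M K μ, ∀ i, σ (μ i) = μ (γ • i) := by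
    intro σ
    obtain ⟨π, hπ⟩ := exists_perm μ hμ P hP σ
    exact ⟨⟨π, σ, hπ⟩, hπ⟩
  obtain ⟨Q, hQm, hQP, hQ⟩ := exists_factor μ P hP Y (by
    intro σ
    obtain ⟨γ, hγ⟩ := hall σ
    exact ⟨MulAction.toPerm γ, hγ, fun i => hY γ i⟩)
  have hne1 : Q ≠ 1 := by
    rintro rfl
    rw [Polynomial.map_one] at hQ
    have h1 := congrArg Polynomial.natDegree hQ
    rw [natDegree_one, natDegree_prod_of_monic _ _ (fun i _ => monic_X_sub_C _)] at h1
    simp only [natDegree_X_sub_C, Finset.sum_const, smul_eq_mul, mul_one] at h1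
    exact hne.card_pos.ne h1
  have hfac : ∀ A : M[X], Irreducible A → A ∣ Q → ∃ s ∈ Y, aeval (μ s) A = 0 := by
    intro A hA hAQ
    have h1 : A.map (algebraMap M K) ∣ ∏ i ∈ Y, (X - C (μ i)) := by
      rw [← hQ]
      exact Polynomial.map_dvd _ hAQ
    have hsplit : (A.map (algebraMap M K)).Splits :=
      Splits.of_dvd (Splits.prod fun i _ => Splits.X_sub_C _)
        (monic_prod_of_monic _ _ (fun i _ => monic_X_sub_C _)).ne_zero h1
    have hdeg : (A.map (algebraMap M K)).degree ≠ 0 := by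
      rw [degree_map]
      exact hA.degree_pos.ne'
    obtain ⟨y, hy⟩ := Splits.exists_eval_eq_zero hsplit hdeg
    have h2 : eval y (∏ i ∈ Y, (X - C (μ i))) = 0 := by
      obtain ⟨g, hg⟩ := h1
      rw [hg, eval_mul, hy, zero_mul]
    rw [eval_prod, Finset.prod_eq_zero_iff] at h2
    obtain ⟨s, hs, h3⟩ := h2
    rw [eval_sub, eval_X, eval_C, sub_eq_zero] at h3
    refine ⟨s, hs, ?_⟩
    rw [← eval_map_algebraMap, ← h3, hy]
  apply hdisc Q hQm hQP hne1
  · intro A B hA hB hAQ hBQ
    obtain ⟨s, hs, h1⟩ := hfac A hA hAQ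
    obtain ⟨t, ht, h2⟩ := hfac B hB hBQ
    exact sameSplit_of_orbType μ hμ P hP hA hB (hAQ.trans hQP) (hBQ.trans hQP) h1 h2
      (hsize s hs t ht)
  apply isSquare_discr (Y := {s // s ∈ Y}) (fun y => μ y) Q
  · rw [hQ]
    exact (Finset.prod_coe_sort Y (fun i => X - C (μ i))).symm
  · intro σ
    obtain ⟨γ, hγ⟩ := hall σ
    refine ⟨(MulAction.toPerm γ : Equiv.Perm I).subtypePerm
        (p := fun s => s ∈ Y) (fun s => hY γ s), ?_, fun y => hγ y⟩
    exact (Int.units_eq_one_or _).resolve_right (hcon γ)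

end galois

end Pool.Agent.Lib.MP_640417_ag.Frob
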