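import Pool.Agent.Lib.MP_640417_ag.Frob.IrrE
import Pool.Agent.Lib.MP_640417_ag.Frob.Slope

/-!
# The relations between the roots
-/

namespace Pool.Agent.Lib.MP_640417_ag.Frob

open Polynomial

section irrF

/-- The space of multiplicative relations up to powers of `q`, with rational coefficients. -/
noncomputable def relSpace {K : Type} [Field K] {I : Type} [Fintype I] (lam : I → K)
    (hlam : ∀ i, lam i ≠ 0) (q : K) (hq : q ≠ 0) : Submodule ℚ (I → ℚ) where
  carrier := {x | ∃ D : ℕ, 0 < D ∧ ∃ n : I → ℤ, (∀ i, (n i : ℚ) = D * x i) ∧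
    ∃ E : ℤ, ∏ i, lam i ^ n i = q ^ E}
  zero_mem' := ⟨1, one_pos, 0, by simp, 0, by simp⟩
  add_mem' := by
    rintro x y ⟨D, hD, n, hn, E, hE⟩ ⟨D', hD', n', hn', E', hE'⟩
    refine ⟨D * D', Nat.mul_pos hD hD', fun i => n i * D' + n' i * D, ?_, E * D' + E' * D, ?_⟩
    · intro i
      push_cast
      rw [hn, hn']
      simp only [Pi.add_apply]
      ring
    · have h1 : ∀ i, lam i ^ (n i * D' + n' i * D) = (lam i ^ n i) ^ D' * (lam i ^ n' i) ^ D := by
        intro i
        rw [zpow_add₀ (hlam i), zpow_mul, zpow_mul, zpow_natCast, zpow_natCast]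
      simp only [h1]
      rw [Finset.prod_mul_distrib, Finset.prod_pow, Finset.prod_pow, hE, hE', zpow_add₀ hq,
        zpow_mul, zpow_mul, zpow_natCast, zpow_natCast]
  smul_mem' := by
    rintro r x ⟨D, hD, n, hn, E, hE⟩
    refine ⟨D * r.den, Nat.mul_pos hD r.den_pos, fun i => n i * r.num, ?_, E * r.num, ?_⟩
    · intro i
      push_cast
      rw [hn]
      have h1 : (r.num : ℚ) = r * r.den := (Rat.mul_den_eq_num r).symm
      rw [h1]
      simp only [Pi.smul_apply, smul_eq_mul]
      ring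
    · have h1 : ∀ i, lam i ^ (n i * r.num) = (lam i ^ n i) ^ r.num := fun i => zpow_mul _ _ _
      simp only [h1]
      rw [Finset.prod_zpow, hE, zpow_mul]

/-- A criterion for the triviality of all relations. -/
theorem angle_of_ev (p a : ℕ) (hp : p.Prime) (P : ℤ[X])
    (hns : ∀ z : ℂ, aeval z P = 0 → ∀ N : ℕ, 0 < N → z ^ (2 * N) ≠ (p : ℂ) ^ (a * N))
    {K : Type} [Field K] [CharZero K] {I : Type} [Fintype I] [DecidableEq I] (lam : I → K)
    (hP : P.map (Int.castRingHom K) = ∏ i, (X - C (lam i)))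
    (c : I → I) (hc : ∀ i, c (c i) = i) (hcne : ∀ i, c i ≠ i)
    (hlc : ∀ i, lam (c i) * lam i = (p : K) ^ a)
    (hlam : ∀ i, lam i ≠ 0) (hq0 : (p : K) ^ a ≠ 0)
    (hev : ∀ x ∈ relSpace lam hlam ((p : K) ^ a) hq0, (∀ s, x (c s) = - x s) → x ≠ 0 →
      ∃ u, ev2 c u ∈ relSpace lam hlam ((p : K) ^ a) hq0)
    (hswap : ∀ u, ∃ π : Equiv.Perm I, π u = c u ∧ π (c u) = u ∧
      ∀ (n : I → ℤ) (z : ℚ), ∏ i, lam i ^ n i = (z : K) → ∏ i, lam i ^ n (π i) = (z : K))
    (m : I → ℤ) (k : ℤ) (N : ℕ) (hN : 0 < N)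
    (hrel : (∏ v, lam v ^ m v) ^ N = (((p : K) ^ a) ^ k) ^ N) (v : I) : m v = m (c v) := by
  classical
  have hcastE : ∀ E : ℤ, ((((p : ℚ) ^ a) ^ E : ℚ) : K) = ((p : K) ^ a) ^ E := by
    intro E
    push_cast
    rfl
  set R := relSpace lam hlam ((p : K) ^ a) hq0 with hRdef
  set o : I → ℤ := fun v => m v - m (c v) with ho
  have hcinj : Function.Bijective c := ⟨fun i j hij => by rw [← hc i, hij, hc], fun i => ⟨c i, hc i⟩⟩
  have hprod : (∏ v, lam v ^ o v) = (∏ v, lam v ^ m v) ^ 2 * (((p : K) ^ a) ^ (∑ v, m v))⁻¹ := by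
    have h1 : (∏ v, lam v ^ m (c v)) = ((p : K) ^ a) ^ (∑ v, m v) * (∏ v, lam v ^ m v)⁻¹ := by
      have h2 : (∏ v, lam v ^ m (c v)) = ∏ v, lam (c v) ^ m v := by
        rw [← hcinj.prod_comp (fun v => lam v ^ m (c v))]
        simp only [hc]
      rw [h2, ← Finset.prod_inv_distrib]
      have h3 : ((p : K) ^ a) ^ (∑ v, m v) = ∏ v, ((p : K) ^ a) ^ m v := by
        generalize (p : K) ^ a = q at hq0 ⊢
        induction (Finset.univ : Finset I) using Finset.induction_on with
        | empty => simp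
        | insert i s hi ih => rw [Finset.sum_insert hi, Finset.prod_insert hi, zpow_add₀ hq0, ih]
      rw [h3, ← Finset.prod_mul_distrib]
      apply Finset.prod_congr rfl
      intro v _
      rw [← hlc v, mul_zpow, mul_assoc, mul_inv_cancel₀ (zpow_ne_zero _ (hlam v)), mul_one]
    have h4 : ∀ v, lam v ^ o v = lam v ^ m v * (lam v ^ m (c v))⁻¹ := by
      intro v
      rw [ho]
      simp only
      rw [zpow_sub₀ (hlam v), div_eq_mul_inv]
    simp only [h4]
    rw [Finset.prod_mul_distrib, Finset.prod_inv_distrib, h1, mul_inv, inv_inv]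
    ring
  have hxR : (fun v => (o v : ℚ)) ∈ R := by
    refine ⟨N, hN, fun i => o i * N, fun i => by push_cast; ring,
      (k * 2 - ∑ v, m v) * N, ?_⟩
    have h1 : ∀ i, lam i ^ (o i * (N : ℤ)) = (lam i ^ o i) ^ N := by
      intro i
      rw [zpow_mul, zpow_natCast]
    simp only [h1]
    rw [Finset.prod_pow, hprod, mul_pow, ← pow_mul, mul_comm 2 N, pow_mul, hrel, zpow_mul,
      zpow_sub₀ hq0, zpow_mul]
    simp only [zpow_natCast]
    rw [div_pow, ← pow_mul, mul_comm N 2, pow_mul, inv_pow, div_eq_mul_inv]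
    norm_cast
  have hodd : ∀ v, (fun v => (o v : ℚ)) (c v) = - (fun v => (o v : ℚ)) v := by
    intro v
    simp only [ho, hc]
    push_cast
    ring
  by_contra hne
  have hx0 : (fun v => (o v : ℚ)) ≠ 0 := by
    intro h0
    apply hne
    have h1 := congrFun h0 v
    simp only [ho, Pi.zero_apply] at h1
    have h2 : ((m v : ℚ)) = m (c v) := by
      push_cast at h1
      linarith
    exact_mod_cast h2
  obtain ⟨u, D, hD, n, hn, E, hE⟩ := hev _ hxR hodd hx0
  have hnu : n u = D := by
    have h1 := hn u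
    simp only [ev2, Pi.sub_apply, Pi.single_apply, if_true, (hcne u).symm, if_false] at h1
    have h2 : ((n u : ℤ) : ℚ) = ((D : ℤ) : ℚ) := by
      rw [h1]
      push_cast
      ring
    exact_mod_cast h2
  have hnc : n (c u) = - D := by
    have h1 := hn (c u)
    simp only [ev2, Pi.sub_apply, Pi.single_apply, if_true, (hcne u), if_false] at h1
    have h2 : ((n (c u) : ℤ) : ℚ) = ((-(D : ℤ) : ℤ) : ℚ) := by
      rw [h1]
      push_cast
      ring
    exact_mod_cast h2
  have hn0 : ∀ i, i ≠ u → i ≠ c u → n i = 0 := by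
    intro i h1 h2
    have h3 := hn i
    simp only [ev2, Pi.sub_apply, Pi.single_apply, h1, h2, if_false, sub_zero, mul_zero] at h3
    exact_mod_cast h3
  have hprodn : ∏ i, lam i ^ n i = lam u ^ D * (lam (c u) ^ D)⁻¹ := by
    rw [← Finset.prod_subset (Finset.subset_univ {u, c u}), Finset.prod_pair (hcne u).symm, hnc,
      hnu, zpow_neg, zpow_natCast, zpow_natCast]
    intro i _ hi
    rw [Finset.mem_insert, Finset.mem_singleton, not_or] at hi
    rw [hn0 i hi.1 hi.2, zpow_zero]
  obtain ⟨π, hπ1, hπ2, hπ3⟩ := hswap u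
  have hnπ : ∀ i, n (π i) = - n i := by
    intro i
    by_cases h1 : i = u
    · rw [h1, hπ1, hnc, hnu]
    · by_cases h2 : i = c u
      · rw [h2, hπ2, hnc, hnu, neg_neg]
      · rw [hn0 i h1 h2, neg_zero]
        apply hn0
        · intro h3
          apply h2
          apply π.injective
          rw [h3, hπ2]
        · intro h3
          apply h1
          apply π.injective
          rw [h3, hπ1]
  have hE0 : ((p : K) ^ a) ^ E = 1 := by
    have h0 := hE
    rw [← hcastE] at h0
    have h1 := hπ3 n _ h0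
    simp only [hnπ, zpow_neg] at h1
    rw [Finset.prod_inv_distrib, h0] at h1
    have h2 : ((((p : ℚ) ^ a) ^ E)⁻¹ : ℚ) = ((p : ℚ) ^ a) ^ E := by exact_mod_cast h1
    have h3 : (0 : ℚ) < ((p : ℚ) ^ a) ^ E := zpow_pos (pow_pos (Nat.cast_pos.2 hp.pos) _) _
    have h4 : ((p : ℚ) ^ a) ^ E * ((p : ℚ) ^ a) ^ E = 1 := by
      nth_rewrite 1 [← h2]
      exact inv_mul_cancel₀ h3.ne'
    have h5 : ((p : ℚ) ^ a) ^ E = 1 := by nlinarith
    rw [← hcastE, h5, Rat.cast_one]
  have hD2 : lam u ^ (2 * D) = (p : K) ^ (a * D) := by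
    rw [hE0] at hE
    rw [hprodn, mul_inv_eq_one₀ (pow_ne_zero _ (hlam _))] at hE
    rw [two_mul, pow_add]
    nth_rewrite 1 [hE]
    rw [← mul_pow, hlc, pow_mul]
  -- transfer to the complex numbers
  have hroot : aeval (lam u) P = 0 := by
    rw [aeval_def, ← eval_map]
    have h1 : algebraMap ℤ K = Int.castRingHom K := RingHom.ext_int _ _
    rw [h1, hP, eval_prod]
    exact Finset.prod_eq_zero (Finset.mem_univ u) (by simp)
  have hrootq : aeval (lam u) (P.map (algebraMap ℤ ℚ)) = 0 := by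
    rw [aeval_map_algebraMap]
    exact hroot
  have hint : IsIntegral ℚ (lam u) := by
    refine ⟨P.map (algebraMap ℤ ℚ), ?_, ?_⟩
    · have hmon : P.Monic := by
        rw [(Int.castRingHom K).injective_int.monic_map_iff, hP]
        exact monic_prod_X_sub_C _ _
      exact hmon.map _
    · rw [← aeval_def]
      exact hrootq
  obtain ⟨z, hz⟩ := IsAlgClosed.exists_aeval_eq_zero ℂ (minpoly ℚ (lam u))
    (minpoly.degree_pos hint).ne'
  have hz1 : aeval z P = 0 := by
    obtain ⟨g, hg⟩ := minpoly.dvd ℚ (lam u) hrootq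
    have h1 : aeval z (P.map (algebraMap ℤ ℚ)) = 0 := by
      rw [hg, map_mul, hz, zero_mul]
    rwa [aeval_map_algebraMap] at h1
  refine hns z hz1 D hD ?_
  have h1 : aeval (lam u) (X ^ (2 * D) - C ((p : ℚ) ^ (a * D))) = 0 := by
    rw [map_sub, map_pow, aeval_X, aeval_C, hD2]
    simp
  obtain ⟨g, hg⟩ := minpoly.dvd ℚ (lam u) h1
  have h2 : aeval z (X ^ (2 * D) - C ((p : ℚ) ^ (a * D))) = 0 := by
    rw [hg, map_mul, hz, zero_mul]
  rw [map_sub, map_pow, aeval_X, aeval_C, sub_eq_zero] at h2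
  rw [h2]
  simp

/-- An algebraic closure of the field of rational numbers. -/
theorem exists_ratClosure : ∃ (Qb : Type) (_ : Field Qb) (_ : CharZero Qb),
    IsAlgClosed Qb ∧ Algebra.IsAlgebraic ℚ Qb := by
  refine ⟨AlgebraicClosure ℚ, inferInstance, inferInstance, inferInstance, ?_⟩
  have h : @Algebra.IsAlgebraic ℚ (AlgebraicClosure ℚ) _ _ (AlgebraicClosure.instAlgebra ℚ) :=
    AlgebraicClosure.isAlgebraic ℚ
  have e : (AlgebraicClosure.instAlgebra ℚ : Algebra ℚ (AlgebraicClosure ℚ)) =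
    DivisionRing.toRatAlgebra := Subsingleton.elim _ _
  rw [e] at h
  exact h

/-- The roots satisfy only the trivial relations. -/
theorem angle_irr {M K : Type} [Field M] [CharZero M] [Field K] [CharZero K]
    (p a : ℕ) [hpF : Fact p.Prime] (ha : 0 < a)
    {I : Type} [Fintype I] [DecidableEq I] (P : ℤ[X]) (lam : I → K)
    (hP : P.map (Int.castRingHom K) = ∏ i, (X - C (lam i)))
    (c : I → I) (hc : ∀ i, c (c i) = i) (hcne : ∀ i, c i ≠ i)
    (hlc : ∀ i, lam (c i) * lam i = (p : K) ^ a)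
    (hns : ∀ z : ℂ, aeval z P = 0 → ∀ N : ℕ, 0 < N → z ^ (2 * N) ≠ (p : ℂ) ^ (a * N))
    (hslope : ∀ A B : ℚ[X], Irreducible A → Irreducible B → A ∣ P.map (Int.castRingHom ℚ) →
      B ∣ P.map (Int.castRingHom ℚ) → SameSplit A B → ¬ Associated A B →
      ∀ α : PadicAlgCl p, aeval α A = 0 → OddSlope p a α)
    (hpow : ∀ Q : M[X], Irreducible Q → Q ∣ P.map (Int.castRingHom M) → ∃ k, Q.natDegree = 2 ^ k)
    (hdisc : ∀ Q : M[X], Q.Monic → Q ∣ P.map (Int.castRingHom M) → Q ≠ 1 →
      (∀ A B : M[X], Irreducible A → Irreducible B → A ∣ Q → B ∣ Q → SameSplit A B) →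
      ¬ IsSquare Q.discr)
    (m : I → ℤ) (k : ℤ) (N : ℕ) (hN : 0 < N)
    (hrel : (∏ v, lam v ^ m v) ^ N = (((p : K) ^ a) ^ k) ^ N) (v : I) : m v = m (c v) := by
  classical
  have hp : p.Prime := hpF.out
  have hPm : P.Monic := by
    have h1 : (P.map (Int.castRingHom K)).Monic := by
      rw [hP]
      exact monic_prod_of_monic _ _ (fun i _ => monic_X_sub_C _)
    exact Polynomial.monic_of_injective (RingHom.injective_int _) h1
  have hq0 : (p : K) ^ a ≠ 0 := pow_ne_zero _ (Nat.cast_ne_zero.2 hp.ne_zero)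
  have hlam : ∀ i, lam i ≠ 0 := by
    intro i h0
    have h1 := hlc i
    rw [h0, mul_zero] at h1
    exact hq0 h1.symm
  -- the roots in an algebraic closure of the rational numbers
  let L : IntermediateField ℚ K := IntermediateField.adjoin ℚ (Set.range lam)
  have hint : ∀ i, IsIntegral ℚ (lam i) := by
    intro i
    refine ⟨P.map (Int.castRingHom ℚ), hPm.map _, ?_⟩
    have h1 : (P.map (Int.castRingHom K)).eval (lam i) = 0 := by
      rw [hP, eval_prod]
      apply Finset.prod_eq_zero (Finset.mem_univ i)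
      simp
    rw [eval₂_map]
    rw [eval_map] at h1
    have h2 : (algebraMap ℚ K).comp (Int.castRingHom ℚ) = Int.castRingHom K :=
      RingHom.ext_int _ _
    rw [h2]
    exact h1
  have halg : Algebra.IsAlgebraic ℚ L :=
    IntermediateField.isAlgebraic_adjoin (by
      rintro x ⟨i, rfl⟩
      exact hint i)
  obtain ⟨Qb, _, _, hclosed, halgQ⟩ := exists_ratClosure
  let σ : L →ₐ[ℚ] Qb := IsAlgClosed.lift
  let τp : L →ₐ[ℚ] PadicAlgCl p := IsAlgClosed.lift
  have hmem : ∀ i, lam i ∈ L := fun i => IntermediateField.subset_adjoin ℚ _ ⟨i, rfl⟩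
  let lamL : I → L := fun i => ⟨lam i, hmem i⟩
  let μ₀ : I → Qb := fun i => σ (lamL i)
  have hPL : P.map (Int.castRingHom L) = ∏ i, (X - C (lamL i)) := by
    apply Polynomial.map_injective (algebraMap L K) (algebraMap L K).injective
    rw [Polynomial.map_map, Polynomial.map_prod]
    have h1 : (algebraMap L K).comp (Int.castRingHom L) = Int.castRingHom K :=
      RingHom.ext_int _ _
    rw [h1, hP]
    apply Finset.prod_congr rfl
    intro i _
    rw [Polynomial.map_sub, Polynomial.map_X, Polynomial.map_C]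
    rfl
  have hPQ : P.map (Int.castRingHom Qb) = ∏ i, (X - C (μ₀ i)) := by
    have h1 : (σ : L →+* Qb).comp (Int.castRingHom L) = Int.castRingHom Qb :=
      RingHom.ext_int _ _
    rw [← h1, ← Polynomial.map_map, hPL, Polynomial.map_prod]
    apply Finset.prod_congr rfl
    intro i _
    rw [Polynomial.map_sub, Polynomial.map_X, Polynomial.map_C]
    rfl
  have hPQ' : (P.map (Int.castRingHom ℚ)).map (algebraMap ℚ Qb) = ∏ i, (X - C (μ₀ i)) := by
    rw [Polynomial.map_map, ← hPQ]
    congr 1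
    exact RingHom.ext_int _ _
  -- the roots in an algebraic closure of `M`
  let KM : Type := AlgebraicClosure M
  have hcharM : CharZero KM := charZero_of_injective_algebraMap (algebraMap M KM).injective
  let ι : Qb →ₐ[ℚ] KM := IsAlgClosed.lift
  let μ : I → KM := fun i => ι (μ₀ i)
  have hPKM : P.map (Int.castRingHom KM) = ∏ i, (X - C (μ i)) := by
    have h1 : (ι : Qb →+* KM).comp (Int.castRingHom Qb) = Int.castRingHom KM :=
      RingHom.ext_int _ _
    rw [← h1, ← Polynomial.map_map, hPQ, Polynomial.map_prod]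
    apply Finset.prod_congr rfl
    intro i _
    rw [Polynomial.map_sub, Polynomial.map_X, Polynomial.map_C]
    rfl
  have hPM' : (P.map (Int.castRingHom M)).map (algebraMap M KM) = ∏ i, (X - C (μ i)) := by
    rw [Polynomial.map_map, ← hPKM]
    congr 1
  have hsep : (P.map (Int.castRingHom Qb)).Separable := separable_of_discr2 P hPm hdisc
  have hμ₀ : Function.Injective μ₀ := by
    rw [hPQ] at hsep
    exact separable_prod_X_sub_C_iff.mp hsep
  have hμ : Function.Injective μ := fun i j h => hμ₀ (ι.injective h)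
  have hgalM : IsGalois M KM := by
    have : Normal M KM := inferInstance
    have : Algebra.IsSeparable M KM := inferInstance
    exact ⟨⟩
  have hgalQ : IsGalois ℚ Qb := by
    have : Normal ℚ Qb := normal_iff.2 fun x =>
      ⟨Algebra.IsIntegral.isIntegral x, IsAlgClosed.splits _⟩
    have : Algebra.IsSeparable ℚ Qb := inferInstance
    exact ⟨⟩
  have hμ₀c : ∀ i, μ₀ (c i) * μ₀ i = (p : Qb) ^ a := by
    intro i
    have h1 : lamL (c i) * lamL i = (p : L) ^ a := by
      apply Subtype.ext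
      have := hlc i
      push_cast
      exact this
    have h2 := congrArg σ h1
    rw [map_mul, map_pow, map_natCast] at h2
    exact h2
  have hp0 : ((p : Qb) ^ a) ≠ 0 := pow_ne_zero _ (Nat.cast_ne_zero.mpr hp.ne_zero)
  have hμ₀0 : ∀ i, μ₀ i ≠ 0 := by
    intro i h
    have h1 := hμ₀c i
    rw [h, mul_zero] at h1
    exact hp0 h1.symm
  -- the two groups
  have hgal : ∀ γ : galPerm ℚ Qb μ₀, ∃ τ : Qb ≃ₐ[ℚ] Qb, ∀ i, τ (μ₀ i) = μ₀ (γ • i) := by
    intro γ
    obtain ⟨τ, hτ⟩ := γ.2
    exact ⟨τ, hτ⟩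
  have hcG : ∀ (γ : galPerm ℚ Qb μ₀) (i : I), γ • c i = c (γ • i) := by
    intro γ i
    obtain ⟨τ, hτ⟩ := hgal γ
    apply hμ₀
    apply mul_right_cancel₀ (hμ₀0 (γ • i))
    rw [hμ₀c, ← hτ, ← hτ, ← map_mul, hμ₀c, map_pow, map_natCast]
  have hHG : ∀ h : galPerm M KM μ, ∃ γ : galPerm ℚ Qb μ₀, ∀ s : I, h • s = γ • s := by
    intro h
    obtain ⟨τ, hτ⟩ := h.2
    let algQ : Algebra Qb KM := (ι : Qb →+* KM).toAlgebra
    have htower : IsScalarTower ℚ Qb KM := IsScalarTower.of_algebraMap_eq (fun x => by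
      change algebraMap ℚ KM x = ι (algebraMap ℚ Qb x)
      rw [AlgHom.commutes])
    let τ' : KM ≃ₐ[ℚ] KM :=
      AlgEquiv.ofRingEquiv (f := (τ : KM ≃+* KM)) (fun x => map_ratCast τ x)
    let τ₀ : Qb ≃ₐ[ℚ] Qb := τ'.restrictNormal Qb
    refine ⟨⟨h.1, τ₀, ?_⟩, fun s => rfl⟩
    intro i
    apply ι.injective
    have h1 : ι (τ₀ (μ₀ i)) = τ' (ι (μ₀ i)) := AlgEquiv.restrictNormal_commutes τ' Qb (μ₀ i)
    exact h1.trans (hτ i)
  -- relations
  have hrelinv : ∀ (γ : galPerm ℚ Qb μ₀) (n : I → ℤ) (z : ℚ), ∏ i, lam i ^ n i = (z : K) →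
      ∏ i, lam i ^ n (γ • i) = (z : K) := by
    intro γ n z hz
    obtain ⟨τ, hτ⟩ := hgal γ
    have h1 : ∏ i, lamL i ^ n i = (z : L) := by
      apply (algebraMap L K).injective
      rw [map_prod, map_ratCast, ← hz]
      apply Finset.prod_congr rfl
      intro i _
      rw [map_zpow₀]
      rfl
    have h2 : ∏ i, μ₀ i ^ n i = (z : Qb) := by
      have := congrArg σ h1
      rw [map_prod, map_ratCast] at this
      rw [← this]
      apply Finset.prod_congr rfl
      intro i _
      rw [map_zpow₀]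
    have h3 : ∏ i, μ₀ i ^ n (γ • i) = (z : Qb) := by
      apply τ.injective
      rw [map_prod, map_ratCast, ← h2]
      have h3 : ∀ i, τ (μ₀ i ^ n (γ • i)) = μ₀ (γ • i) ^ n (γ • i) := by
        intro i
        rw [map_zpow₀, hτ]
      simp only [h3]
      exact Fintype.prod_bijective (fun i => γ • i) (MulAction.bijective γ) _ _ (fun i => rfl)
    have h4 : ∏ i, lamL i ^ n (γ • i) = (z : L) := by
      apply (σ : L →+* Qb).injective
      change σ _ = σ _
      rw [map_prod, map_ratCast, ← h3]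
      apply Finset.prod_congr rfl
      intro i _
      rw [map_zpow₀]
    have h5 := congrArg (algebraMap L K) h4
    rw [map_prod, map_ratCast] at h5
    rw [← h5]
    apply Finset.prod_congr rfl
    intro i _
    rw [map_zpow₀]
    rfl
  have hcastE : ∀ E : ℤ, ((((p : ℚ) ^ a) ^ E : ℚ) : K) = ((p : K) ^ a) ^ E := by
    intro E
    push_cast
    rfl
  set R := relSpace lam hlam ((p : K) ^ a) hq0 with hRdef
  have hRG : ∀ (γ : galPerm ℚ Qb μ₀), ∀ x ∈ R, (fun s => x (γ • s)) ∈ R := by
    rintro γ x ⟨D, hD, n, hn, E, hE⟩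
    refine ⟨D, hD, fun i => n (γ • i), fun i => hn (γ • i), E, ?_⟩
    rw [← hcastE] at hE ⊢
    exact hrelinv γ n _ hE
  -- the hypotheses of the group theoretic theorem
  have hpowH : ∀ s : I, ∃ k : ℕ, Nat.card (MulAction.orbit (galPerm M KM μ) s) = 2 ^ k := by
    intro s
    obtain ⟨Q, hQ1, hQ2, hQ3⟩ := exists_card_orbit μ hμ _ hPM' s
    obtain ⟨l, hl⟩ := hpow Q hQ1 hQ2
    exact ⟨l, by rw [hQ3, hl]⟩
  have hoddH : ∀ Y : Finset I, Y.Nonempty → (∀ s ∈ Y, c s ∈ Y) →
      (∀ s ∈ Y, ∀ t ∈ Y, orbType (galPerm M KM μ) s = orbType (galPerm M KM μ) t) →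
      ∀ hY : (∀ (γ : galPerm M KM μ) (s : I), γ • s ∈ Y ↔ s ∈ Y),
      ∃ γ : galPerm M KM μ, Equiv.Perm.sign ((MulAction.toPerm γ : Equiv.Perm I).subtypePerm
        (p := fun s => s ∈ Y) (fun s => hY γ s)) = -1 := by
    intro Y hne _ hsize hY
    exact exists_odd2 μ hμ _ hPM' hdisc Y hne hsize hY
  have hmono : ∀ i, aeval (μ₀ i) (P.map (Int.castRingHom ℚ)) = 0 := by
    intro i
    rw [← eval_map_algebraMap, hPQ', eval_prod]
    exact Finset.prod_eq_zero (Finset.mem_univ i) (by simp)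
  have hintQ : ∀ i, IsIntegral ℚ (μ₀ i) := fun i => Algebra.IsIntegral.isIntegral (μ₀ i)
  have hcH : ∀ (γ : galPerm M KM μ) (s : I), γ • c s = c (γ • s) := by
    intro h s
    obtain ⟨γ, hγ⟩ := hHG h
    rw [hγ, hγ, hcG]
  have hcO : ∀ s, c s ∈ MulAction.orbit (galPerm M KM μ) s := c_mem_orbit c hc hcH hoddH
  -- the orbits of one type
  have horbG : ∀ (s t : I), t ∈ MulAction.orbit (galPerm ℚ Qb μ₀) s ↔
      minpoly ℚ (μ₀ s) = minpoly ℚ (μ₀ t) := by
    intro s t
    rw [mem_orbit_iff μ₀ hμ₀ _ hPQ', mem_rootSet]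
    constructor
    · rintro ⟨h1, h2⟩
      exact minpoly.eq_of_irreducible_of_monic (minpoly.irreducible (hintQ s)) h2
        (minpoly.monic (hintQ s))
    · intro h
      rw [h]
      exact ⟨minpoly.ne_zero (hintQ t), minpoly.aeval ℚ _⟩
  have hsame : ∀ s t : I, orbType (galPerm ℚ Qb μ₀) s = orbType (galPerm ℚ Qb μ₀) t →
      SameSplit (minpoly ℚ (μ₀ s)) (minpoly ℚ (μ₀ t)) := fun s t hst =>
    sameSplit_of_orbType μ₀ hμ₀ _ hPQ' (minpoly.irreducible (hintQ s))
      (minpoly.irreducible (hintQ t)) (minpoly.dvd ℚ _ (hmono s)) (minpoly.dvd ℚ _ (hmono t))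
      (minpoly.aeval ℚ _) (minpoly.aeval ℚ _) hst
  let ν : I → PadicAlgCl p := fun i => τp (lamL i)
  have hνmin : ∀ i, aeval (ν i) (minpoly ℚ (μ₀ i)) = 0 := by
    intro i
    have h1 : minpoly ℚ (μ₀ i) = minpoly ℚ (lamL i) := minpoly.algHom_eq σ σ.injective (lamL i)
    rw [h1, show ν i = τp (lamL i) from rfl, aeval_algHom_apply, minpoly.aeval, map_zero]
  have hslope' : ∀ u t : I, orbType (galPerm ℚ Qb μ₀) u = orbType (galPerm ℚ Qb μ₀) t →
      t ∉ MulAction.orbit (galPerm ℚ Qb μ₀) u → OddSlope p a (ν u) := by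
    intro u t hut htu
    refine hslope (minpoly ℚ (μ₀ u)) (minpoly ℚ (μ₀ t)) (minpoly.irreducible (hintQ u))
      (minpoly.irreducible (hintQ t)) (minpoly.dvd ℚ _ (hmono u)) (minpoly.dvd ℚ _ (hmono t))
      (hsame u t hut) ?_ (ν u) (hνmin u)
    intro hass
    apply htu
    rw [horbG]
    exact eq_of_monic_of_associated (minpoly.monic (hintQ u)) (minpoly.monic (hintQ t)) hass
  have hcOG : ∀ s, c s ∈ MulAction.orbit (galPerm ℚ Qb μ₀) s := by
    intro s
    obtain ⟨h, hh⟩ := hcO s
    obtain ⟨γ, hγ⟩ := hHG h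
    exact ⟨γ, by rw [← hh]; exact (hγ s).symm⟩
  -- odd relations have exponent zero
  have hfinG : Fintype (galPerm ℚ Qb μ₀) := Fintype.ofFinite _
  have hE0 : ∀ (n : I → ℤ), (∀ i, n (c i) = - n i) → ∀ E : ℤ,
      ∏ i, lam i ^ n i = ((p : K) ^ a) ^ E → E = 0 := by
    intro n hnc E hE
    have h1 : ∀ γ : galPerm ℚ Qb μ₀, ∏ i, lam i ^ n (γ • i) = ((p : K) ^ a) ^ E := by
      intro γ
      rw [← hcastE] at hE ⊢
      exact hrelinv γ n _ hE
    have h2 : ∀ i, ∑ γ : galPerm ℚ Qb μ₀, n (γ • i) = 0 := by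
      intro i
      obtain ⟨δ, hδ⟩ := hcOG i
      have h3 : ∑ γ : galPerm ℚ Qb μ₀, n (γ • c i) = ∑ γ : galPerm ℚ Qb μ₀, n (γ • i) := by
        rw [← show δ • i = c i from hδ]
        exact Fintype.sum_bijective (fun γ => γ * δ) (Group.mulRight_bijective δ) _ _
          (fun γ => by rw [mul_smul])
      have h4 : ∑ γ : galPerm ℚ Qb μ₀, n (γ • c i) = - ∑ γ : galPerm ℚ Qb μ₀, n (γ • i) := by
        rw [← Finset.sum_neg_distrib]
        exact Finset.sum_congr rfl fun γ _ => by rw [hcG, hnc]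
      linarith
    have h3 : ∏ γ : galPerm ℚ Qb μ₀, ∏ i, lam i ^ n (γ • i) = 1 := by
      rw [Finset.prod_comm]
      apply Finset.prod_eq_one
      intro i _
      have h4 : ∀ s : Finset (galPerm ℚ Qb μ₀), ∏ γ ∈ s, lam i ^ n (γ • i) =
          lam i ^ (∑ γ ∈ s, n (γ • i)) := by
        intro s
        induction s using Finset.induction_on with
        | empty => simp
        | insert x s hx ih => rw [Finset.prod_insert hx, Finset.sum_insert hx, ih, zpow_add₀ (hlam i)]
      rw [h4, h2, zpow_zero]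
    simp only [h1, Finset.prod_const, Finset.card_univ] at h3
    rw [← zpow_natCast, ← zpow_mul, ← hcastE] at h3
    have h4 : ((p : ℚ) ^ a) ^ (E * (Fintype.card (galPerm ℚ Qb μ₀) : ℤ)) = 1 := by
      exact_mod_cast h3
    have hp1 : (1 : ℚ) < (p : ℚ) ^ a := one_lt_pow₀ (by exact_mod_cast hp.one_lt) ha.ne'
    have h5 : E * (Fintype.card (galPerm ℚ Qb μ₀) : ℤ) = 0 := by
      have h6 : ((p : ℚ) ^ a) ^ (E * (Fintype.card (galPerm ℚ Qb μ₀) : ℤ)) =
          ((p : ℚ) ^ a) ^ (0 : ℤ) := by rw [h4, zpow_zero]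
      exact zpow_right_injective₀ (by positivity) hp1.ne' h6
    rcases mul_eq_zero.1 h5 with h | h
    · exact h
    · exfalso
      have : (Fintype.card (galPerm ℚ Qb μ₀) : ℤ) ≠ 0 := by
        exact_mod_cast Fintype.card_ne_zero
      exact this h
  have hνc : ∀ i, ν (c i) * ν i = (p : PadicAlgCl p) ^ a := by
    intro i
    have h1 : lamL (c i) * lamL i = (p : L) ^ a := by
      apply Subtype.ext
      have := hlc i
      push_cast
      exact this
    have := congrArg τp h1
    rw [map_mul, map_pow, map_natCast] at this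
    exact this
  refine angle_of_ev p a hp P hns lam hP c hc hcne hlc hlam hq0 ?_ ?_ m k N hN hrel v
  · intro x hx hxodd hx0
    have h1 : ∃ s, x s ≠ 0 := by
      by_contra hcon
      push Not at hcon
      exact hx0 (funext hcon)
    obtain ⟨s, hs⟩ := h1
    let R' : Submodule ℚ (I → ℚ) := R ⊓ oddOn c Set.univ
    have hR'G : ∀ (γ : galPerm ℚ Qb μ₀), ∀ x ∈ R', (fun s => x (γ • s)) ∈ R' := by
      rintro γ y ⟨hy1, hy2, hy3⟩
      refine ⟨hRG γ y hy1, ?_, fun s hs => absurd trivial hs⟩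
      intro u
      simp only [hcG]
      exact hy2 _
    by_cases hd : ∀ t : I, orbType (galPerm ℚ Qb μ₀) t = orbType (galPerm ℚ Qb μ₀) s →
        t ∈ MulAction.orbit (galPerm ℚ Qb μ₀) s
    · have hmem' : ev2 c s ∈ R' :=
        odd_submodule (G := galPerm ℚ Qb μ₀) (H := galPerm M KM μ) c hc hcne hcG hHG hpowH
          hoddH R' (fun x hx => hx.2.1) hR'G x ⟨hx, hxodd, fun s hs => absurd trivial hs⟩ s hs hd
      exact ⟨s, hmem'.1⟩
    · exfalso
      push Not at hd
      obtain ⟨t₀, ht₀, ht₀'⟩ := hd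
      have hcl : ∀ u : {u : I // orbType (galPerm ℚ Qb μ₀) u = orbType (galPerm ℚ Qb μ₀) s},
          OddSlope p a (ν u) := by
        rintro ⟨u, hu⟩
        by_cases hus : u ∈ MulAction.orbit (galPerm ℚ Qb μ₀) s
        · apply hslope' u t₀ (by rw [hu, ht₀])
          rw [MulAction.orbit_eq_iff.2 hus]
          exact ht₀'
        · apply hslope' u s hu
          intro h
          exact hus (MulAction.mem_orbit_symm.1 h)
      choose b hb j hj using hcl
      let U : Type := {u : I // orbType (galPerm ℚ Qb μ₀) u = orbType (galPerm ℚ Qb μ₀) s}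
      let hUfin : Fintype U := Subtype.fintype
        (fun u : I => orbType (galPerm ℚ Qb μ₀) u = orbType (galPerm ℚ Qb μ₀) s)
      let B : ℕ := ∏ u : U, b u
      have hBodd : Odd B := by
        apply Finset.prod_induction _ Odd (fun _ _ => Odd.mul) odd_one
        intro u _
        exact hb u
      have hJ : ∀ u : U, ∃ J : ℤ, ‖ν u.1‖ ^ B = ((p : ℝ) ^ a) ^ J := by
        intro u
        refine ⟨j u * ((∏ t ∈ Finset.univ.erase u, b t : ℕ) : ℤ), ?_⟩
        have h1 : B = b u * ∏ t ∈ Finset.univ.erase u, b t :=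
          (Finset.mul_prod_erase Finset.univ b (Finset.mem_univ u)).symm
        rw [h1, pow_mul, hj u, zpow_mul, zpow_natCast]
      choose J hJ using hJ
      have hcardc : ∀ u, orbType (galPerm ℚ Qb μ₀) (c u) = orbType (galPerm ℚ Qb μ₀) u := by
        intro u
        simp only [orbType]
        rw [MulAction.orbit_eq_iff.2 (hcOG u)]
      have hp1 : (1 : ℝ) < p := by exact_mod_cast hp.one_lt
      have hy1 : (1 : ℝ) < (p : ℝ) ^ a := one_lt_pow₀ hp1 ha.ne'
      have hJc : ∀ (u : I) (hu : orbType (galPerm ℚ Qb μ₀) u = orbType (galPerm ℚ Qb μ₀) s)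
          (hu' : orbType (galPerm ℚ Qb μ₀) (c u) = orbType (galPerm ℚ Qb μ₀) s),
          J ⟨c u, hu'⟩ = - J ⟨u, hu⟩ - B := by
        intro u hu hu'
        have h2 := congrArg (fun z => ‖z‖ ^ B) (hνc u)
        simp only [norm_mul] at h2
        have h4 : (((p : ℝ) ^ a)⁻¹) ^ B = ((p : ℝ) ^ a) ^ (-(B : ℤ)) := by
          rw [inv_pow, zpow_neg, zpow_natCast]
        rw [mul_pow, hJ ⟨c u, hu'⟩, hJ ⟨u, hu⟩, norm_q, ← zpow_add₀ (by positivity), h4] at h2
        have h3 := zpow_right_injective₀ (by positivity) hy1.ne' h2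
        linarith
      let w : I → ℤ := fun u =>
        if h : orbType (galPerm ℚ Qb μ₀) u = orbType (galPerm ℚ Qb μ₀) s then 2 * J ⟨u, h⟩ + B
        else 0
      refine odd_contra (G := galPerm ℚ Qb μ₀) (H := galPerm M KM μ) c hc hcne hcG hHG hpowH
        hoddH R' (fun x hx => hx.2.1) hR'G s w ?_ ?_ ?_ x
        ⟨hx, hxodd, fun s hs => absurd trivial hs⟩ s hs rfl
      · intro u
        by_cases hu : orbType (galPerm ℚ Qb μ₀) u = orbType (galPerm ℚ Qb μ₀) s
        · have hu' : orbType (galPerm ℚ Qb μ₀) (c u) = orbType (galPerm ℚ Qb μ₀) s := by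
            rw [hcardc, hu]
          simp only [w, dif_pos hu, dif_pos hu']
          rw [hJc u hu hu']
          ring
        · have hu' : ¬ orbType (galPerm ℚ Qb μ₀) (c u) = orbType (galPerm ℚ Qb μ₀) s := by
            rw [hcardc]
            exact hu
          simp only [w, dif_neg hu, dif_neg hu', neg_zero]
      · intro u hu
        simp only [w, dif_pos hu]
        have : Odd (B : ℤ) := by exact_mod_cast hBodd
        exact (even_two_mul _).add_odd this
      · rintro y ⟨⟨D, hD, n, hn, E, hE⟩, hyo, -⟩ hysupp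
        have hnc : ∀ i, n (c i) = - n i := by
          intro i
          have h1 : ((n (c i) : ℤ) : ℚ) = ((- n i : ℤ) : ℚ) := by
            rw [hn]
            push_cast
            rw [hn, hyo]
            ring
          exact_mod_cast h1
        have hn0 : ∀ i, ¬ orbType (galPerm ℚ Qb μ₀) i = orbType (galPerm ℚ Qb μ₀) s →
            n i = 0 := by
          intro i hi
          have h1 := hn i
          rw [hysupp i hi, mul_zero] at h1
          exact_mod_cast h1
        have hEz := hE0 n hnc E hE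
        rw [hEz, zpow_zero] at hE
        have h1 : ∏ i, lamL i ^ n i = 1 := by
          apply (algebraMap L K).injective
          rw [map_prod, map_one, ← hE]
          apply Finset.prod_congr rfl
          intro i _
          rw [map_zpow₀]
          rfl
        have h2 : ∏ i, ν i ^ n i = 1 := by
          have := congrArg τp h1
          rw [map_prod, map_one] at this
          rw [← this]
          apply Finset.prod_congr rfl
          intro i _
          rw [map_zpow₀]
        have h3 : ∏ u : U, ν u.1 ^ n u.1 = 1 := by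
          rw [← Fintype.prod_subtype_mul_prod_subtype
            (fun i : I => orbType (galPerm ℚ Qb μ₀) i = orbType (galPerm ℚ Qb μ₀) s)
            (fun i => ν i ^ n i)] at h2
          have h4 : ∏ i : {i : I // ¬ orbType (galPerm ℚ Qb μ₀) i =
              orbType (galPerm ℚ Qb μ₀) s}, ν i.1 ^ n i.1 = 1 := by
            apply Finset.prod_eq_one
            rintro ⟨i, hi⟩ _
            change ν i ^ n i = 1
            rw [hn0 i hi, zpow_zero]
          rw [h4, mul_one] at h2
          exact h2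
        have h5 := sum_of_relation p a ha (fun u : U => ν u.1) B J hJ (fun u => n u.1) 0 1
          one_pos (by rw [h3]; simp)
        have h6 : ∑ i, n i = 0 := by
          have h7 : ∑ i, n (c i) = ∑ i, n i :=
            (Function.Involutive.bijective hc).sum_comp n
          simp only [hnc, Finset.sum_neg_distrib] at h7
          linarith
        have h8 : ∑ i, n i * w i = 0 := by
          have h9 : ∀ f : I → ℤ, (∀ i, ¬ orbType (galPerm ℚ Qb μ₀) i =
              orbType (galPerm ℚ Qb μ₀) s → f i = 0) → ∑ i, f i = ∑ u : U, f u.1 := by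
            intro f hf
            rw [← Fintype.sum_subtype_add_sum_subtype
              (fun i : I => orbType (galPerm ℚ Qb μ₀) i = orbType (galPerm ℚ Qb μ₀) s) f]
            have h4 : ∑ i : {i : I // ¬ orbType (galPerm ℚ Qb μ₀) i =
                orbType (galPerm ℚ Qb μ₀) s}, f i.1 = 0 := by
              apply Finset.sum_eq_zero
              rintro ⟨i, hi⟩ _
              exact hf i hi
            rw [h4, add_zero]
          rw [h9 n hn0] at h6
          rw [h9 (fun i => n i * w i) (fun i hi => by simp only [hn0 i hi, zero_mul])]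
          have h10 : ∀ u : U, n u.1 * w u.1 = 2 * (n u.1 * J u) + B * n u.1 := by
            rintro ⟨u, hu⟩
            simp only [w, dif_pos hu]
            ring
          simp only [h10]
          rw [Finset.sum_add_distrib, ← Finset.mul_sum, ← Finset.mul_sum, h5, h6]
          ring
        have h11 : (D : ℚ) * ∑ u, y u * w u = 0 := by
          rw [Finset.mul_sum]
          have h12 : ∀ u, (D : ℚ) * (y u * w u) = ((n u * w u : ℤ) : ℚ) := by
            intro u
            push_cast
            rw [hn]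
            ring
          simp only [h12]
          exact_mod_cast h8
        have hD' : (D : ℚ) ≠ 0 := by exact_mod_cast hD.ne'
        exact (mul_eq_zero.1 h11).resolve_left hD'
  · intro u
    obtain ⟨h, hh⟩ := hcO u
    obtain ⟨γ, hγ⟩ := hHG h
    have h1 : γ • u = c u := by rw [← hγ]; exact hh
    refine ⟨MulAction.toPerm γ, h1, ?_, fun n z hz => hrelinv γ n z hz⟩
    change γ • c u = u
    rw [hcG, h1, hc]

end irrF

end Pool.Agent.Lib.MP_640417_ag.Frob
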