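import Pool.Agent.Lib.MP_640417_ag.Frob.CarB

/-!
# The Lie algebra of matrices killing all Tate classes
-/

namespace Pool.Agent.Lib.MP_640417_ag.Frob

open Module

variable {I : Type} [Fintype I] [DecidableEq I] {F : Type} [Field F] {n : ℕ}
  {Γ : Type} [Group Γ] [TopologicalSpace Γ]

/-- `M` kills all Tate classes on `Aⁿ` (as a derivation). -/
def Kills (n : ℕ) (A : Γ →* Matrix I I F) (χ : Γ →* Fˣ) (M : Matrix I I F) : Prop :=
  ∀ (i : ℕ) (x : Lam I F n), TateClass (fun γ => Tn n (A γ)) χ i x → DD n M x = 0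

/-- The algebra generated by the conjugates of the diagonal matrices. -/
noncomputable def R0 (A : Γ →* Matrix I I F) : Subalgebra F (Matrix I I F) :=
  Algebra.adjoin F {M | ∃ (γ : Γ) (d : I → F), M = A γ * Matrix.diagonal d * A γ⁻¹}

private lemma LieA_map_mem {V : Type} [AddCommGroup V] [Module F V] (f : V →ₗ[F] V) (m : ℕ)
    {x : ExteriorAlgebra F V} (hx : x ∈ ⋀[F]^m V) : ExteriorAlgebra.map f x ∈ ⋀[F]^m V := by
  have h : Submodule.map (ExteriorAlgebra.map f).toLinearMap (⋀[F]^m V) ≤ ⋀[F]^m V := by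
    have h1 : Submodule.map (ExteriorAlgebra.map f).toLinearMap
        ((LinearMap.range (ExteriorAlgebra.ι F (M := V))) ^ m)
        ≤ (LinearMap.range (ExteriorAlgebra.ι F (M := V))) ^ m := by
      rw [Submodule.map_pow]
      refine pow_le_pow_left' ?_ m
      rintro _ ⟨_, ⟨v, rfl⟩, rfl⟩
      refine ⟨f v, ?_⟩
      rw [AlgHom.toLinearMap_apply, ExteriorAlgebra.map_apply_ι]
    exact h1
  exact h ⟨x, hx, rfl⟩

private lemma LieA_map_Tn_mul (A B : Matrix I I F) (x : Lam I F n) :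
    ExteriorAlgebra.map (Tn n A) (ExteriorAlgebra.map (Tn n B) x)
      = ExteriorAlgebra.map (Tn n (A * B)) x := by
  rw [Tn_mul, ← ExteriorAlgebra.map_comp_map]
  rfl

/-- Translates of Tate classes are Tate classes. -/
lemma tateClass_translate [IsTopologicalGroup Γ] (A : Γ →* Matrix I I F) (χ : Γ →* Fˣ) (i : ℕ)
    (x : Lam I F n) (hx : TateClass (fun γ => Tn n (A γ)) χ i x) (δ : Γ) :
    TateClass (fun γ => Tn n (A γ)) χ i (ExteriorAlgebra.map (Tn n (A δ)) x) := by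
  obtain ⟨hx1, U, hU⟩ := hx
  refine ⟨LieA_map_mem _ _ hx1, ?_⟩
  have hcont : Continuous (MulAut.conj δ⁻¹).toMonoidHom := by
    have : Continuous fun γ : Γ => δ⁻¹ * γ * (δ⁻¹)⁻¹ :=
      (continuous_const.mul continuous_id).mul continuous_const
    exact this
  refine ⟨OpenSubgroup.comap (MulAut.conj δ⁻¹).toMonoidHom hcont U, fun γ hγ => ?_⟩
  have h1 : δ⁻¹ * γ * (δ⁻¹)⁻¹ ∈ U := OpenSubgroup.mem_comap.mp hγ
  have h2 := hU _ h1
  have h3 : χ (δ⁻¹ * γ * (δ⁻¹)⁻¹) = χ γ := by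
    rw [map_mul, map_mul, mul_comm (χ δ⁻¹), mul_assoc, ← map_mul, mul_inv_cancel, map_one, mul_one]
  rw [h3] at h2
  calc (χ γ : F) ^ i • ExteriorAlgebra.map (Tn n (A γ)) (ExteriorAlgebra.map (Tn n (A δ)) x)
      = (χ γ : F) ^ i • ExteriorAlgebra.map (Tn n (A δ))
          (ExteriorAlgebra.map (Tn n (A (δ⁻¹ * γ * (δ⁻¹)⁻¹))) x) := by
        rw [LieA_map_Tn_mul, LieA_map_Tn_mul, ← map_mul, ← map_mul]
        congr 5
        group
    _ = ExteriorAlgebra.map (Tn n (A δ))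
          ((χ γ : F) ^ i • ExteriorAlgebra.map (Tn n (A (δ⁻¹ * γ * (δ⁻¹)⁻¹))) x) := by
        rw [map_smul]
    _ = ExteriorAlgebra.map (Tn n (A δ)) x := by rw [h2]

lemma kills_add (A : Γ →* Matrix I I F) (χ : Γ →* Fˣ) {M M' : Matrix I I F}
    (h : Kills n A χ M) (h' : Kills n A χ M') : Kills n A χ (M + M') := by
  intro i x hx
  rw [DD_add, LinearMap.add_apply, h i x hx, h' i x hx, add_zero]

lemma kills_smul (A : Γ →* Matrix I I F) (χ : Γ →* Fˣ) (r : F) {M : Matrix I I F}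
    (h : Kills n A χ M) : Kills n A χ (r • M) := by
  intro i x hx
  rw [DD_smul, LinearMap.smul_apply, h i x hx, smul_zero]

lemma kills_comm (A : Γ →* Matrix I I F) (χ : Γ →* Fˣ) {M M' : Matrix I I F}
    (h : Kills n A χ M) (h' : Kills n A χ M') : Kills n A χ (M * M' - M' * M) := by
  intro i x hx
  rw [← DD_comm, h i x hx, h' i x hx, map_zero, map_zero, sub_zero]

lemma kills_conj [IsTopologicalGroup Γ] (A : Γ →* Matrix I I F) (χ : Γ →* Fˣ)
    {M : Matrix I I F} (h : Kills n A χ M) (γ : Γ) : Kills n A χ (A γ * M * A γ⁻¹) := by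
  intro i x hx
  have h1 := h i _ (tateClass_translate A χ i x hx γ⁻¹)
  have h2 : A γ * M = (A γ * M * A γ⁻¹) * A γ := by
    rw [mul_assoc (A γ * M), ← map_mul, inv_mul_cancel, map_one, mul_one]
  have h3 := map_DD (n := n) h2 (ExteriorAlgebra.map (Tn n (A γ⁻¹)) x)
  rw [h1, map_zero, LieA_map_Tn_mul, ← map_mul, mul_inv_cancel, map_one, Tn_one,
    ExteriorAlgebra.map_id] at h3
  exact h3.symm

end Pool.Agent.Lib.MP_640417_ag.Frob
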