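import Pool.Agent.Lib.MP_640417_ag.Frob.General

/-!
# One Frobenius suffices
-/

namespace Pool.Agent.Lib.MP_640417_ag.Frob

open Module Polynomial TensorProduct

variable {Γ : Type} [Group Γ] [TopologicalSpace Γ] {F : Type} [Field F] [TopologicalSpace F]
  {V : Type} [AddCommGroup V] [Module F V] [FiniteDimensional F V]

lemma IsFrobenius.monic [CharZero F] {ρ : H1Rep Γ F V} {φ : Γ} {p a : ℕ} {P : ℤ[X]}
    (hφ : IsFrobenius ρ φ p a P) : P.Monic := by
  apply Polynomial.monic_of_injective (RingHom.injective_int (Int.castRingHom F))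
  rw [← hφ.charpoly]
  exact LinearMap.charpoly_monic _

/-- One Frobenius suffices. -/
theorem main [CharZero F] [IsTopologicalRing F] [T1Space F]
    [IsTopologicalGroup Γ] [CompactSpace Γ]
    (ρ : H1Rep Γ F V) (φ : Γ) (p a : ℕ) [Fact p.Prime] (P : ℤ[X])
    (hφ : IsFrobenius ρ φ p a P) (hslope : OddSlopes p a P)
    (M : Type) [Field M] [CharZero M]
    (hpow : ∀ Q : M[X], Irreducible Q → Q ∣ P.map (Int.castRingHom M) → ∃ k, Q.natDegree = 2 ^ k)
    (hdisc : ∀ Q : M[X], Q.Monic → Q ∣ P.map (Int.castRingHom M) → Q ≠ 1 → ¬ IsSquare Q.discr)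
    (n i : ℕ) (x : ExteriorAlgebra F (Fin n → V)) :
    ¬ ExoticTateClass (fun γ => (ρ.T γ).compLeft (Fin n)) ρ.χ i x := by
  classical
  refine main_of_angle ρ φ p a P hφ (separable_of_discr P hφ.monic hdisc) ?_ n i x
  intro K _ _ I _ _ lam c _ hprod hc _ hlc m k N hN hrel
  exact angle_slope (M := M) p a hφ.pos P lam hprod c hc hlc hslope hpow hdisc m k N hN hrel

/-- The ordinary case. -/
theorem main_ordinary [CharZero F] [IsTopologicalRing F] [T1Space F]
    [IsTopologicalGroup Γ] [CompactSpace Γ]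
    (ρ : H1Rep Γ F V) (φ : Γ) (p a : ℕ) [Fact p.Prime] (P : ℤ[X])
    (hφ : IsFrobenius ρ φ p a P) (hord : ¬ (p : ℤ) ∣ P.coeff (finrank F V / 2))
    (M : Type) [Field M] [CharZero M]
    (hpow : ∀ Q : M[X], Irreducible Q → Q ∣ P.map (Int.castRingHom M) → ∃ k, Q.natDegree = 2 ^ k)
    (hdisc : ∀ Q : M[X], Q.Monic → Q ∣ P.map (Int.castRingHom M) → Q ≠ 1 → ¬ IsSquare Q.discr)
    (n i : ℕ) (x : ExteriorAlgebra F (Fin n → V)) :
    ¬ ExoticTateClass (fun γ => (ρ.T γ).compLeft (Fin n)) ρ.χ i x := by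
  classical
  refine main_of_angle ρ φ p a P hφ (separable_of_discr P hφ.monic hdisc) ?_ n i x
  intro K _ _ I _ _ lam c hcard hprod hc hcne hlc m k N hN hrel
  have hcard' : Fintype.card I = 2 * (finrank F V / 2) := by
    obtain ⟨X₀, hX₀⟩ := exists_transversal c hc hcne
    have h2 := two_mul_card_transversal c hc X₀ hX₀
    rw [← hcard, ← h2]
    omega
  exact angle_slope (M := M) p a hφ.pos P lam hprod c hc hlc
    (oddSlopes_of_ordinary p a (finrank F V / 2) hφ.pos hcard' P lam hprod c hc hlc hord)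
    hpow hdisc m k N hN hrel

end Pool.Agent.Lib.MP_640417_ag.Frob
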