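import Pool.Agent.Lib.MP_640417_ag.Frob.CarB

/-!
# Transport of Tate classes along a basis
-/

namespace Pool.Agent.Lib.MP_640417_ag.Frob

open Module Polynomial

section mainA

variable {Γ : Type} [Group Γ] [TopologicalSpace Γ] {F : Type} [Field F]

private theorem mainA_mem {V W : Type} [AddCommGroup V] [Module F V] [AddCommGroup W] [Module F W]
    (g : V →ₗ[F] W) (m : ℕ) (x : ExteriorAlgebra F V) (hx : x ∈ ⋀[F]^m V) :
    ExteriorAlgebra.map g x ∈ ⋀[F]^m W := by
  have h : Submodule.map (ExteriorAlgebra.map g).toLinearMap (⋀[F]^m V) ≤ ⋀[F]^m W := by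
    rw [Submodule.map_pow]
    have h1 : Submodule.map (ExteriorAlgebra.map g).toLinearMap (LinearMap.range
        (ExteriorAlgebra.ι F : V →ₗ[F] ExteriorAlgebra F V)) ≤ LinearMap.range
        (ExteriorAlgebra.ι F : W →ₗ[F] ExteriorAlgebra F W) := by
      rintro _ ⟨_, ⟨v, rfl⟩, rfl⟩
      refine ⟨g v, ?_⟩
      simp
    exact pow_le_pow_left' h1 m
  exact h ⟨x, hx, rfl⟩

private theorem mainA_tate {V W : Type} [AddCommGroup V] [Module F V] [AddCommGroup W]
    [Module F W] (T : Γ → V →ₗ[F] V) (S : Γ → W →ₗ[F] W) (χ : Γ →* Fˣ) (g : V →ₗ[F] W)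
    (hg : ∀ γ, g ∘ₗ T γ = S γ ∘ₗ g) (i : ℕ) (x : ExteriorAlgebra F V) (hx : TateClass T χ i x) :
    TateClass S χ i (ExteriorAlgebra.map g x) := by
  obtain ⟨h1, U, hU⟩ := hx
  refine ⟨mainA_mem g _ x h1, U, fun γ hγ => ?_⟩
  have h2 := congrArg (ExteriorAlgebra.map g) (hU γ hγ)
  have h3 : ExteriorAlgebra.map (S γ) (ExteriorAlgebra.map g x) =
      ExteriorAlgebra.map g (ExteriorAlgebra.map (T γ) x) := by
    have e1 : (ExteriorAlgebra.map (S γ)).comp (ExteriorAlgebra.map g) =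
        (ExteriorAlgebra.map g).comp (ExteriorAlgebra.map (T γ)) := by
      rw [ExteriorAlgebra.map_comp_map, ExteriorAlgebra.map_comp_map, hg]
    exact congrArg (fun a => a x) e1
  rw [h3, ← map_smul]
  exact h2

private theorem mainA_div {V W : Type} [AddCommGroup V] [Module F V] [AddCommGroup W]
    [Module F W] (T : Γ → V →ₗ[F] V) (S : Γ → W →ₗ[F] W) (χ : Γ →* Fˣ) (g : V →ₗ[F] W)
    (hg : ∀ γ, g ∘ₗ T γ = S γ ∘ₗ g) (x : ExteriorAlgebra F V) (hx : x ∈ divisorAlg T χ) :
    ExteriorAlgebra.map g x ∈ divisorAlg S χ := by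
  have h : (divisorAlg T χ).map (ExteriorAlgebra.map g) ≤ divisorAlg S χ := by
    unfold divisorAlg
    rw [AlgHom.map_adjoin]
    refine Algebra.adjoin_mono ?_
    rintro _ ⟨y, hy, rfl⟩
    exact mainA_tate T S χ g hg 1 y hy
  exact h ⟨x, hx, rfl⟩

end mainA

variable {Γ : Type} [Group Γ] [TopologicalSpace Γ] {F : Type} [Field F]
  {V : Type} [AddCommGroup V] [Module F V] [FiniteDimensional F V]

/-- Transport of the Tate classes along a basis. -/
theorem transport {I : Type} [Fintype I] [DecidableEq I]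
    (e : Basis I F V) (T : Γ →* Module.End F V) (χ : Γ →* Fˣ) (A : Γ →* Matrix I I F)
    (hA : ∀ γ, A γ = LinearMap.toMatrix e e (T γ)) (n : ℕ)
    (h : ∀ (i : ℕ) (x : Lam I F n), TateClass (fun γ => Tn n (A γ)) χ i x →
      x ∈ divisorAlg (fun γ => Tn n (A γ)) χ)
    (i : ℕ) (x : ExteriorAlgebra F (Fin n → V)) :
    ¬ ExoticTateClass (fun γ => (T γ).compLeft (Fin n)) χ i x := by
  rintro ⟨hx, hx'⟩
  let f : (Fin n → V) →ₗ[F] (Fin n × I → F) :=
    LinearMap.pi fun p => (LinearMap.proj p.2) ∘ₗ e.equivFun.toLinearMap ∘ₗ (LinearMap.proj p.1)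
  let g : (Fin n × I → F) →ₗ[F] (Fin n → V) :=
    LinearMap.pi fun a => e.equivFun.symm.toLinearMap ∘ₗ
      (LinearMap.pi fun v => LinearMap.proj (a, v))
  have hfa : ∀ (y : Fin n → V) (p : Fin n × I), f y p = e.repr (y p.1) p.2 := fun y p => rfl
  have hga : ∀ (y : Fin n × I → F) (a : Fin n), g y a = e.equivFun.symm fun v => y (a, v) :=
    fun y a => rfl
  have hgf : g ∘ₗ f = LinearMap.id := by
    refine LinearMap.ext fun y => funext fun a => ?_
    rw [LinearMap.comp_apply, hga]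
    have : (fun v => f y (a, v)) = e.equivFun (y a) := rfl
    rw [this, LinearEquiv.symm_apply_apply]
    rfl
  have hfg : ∀ γ, f ∘ₗ (T γ).compLeft (Fin n) = Tn n (A γ) ∘ₗ f := by
    intro γ
    refine LinearMap.ext fun y => funext fun p => ?_
    have e1 : (Tn n (A γ) ∘ₗ f) y p = ∑ v, A γ p.2 v * e.repr (y p.1) v := by
      simp [Tn, f]
    have e2 : (f ∘ₗ (T γ).compLeft (Fin n)) y p = e.repr (T γ (y p.1)) p.2 := rfl
    rw [e1, e2, hA]
    have e3 := congrFun (LinearMap.toMatrix_mulVec_repr e e (T γ) (y p.1)) p.2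
    rw [← e3]
    rfl
  have hgg : ∀ γ, g ∘ₗ Tn n (A γ) = (T γ).compLeft (Fin n) ∘ₗ g := by
    intro γ
    have hfinj : Function.Injective f := by
      intro y y' hy
      have := congrArg g hy
      rw [← LinearMap.comp_apply, ← LinearMap.comp_apply, hgf] at this
      exact this
    have hff : f ∘ₗ g = LinearMap.id := by
      refine LinearMap.ext fun y => funext fun p => ?_
      rw [LinearMap.comp_apply, hfa, hga]
      have : e.repr (e.equivFun.symm fun v => y (p.1, v)) p.2 =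
          e.equivFun (e.equivFun.symm fun v => y (p.1, v)) p.2 := rfl
      rw [this, LinearEquiv.apply_symm_apply]
      rfl
    refine LinearMap.ext fun y => hfinj ?_
    have e1 : f ((g ∘ₗ Tn n (A γ)) y) = Tn n (A γ) y := by
      rw [LinearMap.comp_apply, ← LinearMap.comp_apply f g, hff]
      rfl
    have e2 : f (((T γ).compLeft (Fin n) ∘ₗ g) y) = Tn n (A γ) y := by
      rw [LinearMap.comp_apply, ← LinearMap.comp_apply f, hfg, LinearMap.comp_apply,
        ← LinearMap.comp_apply f g, hff]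
      rfl
    rw [e1, e2]
  have h1 := mainA_tate (fun γ => (T γ).compLeft (Fin n)) (fun γ => Tn n (A γ)) χ f hfg i x hx
  have h2 := mainA_div (fun γ => Tn n (A γ)) (fun γ => (T γ).compLeft (Fin n)) χ g hgg _
    (h i _ h1)
  refine hx' ?_
  have h3 : ExteriorAlgebra.map g (ExteriorAlgebra.map f x) = x := by
    have e1 : (ExteriorAlgebra.map g).comp (ExteriorAlgebra.map f) = AlgHom.id F _ := by
      rw [ExteriorAlgebra.map_comp_map, hgf, ExteriorAlgebra.map_id]
    exact congrArg (fun a => a x) e1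
  rwa [h3] at h2

end Pool.Agent.Lib.MP_640417_ag.Frob
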