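import Mathlib

/-!
# An eigenbasis adapted to an alternating form
-/

namespace Pool.Agent.Lib.MP_640417_ag.Frob

open Module Polynomial

variable {F : Type} [Field F] {V : Type} [AddCommGroup V] [Module F V] [FiniteDimensional F V]

/-- An eigenbasis adapted to the form. -/
theorem exists_eigenbasis [IsAlgClosed F] (T : Module.End F V)
    (hsep : T.charpoly.Separable) (form : LinearMap.BilinForm F V)
    (halt : ∀ x, form x x = 0) (hnd : ∀ x, (∀ y, form x y = 0) → x = 0) (q : F) (hq : q ≠ 0)
    (heq : ∀ x y, form (T x) (T y) = q * form x y) (h2 : (2 : F) ≠ 0) :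
    ∃ (I : Type) (_ : Fintype I) (_ : DecidableEq I) (e : Basis I F V) (lam : I → F) (c : I → I)
      (w : I → F), Function.Injective lam ∧ (∀ i, T (e i) = lam i • e i) ∧
      T.charpoly = ∏ i, (X - C (lam i)) ∧ (∀ i, c (c i) = i) ∧ (∀ i, c i ≠ i) ∧
      (∀ i, lam (c i) * lam i = q) ∧ (∀ i, w i ≠ 0) ∧ (∀ i, w (c i) = - w i) ∧
      (∀ i j, form (e i) (e j) = if j = c i then w i else 0) := by
  classical
  set P := T.charpoly with hP
  have hmon : P.Monic := T.charpoly_monic
  have hspl : P.Splits := IsAlgClosed.splits P
  have hnodup : P.roots.Nodup := nodup_roots hsep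
  have hcard : P.roots.card = finrank F V := by
    rw [← LinearMap.charpoly_natDegree T, ← hspl.natDegree_eq_card_roots]
  set I : Type := {x : F // x ∈ P.roots.toFinset} with hI
  have hIcard : Fintype.card I = finrank F V := by
    have h1 : Fintype.card {x : F // x ∈ P.roots.toFinset} = P.roots.toFinset.card :=
      Fintype.card_coe _
    rw [← hcard, ← Multiset.toFinset_card_of_nodup hnodup]
    exact h1
  have hev : ∀ i : I, ∃ v : V, T.HasEigenvector i.1 v := by
    intro i
    have h1 : i.1 ∈ P.roots := Multiset.mem_toFinset.1 i.2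
    have h2 : P.IsRoot i.1 := isRoot_of_mem_roots h1
    exact (Module.End.hasEigenvalue_iff_isRoot_charpoly T i.1).2 h2 |>.exists_hasEigenvector
  choose b hb using hev
  have hli : LinearIndependent F b :=
    Module.End.eigenvectors_linearIndependent' T (fun i : I => i.1) Subtype.val_injective b hb
  set e : Basis I F V := Basis.mk hli (hli.span_eq_top_of_card_eq_finrank' hIcard).ge with he
  have heb : ∀ i, e i = b i := fun i => Basis.mk_apply _ _ i
  have hTe : ∀ i, T (e i) = i.1 • e i := by
    intro i
    rw [heb]
    exact (hb i).apply_eq_smul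
  have hprod : P = ∏ i : I, (X - C i.1) := by
    have h1 := hspl.eq_prod_roots_of_monic hmon
    rw [Finset.prod_coe_sort P.roots.toFinset (fun x => X - C x)]
    rw [Finset.prod, Multiset.toFinset_val, Multiset.dedup_eq_self.2 hnodup]
    exact h1
  have hanti : ∀ x y, form x y = - form y x := by
    intro x y
    have h1 := halt (x + y)
    simp only [map_add, LinearMap.add_apply, halt x, halt y, zero_add, add_zero] at h1
    rw [eq_neg_iff_add_eq_zero, add_comm]
    exact h1
  have hkey : ∀ i j : I, form (e i) (e j) ≠ 0 → i.1 * j.1 = q := by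
    intro i j hij
    have h1 := heq (e i) (e j)
    simp only [hTe, map_smul, LinearMap.smul_apply, smul_eq_mul] at h1
    apply mul_right_cancel₀ hij
    rw [← h1]
    ring
  have hex : ∀ i : I, ∃ j : I, form (e i) (e j) ≠ 0 := by
    intro i
    by_contra hcon
    push Not at hcon
    apply e.ne_zero i
    apply hnd
    have h1 : form (e i) = 0 := e.ext fun j => by rw [hcon j, LinearMap.zero_apply]
    intro y
    rw [h1, LinearMap.zero_apply]
  have hne : ∀ i : I, i.1 ≠ 0 := by
    intro i hi
    obtain ⟨j, hj⟩ := hex i
    have := hkey i j hj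
    rw [hi, zero_mul] at this
    exact hq this.symm
  choose c hc using hex
  have huniq : ∀ i j : I, form (e i) (e j) ≠ 0 → j = c i := by
    intro i j hij
    apply Subtype.ext
    apply mul_left_cancel₀ (hne i)
    rw [hkey i j hij, hkey i (c i) (hc i)]
  have hcc : ∀ i, c (c i) = i := by
    intro i
    symm
    apply huniq
    rw [hanti]
    exact neg_ne_zero.2 (hc i)
  refine ⟨I, inferInstance, inferInstance, e, fun i => i.1, c, fun i => form (e i) (e (c i)),
    Subtype.val_injective, hTe, hprod, hcc, ?_, ?_, hc, ?_, ?_⟩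
  · intro i hi
    apply hc i
    rw [hi]
    exact halt _
  · intro i
    rw [mul_comm]
    exact hkey i (c i) (hc i)
  · intro i
    simp only
    rw [hcc i]
    exact hanti _ _
  · intro i j
    split_ifs with h
    · rw [h]
    · by_contra hij
      exact h (huniq i j hij)

end Pool.Agent.Lib.MP_640417_ag.Frob
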