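import Pool.Agent.Lib.MP_640417_ag.Frob.General
import Pool.Agent.Lib.MP_640417_ag.Frob.IrrF

/-!
# One Frobenius suffices: the general form
-/

namespace Pool.Agent.Lib.MP_640417_ag.Frob

open Module Polynomial TensorProduct

variable {Γ : Type} [Group Γ] [TopologicalSpace Γ] {F : Type} [Field F] [TopologicalSpace F]
  {V : Type} [AddCommGroup V] [Module F V] [FiniteDimensional F V]

/-- One Frobenius suffices. -/
theorem main_irr [CharZero F] [IsTopologicalRing F] [T1Space F]
    [IsTopologicalGroup Γ] [CompactSpace Γ]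
    (ρ : H1Rep Γ F V) (φ : Γ) (p a : ℕ) [Fact p.Prime] (P : ℤ[X])
    (hφ : IsFrobenius ρ φ p a P)
    (hns : ∀ z : ℂ, aeval z P = 0 → ∀ N : ℕ, 0 < N → z ^ (2 * N) ≠ (p : ℂ) ^ (a * N))
    (hslope : ∀ A B : ℚ[X], Irreducible A → Irreducible B → A ∣ P.map (Int.castRingHom ℚ) →
      B ∣ P.map (Int.castRingHom ℚ) → SameSplit A B → ¬ Associated A B →
      ∀ α : PadicAlgCl p, aeval α A = 0 → OddSlope p a α)
    (M : Type) [Field M] [CharZero M]
    (hpow : ∀ Q : M[X], Irreducible Q → Q ∣ P.map (Int.castRingHom M) → ∃ k, Q.natDegree = 2 ^ k)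
    (hdisc : ∀ Q : M[X], Q.Monic → Q ∣ P.map (Int.castRingHom M) → Q ≠ 1 →
      (∀ A B : M[X], Irreducible A → Irreducible B → A ∣ Q → B ∣ Q → SameSplit A B) →
      ¬ IsSquare Q.discr)
    (n i : ℕ) (x : ExteriorAlgebra F (Fin n → V)) :
    ¬ ExoticTateClass (fun γ => (ρ.T γ).compLeft (Fin n)) ρ.χ i x := by
  classical
  have hmon : P.Monic := by
    apply Polynomial.monic_of_injective (RingHom.injective_int (Int.castRingHom F))
    rw [← hφ.charpoly]
    exact LinearMap.charpoly_monic _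
  refine main_of_angle ρ φ p a P hφ (separable_of_discr2 P hmon hdisc) ?_ n i x
  intro K _ _ I _ _ lam c _ hprod hc hcne hlc m k N hN hrel v
  exact angle_irr (M := M) p a hφ.pos P lam hprod c hc hcne hlc hns hslope hpow hdisc m k N hN
    hrel v

end Pool.Agent.Lib.MP_640417_ag.Frob
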