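import Pool.Agent.Lib.MP_640417_ag.QAdic
import Pool.Agent.Lib.MP_640417_ag.Frob.Slope

/-!
# Polynomials with a factor of prime power degree
-/

namespace Pool.Agent.Lib.MP_640417_ag.Frob

open Polynomial

/-- The orbit of a root of an irreducible polynomial consists of all its roots. -/
theorem orbit_irreducible {M K : Type} [Field M] [Field K] [Algebra M K] [IsGalois M K]
    {I : Type} [Fintype I] [DecidableEq I] (μ : I → K) (hμ : Function.Injective μ) (P : M[X])
    (hP : P.map (algebraMap M K) = ∏ i, (X - C (μ i))) (Q : M[X]) (hQ : Irreducible Q)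
    (hQm : Q.Monic) (i₀ : I) (hi₀ : aeval (μ i₀) Q = 0) :
    ∃ Y : Finset I, (∀ i, i ∈ Y ↔ i ∈ MulAction.orbit (galPerm M K μ) i₀) ∧
      Q.map (algebraMap M K) = ∏ i ∈ Y, (X - C (μ i)) := by
  classical
  let Y : Finset I := Finset.univ.filter fun i => i ∈ MulAction.orbit (galPerm M K μ) i₀
  have hYmem : ∀ i, i ∈ Y ↔ i ∈ MulAction.orbit (galPerm M K μ) i₀ := by
    intro i
    simp [Y]
  have hall : ∀ σ : K ≃ₐ[M] K, ∃ γ : galPerm M K μ, ∀ i, σ (μ i) = μ (γ • i) := by
    intro σ
    obtain ⟨π, hπ⟩ := exists_perm μ hμ P hP σ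
    exact ⟨⟨π, σ, hπ⟩, hπ⟩
  obtain ⟨Q', hQ'm, hQ'P, hQ'⟩ := exists_factor μ P hP Y (by
    intro σ
    obtain ⟨γ, hγ⟩ := hall σ
    refine ⟨MulAction.toPerm γ, hγ, fun i => ?_⟩
    rw [hYmem, hYmem]
    constructor
    · rintro ⟨δ, hδ⟩
      refine ⟨γ⁻¹ * δ, ?_⟩
      change (γ⁻¹ * δ) • i₀ = i
      rw [mul_smul]
      have h1 : δ • i₀ = γ • i := hδ
      rw [h1, inv_smul_smul]
    · rintro ⟨δ, hδ⟩
      refine ⟨γ * δ, ?_⟩
      change (γ * δ) • i₀ = γ • i
      rw [mul_smul]
      have h1 : δ • i₀ = i := hδ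
      rw [h1])
  refine ⟨Y, hYmem, ?_⟩
  -- `Q` divides `Q'`
  have hroot : aeval (μ i₀) Q' = 0 := by
    rw [← eval_map_algebraMap, hQ', eval_prod]
    apply Finset.prod_eq_zero ((hYmem i₀).2 (MulAction.mem_orbit_self i₀))
    simp
  have hmin : minpoly M (μ i₀) = Q := (minpoly.eq_of_irreducible_of_monic hQ hi₀ hQm).symm
  have hdvd : Q ∣ Q' := by
    rw [← hmin]
    exact minpoly.dvd M _ hroot
  -- `Q'` divides `Q`
  have hdvd' : Q'.map (algebraMap M K) ∣ Q.map (algebraMap M K) := by
    rw [hQ']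
    apply Finset.prod_dvd_of_coprime
    · intro i _ j _ hij
      exact isCoprime_X_sub_C_of_isUnit_sub ((sub_ne_zero.mpr (hμ.ne hij)).isUnit)
    · intro i hi
      rw [hYmem] at hi
      obtain ⟨γ, hγ⟩ := hi
      obtain ⟨σ, hσ⟩ := γ.2
      rw [dvd_iff_isRoot, IsRoot.def, eval_map_algebraMap]
      have h1 : γ • i₀ = i := hγ
      rw [← h1]
      have h2 : μ (γ • i₀) = σ (μ i₀) := (hσ i₀).symm
      rw [h2]
      have h3 := aeval_algHom_apply (σ : K →ₐ[M] K) (μ i₀) Q
      rw [hi₀, map_zero] at h3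
      exact h3
  have h1 : Q' ∣ Q := by
    rw [← Polynomial.map_dvd_map' (algebraMap M K)]
    exact hdvd'
  have h2 : Q = Q' := eq_of_monic_of_associated hQm hQ'm (associated_of_dvd_dvd hdvd h1)
  rw [h2, hQ']

/-- The eigenvalues satisfy only the trivial relations if `P` has an irreducible factor of degree
a power of `q`, one half of the degree of `P`, whose constant term has valuation prime to `q`. -/
theorem angle_unitary {M F : Type} [Field M] [CharZero M] [Field F] [CharZero F]
    (p a : ℕ) [Fact p.Prime] (ha : 0 < a)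
    {I : Type} [Fintype I] [DecidableEq I]
    (P : ℤ[X]) (hsepP : (P.map (Int.castRingHom ℚ)).Separable)
    (lam : I → F) (hP : P.map (Int.castRingHom F) = ∏ i, (X - C (lam i)))
    (c : I → I) (hc : ∀ i, c (c i) = i) (hlc : ∀ i, lam (c i) * lam i = (p : F) ^ a)
    (hweil : ∀ z : ℂ, aeval z P = 0 → ‖z‖ ^ 2 = (p : ℝ) ^ a)
    (q k : ℕ) [Fact q.Prime] (hI : Fintype.card I = 2 * q ^ k)
    (w : M →+* PadicAlgCl p) (Q : M[X]) (hQ : Irreducible Q) (hQm : Q.Monic)
    (hQP : Q ∣ P.map (Int.castRingHom M)) (hQd : Q.natDegree = q ^ k)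
    (b : ℕ) (hslope : ∀ α : PadicAlgCl p, aeval α P = 0 → ∃ j : ℤ, ‖α‖ ^ b = ((p : ℝ) ^ a) ^ j)
    (T : ℤ) (hT : ‖w (Q.coeff 0)‖ ^ b = ((p : ℝ) ^ a) ^ (-T)) (hqT : ¬ (q : ℤ) ∣ T)
    (hT2 : 2 * T ≠ b * q ^ k)
    (m : I → ℤ) (k' : ℤ) (N : ℕ) (hN : 0 < N)
    (hrel : (∏ i, lam i ^ m i) ^ N = (((p : F) ^ a) ^ k') ^ N) (i : I) : m i = m (c i) := by
  classical
  have hp : p.Prime := Fact.out
  have hPm : P.Monic := by
    have h1 : (P.map (Int.castRingHom F)).Monic := by
      rw [hP]
      exact monic_prod_of_monic _ _ (fun i _ => monic_X_sub_C _)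
    exact Polynomial.monic_of_injective (RingHom.injective_int _) h1
  let L : IntermediateField ℚ F := IntermediateField.adjoin ℚ (Set.range lam)
  have hint : ∀ i, IsIntegral ℚ (lam i) := by
    intro i
    refine ⟨P.map (Int.castRingHom ℚ), hPm.map _, ?_⟩
    have h1 : (P.map (Int.castRingHom F)).eval (lam i) = 0 := by
      rw [hP, eval_prod]
      apply Finset.prod_eq_zero (Finset.mem_univ i)
      simp
    rw [eval₂_map]
    rw [eval_map] at h1
    have h2 : (algebraMap ℚ F).comp (Int.castRingHom ℚ) = Int.castRingHom F :=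
      RingHom.ext_int _ _
    rw [h2]
    exact h1
  have halg : Algebra.IsAlgebraic ℚ L :=
    IntermediateField.isAlgebraic_adjoin (by
      rintro x ⟨i, rfl⟩
      exact hint i)
  let K : Type := AlgebraicClosure M
  let algK : Algebra ℚ K := inferInstance
  let σ : L →ₐ[ℚ] K := IsAlgClosed.lift
  let τ₀ : L →ₐ[ℚ] ℂ := IsAlgClosed.lift
  let algw : Algebra M (PadicAlgCl p) := w.toAlgebra
  let τ : K →ₐ[M] PadicAlgCl p := IsAlgClosed.lift
  have hmem : ∀ i, lam i ∈ L := fun i => IntermediateField.subset_adjoin ℚ _ ⟨i, rfl⟩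
  let lamL : I → L := fun i => ⟨lam i, hmem i⟩
  let μ : I → K := fun i => σ (lamL i)
  let ν : I → PadicAlgCl p := fun i => τ (μ i)
  let ξ : I → ℂ := fun i => τ₀ (lamL i)
  have hPL : P.map (Int.castRingHom L) = ∏ i, (X - C (lamL i)) := by
    apply Polynomial.map_injective (algebraMap L F) (algebraMap L F).injective
    rw [Polynomial.map_map, Polynomial.map_prod]
    have h1 : (algebraMap L F).comp (Int.castRingHom L) = Int.castRingHom F :=
      RingHom.ext_int _ _
    rw [h1, hP]
    apply Finset.prod_congr rfl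
    intro i _
    rw [Polynomial.map_sub, Polynomial.map_X, Polynomial.map_C]
    rfl
  have hPR : ∀ (R : Type) [Field R] (f : L →+* R),
      P.map (Int.castRingHom R) = ∏ i, (X - C (f (lamL i))) := by
    intro R _ f
    have h1 : f.comp (Int.castRingHom L) = Int.castRingHom R := RingHom.ext_int _ _
    rw [← h1, ← Polynomial.map_map, hPL, Polynomial.map_prod]
    apply Finset.prod_congr rfl
    intro i _
    rw [Polynomial.map_sub, Polynomial.map_X, Polynomial.map_C]
  have hroot : ∀ (R : Type) [Field R] (f : L →+* R) (i : I), aeval (f (lamL i)) P = 0 := by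
    intro R _ f i
    have h2 : aeval (f (lamL i)) P = (P.map (Int.castRingHom R)).eval (f (lamL i)) := by
      rw [eval_map, aeval_def]
      congr 1
    rw [h2, hPR R f, eval_prod]
    exact Finset.prod_eq_zero (Finset.mem_univ i) (by simp)
  have hPK : P.map (Int.castRingHom K) = ∏ i, (X - C (μ i)) := hPR K (σ : L →+* K)
  have hlcL : ∀ i, lamL (c i) * lamL i = (p : L) ^ a := by
    intro i
    apply Subtype.ext
    have := hlc i
    push_cast
    exact this
  have hrelL : (∏ i, lamL i ^ m i) ^ N = (((p : L) ^ a) ^ k') ^ N := by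
    apply (algebraMap L F).injective
    rw [map_pow, map_prod, map_pow, map_zpow₀, map_pow, map_natCast]
    simp only [map_zpow₀]
    exact hrel
  have hgalI : IsGalois M K := by
    have : Normal M K := inferInstance
    have : Algebra.IsSeparable M K := inferInstance
    exact ⟨⟩
  have hchar : CharZero K := charZero_of_injective_algebraMap (algebraMap M K).injective
  have hμc : ∀ i, μ (c i) * μ i = (p : K) ^ a := by
    intro i
    have := congrArg σ (hlcL i)
    rw [map_mul, map_pow, map_natCast] at this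
    exact this
  have hsep : (P.map (Int.castRingHom K)).Separable := by
    have e1 : P.map (Int.castRingHom K) = (P.map (Int.castRingHom ℚ)).map (algebraMap ℚ K) := by
      rw [Polynomial.map_map]
      congr 1
      exact RingHom.ext_int _ _
    rw [e1, separable_map]
    exact hsepP
  have hμ : Function.Injective μ := by
    rw [hPK] at hsep
    exact separable_prod_X_sub_C_iff.mp hsep
  set PM : M[X] := P.map (Int.castRingHom M) with hPM
  have hPMK : PM.map (algebraMap M K) = ∏ i, (X - C (μ i)) := by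
    rw [hPM, Polynomial.map_map, ← hPK]
    congr 1
  have hp0 : ((p : K) ^ a) ≠ 0 := pow_ne_zero _ (Nat.cast_ne_zero.mpr hp.ne_zero)
  have hμ0 : ∀ i, μ i ≠ 0 := by
    intro i h
    have h1 := hμc i
    rw [h, mul_zero] at h1
    exact hp0 h1.symm
  -- the action of the Galois group
  have hgal : ∀ γ : galPerm M K μ, ∃ σ : K ≃ₐ[M] K, ∀ i, σ (μ i) = μ (γ • i) := by
    intro γ
    obtain ⟨σ, hσ⟩ := γ.2
    exact ⟨σ, hσ⟩
  have hμcγ : ∀ (γ : galPerm M K μ) (i : I), μ (γ • c i) * μ (γ • i) = (p : K) ^ a := by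
    intro γ i
    obtain ⟨σ, hσ⟩ := hgal γ
    rw [← hσ, ← hσ, ← map_mul, hμc, map_pow, map_natCast]
  have hcG : ∀ (γ : galPerm M K μ) (i : I), γ • c i = c (γ • i) := by
    intro γ i
    apply hμ
    apply mul_right_cancel₀ (hμ0 (γ • i))
    rw [hμcγ, hμc]
  have hcinj : Function.Injective c := fun x y h => by rw [← hc x, h, hc]
  -- the slopes
  have hp1 : (1 : ℝ) < p := by exact_mod_cast hp.one_lt
  have hy1 : (1 : ℝ) < (p : ℝ) ^ a := one_lt_pow₀ hp1 ha.ne'
  have hνroot : ∀ i, aeval (ν i) P = 0 := fun i =>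
    hroot (PadicAlgCl p) ((τ : K →+* PadicAlgCl p).comp (σ : L →+* K)) i
  choose j hj using fun i => hslope (ν i) (hνroot i)
  have hjc : ∀ i, j (c i) = - j i - b := by
    intro i
    have h1 : ν (c i) * ν i = (p : PadicAlgCl p) ^ a := by
      have := congrArg τ (hμc i)
      rw [map_mul, map_pow, map_natCast] at this
      exact this
    have h2 := congrArg (fun z => ‖z‖ ^ b) h1
    simp only [norm_mul] at h2
    have h4 : (((p : ℝ) ^ a)⁻¹) ^ b = ((p : ℝ) ^ a) ^ (-(b : ℤ)) := by
      rw [inv_pow, zpow_neg, zpow_natCast]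
    rw [mul_pow, hj, hj, norm_q, ← zpow_add₀ (by positivity), h4] at h2
    have h3 := zpow_right_injective₀ (by positivity) hy1.ne' h2
    linarith
  -- the complex absolute values
  have hk' : ∑ i, m i = 2 * k' := by
    have h0 : ∀ i, ‖ξ i‖ ^ 2 = (p : ℝ) ^ a := fun i => hweil _ (hroot ℂ (τ₀ : L →+* ℂ) i)
    have h1 := congrArg τ₀ hrelL
    rw [map_pow, map_prod, map_pow, map_zpow₀, map_pow, map_natCast] at h1
    simp only [map_zpow₀] at h1
    have h2 := congrArg (fun z => ‖z‖ ^ 2) h1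
    simp only [norm_pow, norm_prod, norm_zpow, RCLike.norm_natCast] at h2
    have h3 : ((∏ i, ‖ξ i‖ ^ m i) ^ N) ^ 2 = ((p : ℝ) ^ a) ^ ((∑ i, m i) * N) := by
      rw [← pow_mul, mul_comm N 2, pow_mul, ← Finset.prod_pow]
      have h4 : ∀ i, (‖ξ i‖ ^ m i) ^ 2 = ((p : ℝ) ^ a) ^ (m i) := by
        intro i
        rw [← zpow_natCast, ← zpow_mul, mul_comm (m i), zpow_mul, zpow_natCast, h0 i]
      rw [Finset.prod_congr rfl (fun i _ => h4 i)]
      have h5 : ∀ s : Finset I, ∏ i ∈ s, ((p : ℝ) ^ a) ^ (m i) =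
          ((p : ℝ) ^ a) ^ (∑ i ∈ s, m i) := by
        intro s
        induction s using Finset.induction_on with
        | empty => simp
        | insert x s hx ih =>
          rw [Finset.prod_insert hx, Finset.sum_insert hx, ih, zpow_add₀ (by positivity)]
      rw [h5, ← zpow_natCast, ← zpow_mul]
    have h6 : ((((p : ℝ) ^ a) ^ k') ^ N) ^ 2 = ((p : ℝ) ^ a) ^ ((2 * k') * N) := by
      rw [← zpow_natCast, ← zpow_natCast, ← zpow_mul, ← zpow_mul]
      congr 1
      push_cast; ring
    have h7 : ((∏ i, ‖ξ i‖ ^ m i) ^ N) ^ 2 = ((((p : ℝ) ^ a) ^ k') ^ N) ^ 2 := h2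
    rw [h3, h6] at h7
    have h8 := zpow_right_injective₀ (by positivity) hy1.ne' h7
    have hN' : (N : ℤ) ≠ 0 := by exact_mod_cast hN.ne'
    exact mul_right_cancel₀ hN' h8
  -- the relations
  have hsum : ∀ γ : galPerm M K μ, ∑ i, m i * (2 * j (γ • i) + b) = 0 := by
    intro γ
    obtain ⟨ρ, hρ⟩ := hgal γ
    have h2 : (∏ i, μ (γ • i) ^ m i) ^ N = (((p : K) ^ a) ^ k') ^ N := by
      have h1 := congrArg σ hrelL
      rw [map_pow, map_prod, map_pow, map_zpow₀, map_pow, map_natCast] at h1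
      simp only [map_zpow₀] at h1
      have h2 := congrArg ρ h1
      rw [map_pow, map_prod, map_pow, map_zpow₀, map_pow, map_natCast] at h2
      simp only [map_zpow₀] at h2
      simp only [← hρ]
      exact h2
    have h4 : (∏ i, ν (γ • i) ^ m i) ^ N = (((p : PadicAlgCl p) ^ a) ^ k') ^ N := by
      have h5 := congrArg τ h2
      rw [map_pow, map_prod, map_pow, map_zpow₀, map_pow, map_natCast] at h5
      simp only [map_zpow₀] at h5
      exact h5
    have h5 := sum_of_relation p a ha (fun i => ν (γ • i)) b (fun i => j (γ • i))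
      (fun i => hj (γ • i)) m k' N hN h4
    have h6 : ∑ i, m i * (2 * j (γ • i) + b) = 2 * (∑ i, m i * j (γ • i)) + b * ∑ i, m i := by
      rw [Finset.mul_sum, Finset.mul_sum, ← Finset.sum_add_distrib]
      apply Finset.sum_congr rfl
      intro i _
      ring
    rw [h6, h5, hk']; ring
  -- the orbit of the roots of `Q`
  have hQdeg : 0 < Q.natDegree := hQ.natDegree_pos
  obtain ⟨i₀, hi₀⟩ : ∃ i₀, aeval (μ i₀) Q = 0 := by
    obtain ⟨z, hz⟩ := IsAlgClosed.exists_aeval_eq_zero K Q
      (natDegree_pos_iff_degree_pos.mp hQdeg).ne'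
    have h1 : aeval z PM = 0 := by
      obtain ⟨R, hR⟩ := hQP
      rw [hR, map_mul, hz, zero_mul]
    rw [← eval_map_algebraMap, hPMK, eval_prod, Finset.prod_eq_zero_iff] at h1
    obtain ⟨i, -, hi⟩ := h1
    rw [eval_sub, eval_X, eval_C, sub_eq_zero] at hi
    exact ⟨i, by rw [← hi]; exact hz⟩
  obtain ⟨Y, hY, hQY⟩ := orbit_irreducible μ hμ PM hPMK Q hQ hQm i₀ hi₀
  have hYcard : Y.card = q ^ k := by
    have h1 := congrArg Polynomial.natDegree hQY
    rw [natDegree_map, natDegree_prod_of_monic _ _ (fun i _ => monic_X_sub_C _), hQd] at h1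
    simp only [natDegree_X_sub_C, Finset.sum_const, smul_eq_mul, mul_one] at h1
    exact h1.symm
  -- the valuation of the constant term
  have hTj : - T = ∑ i ∈ Y, j i := by
    have h1 : algebraMap M K (Q.coeff 0) = ∏ i ∈ Y, (- μ i) := by
      rw [← coeff_map, hQY, coeff_zero_eq_eval_zero, eval_prod]
      apply Finset.prod_congr rfl
      intro i _
      simp
    have h2 := congrArg τ h1
    rw [AlgHom.commutes, map_prod] at h2
    have h3 : w (Q.coeff 0) = ∏ i ∈ Y, (- ν i) := by
      rw [show w (Q.coeff 0) = algebraMap M (PadicAlgCl p) (Q.coeff 0) from rfl, h2]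
      apply Finset.prod_congr rfl
      intro i _
      rw [map_neg]
    have h4 := hT
    rw [h3, norm_prod, ← Finset.prod_pow] at h4
    simp only [norm_neg, hj] at h4
    have h5 : ∀ s : Finset I, ∏ i ∈ s, ((p : ℝ) ^ a) ^ (j i) =
        ((p : ℝ) ^ a) ^ (∑ i ∈ s, j i) := by
      intro s
      induction s using Finset.induction_on with
      | empty => simp
      | insert x s hx ih =>
        rw [Finset.prod_insert hx, Finset.sum_insert hx, ih, zpow_add₀ (by positivity)]
    rw [h5] at h4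
    exact (zpow_right_injective₀ (by positivity) hy1.ne' h4).symm
  have hYst : ∀ (γ : galPerm M K μ) (i : I), i ∈ Y → γ • i ∈ Y := by
    intro γ i hi
    rw [hY] at hi ⊢
    obtain ⟨δ, hδ⟩ := hi
    refine ⟨γ * δ, ?_⟩
    change (γ * δ) • i₀ = γ • i
    rw [mul_smul]
    have h1 : δ • i₀ = i := hδ
    rw [h1]
  have hYtr : ∀ i ∈ Y, ∀ i' ∈ Y, ∃ γ : galPerm M K μ, γ • i = i' := by
    intro i hi i' hi'
    rw [hY] at hi hi'
    obtain ⟨δ, hδ⟩ := hi
    obtain ⟨δ', hδ'⟩ := hi'
    refine ⟨δ' * δ⁻¹, ?_⟩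
    have h1 : δ • i₀ = i := hδ
    have h2 : δ' • i₀ = i' := hδ'
    rw [mul_smul, ← h1, inv_smul_smul, h2]
  -- the orbit and its dual are disjoint
  have hdisj : ∀ i ∈ Y, c i ∉ Y := by
    intro i hi hci
    have hall : ∀ i' ∈ Y, c i' ∈ Y := by
      intro i' hi'
      obtain ⟨γ, hγ⟩ := hYtr i hi i' hi'
      rw [← hγ, ← hcG]
      exact hYst γ _ hci
    have h1 : ∑ i ∈ Y, j (c i) = ∑ i ∈ Y, j i := by
      refine Finset.sum_bij' (fun i _ => c i) (fun i _ => c i) (fun i hi => hall i hi)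
        (fun i hi => hall i hi) (fun i _ => hc i) (fun i _ => hc i) (fun i _ => rfl)
    simp only [hjc] at h1
    rw [Finset.sum_sub_distrib, Finset.sum_neg_distrib, Finset.sum_const, hYcard, ← hTj] at h1
    apply hT2
    simp only [nsmul_eq_mul] at h1
    push_cast at h1
    linarith
  have hcov : ∀ i, i ∈ Y ∨ c i ∈ Y := by
    intro i
    by_contra hcon
    push Not at hcon
    obtain ⟨h1, h2⟩ := hcon
    have h3 : Disjoint Y (Y.image c) := by
      rw [Finset.disjoint_left]
      intro x hx hx'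
      obtain ⟨y, hy, rfl⟩ := Finset.mem_image.mp hx'
      exact hdisj y hy hx
    have h4 : i ∉ Y ∪ Y.image c := by
      rw [Finset.mem_union]
      rintro (h | h)
      · exact h1 h
      · obtain ⟨y, hy, rfl⟩ := Finset.mem_image.mp h
        apply h2
        rw [hc]
        exact hy
    have h5 : (insert i (Y ∪ Y.image c)).card ≤ Fintype.card I := Finset.card_le_univ _
    rw [Finset.card_insert_of_notMem h4, Finset.card_union_of_disjoint h3,
      Finset.card_image_of_injective _ hcinj, hYcard, hI] at h5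
    omega
  -- the relation on the orbit
  let Xo : Type := MulAction.orbit (galPerm M K μ) i₀
  have hfinG : Finite (galPerm M K μ) := inferInstance
  have hXfin : Fintype Xo := Fintype.ofFinite _
  have hsumX : ∀ f : I → ℤ, ∑ x : Xo, f x.1 = ∑ i ∈ Y, f i := by
    intro f
    exact (Finset.sum_subtype Y hY f).symm
  have hXcard : Nat.card Xo = q ^ k := by
    have h1 := hsumX (fun _ => 1)
    simp only [Finset.sum_const, mul_one, nsmul_eq_mul] at h1
    rw [Nat.card_eq_fintype_card, ← hYcard]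
    have h2 : ((Fintype.card Xo : ℕ) : ℤ) = Y.card := by
      rw [← h1, Finset.card_univ]
    exact_mod_cast h2
  have hv : (fun x : Xo => m x.1 - m (c x.1)) = 0 := by
    apply unitary_eq_zero (G := galPerm M K μ) q k hXcard (fun x : Xo => - j x.1) ?_ (b : ℤ) ?_
    · intro γ
      have h1 : ∑ x : Xo, (m x.1 - m (c x.1)) * (2 * (- j (γ • x).1) - b) =
          ∑ i ∈ Y, (m i - m (c i)) * (2 * (- j (γ • i)) - b) :=
        hsumX (fun i => (m i - m (c i)) * (2 * (- j (γ • i)) - b))
      rw [h1]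
      have h2 := hsum γ
      have h3 : ∑ i, m i * (2 * j (γ • i) + b) = ∑ i ∈ Y, m i * (2 * j (γ • i) + b) +
          ∑ i ∈ Yᶜ, m i * (2 * j (γ • i) + b) := (Finset.sum_add_sum_compl _ _).symm
      have h4 : ∑ i ∈ Yᶜ, m i * (2 * j (γ • i) + b) =
          - ∑ i ∈ Y, m (c i) * (2 * j (γ • i) + b) := by
        rw [← Finset.sum_neg_distrib]
        refine Finset.sum_bij' (fun i _ => c i) (fun i _ => c i) ?_ ?_ (fun i _ => hc i)
          (fun i _ => hc i) ?_
        · intro i hi
          rw [Finset.mem_compl] at hi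
          exact (hcov i).resolve_left hi
        · intro i hi
          rw [Finset.mem_compl]
          exact hdisj i hi
        · intro i _
          rw [hc, hcG, hjc]; ring
      rw [h3, h4] at h2
      have h5 : ∑ i ∈ Y, (m i - m (c i)) * (2 * (- j (γ • i)) - b) =
          - (∑ i ∈ Y, m i * (2 * j (γ • i) + b) - ∑ i ∈ Y, m (c i) * (2 * j (γ • i) + b)) := by
        rw [← Finset.sum_sub_distrib, ← Finset.sum_neg_distrib]
        apply Finset.sum_congr rfl
        intro i _
        ring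
      rw [h5]
      linarith
    · rw [hsumX (fun i => - j i), Finset.sum_neg_distrib, ← hTj, neg_neg]
      exact hqT
    · rw [hsumX (fun i => - j i), Finset.sum_neg_distrib, ← hTj, neg_neg]
      exact hT2
  rcases hcov i with hi | hi
  · have h1 := congrFun hv ⟨i, (hY i).mp hi⟩
    simp only [Pi.zero_apply] at h1
    linarith
  · have h1 := congrFun hv ⟨c i, (hY _).mp hi⟩
    simp only [Pi.zero_apply, hc] at h1
    linarith

end Pool.Agent.Lib.MP_640417_ag.Frob
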