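import Pool.Agent.Lib.MP_640417_ag.Frob.General
import Pool.Agent.Lib.MP_640417_ag.Frob.Unitary

/-!
# One Frobenius with a factor of prime power degree
-/

namespace Pool.Agent.Lib.MP_640417_ag.Frob

open Module Polynomial TensorProduct

variable {Γ : Type} [Group Γ] [TopologicalSpace Γ] {F : Type} [Field F] [TopologicalSpace F]
  {V : Type} [AddCommGroup V] [Module F V] [FiniteDimensional F V]

/-- One Frobenius with a factor of prime power degree. -/
theorem main_unitary [CharZero F] [IsTopologicalRing F] [T1Space F]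
    [IsTopologicalGroup Γ] [CompactSpace Γ]
    (ρ : H1Rep Γ F V) (φ : Γ) (p a : ℕ) [Fact p.Prime] (P : ℤ[X])
    (hφ : IsFrobenius ρ φ p a P) (hsep : (P.map (Int.castRingHom ℚ)).Separable)
    (hweil : ∀ z : ℂ, aeval z P = 0 → ‖z‖ ^ 2 = (p : ℝ) ^ a)
    (q k : ℕ) [Fact q.Prime] (hdim : finrank F V = 2 * q ^ k)
    (M : Type) [Field M] [CharZero M] (w : M →+* PadicAlgCl p) (Q : M[X])
    (hQ : Irreducible Q) (hQm : Q.Monic) (hQP : Q ∣ P.map (Int.castRingHom M))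
    (hQd : Q.natDegree = q ^ k)
    (b : ℕ) (hslope : ∀ α : PadicAlgCl p, aeval α P = 0 → ∃ j : ℤ, ‖α‖ ^ b = ((p : ℝ) ^ a) ^ j)
    (T : ℤ) (hT : ‖w (Q.coeff 0)‖ ^ b = ((p : ℝ) ^ a) ^ (-T)) (hqT : ¬ (q : ℤ) ∣ T)
    (hT2 : 2 * T ≠ b * q ^ k)
    (n i : ℕ) (x : ExteriorAlgebra F (Fin n → V)) :
    ¬ ExoticTateClass (fun γ => (ρ.T γ).compLeft (Fin n)) ρ.χ i x := by
  classical
  refine main_of_angle ρ φ p a P hφ hsep ?_ n i x
  intro K _ _ I _ _ lam c hcard hprod hc _ hlc m k' N hN hrel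
  exact angle_unitary (M := M) p a hφ.pos P hsep lam hprod c hc hlc hweil q k
    (by rw [hcard, hdim]) w Q hQ hQm hQP hQd b hslope T hT hqT hT2 m k' N hN hrel

end Pool.Agent.Lib.MP_640417_ag.Frob
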