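import Pool.Agent.Lib.MP_640417_ag.Frob.Coord
import Pool.Agent.Lib.MP_640417_ag.Frob.Slope
import Pool.Agent.Lib.MP_640417_ag.Frob.MainA
import Pool.Agent.Lib.MP_640417_ag.Frob.MainB

/-!
# An element whose eigenvalues satisfy only the trivial relations
-/

namespace Pool.Agent.Lib.MP_640417_ag.Frob

open Module Polynomial

variable {Γ : Type} [Group Γ] [TopologicalSpace Γ] {F : Type} [Field F]
  {V : Type} [AddCommGroup V] [Module F V] [FiniteDimensional F V]

/-- A representation with an invariant alternating form has no exotic Tate classes if the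
eigenvalues of some element satisfy only the trivial relations. -/
theorem middle [CharZero F] [IsAlgClosed F] [IsTopologicalGroup Γ] [CompactSpace Γ]
    (T : Γ →* Module.End F V) (χ : Γ →* Fˣ)
    (hclosed : ∀ (f : Module.Dual F V) (x : V), IsClosed {γ : Γ | f (T γ x) = 0})
    (form : LinearMap.BilinForm F V) (halt : ∀ x, form x x = 0)
    (hnd : ∀ x, (∀ y, form x y = 0) → x = 0)
    (heq : ∀ γ x y, form (T γ x) (T γ y) = ((χ γ)⁻¹ : Fˣ).val * form x y)
    (φ : Γ) (hsep : (T φ).charpoly.Separable)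
    (hangle : ∀ (I : Type) [Fintype I] [DecidableEq I] (lam : I → F) (c : I → I),
      (T φ).charpoly = ∏ i, (X - C (lam i)) → (∀ i, c (c i) = i) → (∀ i, c i ≠ i) →
      (∀ i, lam (c i) * lam i = ((χ φ)⁻¹ : Fˣ).val) → ∀ (m : I → ℤ) (k : ℤ) (N : ℕ), 0 < N →
      (∏ v, lam v ^ m v) ^ N = ((((χ φ)⁻¹ : Fˣ).val) ^ k) ^ N → ∀ v, m v = m (c v))
    (n i : ℕ) (x : ExteriorAlgebra F (Fin n → V)) :
    ¬ ExoticTateClass (fun γ => (T γ).compLeft (Fin n)) χ i x := by
  classical
  obtain ⟨I, iF, iD, e, lam, c, w, hlam, heig, hchar, hc, hcne, hlc, hw, hwc, hform⟩ :=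
    exists_eigenbasis (T φ) hsep form halt hnd ((χ φ)⁻¹ : Fˣ).val
      (Units.ne_zero _) (heq φ) two_ne_zero
  let A : Γ →* Matrix I I F :=
    ((LinearMap.toMatrixAlgEquiv e : Module.End F V ≃ₐ[F] Matrix I I F) :
      Module.End F V →* Matrix I I F).comp T
  have hA : ∀ γ, A γ = LinearMap.toMatrix e e (T γ) := fun γ => rfl
  have hAentry : ∀ γ u v, A γ u v = e.repr (T γ (e v)) u := by
    intro γ u v
    rw [hA, LinearMap.toMatrix_apply]
  have hTe : ∀ γ v, T γ (e v) = ∑ u, A γ u v • e u := by
    intro γ v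
    rw [← e.sum_repr (T γ (e v))]
    simp only [hAentry]
  apply transport e T χ A hA n
  intro j y hy
  refine main_coord c hc hcne w hw hwc A χ ?_ ?_ φ lam ?_ ?_ j y hy
  · intro u v
    have h1 := hclosed (e.coord u) (e v)
    simpa only [hAentry, Basis.coord_apply] using h1
  · intro γ
    ext u v
    have h1 := heq γ (e u) (e v)
    rw [hTe, hTe, hform] at h1
    simp only [map_sum, map_smul, LinearMap.sum_apply, LinearMap.smul_apply, smul_eq_mul,
      hform] at h1
    simp only [Matrix.mul_apply, Matrix.transpose_apply, Om, Matrix.of_apply, Matrix.smul_apply,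
      smul_eq_mul]
    rw [← h1]
    simp only [Finset.sum_mul, Finset.mul_sum]
    apply Finset.sum_congr rfl
    intro s _
    apply Finset.sum_congr rfl
    intro t _
    ring
  · ext u v
    rw [hAentry, heig, map_smul, Finsupp.smul_apply, Basis.repr_self, smul_eq_mul,
      Matrix.diagonal_apply]
    by_cases h : u = v
    · subst h; simp
    · rw [if_neg h, Finsupp.single_eq_of_ne h, mul_zero]
  · exact hangle I lam c hchar hc hcne hlc

end Pool.Agent.Lib.MP_640417_ag.Frob
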