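import Pool.Agent.Lib.MP_640417_ag.Frob.LieA

/-!
# The algebra generated by the conjugates of the diagonal matrices
-/

namespace Pool.Agent.Lib.MP_640417_ag.Frob

open Module

variable {I : Type} [Fintype I] [DecidableEq I] {F : Type} [Field F] {n : ℕ}
  {Γ : Type} [Group Γ] [TopologicalSpace Γ]

lemma SemiA_inv_mul (A : Γ →* Matrix I I F) (γ : Γ) : A γ⁻¹ * A γ = 1 := by
  rw [← map_mul, inv_mul_cancel, map_one]

lemma SemiA_mul_inv (A : Γ →* Matrix I I F) (γ : Γ) : A γ * A γ⁻¹ = 1 := by
  rw [← map_mul, mul_inv_cancel, map_one]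

lemma R0_conj (A : Γ →* Matrix I I F) (γ : Γ) (M : Matrix I I F) (h : M ∈ R0 A) :
    A γ * M * A γ⁻¹ ∈ R0 A := by
  unfold R0 at h
  induction h using Algebra.adjoin_induction with
  | mem x hx =>
    obtain ⟨δ, d, rfl⟩ := hx
    apply Algebra.subset_adjoin
    refine ⟨γ * δ, d, ?_⟩
    rw [mul_inv_rev, map_mul, map_mul]
    simp only [Matrix.mul_assoc]
  | algebraMap r =>
    have : A γ * algebraMap F (Matrix I I F) r * A γ⁻¹ = algebraMap F (Matrix I I F) r := by
      rw [← Algebra.commutes, Matrix.mul_assoc, SemiA_mul_inv, Matrix.mul_one]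
    rw [this]
    exact Subalgebra.algebraMap_mem _ r
  | add x y hx hy ihx ihy =>
    rw [Matrix.mul_add, Matrix.add_mul]
    exact add_mem ihx ihy
  | mul x y hx hy ihx ihy =>
    have : A γ * (x * y) * A γ⁻¹ = (A γ * x * A γ⁻¹) * (A γ * y * A γ⁻¹) := by
      calc A γ * (x * y) * A γ⁻¹ = A γ * x * 1 * y * A γ⁻¹ := by
            simp only [Matrix.mul_assoc, Matrix.one_mul]
        _ = A γ * x * (A γ⁻¹ * A γ) * y * A γ⁻¹ := by rw [SemiA_inv_mul]
        _ = _ := by simp only [Matrix.mul_assoc]
    rw [this]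
    exact mul_mem ihx ihy

lemma diagonal_mem_R0 (A : Γ →* Matrix I I F) (d : I → F) : Matrix.diagonal d ∈ R0 A := by
  apply Algebra.subset_adjoin
  refine ⟨1, d, ?_⟩
  rw [inv_one, map_one, Matrix.one_mul, Matrix.mul_one]

/-- A nonzero entry of an element of `R0` gives a matrix unit in `R0`. -/
lemma single_mem_R0 (A : Γ →* Matrix I I F) (M : Matrix I I F) (h : M ∈ R0 A) (u v : I)
    (hne : M u v ≠ 0) : Matrix.single u v (1 : F) ∈ R0 A := by
  have h1 : Matrix.diagonal (Pi.single u (1 : F)) * M * Matrix.diagonal (Pi.single v (1 : F)) =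
      M u v • Matrix.single u v (1 : F) := by
    ext a b
    rw [Matrix.mul_diagonal, Matrix.diagonal_mul, Matrix.smul_apply, Matrix.single_apply]
    by_cases ha : a = u
    · subst ha
      by_cases hb : b = v
      · subst hb; simp
      · simp [hb, Ne.symm hb]
    · simp [ha, Ne.symm ha]
  have h2 : M u v • Matrix.single u v (1 : F) ∈ R0 A := by
    rw [← h1]
    exact mul_mem (mul_mem (diagonal_mem_R0 A _) h) (diagonal_mem_R0 A _)
  have h3 : Matrix.single u v (1 : F) = (M u v)⁻¹ • (M u v • Matrix.single u v (1 : F)) := by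
    rw [smul_smul, inv_mul_cancel₀ hne, one_smul]
  rw [h3]
  exact Subalgebra.smul_mem _ h2 _

/-- The inverse of the matrix of the form. -/
def SemiA_Omi (c : I → I) (w : I → F) : Matrix I I F :=
  Matrix.of fun u v => if v = c u then -(w u)⁻¹ else 0

lemma SemiA_Om_mul (c : I → I) (hc : ∀ v, c (c v) = v) (w : I → F) (hw : ∀ v, w v ≠ 0)
    (hwc : ∀ v, w (c v) = - w v) : Om c w * SemiA_Omi c w = 1 := by
  ext u v
  rw [Matrix.mul_apply, Finset.sum_eq_single (c u)]
  · simp only [Om, SemiA_Omi, Matrix.of_apply, if_true, hc, hwc]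
    by_cases h : u = v
    · subst h
      rw [Matrix.one_apply_eq, if_pos rfl, inv_neg, neg_neg, mul_inv_cancel₀ (hw u)]
    · rw [Matrix.one_apply_ne h, if_neg (Ne.symm h), mul_zero]
  · intro b _ hb
    simp [Om, hb]
  · intro h
    exact absurd (Finset.mem_univ _) h

lemma SemiA_mul_Om (c : I → I) (hc : ∀ v, c (c v) = v) (w : I → F) (hw : ∀ v, w v ≠ 0)
    (hwc : ∀ v, w (c v) = - w v) : SemiA_Omi c w * Om c w = 1 := by
  ext u v
  rw [Matrix.mul_apply, Finset.sum_eq_single (c u)]
  · simp only [Om, SemiA_Omi, Matrix.of_apply, if_true, hc, hwc]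
    by_cases h : u = v
    · subst h
      rw [Matrix.one_apply_eq, if_pos rfl, neg_mul_neg, inv_mul_cancel₀ (hw u)]
    · rw [Matrix.one_apply_ne h, if_neg (Ne.symm h), mul_zero]
  · intro b _ hb
    simp [SemiA_Omi, hb]
  · intro h
    exact absurd (Finset.mem_univ _) h

/-- The relation defined by `R0` is compatible with `c`. -/
theorem R0_c (c : I → I) (hc : ∀ v, c (c v) = v)
    (w : I → F) (hw : ∀ v, w v ≠ 0) (hwc : ∀ v, w (c v) = - w v)
    (A : Γ →* Matrix I I F) (χ : Γ →* Fˣ)
    (hform : ∀ γ, (A γ).transpose * Om c w * A γ = ((χ γ)⁻¹ : Fˣ).val • Om c w)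
    (u v : I) (h : Matrix.single u v (1 : F) ∈ R0 A) :
    Matrix.single (c v) (c u) (1 : F) ∈ R0 A := by
  have e1 := SemiA_Om_mul c hc w hw hwc
  have e2 := SemiA_mul_Om c hc w hw hwc
  -- the form and the group elements
  have f1 : ∀ γ, (A γ).transpose * Om c w = ((χ γ)⁻¹ : Fˣ).val • (Om c w * A γ⁻¹) := by
    intro γ
    calc (A γ).transpose * Om c w = (A γ).transpose * Om c w * (A γ * A γ⁻¹) := by
          rw [SemiA_mul_inv, Matrix.mul_one]
      _ = ((A γ).transpose * Om c w * A γ) * A γ⁻¹ := by simp only [Matrix.mul_assoc]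
      _ = _ := by rw [hform, Matrix.smul_mul]
  have f2 : ∀ γ, SemiA_Omi c w * (A γ⁻¹).transpose = (χ γ : F) • (A γ * SemiA_Omi c w) := by
    intro γ
    have h1 := f1 γ⁻¹
    have hχ : (χ γ⁻¹)⁻¹ = χ γ := by rw [map_inv χ, inv_inv]
    rw [inv_inv, hχ] at h1
    calc SemiA_Omi c w * (A γ⁻¹).transpose
        = SemiA_Omi c w * (A γ⁻¹).transpose * (Om c w * SemiA_Omi c w) := by
          rw [e1, Matrix.mul_one]
      _ = SemiA_Omi c w * ((A γ⁻¹).transpose * Om c w) * SemiA_Omi c w := by
          simp only [Matrix.mul_assoc]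
      _ = (χ γ : F) • ((SemiA_Omi c w * Om c w) * A γ * SemiA_Omi c w) := by
          rw [h1]
          simp only [Matrix.mul_smul, Matrix.smul_mul, Matrix.mul_assoc]
      _ = _ := by rw [e2, Matrix.one_mul]
  have f3 : ∀ d : I → F, SemiA_Omi c w * Matrix.diagonal d * Om c w =
      Matrix.diagonal (fun i => d (c i)) := by
    intro d
    ext a b
    rw [Matrix.mul_apply, Finset.sum_eq_single (c a)]
    · rw [Matrix.mul_diagonal]
      simp only [Om, SemiA_Omi, Matrix.of_apply, if_true, hc, hwc]
      by_cases h : a = b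
      · subst h
        rw [if_pos rfl, Matrix.diagonal_apply_eq]
        field_simp [hw a]
      · rw [if_neg (Ne.symm h), Matrix.diagonal_apply_ne _ h, mul_zero]
    · intro k _ hk
      rw [Matrix.mul_diagonal]
      simp [SemiA_Omi, hk]
    · intro h
      exact absurd (Finset.mem_univ _) h
  have key : ∀ M ∈ R0 A, SemiA_Omi c w * M.transpose * Om c w ∈ R0 A := by
    intro M hM
    unfold R0 at hM
    induction hM using Algebra.adjoin_induction with
    | mem x hx =>
      obtain ⟨δ, d, rfl⟩ := hx
      apply Algebra.subset_adjoin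
      refine ⟨δ, fun i => d (c i), ?_⟩
      calc SemiA_Omi c w * (A δ * Matrix.diagonal d * A δ⁻¹).transpose * Om c w
          = (SemiA_Omi c w * (A δ⁻¹).transpose) * Matrix.diagonal d *
            ((A δ).transpose * Om c w) := by
            rw [Matrix.transpose_mul, Matrix.transpose_mul, Matrix.diagonal_transpose]
            simp only [Matrix.mul_assoc]
        _ = ((χ δ : F) * ((χ δ)⁻¹ : Fˣ).val) • (A δ * (SemiA_Omi c w * Matrix.diagonal d *
            Om c w) * A δ⁻¹) := by
            rw [f1, f2, Matrix.smul_mul, Matrix.smul_mul, Matrix.mul_smul, smul_smul]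
            simp only [Matrix.mul_assoc]
        _ = _ := by
            rw [f3, Units.mul_inv, one_smul]
    | algebraMap r =>
      have : SemiA_Omi c w * (algebraMap F (Matrix I I F) r).transpose * Om c w =
          algebraMap F (Matrix I I F) r := by
        rw [Matrix.algebraMap_eq_diagonal, Matrix.diagonal_transpose, f3]
        rfl
      rw [this]
      exact Subalgebra.algebraMap_mem _ r
    | add x y hx hy ihx ihy =>
      rw [Matrix.transpose_add, Matrix.mul_add, Matrix.add_mul]
      exact add_mem ihx ihy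
    | mul x y hx hy ihx ihy =>
      have : SemiA_Omi c w * (x * y).transpose * Om c w =
          (SemiA_Omi c w * y.transpose * Om c w) * (SemiA_Omi c w * x.transpose * Om c w) := by
        rw [Matrix.transpose_mul]
        calc SemiA_Omi c w * (y.transpose * x.transpose) * Om c w
            = SemiA_Omi c w * y.transpose * 1 * x.transpose * Om c w := by
              simp only [Matrix.mul_assoc, Matrix.one_mul]
          _ = SemiA_Omi c w * y.transpose * (Om c w * SemiA_Omi c w) * x.transpose * Om c w := by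
              rw [e1]
          _ = _ := by simp only [Matrix.mul_assoc]
      rw [this]
      exact mul_mem ihy ihx
  have h1 := key _ h
  have h2 : SemiA_Omi c w * (Matrix.single u v (1 : F)).transpose * Om c w =
      ((w v)⁻¹ * w u) • Matrix.single (c v) (c u) (1 : F) := by
    ext a b
    rw [Matrix.transpose_single, Matrix.mul_apply, Finset.sum_eq_single u]
    · rw [Matrix.mul_apply, Finset.sum_eq_single v]
      · rw [Matrix.single_apply_same, Matrix.smul_apply, Matrix.single_apply]
        simp only [Om, SemiA_Omi, Matrix.of_apply]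
        by_cases ha : v = c a
        · have ha' : c v = a := by rw [ha, hc]
          by_cases hb : b = c u
          · rw [if_pos ha, if_pos hb, if_pos ⟨ha', hb.symm⟩, ← ha', hwc, inv_neg, neg_neg]
            simp
          · have hb' : ¬ (c v = a ∧ c u = b) := fun h => hb h.2.symm
            rw [if_neg hb', if_neg hb]
            simp
        · have ha' : ¬ (c v = a ∧ c u = b) := by
            rintro ⟨h, -⟩
            apply ha
            rw [← h, hc]
          rw [if_neg ha, if_neg ha']
          simp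
      · intro k _ hk
        rw [Matrix.single_apply_of_row_ne (Ne.symm hk), mul_zero]
      · intro h
        exact absurd (Finset.mem_univ _) h
    · intro k _ hk
      rw [Matrix.mul_apply, Finset.sum_eq_zero, zero_mul]
      intro j _
      rw [Matrix.single_apply_of_col_ne _ _ (Ne.symm hk), mul_zero]
    · intro h
      exact absurd (Finset.mem_univ _) h
  rw [h2] at h1
  have hne : (w v)⁻¹ * w u ≠ 0 := mul_ne_zero (inv_ne_zero (hw v)) (hw u)
  have h3 : Matrix.single (c v) (c u) (1 : F) =
      ((w v)⁻¹ * w u)⁻¹ • (((w v)⁻¹ * w u) • Matrix.single (c v) (c u) (1 : F)) := by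
    rw [smul_smul, inv_mul_cancel₀ hne, one_smul]
  rw [h3]
  exact Subalgebra.smul_mem _ h1 _

end Pool.Agent.Lib.MP_640417_ag.Frob
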