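import Mathlib

/-!
# Factors with the same splitting field; slopes with odd denominators
-/

namespace Pool.Agent.Lib.MP_640417_ag.Frob

open Polynomial

/-- `A` and `B` have the same degree and the same splitting field. -/
def SameSplit {M : Type} [Field M] (A B : M[X]) : Prop :=
  A.natDegree = B.natDegree ∧ (A.map (algebraMap M B.SplittingField)).Splits ∧
    (B.map (algebraMap M A.SplittingField)).Splits

/-- The slope of `α` has an odd denominator, if `p ^ a` has slope `1`: the absolute value of some
odd power of `α` is an integral power of `p ^ a`. -/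
def OddSlope (p : ℕ) [Fact p.Prime] (a : ℕ) (α : PadicAlgCl p) : Prop :=
  ∃ b : ℕ, Odd b ∧ ∃ j : ℤ, ‖α‖ ^ b = ((p : ℝ) ^ a) ^ j

end Pool.Agent.Lib.MP_640417_ag.Frob
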